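import Pool.Agent.KNT.PrfL

/-!
# KNT/KnB: the sets `Kn L`

PROOFS.
* `Kn_cons`: `Bs ((t, Φ) :: L) = bas Φ ∪ Bs L`, `Fg ((t, Φ) :: L) = gr Φ (prf t) ∪ Fg L` (`Set.iUnion` over `p ∈ p₀ :: L`).
* `bas_eq`: `y ↦ (Φ (0, y)).2` is continuous and injective on `[-1, 1]` (`inj` and `foot`), hence strictly monotone
  or antitone on `[-1, 1]` (`ContinuousOn.strictMonoOn_of_injOn_Icc'` or similar), and the image of `(-1, 1)` is an open
  interval (intermediate value theorem).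
* `Zr_closed`: `U` is closed, `bas Φ ∪ Bs L = U ∩ (open set)` by `bas_eq` for every strip, `Fg L` is a finite union of
  compact sets (continuous images of `[-1, 1]`).
* `Zr_meet`: if `Φ q ∈ U \ (bas Φ ∪ Bs L)` then by `Strip.off` `q = (1, 0)` or `q = (0, y)`, and in the second case
  `y = ±1` because `Φ (0, y) ∉ bas Φ`. `Φ q ∈ Fg L` is impossible: `Fg L ⊆ Sp L` (`prf_mem`), disjoint from `Φ '' Rec t`.
* `gr_sub`: `(prf t y, y) ∈ Rec t`.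
* `Kn_congr`: only the values on `Rec` are used.
-/

open scoped ContDiff Topology
open Set Filter
open Pool.Agent.CSG (stp)
open Pool.Agent.RSG (ex)

namespace Pool.Agent.KNT

theorem KnB_cons {α : Type*} (f : (ℝ × (ℝ × ℝ → ℂ × ℝ)) → Set α) (p : ℝ × (ℝ × ℝ → ℂ × ℝ)) (L : SL) :
    (⋃ q ∈ p :: L, f q) = f p ∪ ⋃ q ∈ L, f q := by
  ext x
  simp only [Set.mem_iUnion, Set.mem_union, List.mem_cons, exists_prop]
  constructor
  · rintro ⟨q, rfl | hq, hx⟩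
    · exact Or.inl hx
    · exact Or.inr ⟨q, hq, hx⟩
  · rintro (hx | ⟨q, hq, hx⟩)
    · exact ⟨p, Or.inl rfl, hx⟩
    · exact ⟨q, Or.inr hq, hx⟩

theorem Sp_cons (p : ℝ × (ℝ × ℝ → ℂ × ℝ)) (L : SL) : Sp (p :: L) = p.2 '' Rec p.1 ∪ Sp L :=
  KnB_cons (fun p => p.2 '' Rec p.1) p L

theorem Bs_cons (p : ℝ × (ℝ × ℝ → ℂ × ℝ)) (L : SL) : Bs (p :: L) = bas p.2 ∪ Bs L :=
  KnB_cons (fun p => bas p.2) p L

theorem Fg_cons (p : ℝ × (ℝ × ℝ → ℂ × ℝ)) (L : SL) : Fg (p :: L) = gr p.2 (prf p.1) ∪ Fg L :=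
  KnB_cons (fun p => gr p.2 (prf p.1)) p L

theorem Kn_cons (t : ℝ) (Φ : ℝ × ℝ → ℂ × ℝ) (L : SL) :
    Kn ((t, Φ) :: L) = Zr Φ L ∪ gr Φ (prf t) := by
  unfold Kn Zr
  rw [Bs_cons, Fg_cons, Set.union_assoc, Set.union_comm (Fg L)]

theorem Kn_perm {L L' : SL} (h : L.Perm L') : Kn L = Kn L' ∧ (Conf L → Conf L') := by
  have h1 : ∀ {p}, p ∈ L ↔ p ∈ L' := fun {p} => h.mem_iff
  refine ⟨?_, ?_⟩
  · unfold Kn Bs Fg
    simp only [h1]
  · rintro ⟨h2, h3⟩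
    refine ⟨fun p hp => h2 p (h1.2 hp), ?_⟩
    exact (h.pairwise_iff (fun {x y} (hxy : Disjoint _ _) => hxy.symm)).1 h3

theorem conf_cons {t : ℝ} {Φ : ℝ × ℝ → ℂ × ℝ} {L : SL} :
    Conf ((t, Φ) :: L) ↔ Strip t Φ ∧ Conf L ∧ Disjoint (Φ '' Rec t) (Sp L) := by
  unfold Conf Sp
  rw [List.forall_mem_cons, List.pairwise_cons, Set.disjoint_iUnion₂_right]
  tauto

theorem KnB_rec {t : ℝ} : IsCompact (Rec t) := isCompact_Icc.prod isCompact_Icc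

theorem Strip.rec_compact {t : ℝ} {Φ : ℝ × ℝ → ℂ × ℝ} (h : Strip t Φ) : IsCompact (Φ '' Rec t) :=
  KnB_rec.image h.smooth.continuous

theorem Sp_compact {L : SL} (h : Conf L) : IsCompact (Sp L) := by
  have h1 : {p | p ∈ L}.Finite := List.finite_toSet L
  exact h1.isCompact_biUnion fun p hp => (h.1 p hp).rec_compact

theorem KnB_foot {t : ℝ} (ht : 0 < t) {y : ℝ} (hy : y ∈ Icc (-1 : ℝ) 1) :
    ((0, y) : ℝ × ℝ) ∈ Rec t := ⟨⟨le_rfl, by simp only; linarith⟩, hy⟩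

theorem bas_eq {t : ℝ} {Φ : ℝ × ℝ → ℂ × ℝ} (h : Strip t Φ) :
    ∃ a b : ℝ, bas Φ = {q : ℂ × ℝ | q.1 = 0 ∧ q.2 ∈ Ioo a b} := by
  have hc : ContinuousOn (fun y : ℝ => (Φ (0, y)).2) (Icc (-1) 1) :=
    (continuous_snd.comp (h.smooth.continuous.comp (by fun_prop))).continuousOn
  have hf : ∀ y ∈ Icc (-1 : ℝ) 1, (Φ (0, y)).1 = 0 := fun y hy => h.foot y (abs_le.2 hy)
  have hi : InjOn (fun y : ℝ => (Φ (0, y)).2) (Icc (-1) 1) := by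
    intro y hy y' hy' he
    have h1 : Φ (0, y) = Φ (0, y') := Prod.ext ((hf y hy).trans (hf y' hy').symm) he
    exact congrArg Prod.snd (h.inj (KnB_foot h.pos hy) (KnB_foot h.pos hy') h1)
  have key : ∀ a b : ℝ, Ioo a b = (fun y : ℝ => (Φ (0, y)).2) '' Ioo (-1) 1 →
      bas Φ = {q : ℂ × ℝ | q.1 = 0 ∧ q.2 ∈ Ioo a b} := by
    intro a b hab
    ext q
    unfold bas
    rw [Set.mem_ofPred_eq, hab]
    constructor
    · rintro ⟨y, hy, rfl⟩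
      exact ⟨hf y (Ioo_subset_Icc_self hy), y, hy, rfl⟩
    · rintro ⟨h1, y, hy, h2⟩
      exact ⟨y, hy, Prod.ext ((hf y (Ioo_subset_Icc_self hy)).trans h1.symm) h2⟩
  have e1 : (-1 : ℝ) ∈ Icc (-1 : ℝ) 1 := by simp
  have e2 : (1 : ℝ) ∈ Icc (-1 : ℝ) 1 := by simp
  rcases hc.strictMonoOn_of_injOn_Icc' (by norm_num) hi with hm | hm
  · refine ⟨_, _, key _ _ (Set.Subset.antisymm (intermediate_value_Ioo (by norm_num) hc) ?_)⟩
    rintro _ ⟨y, hy, rfl⟩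
    exact ⟨hm e1 (Ioo_subset_Icc_self hy) hy.1, hm (Ioo_subset_Icc_self hy) e2 hy.2⟩
  · refine ⟨_, _, key _ _ (Set.Subset.antisymm (intermediate_value_Ioo' (by norm_num) hc) ?_)⟩
    rintro _ ⟨y, hy, rfl⟩
    exact ⟨hm (Ioo_subset_Icc_self hy) e2 hy.2, hm e1 (Ioo_subset_Icc_self hy) hy.1⟩

theorem gr_sub {t : ℝ} {Φ : ℝ × ℝ → ℂ × ℝ} (h : Strip t Φ) {r : ℝ} {p : ℝ → ℝ} (hp : IsPrf t r p) :
    gr Φ p ⊆ Φ '' Rec t := by
  rintro _ ⟨y, hy, rfl⟩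
  exact ⟨(p y, y), ⟨hp.range y hy, hy⟩, rfl⟩

theorem Fg_sub {L : SL} (h : Conf L) : Fg L ⊆ Sp L := by
  intro q hq
  obtain ⟨p, hp, hq'⟩ := Set.mem_iUnion₂.1 hq
  exact Set.mem_iUnion₂.2 ⟨p, hp, gr_sub (h.1 p hp) (isPrf_prf (h.1 p hp).pos) hq'⟩

theorem KnB_open (L : SL) (h : ∀ p ∈ L, Strip p.1 p.2) : ∃ O, IsOpen O ∧ Bs L = U ∩ O := by
  induction L with
  | nil => exact ⟨∅, isOpen_empty, by simp [Bs]⟩
  | cons p L ih =>
    obtain ⟨O, h1, h2⟩ := ih fun q hq => h q (List.mem_cons_of_mem _ hq)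
    obtain ⟨a, b, hab⟩ := bas_eq (h p List.mem_cons_self)
    refine ⟨{q : ℂ × ℝ | q.2 ∈ Ioo a b} ∪ O, (isOpen_Ioo.preimage continuous_snd).union h1, ?_⟩
    rw [Bs_cons, hab, h2, Set.inter_union_distrib_left]
    rfl

theorem Zr_closed {t : ℝ} {Φ : ℝ × ℝ → ℂ × ℝ} {L : SL} (h : Conf ((t, Φ) :: L)) :
    IsClosed (Zr Φ L) := by
  have hU : IsClosed U := isClosed_eq continuous_fst continuous_const
  have h0 := (conf_cons.1 h).2.1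
  refine IsClosed.union ?_ ?_
  · obtain ⟨O, h1, h2⟩ := KnB_open _ h.1
    rw [Bs_cons] at h2
    have h3 : bas Φ ∪ Bs L = U ∩ O := h2
    rw [h3, Set.sdiff_self_inter]
    exact hU.sdiff h1
  · have h1 : {p | p ∈ L}.Finite := List.finite_toSet L
    refine h1.isClosed_biUnion fun p hp => ?_
    have h2 : Continuous fun y : ℝ => p.2 (prf p.1 y, y) :=
      (h0.1 p hp).smooth.continuous.comp ((prf_smooth p.1).continuous.prodMk continuous_id)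
    exact (isCompact_Icc.image h2).isClosed

theorem Zr_meet {t : ℝ} {Φ : ℝ × ℝ → ℂ × ℝ} {L : SL} (h : Conf ((t, Φ) :: L)) {q : ℝ × ℝ}
    (hq : q ∈ Rec t) (hz : Φ q ∈ Zr Φ L) : q = (0, 1) ∨ q = (0, -1) ∨ q = (1, 0) := by
  obtain ⟨h1, h2, h3⟩ := conf_cons.1 h
  rcases hz with ⟨hz1, hz2⟩ | hz
  · rcases h1.off q hq hz1 with h4 | h4
    · obtain ⟨x, y⟩ := q
      have h5 : x = 0 := h4
      subst h5
      have hy : y ∈ Icc (-1 : ℝ) 1 := hq.2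
      by_cases h6 : y = 1
      · exact Or.inl (by rw [h6])
      · by_cases h7 : y = -1
        · exact Or.inr (Or.inl (by rw [h7]))
        · exfalso
          apply hz2
          left
          exact ⟨y, ⟨lt_of_le_of_ne hy.1 (Ne.symm h7), lt_of_le_of_ne hy.2 h6⟩, rfl⟩
    · exact Or.inr (Or.inr h4)
  · exact absurd ⟨⟨q, hq, rfl⟩, Fg_sub h2 hz⟩ (fun h4 => h3.le_bot h4)

theorem Kn_congr {t : ℝ} (ht : 0 < t) {Φ Ψ : ℝ × ℝ → ℂ × ℝ} (L : SL) (h : ∀ q ∈ Rec t, Φ q = Ψ q) :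
    Kn ((t, Φ) :: L) = Kn ((t, Ψ) :: L) := by
  have h1 : bas Φ = bas Ψ := by
    unfold bas
    exact Set.image_congr fun y hy => h _ (KnB_foot ht (Ioo_subset_Icc_self hy))
  have h2 : gr Φ (prf t) = gr Ψ (prf t) := by
    unfold gr
    exact Set.image_congr fun y hy => h _ ⟨prf_mem ht y, hy⟩
  rw [Kn_cons, Kn_cons, h2]
  unfold Zr
  rw [h1]

end Pool.Agent.KNT
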