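import Pool.Agent.KNT.EngD

/-!
# KNT/LocI: embeddings near compact sets

PROOFS.
* `loc_inj`: `f` is strictly differentiable at `x` (`ContDiffAt.hasStrictFDerivAt'`, `1 ≤ n`), the derivative is
  injective, hence antilipschitz (finite dimension), so `f` is injective near `x`
  (`HasStrictFDerivAt.approximates_deriv_on_nhds`, `ApproximatesLinearOn.injOn`).
* `imm_near`: near every point of `K` the derivative exists and is continuous, and the injective linear maps form an open
  set (antilipschitz maps; `ContinuousLinearMap` with `ker = ⊥`, finite dimension).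
* `inj_near`: `Set.InjOn.exists_mem_nhdsSet` (compact `K`, `f` continuous and injective on `K`, locally injective at the
  points of `K`).
* `near_pos`: if `O` is an open set containing the compact set `K × {0}` there is `e > 0` such that
  `(x, v) ∈ O` for all `x ∈ K`, `‖v‖ ≤ e` (tube lemma, `generalized_tube_lemma` or `IsCompact.exists_thickening_subset_open`).
-/

open scoped ContDiff Topology
open Set Filter

namespace Pool.Agent.KNT

section
variable {V W X : Type*} [NormedAddCommGroup V] [NormedSpace ℝ V] [FiniteDimensional ℝ V]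
  [NormedAddCommGroup W] [NormedSpace ℝ W] [NormedAddCommGroup X] [NormedSpace ℝ X]

theorem LocI_anti {L : V →L[ℝ] W} (h : Function.Injective L) :
    ∃ K : ℝ, 0 < K ∧ ∀ v, ‖v‖ ≤ K * ‖L v‖ := by
  have hk : LinearMap.ker (L : V →ₗ[ℝ] W) = ⊥ := by
    rw [LinearMap.ker_eq_bot]
    exact h
  obtain ⟨K, hK, ha⟩ := LinearMap.exists_antilipschitzWith _ hk
  refine ⟨K, by exact_mod_cast hK, fun v => ?_⟩
  have := ha.le_mul_dist v 0
  rw [map_zero, dist_zero_right, dist_zero_right] at this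
  exact this

theorem loc_inj {f : V → W} {x : V} (hf : ContDiffAt ℝ 1 f x) (hd : Function.Injective (fderiv ℝ f x)) :
    ∃ u ∈ 𝓝 x, InjOn f u := by
  obtain ⟨K, hK, ha⟩ := LocI_anti hd
  have hs : HasStrictFDerivAt f (fderiv ℝ f x) x := hf.hasStrictFDerivAt (by simp)
  have hc : (0 : ℝ) < (2 * K)⁻¹ := by positivity
  obtain ⟨u, hu, happ⟩ := hs.approximates_deriv_on_nhds (c := ⟨(2 * K)⁻¹, hc.le⟩)
    (Or.inr (by exact_mod_cast hc))
  refine ⟨u, hu, fun y hy z hz he => ?_⟩
  have h1 := happ y hy z hz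
  rw [he, sub_self, zero_sub, norm_neg] at h1
  have h2 := ha (y - z)
  have h3 : ‖y - z‖ ≤ K * ((2 * K)⁻¹ * ‖y - z‖) := h2.trans (mul_le_mul_of_nonneg_left h1 hK.le)
  have h4 : K * ((2 * K)⁻¹ * ‖y - z‖) = ‖y - z‖ / 2 := by
    field_simp
  rw [h4] at h3
  have h5 : ‖y - z‖ = 0 := le_antisymm (by linarith) (norm_nonneg _)
  exact sub_eq_zero.1 (norm_eq_zero.1 h5)

theorem imm_near {f : V → W} {K : Set V} (hf : ∀ x ∈ K, ContDiffAt ℝ 1 f x)
    (hd : ∀ x ∈ K, Function.Injective (fderiv ℝ f x)) :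
    ∃ O : Set V, IsOpen O ∧ K ⊆ O ∧ ∀ x ∈ O, Function.Injective (fderiv ℝ f x) := by
  refine ⟨interior {x | Function.Injective (fderiv ℝ f x)}, isOpen_interior, fun x hx => ?_,
    fun x hx => interior_subset hx⟩
  rw [mem_interior_iff_mem_nhds]
  obtain ⟨C, hC, ha⟩ := LocI_anti (hd x hx)
  have hc : ContinuousAt (fderiv ℝ f) x := by
    have := (hf x hx).fderiv_right (m := 0) (by simp)
    exact this.continuousAt
  have hev : ∀ᶠ y in 𝓝 x, ‖fderiv ℝ f y - fderiv ℝ f x‖ < C⁻¹ := by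
    have h1 : ContinuousAt (fun y => ‖fderiv ℝ f y - fderiv ℝ f x‖) x :=
      (hc.sub continuousAt_const).norm
    refine h1.eventually_lt continuousAt_const ?_
    simp only [sub_self, norm_zero]
    positivity
  filter_upwards [hev] with y hy
  intro v w hvw
  have h1 : fderiv ℝ f y (v - w) = 0 := by
    rw [map_sub, hvw, sub_self]
  have h2 := ha (v - w)
  have h3 : fderiv ℝ f x (v - w) = -((fderiv ℝ f y - fderiv ℝ f x) (v - w)) := by
    rw [sub_apply, h1]
    abel
  rw [h3, norm_neg] at h2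
  by_contra hne
  have h4 : 0 < ‖v - w‖ := norm_pos_iff.2 (sub_ne_zero.2 hne)
  have h5 := (fderiv ℝ f y - fderiv ℝ f x).le_opNorm (v - w)
  have h6 : C * ‖(fderiv ℝ f y - fderiv ℝ f x) (v - w)‖ < ‖v - w‖ := by
    calc C * ‖(fderiv ℝ f y - fderiv ℝ f x) (v - w)‖
        ≤ C * (‖fderiv ℝ f y - fderiv ℝ f x‖ * ‖v - w‖) := mul_le_mul_of_nonneg_left h5 hC.le
      _ < C * (C⁻¹ * ‖v - w‖) := by
          apply mul_lt_mul_of_pos_left _ hC
          exact mul_lt_mul_of_pos_right hy h4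
      _ = ‖v - w‖ := by field_simp
  linarith

theorem inj_near {f : V → W} {K : Set V} (hK : IsCompact K) (hf : ∀ x ∈ K, ContDiffAt ℝ 1 f x)
    (hd : ∀ x ∈ K, Function.Injective (fderiv ℝ f x)) (hi : InjOn f K) :
    ∃ O : Set V, IsOpen O ∧ K ⊆ O ∧ InjOn f O := by
  obtain ⟨t, ht, hinj⟩ := hi.exists_mem_nhdsSet hK (fun x hx => (hf x hx).continuousAt)
    (fun x hx => loc_inj (hf x hx) (hd x hx))
  exact ⟨interior t, isOpen_interior, subset_interior_iff_mem_nhdsSet.2 ht,
    hinj.mono interior_subset⟩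

theorem near_pos {K : Set X} (hK : IsCompact K) {O : Set (X × V)} (hO : IsOpen O)
    (h : ∀ x ∈ K, (x, (0 : V)) ∈ O) : ∃ e : ℝ, 0 < e ∧ ∀ x ∈ K, ∀ v : V, ‖v‖ ≤ e → (x, v) ∈ O := by
  obtain ⟨u, v, hu, hv, hKu, h0v, huv⟩ := generalized_tube_lemma hK
    (isCompact_singleton (x := (0 : V))) hO (by
      rintro ⟨x, w⟩ ⟨hx, hw⟩
      have hw' : w = 0 := hw
      rw [hw']
      exact h x hx)
  obtain ⟨e, he, hball⟩ := Metric.mem_nhds_iff.1 (hv.mem_nhds (h0v rfl))
  refine ⟨e / 2, by positivity, fun x hx w hw => huv ⟨hKu hx, hball ?_⟩⟩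
  rw [mem_ball_zero_iff]
  linarith

/-- A linear map `(l, v) ↦ (l, A l + B v)` is injective if `B` is. Version for derivatives: `f (l, v) = (l, h (l, v))`. -/
theorem inj_param {h : X × V → W} {p : X × V} (hh : DifferentiableAt ℝ h p)
    (hi : Function.Injective (fderiv ℝ (fun v => h (p.1, v)) p.2)) :
    Function.Injective (fderiv ℝ (fun q : X × V => (q.1, h q)) p) := by
  have h1 : HasFDerivAt (fun q : X × V => (q.1, h q))
      ((ContinuousLinearMap.fst ℝ X V).prod (fderiv ℝ h p)) p :=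
    hasFDerivAt_fst.prodMk hh.hasFDerivAt
  have h2 : HasFDerivAt (fun v => h (p.1, v))
      ((fderiv ℝ h p).comp (ContinuousLinearMap.inr ℝ X V)) p.2 :=
    HasFDerivAt.comp (p.2) (g := h) (f := fun v : V => (p.1, v)) hh.hasFDerivAt
      (hasFDerivAt_prodMk_right p.1 p.2)
  rw [h1.fderiv]
  rw [h2.fderiv] at hi
  rintro ⟨l, v⟩ ⟨l', v'⟩ he
  have e1 : l = l' := congrArg Prod.fst he
  subst e1
  have e2 : fderiv ℝ h p (l, v) = fderiv ℝ h p (l, v') := congrArg Prod.snd he
  have e3 : fderiv ℝ h p (0, v - v') = 0 := by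
    have : ((0, v - v') : X × V) = (l, v) - (l, v') := by simp
    rw [this, map_sub, e2, sub_self]
  have e4 : ((fderiv ℝ h p).comp (ContinuousLinearMap.inr ℝ X V)) (v - v') =
      ((fderiv ℝ h p).comp (ContinuousLinearMap.inr ℝ X V)) 0 := by
    rw [map_zero]
    exact e3
  have e5 := sub_eq_zero.1 (hi e4)
  rw [e5]

end

end Pool.Agent.KNT
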