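import Pool.Agent.KNT.Defs

/-!
# KNT/StpD: the derivative of the smooth step is positive

PROOF. `f = expNegInvGlue`, for `x > 0` near a positive point `f x = exp (-x⁻¹)`, `f' x = exp (-x⁻¹) / x ^ 2 > 0`.
`Real.smoothTransition x = f x / (f x + f (1 - x))`; for `0 < x < 1` its derivative is
`(f' x * f (1 - x) + f x * f' (1 - x)) / (f x + f (1 - x)) ^ 2 > 0`. `stp a b x = smoothTransition ((x - a) / (b - a))`.
-/

open scoped ContDiff Topology
open Set Filter
open Pool.Agent.CSG (stp)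
open Pool.Agent.RSG (ex)

namespace Pool.Agent.KNT

theorem smoothTransition_deriv_pos {x : ℝ} (h0 : 0 < x) (h1 : x < 1) :
    0 < deriv Real.smoothTransition x := by
  have hx' : x ≠ 0 := h0.ne'
  have hx1 : 1 - x ≠ 0 := by linarith
  have hA := Real.exp_pos (-x⁻¹)
  have hB := Real.exp_pos (-(1 - x)⁻¹)
  have hev : Real.smoothTransition =ᶠ[𝓝 x]
      fun y => Real.exp (-y⁻¹) / (Real.exp (-y⁻¹) + Real.exp (-(1 - y)⁻¹)) := by
    filter_upwards [Ioo_mem_nhds h0 h1] with y hy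
    have hy0 : ¬ y ≤ 0 := not_le.2 hy.1
    have hy1 : ¬ (1 - y ≤ 0) := by
      rw [not_le]
      linarith [hy.2]
    simp only [Real.smoothTransition, expNegInvGlue, hy0, hy1, if_false]
  have d1 : HasDerivAt (fun y : ℝ => Real.exp (-y⁻¹)) (Real.exp (-x⁻¹) * (x⁻¹) ^ 2) x := by
    have h := ((hasDerivAt_inv hx').neg).exp
    have e : Real.exp (-x⁻¹) * (x⁻¹) ^ 2 = Real.exp (-x⁻¹) * (- -(x ^ 2)⁻¹) := by
      rw [neg_neg, inv_pow]
    rw [e]
    exact h
  have d2 : HasDerivAt (fun y : ℝ => Real.exp (-(1 - y)⁻¹))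
      (-(Real.exp (-(1 - x)⁻¹) * ((1 - x)⁻¹) ^ 2)) x := by
    have h1' : HasDerivAt (fun y : ℝ => 1 - y) (-1) x := by
      simpa using (hasDerivAt_id x).const_sub 1
    have h := ((h1'.inv hx1).neg).exp
    have e : -(Real.exp (-(1 - x)⁻¹) * ((1 - x)⁻¹) ^ 2) =
        Real.exp (-(1 - x)⁻¹) * (-(- -1 / (1 - x) ^ 2)) := by
      rw [neg_neg, inv_pow]
      ring
    rw [e]
    exact h
  have hne : Real.exp (-x⁻¹) + Real.exp (-(1 - x)⁻¹) ≠ 0 := by positivity
  have d3 := d1.div (d1.add d2) hne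
  have d4 : deriv Real.smoothTransition x =
      Real.exp (-x⁻¹) * Real.exp (-(1 - x)⁻¹) * ((x⁻¹) ^ 2 + ((1 - x)⁻¹) ^ 2) /
        (Real.exp (-x⁻¹) + Real.exp (-(1 - x)⁻¹)) ^ 2 := by
    rw [hev.deriv_eq]
    have := d3.deriv
    have e2 : deriv (fun y => Real.exp (-y⁻¹) / (Real.exp (-y⁻¹) + Real.exp (-(1 - y)⁻¹))) x =
      deriv ((fun y : ℝ => Real.exp (-y⁻¹)) / ((fun y : ℝ => Real.exp (-y⁻¹)) +
        fun y : ℝ => Real.exp (-(1 - y)⁻¹))) x := rfl
    rw [e2, this]
    congr 1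
    simp only [Pi.add_apply]
    ring
  rw [d4]
  have : 0 < x⁻¹ := inv_pos.2 h0
  positivity

theorem stp_deriv_pos {a b x : ℝ} (ha : a < x) (hb : x < b) : 0 < deriv (stp a b) x := by
  have hab : 0 < b - a := by linarith
  have hd : HasDerivAt (stp a b) (deriv Real.smoothTransition ((x - a) / (b - a)) * (1 / (b - a))) x := by
    have e1 : HasDerivAt (fun x : ℝ => (x - a) / (b - a)) (1 / (b - a)) x :=
      ((hasDerivAt_id x).sub_const a).div_const (b - a)
    have e2 : HasDerivAt Real.smoothTransition (deriv Real.smoothTransition ((x - a) / (b - a)))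
        ((x - a) / (b - a)) :=
      ((Real.smoothTransition.contDiff (n := 1)).differentiable (by norm_num) _).hasDerivAt
    exact e2.comp x e1
  rw [hd.deriv]
  refine mul_pos (smoothTransition_deriv_pos (div_pos (by linarith) hab) ?_) (by positivity)
  rw [div_lt_one hab]
  linarith

theorem stp_strictMonoOn {a b : ℝ} (hab : a < b) : StrictMonoOn (stp a b) (Icc a b) := by
  have _ := hab
  refine strictMonoOn_of_deriv_pos (convex_Icc a b) (CSG.stp_smooth a b).continuous.continuousOn ?_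
  intro x hx
  rw [interior_Icc] at hx
  exact stp_deriv_pos hx.1 hx.2

end Pool.Agent.KNT
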