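import Pool.Agent.KNT.EngD
import Pool.Agent.KNT.StpD

/-!
# KNT/PrfL: the profile of the fingers

PROOFS. From `CSG.stp_smooth`, `stp_zero`, `stp_one`, `stp_nonneg`, `stp_le_one` and `StpD` (all functions of `y ^ 2`;
`|y| ≤ 1/16 ↔ y^2 ≤ 1/256`, `1/8 ≤ |y| ↔ 1/64 ≤ y^2`).
`exists_Sig`: `y ↦ prf t y` is strictly decreasing on `[1/16, 1/8]` from `1 + t/2` to `0`, continuous, with negative
derivative on `(1/16, 1/8)` (`deriv (fun y => stp (1/256) (1/64) (y^2)) y = stp' (y^2) * 2 y > 0`). `Sig x` = the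
inverse (choose it by the intermediate value theorem). It is smooth on `(0, 1 + t/2)` by the inverse function theorem
(`ContDiffAt.to_localInverse` or `OpenPartialHomeomorph.contDiffAt_symm_deriv`, or: the inverse of a strictly monotone
`C^∞` function with non zero derivative; the local inverse coincides with `Sig` near `x` by injectivity).
-/

open scoped ContDiff Topology
open Set Filter
open Pool.Agent.CSG (stp)
open Pool.Agent.RSG (ex)

namespace Pool.Agent.KNT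

theorem bmp_smooth : ContDiff ℝ ∞ bmp := by
  unfold bmp
  exact contDiff_const.sub ((CSG.stp_smooth _ _).comp (contDiff_id.pow 2))

theorem bmp_nonneg (y : ℝ) : 0 ≤ bmp y := sub_nonneg.2 (CSG.stp_le_one _ _ _)

theorem bmp_le_one (y : ℝ) : bmp y ≤ 1 := by
  have := CSG.stp_nonneg (1 / 256) (1 / 64) (y ^ 2)
  unfold bmp
  linarith

theorem bmp_one {y : ℝ} (h : |y| ≤ 1 / 16) : bmp y = 1 := by
  have h2 : y ^ 2 ≤ 1 / 256 := by
    have := abs_le.1 h
    nlinarith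
  unfold bmp
  rw [CSG.stp_zero (by norm_num) h2, sub_zero]

theorem bmp_zero {y : ℝ} (h : 1 / 8 ≤ |y|) : bmp y = 0 := by
  have h2 : 1 / 64 ≤ y ^ 2 := by
    have h3 : (1 / 8 : ℝ) ^ 2 ≤ |y| ^ 2 := pow_le_pow_left₀ (by norm_num) h 2
    rw [sq_abs] at h3
    linarith
  unfold bmp
  rw [CSG.stp_one (by norm_num) h2, sub_self]

theorem prf_smooth (t : ℝ) : ContDiff ℝ ∞ (prf t) := by
  unfold prf
  exact contDiff_const.mul bmp_smooth

theorem prf_neg (t y : ℝ) : prf t (-y) = prf t y := by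
  unfold prf bmp
  rw [neg_sq]

theorem prf_zero {t y : ℝ} (h : 1 / 8 ≤ |y|) : prf t y = 0 := by
  unfold prf
  rw [bmp_zero h, mul_zero]

theorem prf_mem {t : ℝ} (ht : 0 < t) (y : ℝ) : prf t y ∈ Icc 0 (1 + t) := by
  have h0 := bmp_nonneg y
  have h1 := bmp_le_one y
  unfold prf
  constructor
  · positivity
  · nlinarith

theorem prf_at_zero (t : ℝ) : prf t 0 = 1 + t / 2 := by
  unfold prf
  rw [bmp_one (by norm_num), mul_one]

theorem isPrf_prf {t : ℝ} (ht : 0 < t) : IsPrf t (1 / 8) (prf t) where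
  smooth := prf_smooth t
  range := fun y _ => prf_mem ht y
  zero := fun _ h => prf_zero h
  one := by
    rw [prf_at_zero]
    linarith

theorem prf_abs (t y : ℝ) : prf t |y| = prf t y := by
  unfold prf bmp
  rw [sq_abs]

theorem prf_top {t y : ℝ} (h : |y| ≤ 1 / 16) : prf t y = 1 + t / 2 := by
  unfold prf
  rw [bmp_one h, mul_one]

theorem prf_strictAnti {t : ℝ} (ht : 0 < t) : StrictAntiOn (prf t) (Icc (1 / 16) (1 / 8)) := by
  intro x hx y hy hxy
  have hx0 : 0 < x := by linarith [hx.1]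
  have h1 : x ^ 2 < y ^ 2 := by nlinarith
  have hm : ∀ z ∈ Icc (1 / 16 : ℝ) (1 / 8), z ^ 2 ∈ Icc (1 / 256 : ℝ) (1 / 64) := by
    intro z hz
    constructor
    · nlinarith [hz.1]
    · nlinarith [hz.1, hz.2]
  have h2 := stp_strictMonoOn (a := 1 / 256) (b := 1 / 64) (by norm_num) (hm x hx) (hm y hy) h1
  unfold prf bmp
  have h3 : 0 < 1 + t / 2 := by linarith
  exact mul_lt_mul_of_pos_left (by linarith) h3

theorem prf_deriv_neg {t : ℝ} (ht : 0 < t) {y : ℝ} (h1 : 1 / 16 < y) (h2 : y < 1 / 8) :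
    deriv (prf t) y < 0 := by
  have hy0 : 0 < y := by linarith
  have ha : (1 / 256 : ℝ) < y ^ 2 := by nlinarith
  have hb : y ^ 2 < (1 / 64 : ℝ) := by nlinarith
  have hpos := stp_deriv_pos ha hb
  have d1 : HasDerivAt (stp (1 / 256) (1 / 64)) (deriv (stp (1 / 256) (1 / 64)) (y ^ 2)) (y ^ 2) :=
    (((CSG.stp_smooth (1 / 256) (1 / 64)).differentiable (by simp)) _).hasDerivAt
  have d2 : HasDerivAt (fun y : ℝ => y ^ 2) (2 * y) y := by
    simpa using hasDerivAt_pow 2 y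
  have d3 : HasDerivAt (fun y : ℝ => stp (1 / 256) (1 / 64) (y ^ 2))
      (deriv (stp (1 / 256) (1 / 64)) (y ^ 2) * (2 * y)) y :=
    HasDerivAt.comp (h₂ := stp (1 / 256) (1 / 64)) (h := fun y : ℝ => y ^ 2) y d1 d2
  have d4 : HasDerivAt (prf t)
      ((1 + t / 2) * -(deriv (stp (1 / 256) (1 / 64)) (y ^ 2) * (2 * y))) y :=
    (d3.const_sub 1).const_mul (1 + t / 2)
  rw [d4.deriv]
  have : 0 < (1 + t / 2) * (deriv (stp (1 / 256) (1 / 64)) (y ^ 2) * (2 * y)) := by positivity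
  linarith

/-- The inverse of the profile. -/
theorem exists_Sig {t : ℝ} (ht : 0 < t) : ∃ Sig : ℝ → ℝ,
    (∀ x ∈ Ioo 0 (1 + t / 2), ContDiffAt ℝ ∞ Sig x ∧ 1 / 16 < Sig x ∧ Sig x < 1 / 8 ∧ prf t (Sig x) = x) ∧
    (∀ x ∈ Ioo 0 (1 + t / 2), ∀ y : ℝ, prf t y = x ↔ |y| = Sig x) ∧
    (∀ x ∈ Ioo 0 (1 + t / 2), ∀ y : ℝ, x < prf t y ↔ |y| < Sig x) := by
  have hex : ∀ x : ℝ, ∃ s : ℝ, x ∈ Ioo 0 (1 + t / 2) → 1 / 16 < s ∧ s < 1 / 8 ∧ prf t s = x := by
    intro x
    by_cases hx : x ∈ Ioo 0 (1 + t / 2)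
    · have hc : ContinuousOn (prf t) (Icc (1 / 16) (1 / 8)) := (prf_smooth t).continuous.continuousOn
      have hiv := intermediate_value_Icc' (by norm_num : (1 / 16 : ℝ) ≤ 1 / 8) hc
      have e1 : prf t (1 / 16) = 1 + t / 2 := prf_top (by rw [abs_of_pos (by norm_num)])
      have e2 : prf t (1 / 8) = 0 := prf_zero (by rw [abs_of_pos (by norm_num)])
      rw [e1, e2] at hiv
      obtain ⟨s, hs, hsx⟩ := hiv ⟨hx.1.le, hx.2.le⟩
      refine ⟨s, fun _ => ⟨?_, ?_, hsx⟩⟩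
      · rcases lt_or_eq_of_le hs.1 with h | h
        · exact h
        · rw [← h, e1] at hsx
          exact absurd hx.2 (by rw [hsx]; exact lt_irrefl _)
      · rcases lt_or_eq_of_le hs.2 with h | h
        · exact h
        · rw [h, e2] at hsx
          exact absurd hx.1 (by rw [hsx]; exact lt_irrefl _)
    · exact ⟨0, fun h => absurd h hx⟩
  choose Sig hSig using hex
  have hsm : ∀ x ∈ Ioo 0 (1 + t / 2), ContDiffAt ℝ ∞ Sig x := by
    intro x hx
    obtain ⟨h1, h2, h3⟩ := hSig x hx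
    have hd : deriv (prf t) (Sig x) ≠ 0 := (prf_deriv_neg ht h1 h2).ne
    have hf : ContDiffAt ℝ ∞ (prf t) (Sig x) := (prf_smooth t).contDiffAt
    have hD : HasDerivAt (prf t) (deriv (prf t) (Sig x)) (Sig x) :=
      (hf.differentiableAt (by simp)).hasDerivAt
    have hF : HasFDerivAt (prf t) ((ContinuousLinearEquiv.unitsEquivAut ℝ
        (Units.mk0 _ hd) : ℝ ≃L[ℝ] ℝ) : ℝ →L[ℝ] ℝ) (Sig x) := by
      have hE : ((ContinuousLinearEquiv.unitsEquivAut ℝ
          (Units.mk0 _ hd) : ℝ ≃L[ℝ] ℝ) : ℝ →L[ℝ] ℝ) =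
          ContinuousLinearMap.toSpanSingleton ℝ (deriv (prf t) (Sig x)) := by
        apply ContinuousLinearMap.ext
        intro v
        simp
      rw [hE]
      exact hD.hasFDerivAt
    have hn : (∞ : WithTop ℕ∞) ≠ 0 := by simp
    have hg := hf.to_localInverse hF hn
    have hg0 : hf.localInverse hF hn (prf t (Sig x)) = Sig x := hf.localInverse_apply_image hF hn
    have hr : ∀ᶠ z in 𝓝 (prf t (Sig x)), prf t (hf.localInverse hF hn z) = z :=
      (hf.hasStrictFDerivAt' hF hn).eventually_right_inverse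
    rw [h3] at hg hg0 hr
    have hc : Filter.Tendsto (hf.localInverse hF hn) (𝓝 x) (𝓝 (Sig x)) := by
      have := hg.continuousAt.tendsto
      rwa [hg0] at this
    have hm : ∀ᶠ z in 𝓝 x, hf.localInverse hF hn z ∈ Ioo (1 / 16 : ℝ) (1 / 8) :=
      hc.eventually (Ioo_mem_nhds h1 h2)
    have hm2 : ∀ᶠ z in 𝓝 x, z ∈ Ioo 0 (1 + t / 2) := Ioo_mem_nhds hx.1 hx.2
    refine hg.congr_of_eventuallyEq ?_
    filter_upwards [hr, hm, hm2] with z hz1 hz2 hz3
    obtain ⟨k1, k2, k3⟩ := hSig z hz3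
    exact (prf_strictAnti ht).injOn ⟨k1.le, k2.le⟩ ⟨hz2.1.le, hz2.2.le⟩ (by rw [k3, hz1])
  have hlt : ∀ x ∈ Ioo 0 (1 + t / 2), ∀ y : ℝ, |y| < Sig x → x < prf t y := by
    intro x hx y hy
    obtain ⟨h1, h2, h3⟩ := hSig x hx
    rcases le_or_gt |y| (1 / 16) with h | h
    · rw [prf_top h]
      exact hx.2
    · rw [← prf_abs]
      calc x = prf t (Sig x) := h3.symm
        _ < prf t |y| := prf_strictAnti ht ⟨h.le, by linarith⟩ ⟨h1.le, h2.le⟩ hy
  have hgt : ∀ x ∈ Ioo 0 (1 + t / 2), ∀ y : ℝ, Sig x < |y| → prf t y < x := by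
    intro x hx y hy
    obtain ⟨h1, h2, h3⟩ := hSig x hx
    rcases le_or_gt (1 / 8) |y| with h | h
    · rw [prf_zero h]
      exact hx.1
    · rw [← prf_abs]
      calc prf t |y| < prf t (Sig x) := prf_strictAnti ht ⟨h1.le, h2.le⟩ ⟨by linarith, h.le⟩ hy
        _ = x := h3
  have heq : ∀ x ∈ Ioo 0 (1 + t / 2), ∀ y : ℝ, |y| = Sig x → prf t y = x := by
    intro x hx y hy
    rw [← prf_abs, hy, (hSig x hx).2.2]
  refine ⟨Sig, fun x hx => ⟨hsm x hx, (hSig x hx).1, (hSig x hx).2.1, (hSig x hx).2.2⟩, ?_, ?_⟩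
  · intro x hx y
    refine ⟨fun h => ?_, heq x hx y⟩
    rcases lt_trichotomy |y| (Sig x) with hc | hc | hc
    · exact absurd (hlt x hx y hc) (by rw [h]; exact lt_irrefl _)
    · exact hc
    · exact absurd (hgt x hx y hc) (by rw [h]; exact lt_irrefl _)
  · intro x hx y
    refine ⟨fun h => ?_, hlt x hx y⟩
    rcases lt_trichotomy |y| (Sig x) with hc | hc | hc
    · exact hc
    · exact absurd h (by rw [heq x hx y hc]; exact lt_irrefl _)
    · exact absurd h (not_lt.2 (hgt x hx y hc).le)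

end Pool.Agent.KNT
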