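import Pool.Agent.KNT.StrF

/-!
# KNT/LinA: linear strips `Lin g k e (x, y) = g x + (e y) • k x`

PROOFS.
* `coreFam_lin`: `fderiv` of `Lin g k c` at `(x, 0)` is `(u, v) ↦ u • g' x + (c v) • k x`. All conditions are those of
  `Dat` (`off` at `x = 0` and `x = 1` gives `(g 0).1 = 0`, `(g 1).1 = 0`).
* `conf_lin`: `strips_of_core` for the constant family `Lin g k 1` (constant `DatFam`), `thin e (Lin g k 1) = Lin g k e`.
* `kn_lin`. (1) `(k 0).2 ≠ 0` (`imm` at `0`, `base`). Let `η y = ((Φ (0, y)).2 - (Φ (0, 0)).2) / (k 0).2`, smooth,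
  `η 0 = 0`, `deriv η 0 = c` (because `nrm Φ 0 = c • k 0`). `Q (x, y) = g x + η y • k x`. For `|y| ≤ 1`
  `Q (0, y) = Φ (0, y)` (both have first component `0`, by `foot` and `base`).
  (2) The family `Φ_l = (1 - l) • Φ + l • Q` is a `CoreFam` for `Sp L`: `Φ_l (x, 0) = g x` on `[0, 1 + t]`, and for
  these `x` `fderiv Φ_l (x, 0) (u, v) = u • g' x + (c v) • k x` for all `l` (`d/dx Φ (x, 0) = g' x` on the closed
  interval, both functions being smooth and equal on the interval). So `strip_fam`: for small `e`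
  `Kn ((t, Φ) :: L) ~ Kn ((t, thin e Q) :: L)`.
  (3) `conf_lin` gives `e₀`. Let `0 < e₂ ≤ e₀`. For `e` small `thin e Q = Rpm id ζ (Lin g k e₂)` with
  `ζ y = η (e y) / e₂`: `ζ 0 = 0`, `ζ' y = e η' (e y) / e₂ > 0` on `[-1, 1]` and `|ζ| ≤ 1` on `[-1, 1]` (`η' > 0` near `0`).
  So `IsRep t t id ζ`, and `rep_LEq` for `Lin g k e₂` gives `Kn ((t, Lin g k e₂) :: L) ~ Kn ((t, thin e Q) :: L)`.
* `kn_jet`: `kn_lin` for both strips (`nrm Ψ = c' • k`) with a common small `e`.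
-/

open scoped ContDiff Topology
open Set Filter
open Pool.Agent.CSG (stp)
open Pool.Agent.RSG (ex)

namespace Pool.Agent.KNT

/-- strip with transversal profile `η` -/
noncomputable def LinA_Q (g k : ℝ → ℂ × ℝ) (η : ℝ → ℝ) (q : ℝ × ℝ) : ℂ × ℝ := g q.1 + η q.2 • k q.1

/-- the derivative of a strip along the core -/
noncomputable def LinA_L (a b : ℂ × ℝ) (c : ℝ) : ℝ × ℝ →L[ℝ] ℂ × ℝ :=
  (ContinuousLinearMap.fst ℝ ℝ ℝ).smulRight a + (c • ContinuousLinearMap.snd ℝ ℝ ℝ).smulRight b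

theorem LinA_L_apply (a b : ℂ × ℝ) (c u v : ℝ) : LinA_L a b c (u, v) = u • a + (c * v) • b := by
  simp [LinA_L]

theorem LinA_L_inj {a b : ℂ × ℝ} (h : LinearIndependent ℝ ![a, b]) {c : ℝ} (hc : c ≠ 0) :
    Function.Injective (LinA_L a b c) := by
  rw [injective_iff_map_eq_zero]
  rintro ⟨u, v⟩ huv
  rw [LinA_L_apply] at huv
  obtain ⟨h1, h2⟩ := LinearIndependent.pair_iff.1 h u (c * v) huv
  rw [h1, (mul_eq_zero.1 h2).resolve_left hc]
  rfl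

theorem LinA_L_inj1 {a b : ℂ × ℝ} (h : LinearIndependent ℝ ![a.1, b.1]) {c : ℝ} (hc : c ≠ 0) :
    Function.Injective ((ContinuousLinearMap.fst ℝ ℂ ℝ).comp (LinA_L a b c)) := by
  rw [injective_iff_map_eq_zero]
  rintro ⟨u, v⟩ huv
  have huv' : u • a.1 + (c * v) • b.1 = 0 := by
    have h1 : ((ContinuousLinearMap.fst ℝ ℂ ℝ).comp (LinA_L a b c)) (u, v) = (LinA_L a b c (u, v)).1 := rfl
    rw [h1, LinA_L_apply] at huv
    exact huv
  obtain ⟨h1, h2⟩ := LinearIndependent.pair_iff.1 h u (c * v) huv'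
  rw [h1, (mul_eq_zero.1 h2).resolve_left hc]
  rfl

theorem LinA_fdQ {g k : ℝ → ℂ × ℝ} (hg : ContDiff ℝ ∞ g) (hk : ContDiff ℝ ∞ k) {η : ℝ → ℝ} {c : ℝ}
    (h0 : η 0 = 0) (hη : HasDerivAt η c 0) (x : ℝ) :
    HasFDerivAt (LinA_Q g k η) (LinA_L (deriv g x) (k x) c) (x, 0) := by
  have h1 : HasDerivAt g (deriv g x) x := (hg.differentiable (by simp) x).hasDerivAt
  have h2 : HasDerivAt k (deriv k x) x := (hk.differentiable (by simp) x).hasDerivAt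
  have h3 : HasFDerivAt (fun q : ℝ × ℝ => g q.1)
      ((ContinuousLinearMap.fst ℝ ℝ ℝ).smulRight (deriv g x)) (x, 0) := by
    have := h1.hasFDerivAt.comp (x, (0 : ℝ)) (hasFDerivAt_fst (𝕜 := ℝ) (p := (x, (0 : ℝ))))
    refine this.congr_fderiv ?_
    ext <;> simp
  have h4 : HasFDerivAt (fun q : ℝ × ℝ => k q.1)
      ((ContinuousLinearMap.fst ℝ ℝ ℝ).smulRight (deriv k x)) (x, 0) := by
    have := h2.hasFDerivAt.comp (x, (0 : ℝ)) (hasFDerivAt_fst (𝕜 := ℝ) (p := (x, (0 : ℝ))))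
    refine this.congr_fderiv ?_
    ext <;> simp
  have h5 : HasFDerivAt (fun q : ℝ × ℝ => η q.2) (c • ContinuousLinearMap.snd ℝ ℝ ℝ) (x, 0) := by
    have h6 : HasDerivAt η c ((x, (0 : ℝ)) : ℝ × ℝ).2 := hη
    have := h6.hasFDerivAt.comp (x, (0 : ℝ)) (hasFDerivAt_snd (𝕜 := ℝ) (p := (x, (0 : ℝ))))
    refine this.congr_fderiv ?_
    ext <;> simp
  have h6 := h3.add (h5.smul h4)
  refine h6.congr_fderiv ?_
  simp only [h0, zero_smul, zero_add]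
  rfl

theorem LinA_Lin (g k : ℝ → ℂ × ℝ) (e : ℝ) : Lin g k e = LinA_Q g k (fun y => e * y) := rfl

theorem LinA_fd {g k : ℝ → ℂ × ℝ} (hg : ContDiff ℝ ∞ g) (hk : ContDiff ℝ ∞ k) (e x : ℝ) :
    HasFDerivAt (Lin g k e) (LinA_L (deriv g x) (k x) e) (x, 0) := by
  rw [LinA_Lin]
  refine LinA_fdQ hg hk (mul_zero e) ?_ x
  have := (hasDerivAt_id (0 : ℝ)).const_mul e
  simpa using this

/-- a family of maps with the right first jet along the core is a `CoreFam` -/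
theorem LinA_core {Λ : Set (ℂ × ℝ)} {t : ℝ} {g k : ℝ → ℝ → ℂ × ℝ} (h : DatFam Λ t g k) {c : ℝ}
    (hc : 0 < c) {Φ : ℝ → ℝ × ℝ → ℂ × ℝ} (hsm : ContDiff ℝ ∞ fun p : ℝ × (ℝ × ℝ) => Φ p.1 p.2)
    (hfoot : ∀ l ∈ Icc (0 : ℝ) 1, ∀ y : ℝ, |y| ≤ 1 → Φ l (0, y) = Φ 0 (0, y))
    (hfootU : ∀ y : ℝ, |y| ≤ 1 → (Φ 0 (0, y)).1 = 0)
    (hval : ∀ l ∈ Icc (0 : ℝ) 1, ∀ x ∈ Icc 0 (1 + t), Φ l (x, 0) = g l x)
    (hfd : ∀ l ∈ Icc (0 : ℝ) 1, ∀ x ∈ Icc 0 (1 + t),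
      HasFDerivAt (Φ l) (LinA_L (deriv (g l) x) (k l x) c) (x, 0)) : CoreFam Λ t Φ := by
  have ht : 0 < t := (h.dat 0 ⟨le_rfl, zero_le_one⟩).pos
  have h1 : (1 : ℝ) ∈ Icc 0 (1 + t) := ⟨zero_le_one, by linarith⟩
  refine ⟨hsm, ht, hfoot, hfootU, ?_, ?_, ?_, ?_, ?_, ?_⟩
  · intro l hl x hx y hy hxy
    simp only [hval l hl x hx, hval l hl y hy] at hxy
    exact (h.dat l hl).inj hx hy hxy
  · intro l hl x hx
    rw [(hfd l hl x hx).fderiv]
    exact LinA_L_inj ((h.dat l hl).imm x hx) hc.ne'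
  · intro l hl
    rw [hval l hl 1 h1]
    exact ((h.dat l hl).off 1 h1).2 (Or.inr rfl)
  · intro l hl x hx h2
    rw [hval l hl x hx] at h2
    exact ((h.dat l hl).off x hx).1 h2
  · intro l hl
    have h2 : HasFDerivAt (fun q : ℝ × ℝ => (Φ l q).1)
        ((ContinuousLinearMap.fst ℝ ℂ ℝ).comp (LinA_L (deriv (g l) 1) (k l 1) c)) (1, 0) :=
      (ContinuousLinearMap.fst ℝ ℂ ℝ).hasFDerivAt.comp ((1 : ℝ), (0 : ℝ)) (hfd l hl 1 h1)
    rw [h2.fderiv]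
    exact LinA_L_inj1 (h.dat l hl).tip hc.ne'
  · intro l hl x hx
    rw [hval l hl x hx]
    exact (h.dat l hl).avoid x hx

theorem coreFam_lin {Λ : Set (ℂ × ℝ)} {t : ℝ} {g k : ℝ → ℝ → ℂ × ℝ} (h : DatFam Λ t g k) {c : ℝ}
    (hc : 0 < c) : CoreFam Λ t (fun l => Lin (g l) (k l) c) := by
  have h00 : (0 : ℝ) ∈ Icc (0 : ℝ) 1 := ⟨le_rfl, zero_le_one⟩
  have ht : 0 < t := (h.dat 0 h00).pos
  have h0 : (0 : ℝ) ∈ Icc 0 (1 + t) := ⟨le_rfl, by linarith⟩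
  have hsl : ∀ l, ContDiff ℝ ∞ (g l) := fun l =>
    h.smg.comp (contDiff_const.prodMk contDiff_id : ContDiff ℝ ∞ fun x : ℝ => (l, x))
  have hskl : ∀ l, ContDiff ℝ ∞ (k l) := fun l =>
    h.smk.comp (contDiff_const.prodMk contDiff_id : ContDiff ℝ ∞ fun x : ℝ => (l, x))
  refine LinA_core h hc ?_ ?_ ?_ ?_ ?_
  · have c1 : ContDiff ℝ ∞ fun p : ℝ × (ℝ × ℝ) => (p.1, p.2.1) :=
      contDiff_fst.prodMk contDiff_snd.fst
    exact (h.smg.comp c1).add ((contDiff_const.mul contDiff_snd.snd).smul (h.smk.comp c1))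
  · intro l hl y _
    show g l 0 + (c * y) • k l 0 = g 0 0 + (c * y) • k 0 0
    rw [h.foot l hl, h.footk l hl]
  · intro y _
    show (g 0 0 + (c * y) • k 0 0).1 = 0
    rw [Prod.fst_add, Prod.smul_fst, ((h.dat 0 h00).off 0 h0).2 (Or.inl rfl), (h.dat 0 h00).base,
      smul_zero, add_zero]
  · intro l hl x hx
    show g l x + (c * 0) • k l x = g l x
    rw [mul_zero, zero_smul, add_zero]
  · intro l hl x hx
    exact LinA_fd (hsl l) (hskl l) c x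

theorem thin_lin (g k : ℝ → ℂ × ℝ) (e e' : ℝ) : thin e' (Lin g k e) = Lin g k (e * e') := by
  funext q
  show g q.1 + (e * (e' * q.2)) • k q.1 = g q.1 + (e * e' * q.2) • k q.1
  rw [mul_assoc]

theorem nrm_lin (g k : ℝ → ℂ × ℝ) (e x : ℝ) : nrm (Lin g k e) x = e • k x := by
  have h1 : HasDerivAt (fun y : ℝ => Lin g k e (x, y)) (e • k x) 0 := by
    have h2 : HasDerivAt (fun y : ℝ => e * y) e 0 := by
      have := (hasDerivAt_id (0 : ℝ)).const_mul e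
      simpa using this
    exact (h2.smul_const (k x)).const_add (g x)
  exact h1.deriv

theorem LinA_closed {L : SL} (h : ∀ p ∈ L, Strip p.1 p.2) : IsClosed (Sp L) := by
  refine (List.finite_toSet L).isClosed_biUnion fun p hp => ?_
  have h1 : IsCompact (Rec p.1) := isCompact_Icc.prod isCompact_Icc
  exact (h1.image (h p hp).smooth.continuous).isClosed

theorem LinA_const {Λ : Set (ℂ × ℝ)} {t : ℝ} {g k : ℝ → ℂ × ℝ} (hd : Dat Λ t g k) :
    DatFam Λ t (fun _ => g) (fun _ => k) :=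
  ⟨hd.smg.comp contDiff_snd, hd.smk.comp contDiff_snd, fun _ _ => hd, fun _ _ => rfl, fun _ _ => rfl⟩

theorem conf_lin {L : SL} {t : ℝ} {g k : ℝ → ℂ × ℝ} (hd : Dat (Sp L) t g k) (hL : Conf L) :
    ∃ e₀ : ℝ, 0 < e₀ ∧ e₀ ≤ 1 ∧ ∀ e : ℝ, 0 < e → e ≤ e₀ → Conf ((t, Lin g k e) :: L) := by
  obtain ⟨e₀, h0, h1, h2⟩ := strips_of_core (coreFam_lin (LinA_const hd) one_pos) (LinA_closed hL.1)
  refine ⟨e₀, h0, h1, fun e he hee => ?_⟩
  obtain ⟨h3, h4⟩ := h2 e he hee 0 ⟨le_rfl, zero_le_one⟩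
  rw [thin_lin, one_mul] at h3 h4
  refine ⟨?_, ?_⟩
  · intro p hp
    rcases List.mem_cons.1 hp with rfl | hp
    · exact h3
    · exact hL.1 p hp
  · rw [List.pairwise_cons]
    refine ⟨fun q hq => ?_, hL.2⟩
    refine h4.mono_right ?_
    exact subset_biUnion_of_mem (u := fun p : ℝ × (ℝ × ℝ → ℂ × ℝ) => p.2 '' Rec p.1) hq

/-- the derivative of a smooth strip along the core -/
theorem LinA_fdΦ {t c : ℝ} (ht : 0 < t) {g k : ℝ → ℂ × ℝ} (hg' : ContDiff ℝ ∞ g) {Φ : ℝ × ℝ → ℂ × ℝ}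
    (hs : ContDiff ℝ ∞ Φ) (hg : ∀ x ∈ Icc 0 (1 + t), Φ (x, 0) = g x)
    (hk : ∀ x ∈ Icc 0 (1 + t), nrm Φ x = c • k x) {x : ℝ} (hx : x ∈ Icc 0 (1 + t)) :
    HasFDerivAt Φ (LinA_L (deriv g x) (k x) c) (x, 0) := by
  have h1 : HasFDerivAt Φ (fderiv ℝ Φ (x, 0)) (x, 0) := (hs.differentiable (by simp) _).hasFDerivAt
  have h2 : HasDerivAt (fun s : ℝ => Φ (s, 0)) (fderiv ℝ Φ (x, 0) (1, 0)) x := by
    have h3 : HasDerivAt (fun s : ℝ => ((s, 0) : ℝ × ℝ)) ((1, 0) : ℝ × ℝ) x :=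
      (hasDerivAt_id x).prodMk (hasDerivAt_const x (0 : ℝ))
    exact h1.comp_hasDerivAt x h3
  have h3 : HasDerivAt (fun s : ℝ => Φ (x, s)) (fderiv ℝ Φ (x, 0) (0, 1)) 0 := by
    have h4 : HasDerivAt (fun s : ℝ => ((x, s) : ℝ × ℝ)) ((0, 1) : ℝ × ℝ) 0 :=
      (hasDerivAt_const (0 : ℝ) x).prodMk (hasDerivAt_id (0 : ℝ))
    exact HasFDerivAt.comp_hasDerivAt (f := fun s : ℝ => ((x, s) : ℝ × ℝ)) 0 h1 h4
  have e1 : fderiv ℝ Φ (x, 0) (1, 0) = deriv g x := by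
    have h4 : HasDerivAt g (deriv g x) x := (hg'.differentiable (by simp) x).hasDerivAt
    have h5 : HasDerivWithinAt (fun s : ℝ => Φ (s, 0)) (deriv g x) (Icc 0 (1 + t)) x :=
      h4.hasDerivWithinAt.congr (fun y hy => hg y hy) (hg x hx)
    exact UniqueDiffWithinAt.eq_deriv _ (uniqueDiffOn_Icc (by linarith) x hx) h2.hasDerivWithinAt h5
  have e2 : fderiv ℝ Φ (x, 0) (0, 1) = c • k x := by
    rw [← hk x hx]
    exact h3.deriv.symm
  refine h1.congr_fderiv ?_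
  refine ContinuousLinearMap.ext fun q => ?_
  obtain ⟨u, v⟩ := q
  have e3 : ((u, v) : ℝ × ℝ) = u • (1, 0) + v • (0, 1) := by
    simp
  rw [LinA_L_apply, e3, map_add, map_smul, map_smul, e1, e2, smul_smul, mul_comm v c]

theorem kn_lin {L : SL} {t c : ℝ} {g k : ℝ → ℂ × ℝ} (hd : Dat (Sp L) t g k) {Φ : ℝ × ℝ → ℂ × ℝ}
    (hc : 0 < c) (hC : Conf ((t, Φ) :: L)) (hg : ∀ x ∈ Icc 0 (1 + t), Φ (x, 0) = g x)
    (hk : ∀ x ∈ Icc 0 (1 + t), nrm Φ x = c • k x) :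
    ∃ e₀ : ℝ, 0 < e₀ ∧ e₀ ≤ 1 ∧ ∀ e : ℝ, 0 < e → e ≤ e₀ →
      Conf ((t, Lin g k e) :: L) ∧ LEq (Kn ((t, Φ) :: L)) (Kn ((t, Lin g k e) :: L)) := by
  have hΦ : Strip t Φ := hC.1 (t, Φ) List.mem_cons_self
  have hL : Conf L := ⟨fun p hp => hC.1 p (List.mem_cons_of_mem _ hp), (List.pairwise_cons.1 hC.2).2⟩
  have ht : 0 < t := hd.pos
  have h0 : (0 : ℝ) ∈ Icc 0 (1 + t) := ⟨le_rfl, by linarith⟩
  -- the profile
  have hk2 : (k 0).2 ≠ 0 := by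
    intro h1
    have h2 : k 0 = 0 := Prod.ext hd.base h1
    have h3 := (hd.imm 0 h0).ne_zero (1 : Fin 2)
    exact h3 h2
  obtain ⟨η, hη⟩ : ∃ η : ℝ → ℝ, ∀ y, η y = ((Φ (0, y)).2 - (Φ (0, 0)).2) / (k 0).2 :=
    ⟨fun y => ((Φ (0, y)).2 - (Φ (0, 0)).2) / (k 0).2, fun y => rfl⟩
  have cη : ContDiff ℝ ∞ η := by
    have e : η = fun y => ((Φ (0, y)).2 - (Φ (0, 0)).2) / (k 0).2 := funext hη
    rw [e]
    have h1 : ContDiff ℝ ∞ fun y : ℝ => Φ (0, y) := hΦ.smooth.comp (contDiff_const.prodMk contDiff_id)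
    exact (h1.snd.sub contDiff_const).div_const _
  have hη0 : η 0 = 0 := by rw [hη, sub_self, zero_div]
  have hηd : HasDerivAt η c 0 := by
    have e : η = fun y => ((Φ (0, y)).2 - (Φ (0, 0)).2) / (k 0).2 := funext hη
    have h1 : HasDerivAt (fun y : ℝ => Φ (0, y)) (nrm Φ 0) 0 := by
      have h2 : ContDiff ℝ ∞ fun y : ℝ => Φ (0, y) := hΦ.smooth.comp (contDiff_const.prodMk contDiff_id)
      exact (h2.differentiable (by simp) 0).hasDerivAt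
    have h2 : HasDerivAt (fun y : ℝ => (Φ (0, y)).2) (nrm Φ 0).2 0 :=
      (ContinuousLinearMap.snd ℝ ℂ ℝ).hasFDerivAt.comp_hasDerivAt (0 : ℝ) h1
    have h3 := (h2.sub_const (Φ (0, 0)).2).div_const (k 0).2
    rw [← e, hk 0 h0, Prod.smul_snd, smul_eq_mul, mul_div_assoc, div_self hk2, mul_one] at h3
    exact h3
  -- the family
  have hQ0 : ∀ y : ℝ, |y| ≤ 1 → LinA_Q g k η (0, y) = Φ (0, y) := by
    intro y hy
    refine Prod.ext ?_ ?_
    · show (g 0 + η y • k 0).1 = (Φ (0, y)).1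
      rw [Prod.fst_add, Prod.smul_fst, (hd.off 0 h0).2 (Or.inl rfl), hd.base, smul_zero, add_zero,
        hΦ.foot y hy]
    · show (g 0 + η y • k 0).2 = (Φ (0, y)).2
      rw [Prod.snd_add, Prod.smul_snd, hη, ← hg 0 h0, smul_eq_mul, div_mul_cancel₀ _ hk2]
      ring
  have cQ : ContDiff ℝ ∞ (LinA_Q g k η) :=
    (hd.smg.comp contDiff_fst).add ((cη.comp contDiff_snd).smul (hd.smk.comp contDiff_fst))
  obtain ⟨Ψ, hΨ⟩ : ∃ Ψ : ℝ → ℝ × ℝ → ℂ × ℝ, ∀ l q, Ψ l q = (1 - l) • Φ q + l • LinA_Q g k η q :=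
    ⟨fun l q => (1 - l) • Φ q + l • LinA_Q g k η q, fun l q => rfl⟩
  have hΨ0 : Ψ 0 = Φ := by
    funext q
    rw [hΨ, sub_zero, one_smul, zero_smul, add_zero]
  have hΨ1 : Ψ 1 = LinA_Q g k η := by
    funext q
    rw [hΨ, sub_self, zero_smul, one_smul, zero_add]
  have hQx : ∀ x, LinA_Q g k η (x, 0) = g x := by
    intro x
    show g x + η 0 • k x = g x
    rw [hη0, zero_smul, add_zero]
  have hcore : CoreFam (Sp L) t Ψ := by
    refine LinA_core (LinA_const hd) hc ?_ ?_ ?_ ?_ ?_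
    · have e : (fun p : ℝ × (ℝ × ℝ) => Ψ p.1 p.2) =
          fun p => (1 - p.1) • Φ p.2 + p.1 • LinA_Q g k η p.2 := funext fun p => hΨ p.1 p.2
      rw [e]
      exact ((contDiff_const.sub contDiff_fst).smul (hΦ.smooth.comp contDiff_snd)).add
        (contDiff_fst.smul (cQ.comp contDiff_snd))
    · intro l _ y hy
      rw [hΨ, hΨ0, hQ0 y hy, ← add_smul, sub_add_cancel, one_smul]
    · intro y hy
      rw [hΨ0]
      exact hΦ.foot y hy
    · intro l _ x hx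
      rw [hΨ, hQx, hg x hx, ← add_smul, sub_add_cancel, one_smul]
    · intro l _ x hx
      have h1 := LinA_fdΦ (c := c) ht hd.smg hΦ.smooth hg hk hx
      have h2 := LinA_fdQ hd.smg hd.smk hη0 hηd x
      have h3 := (h1.const_smul (1 - l)).add (h2.const_smul l)
      have e : Ψ l = fun q => (1 - l) • Φ q + l • LinA_Q g k η q := funext fun q => hΨ l q
      rw [e]
      refine h3.congr_fderiv ?_
      rw [← add_smul, sub_add_cancel, one_smul]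
  obtain ⟨e₁, he₁, he₁', hfam⟩ := strip_fam (Φ := Ψ) (by rw [hΨ0]; exact hC) hcore
  rw [hΨ0, hΨ1] at hfam
  obtain ⟨e₀, he₀, he₀', hconf⟩ := conf_lin hd hL
  refine ⟨e₀, he₀, he₀', fun e₂ he₂ hee₂ => ?_⟩
  have hC2 := hconf e₂ he₂ hee₂
  refine ⟨hC2, ?_⟩
  -- choice of `e`
  have hηd' : ContDiff ℝ ∞ (deriv η) := by
    have h1 : ContDiff ℝ (∞ + 1) η := cη
    exact (contDiff_succ_iff_deriv.1 h1).2.2
  have ev1 : ∀ᶠ s in 𝓝 (0 : ℝ), 0 < deriv η s := by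
    have h1 : ContinuousAt (deriv η) 0 := hηd'.continuous.continuousAt
    exact h1.eventually (lt_mem_nhds (by rw [hηd.deriv]; exact hc))
  have ev2 : ∀ᶠ s in 𝓝 (0 : ℝ), |η s| < e₂ := by
    have h1 : ContinuousAt (fun s => |η s|) 0 := cη.continuous.abs.continuousAt
    exact h1.eventually_lt_const (by
      show |η 0| < e₂
      rw [hη0, abs_zero]
      exact he₂)
  obtain ⟨ε, hε, hball⟩ := Metric.eventually_nhds_iff.1 (ev1.and ev2)
  obtain ⟨e, he, hee₁, heε⟩ : ∃ e : ℝ, 0 < e ∧ e ≤ e₁ ∧ e < ε :=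
    ⟨min e₁ (ε / 2), lt_min he₁ (by linarith), min_le_left _ _, (min_le_right _ _).trans_lt (by linarith)⟩
  have hsm : ∀ y ∈ Icc (-1 : ℝ) 1, 0 < deriv η (e * y) ∧ |η (e * y)| < e₂ := by
    intro y hy
    refine hball ?_
    rw [Real.dist_0_eq_abs, abs_mul, abs_of_pos he]
    have : |y| ≤ 1 := abs_le.2 hy
    nlinarith
  obtain ⟨-, hL1⟩ := hfam e he hee₁
  have hrep : IsRep t t id (fun y => η (e * y) / e₂) := by
    refine ⟨contDiff_id, (cη.comp (contDiff_const.mul contDiff_id)).div_const _, ht, rfl, rfl, ?_, le_rfl,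
      ?_, ?_, ?_⟩
    · intro x _
      rw [deriv_id]
      exact one_pos
    · simp only [mul_zero, hη0, zero_div]
    · intro y hy
      have h1 : HasDerivAt (fun y => η (e * y) / e₂) (deriv η (e * y) * e / e₂) y := by
        have h2 : HasDerivAt (fun y : ℝ => e * y) e y := by
          have := (hasDerivAt_id y).const_mul e
          simpa using this
        have h3 : HasDerivAt η (deriv η (e * y)) (e * y) :=
          (cη.differentiable (by simp) _).hasDerivAt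
        exact (HasDerivAt.comp y h3 h2).div_const e₂
      rw [h1.deriv]
      exact div_pos (mul_pos (hsm y hy).1 he) he₂
    · intro y hy
      rw [abs_div, abs_of_pos he₂, div_le_one he₂]
      exact (hsm y hy).2.le
  have hL2 := rep_LEq hrep hC2
  have e3 : Rpm id (fun y => η (e * y) / e₂) (Lin g k e₂) = thin e (LinA_Q g k η) := by
    funext q
    show g q.1 + (e₂ * (η (e * q.2) / e₂)) • k q.1 = g q.1 + η (e * q.2) • k q.1
    rw [mul_div_cancel₀ _ he₂.ne']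
  rw [e3] at hL2
  exact hL1.trans hL2.symm

/-- The knot only depends on the jet of the strip along the core. -/
theorem kn_jet {L : SL} {t c : ℝ} {Φ Ψ : ℝ × ℝ → ℂ × ℝ} (hc : 0 < c) (hC : Conf ((t, Φ) :: L))
    (hC' : Conf ((t, Ψ) :: L)) (hg : ∀ x ∈ Icc 0 (1 + t), Ψ (x, 0) = Φ (x, 0))
    (hk : ∀ x ∈ Icc 0 (1 + t), nrm Ψ x = c • nrm Φ x)
    (hd : Dat (Sp L) t (fun x => Φ (x, 0)) (nrm Φ)) :
    LEq (Kn ((t, Φ) :: L)) (Kn ((t, Ψ) :: L)) := by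
  obtain ⟨e₀, he₀, -, h1⟩ := kn_lin hd one_pos hC (fun x _ => rfl) (fun x _ => (one_smul ℝ _).symm)
  obtain ⟨e₁, he₁, -, h2⟩ := kn_lin hd hc hC' hg hk
  have h3 := (h1 (min e₀ e₁) (lt_min he₀ he₁) (min_le_left _ _)).2
  have h4 := (h2 (min e₀ e₁) (lt_min he₀ he₁) (min_le_right _ _)).2
  exact h3.trans h4.symm

/-- It is enough to treat one linear strip. -/
theorem gd_of_lin {L : SL} {t e : ℝ} {g k : ℝ → ℂ × ℝ} (hd : Dat (Sp L) t g k) (he : 0 < e)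
    (hC : Conf ((t, Lin g k e) :: L)) (h : LEq (Kn ((t, Lin g k e) :: L)) U) : Gd L t g k := by
  intro Φ c hc hC' hg hk
  obtain ⟨e₀, he₀, -, h1⟩ := kn_lin hd hc hC' hg hk
  obtain ⟨e₁, he₁, -, h2⟩ := kn_lin hd he hC (fun x _ => by
    show g x + (e * 0) • k x = g x
    rw [mul_zero, zero_smul, add_zero]) (fun x _ => nrm_lin g k e x)
  have h3 := (h1 (min e₀ e₁) (lt_min he₀ he₁) (min_le_left _ _)).2
  have h4 := (h2 (min e₀ e₁) (lt_min he₀ he₁) (min_le_right _ _)).2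
  exact (h3.trans h4.symm).trans h

end Pool.Agent.KNT
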