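import Pool.Agent.KNT.Cdm

/-!
# KNT/ArcI: isotopy of an arc in the complement of a closed set

PROOF of `arc_iso`. Apply `ISO.core_arc` with `Λ = ⊥` (`Lat ⊥` is trivial: the set is contained in `{0}`), `O = Zᶜ`,
`a₀ = -2`, `a = -1`, `a' = -r`, `b' = r`, `b = 1`, `b₀ = 2`; `k s l = k s l' + m` with `m ∈ ⊥` means `m = 0`. Then
`cd_of_move`.
PROOF of `arc_LEq`. `F` of `arc_iso` fixes the points of `Z` (`CD.fix`), so `F '' (Z ∪ k 0 '' I) = Z ∪ k 1 '' I`;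
`LEq.of_cd`.
-/

open scoped ContDiff Topology
open Set Filter
open Pool.Agent.CSG (stp)
open Pool.Agent.RSG (ex)

namespace Pool.Agent.KNT

theorem arc_iso {Z : Set (ℂ × ℝ)} (hZ : IsClosed Z) {k : ℝ → ℝ → ℂ × ℝ} {r : ℝ} (hr : 0 < r) (hr1 : r < 1)
    (hk : ContDiff ℝ ∞ fun p : ℝ × ℝ => k p.1 p.2)
    (hend : ∀ s ∈ Icc (0 : ℝ) 1, ∀ y ∈ Icc (-1 : ℝ) 1, r ≤ |y| → k s y = k 0 y)
    (hkZ : ∀ s ∈ Icc (0 : ℝ) 1, ∀ y : ℝ, |y| ≤ r → k s y ∉ Z)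
    (himm : ∀ s ∈ Icc (0 : ℝ) 1, ∀ y ∈ Icc (-1 : ℝ) 1, deriv (k s) y ≠ 0)
    (hinj : ∀ s ∈ Icc (0 : ℝ) 1, InjOn (k s) (Icc (-1 : ℝ) 1)) :
    ∃ F : Equiv.Perm (ℂ × ℝ), CD Zᶜ F ∧ ∀ y ∈ Icc (-1 : ℝ) 1, F (k 0 y) = k 1 y := by
  have hL : ISO.Lat (⊥ : AddSubgroup (ℂ × ℝ)) := by
    intro R
    apply (finite_singleton (0 : ℂ × ℝ)).subset
    rintro m ⟨hm, -⟩
    exact AddSubgroup.mem_bot.1 hm
  obtain ⟨F, hF, hFk⟩ := ISO.core_arc hL hZ.isOpen_compl (k := k) (a₀ := -2) (a := -1) (a' := -r)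
    (b' := r) (b := 1) (b₀ := 2) (by norm_num) (by linarith) hr1 (by norm_num)
    (fun s _ l _ => hk.contDiffAt)
    (by
      intro s hs l hl h
      apply hend s hs l hl
      rcases h with h | h
      · rw [abs_of_nonpos (by linarith)]
        linarith
      · exact h.trans (le_abs_self l))
    (by
      intro s hs l hl
      exact hkZ s hs l (abs_le.2 hl))
    himm
    (by
      intro s hs l hl l' hl' m hm he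
      rw [AddSubgroup.mem_bot] at hm
      rw [hm, add_zero] at he
      exact hinj s hs hl hl' he)
  exact ⟨F, cd_of_move hF, hFk⟩

theorem arc_LEq {Z : Set (ℂ × ℝ)} (hZ : IsClosed Z) {k : ℝ → ℝ → ℂ × ℝ} {r : ℝ} (hr : 0 < r) (hr1 : r < 1)
    (hk : ContDiff ℝ ∞ fun p : ℝ × ℝ => k p.1 p.2)
    (hend : ∀ s ∈ Icc (0 : ℝ) 1, ∀ y ∈ Icc (-1 : ℝ) 1, r ≤ |y| → k s y = k 0 y)
    (hkZ : ∀ s ∈ Icc (0 : ℝ) 1, ∀ y : ℝ, |y| ≤ r → k s y ∉ Z)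
    (himm : ∀ s ∈ Icc (0 : ℝ) 1, ∀ y ∈ Icc (-1 : ℝ) 1, deriv (k s) y ≠ 0)
    (hinj : ∀ s ∈ Icc (0 : ℝ) 1, InjOn (k s) (Icc (-1 : ℝ) 1)) :
    LEq (Z ∪ k 0 '' Icc (-1 : ℝ) 1) (Z ∪ k 1 '' Icc (-1 : ℝ) 1) := by
  obtain ⟨F, hF, hFk⟩ := arc_iso hZ hr hr1 hk hend hkZ himm hinj
  have h1 : F '' (Z ∪ k 0 '' Icc (-1 : ℝ) 1) = Z ∪ k 1 '' Icc (-1 : ℝ) 1 := by
    rw [image_union, hF.image_disj disjoint_compl_right]
    congr 1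
    rw [image_image]
    exact image_congr hFk
  rw [← h1]
  exact LEq.of_cd hF _

end Pool.Agent.KNT
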