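import Mathlib
import Pool.Agent.RSG.Defs
import Pool.Agent.CSG.FunBasic

/-!
# KNT/Defs: set level moves of knots in `E = ℂ × ℝ`, strips and fingers

`U` is the axis `{w = 0}`; long knots are closed subsets of `E` equal to `U` outside a compact set.

* `CD O F`: `F` is a diffeomorphism of `E`, the identity off a compact subset of `O`.
* `LEq K K'`: the equivalence relation generated by compactly supported diffeomorphisms, the 4-move in a ball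
  chart (`four`) and the regular homotopy of ONE ribbon (`rib`).
* `Strip t Φ`: a strip `Φ (x, y)`, `x ∈ [0, 1 + t]`, `|y| ≤ 1`; it meets `U` in the base `x = 0` and in the
  point `Φ (1, 0)` (transversally).
* `Kn L`: the axis `U` with one finger along each strip of the list `L`.
* `HG u t g`: every knot with a finger along a strip with core `g`, and `u` other fingers, is trivial.
* `Gd L t g k`: the same for given other fingers `L` and given `1`-jet of the strip along the core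
  (`k`: derivative in the direction of `y`, up to a positive constant).
-/

open scoped ContDiff Topology
open Set Filter
open Pool.Agent.CSG (stp)
open Pool.Agent.RSG (ex)

namespace Pool.Agent.KNT

/-- `F` is a diffeomorphism of `ℂ × ℝ`, the identity off a compact subset of `O`. -/
structure CD (O : Set (ℂ × ℝ)) (F : Equiv.Perm (ℂ × ℝ)) : Prop where
  smooth : ContDiff ℝ ∞ F
  smooth_symm : ContDiff ℝ ∞ F.symm
  supp : ∃ C : Set (ℂ × ℝ), IsCompact C ∧ C ⊆ O ∧ ∀ x, x ∉ C → F x = x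

/-- the axis -/
def U : Set (ℂ × ℝ) := {q | q.1 = 0}

/-! ## ball charts and the relation `LEq` -/

/-- the domain of ball charts -/
def Dom : Set (ℂ × ℝ) := {q | ‖q.1‖ < 4 ∧ |q.2| < 1}

/-- `b` is the chart of a ball. -/
structure BalC (b : ℂ × ℝ → ℂ × ℝ) : Prop where
  smooth : ∀ q ∈ Dom, ContDiffAt ℝ ∞ b q
  imm : ∀ q ∈ Dom, Function.Injective (fderiv ℝ b q)
  inj : InjOn b Dom

/-- `b l`, `0 ≤ l ≤ 1`, is a family of immersed balls, fixed for `1/2 ≤ |s|`, embedded for `l = 0` and `l = 1`; the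
moving part does not meet the end pieces `3/4 ≤ |s|`. -/
structure Tubes (b : ℝ → ℂ × ℝ → ℂ × ℝ) : Prop where
  smooth : ∀ l ∈ Icc (0 : ℝ) 1, ∀ q ∈ Dom, ContDiffAt ℝ ∞ (fun p : ℝ × (ℂ × ℝ) => b p.1 p.2) (l, q)
  imm : ∀ l ∈ Icc (0 : ℝ) 1, ∀ q ∈ Dom, Function.Injective (fderiv ℝ (b l) q)
  ends : ∀ l ∈ Icc (0 : ℝ) 1, ∀ q ∈ Dom, 1 / 2 ≤ |q.2| → b l q = b 0 q
  inj0 : InjOn (b 0) Dom
  inj1 : InjOn (b 1) Dom
  sep : ∀ l ∈ Icc (0 : ℝ) 1, ∀ q ∈ Dom, |q.2| ≤ 1 / 2 → ∀ q' ∈ Dom, 3 / 4 ≤ |q'.2| → b l q ≠ b 0 q'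

/-- two straight strands -/
def Str : Set (ℂ × ℝ) := {q | (q.1 = 1 ∨ q.1 = -1) ∧ |q.2| < 1}

/-- `0` for `s ≤ -1/8`, `1` for `s ≥ 1/16` (the function `RBM.gs`) -/
noncomputable def gs (s : ℝ) : ℝ := stp (-(1 / 8)) (1 / 16) s

/-- the two strands make two full turns around `0` -/
def Str2 : Set (ℂ × ℝ) := {q | (q.1 = ex (2 * gs q.2) ∨ q.1 = -ex (2 * gs q.2)) ∧ |q.2| < 1}

/-- The equivalence relation of (long) knots, as subsets of `ℂ × ℝ`. -/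
inductive LEq : Set (ℂ × ℝ) → Set (ℂ × ℝ) → Prop
  | refl (K : Set (ℂ × ℝ)) : LEq K K
  | symm {K K' : Set (ℂ × ℝ)} : LEq K K' → LEq K' K
  | trans {K K' K'' : Set (ℂ × ℝ)} : LEq K K' → LEq K' K'' → LEq K K''
  | diff (K : Set (ℂ × ℝ)) {F : Equiv.Perm (ℂ × ℝ)} : CD univ F → LEq K (F '' K)
  | four {Z : Set (ℂ × ℝ)} {b : ℂ × ℝ → ℂ × ℝ} : BalC b → Disjoint Z (b '' Dom) →
      LEq (Z ∪ b '' Str) (Z ∪ b '' Str2)
  | rib {Z : Set (ℂ × ℝ)} {b : ℝ → ℂ × ℝ → ℂ × ℝ} : Tubes b →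
      (∀ l ∈ Icc (0 : ℝ) 1, Disjoint Z (b l '' Dom)) → LEq (Z ∪ b 0 '' Str) (Z ∪ b 1 '' Str)

/-- long knots -/
def LongK (K : Set (ℂ × ℝ)) : Prop :=
  ∃ k : ℝ → ℂ × ℝ, ContDiff ℝ ∞ k ∧ Function.Injective k ∧ (∀ s, deriv k s ≠ 0) ∧
    (∃ r : ℝ, ∀ s, r ≤ |s| → k s = (0, s)) ∧ K = range k

/-! ## strips and fingers -/

/-- `1` for `|y| ≤ 1/16`, `0` for `|y| ≥ 1/8` -/
noncomputable def bmp (y : ℝ) : ℝ := 1 - stp (1 / 256) (1 / 64) (y ^ 2)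

/-- the profile of the finger -/
noncomputable def prf (t y : ℝ) : ℝ := (1 + t / 2) * bmp y

/-- domain of a strip -/
def Rec (t : ℝ) : Set (ℝ × ℝ) := Icc 0 (1 + t) ×ˢ Icc (-1) 1

/-- a strip -/
structure Strip (t : ℝ) (Φ : ℝ × ℝ → ℂ × ℝ) : Prop where
  pos : 0 < t
  smooth : ContDiff ℝ ∞ Φ
  inj : InjOn Φ (Rec t)
  imm : ∀ q ∈ Rec t, Function.Injective (fderiv ℝ Φ q)
  foot : ∀ y : ℝ, |y| ≤ 1 → (Φ (0, y)).1 = 0
  tip : (Φ (1, 0)).1 = 0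
  off : ∀ q ∈ Rec t, (Φ q).1 = 0 → q.1 = 0 ∨ q = (1, 0)
  trv : Function.Injective (fderiv ℝ (fun q : ℝ × ℝ => (Φ q).1) (1, 0))

/-- graph of the function `p` in the strip -/
def gr (Φ : ℝ × ℝ → ℂ × ℝ) (p : ℝ → ℝ) : Set (ℂ × ℝ) := (fun y : ℝ => Φ (p y, y)) '' Icc (-1) 1

/-- the (open) base of the strip -/
def bas (Φ : ℝ × ℝ → ℂ × ℝ) : Set (ℂ × ℝ) := (fun y : ℝ => Φ (0, y)) '' Ioo (-1) 1

/-- Lists of strips -/
abbrev SL := List (ℝ × (ℝ × ℝ → ℂ × ℝ))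

/-- the union of the strips of the list -/
def Sp (L : SL) : Set (ℂ × ℝ) := ⋃ p ∈ L, p.2 '' Rec p.1

/-- the union of the bases -/
def Bs (L : SL) : Set (ℂ × ℝ) := ⋃ p ∈ L, bas p.2

/-- the union of the fingers -/
def Fg (L : SL) : Set (ℂ × ℝ) := ⋃ p ∈ L, gr p.2 (prf p.1)

/-- the axis with one finger for each strip of the list -/
def Kn (L : SL) : Set (ℂ × ℝ) := (U \ Bs L) ∪ Fg L

/-- a configuration of disjoint strips -/
def Conf (L : SL) : Prop :=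
  (∀ p ∈ L, Strip p.1 p.2) ∧ L.Pairwise fun p q => Disjoint (p.2 '' Rec p.1) (q.2 '' Rec q.1)

/-- image of the strips under a map -/
def mp (F : ℂ × ℝ → ℂ × ℝ) (L : SL) : SL := L.map fun p => (p.1, F ∘ p.2)

/-- the thinned strip -/
def thin (e : ℝ) (Φ : ℝ × ℝ → ℂ × ℝ) : ℝ × ℝ → ℂ × ℝ := fun q => Φ (q.1, e * q.2)

/-- All knots with a finger along the core `g`, and `u` other fingers, are trivial. -/
def HG (u : ℕ) (t : ℝ) (g : ℝ → ℂ × ℝ) : Prop :=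
  ∀ (Φ : ℝ × ℝ → ℂ × ℝ) (L : SL), L.length = u → Conf ((t, Φ) :: L) →
    (∀ x ∈ Icc 0 (1 + t), Φ (x, 0) = g x) → LEq (Kn ((t, Φ) :: L)) U

/-- the derivative of the strip in the transversal direction, along the core -/
noncomputable def nrm (Φ : ℝ × ℝ → ℂ × ℝ) (x : ℝ) : ℂ × ℝ := deriv (fun y : ℝ => Φ (x, y)) 0

/-- All knots with the other fingers `L` and a finger along a strip with core `g` and transversal derivative
proportional to `k` are trivial. -/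
def Gd (L : SL) (t : ℝ) (g k : ℝ → ℂ × ℝ) : Prop :=
  ∀ (Φ : ℝ × ℝ → ℂ × ℝ) (c : ℝ), 0 < c → Conf ((t, Φ) :: L) →
    (∀ x ∈ Icc 0 (1 + t), Φ (x, 0) = g x) → (∀ x ∈ Icc 0 (1 + t), nrm Φ x = c • k x) →
      LEq (Kn ((t, Φ) :: L)) U

/-- Data along a core: `g` core, `k` transversal direction; `Λ` is to be avoided. -/
structure Dat (Λ : Set (ℂ × ℝ)) (t : ℝ) (g k : ℝ → ℂ × ℝ) : Prop where
  pos : 0 < t
  smg : ContDiff ℝ ∞ g
  smk : ContDiff ℝ ∞ k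
  inj : InjOn g (Icc 0 (1 + t))
  off : ∀ x ∈ Icc 0 (1 + t), (g x).1 = 0 ↔ x = 0 ∨ x = 1
  imm : ∀ x ∈ Icc 0 (1 + t), LinearIndependent ℝ ![deriv g x, k x]
  base : (k 0).1 = 0
  tip : LinearIndependent ℝ ![(deriv g 1).1, (k 1).1]
  avoid : ∀ x ∈ Icc 0 (1 + t), g x ∉ Λ

/-- A family of data with fixed foot. -/
structure DatFam (Λ : Set (ℂ × ℝ)) (t : ℝ) (g k : ℝ → ℝ → ℂ × ℝ) : Prop where
  smg : ContDiff ℝ ∞ fun p : ℝ × ℝ => g p.1 p.2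
  smk : ContDiff ℝ ∞ fun p : ℝ × ℝ => k p.1 p.2
  dat : ∀ l ∈ Icc (0 : ℝ) 1, Dat Λ t (g l) (k l)
  foot : ∀ l ∈ Icc (0 : ℝ) 1, g l 0 = g 0 0
  footk : ∀ l ∈ Icc (0 : ℝ) 1, k l 0 = k 0 0

/-- A regular homotopy of the part `(a, b)` of the core, in the complement of `U`, of `Λ` and of the rest of the
core. -/
structure CrossFam (Λ : Set (ℂ × ℝ)) (t a b : ℝ) (g k : ℝ → ℝ → ℂ × ℝ) : Prop where
  smg : ContDiff ℝ ∞ fun p : ℝ × ℝ => g p.1 p.2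
  smk : ContDiff ℝ ∞ fun p : ℝ × ℝ => k p.1 p.2
  a_pos : 0 < a
  a_lt : a < b
  b_lt : b < 1
  dat0 : Dat Λ t (g 0) (k 0)
  dat1 : Dat Λ t (g 1) (k 1)
  ends : ∀ l ∈ Icc (0 : ℝ) 1, ∀ x, x ∉ Ioo a b → g l x = g 0 x ∧ k l x = k 0 x
  imm : ∀ l ∈ Icc (0 : ℝ) 1, ∀ x ∈ Icc a b, LinearIndependent ℝ ![deriv (g l) x, k l x]
  off : ∀ l ∈ Icc (0 : ℝ) 1, ∀ x ∈ Icc a b, (g l x).1 ≠ 0
  avoid : ∀ l ∈ Icc (0 : ℝ) 1, ∀ x ∈ Icc a b, g l x ∉ Λ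
  self : ∀ l ∈ Icc (0 : ℝ) 1, ∀ x ∈ Icc a b, ∀ y ∈ Icc 0 (1 + t), y ∉ Ioo a b → g l x = g 0 y → x = y

/-! ## cores in polar form -/

/-- the curve with polar data -/
noncomputable def cor (ρ θ h : ℝ → ℝ) (x : ℝ) : ℂ × ℝ := ((ρ x : ℂ) * ex (θ x), h x)

/-- the semicircle `z = 2 x - 1 ∈ [-1, 1] ↦ ((1 - z²) / (1 + z²), 2 z / (1 + z²))` -/
noncomputable def qs (x : ℝ) : ℝ := (1 - (2 * x - 1) ^ 2) / (1 + (2 * x - 1) ^ 2)
noncomputable def ps (x : ℝ) : ℝ := 2 * (2 * x - 1) / (1 + (2 * x - 1) ^ 2)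

/-- the standard core: the semicircle in the half plane of angle `θ` with foot `(0, c - R)` and tip `(0, c + R)`
(`R > 0` or `R < 0`) -/
noncomputable def gsph (c R θ : ℝ) : ℝ → ℂ × ℝ :=
  cor (fun x => |R| * qs x) (fun _ => θ) (fun x => c + R * ps x)

/-- The core is in normal form near the feet: it is the semicircle for `x ≤ δ` (in the half plane of angle `θ₀`) and
for `1 - δ ≤ x` (in the half plane of angle `θ₁`). -/
structure NCore (c R θ₀ θ₁ δ t : ℝ) (ρ θ h : ℝ → ℝ) : Prop where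
  smρ : ContDiff ℝ ∞ ρ
  smθ : ContDiff ℝ ∞ θ
  smh : ContDiff ℝ ∞ h
  R_ne : R ≠ 0
  δ_pos : 0 < δ
  δ_lt : δ < 1 / 4
  t_pos : 0 < t
  t_le : t ≤ δ / 4
  foot₀ : ∀ x ≤ δ, ρ x = |R| * qs x ∧ h x = c + R * ps x ∧ θ x = θ₀
  foot₁ : ∀ x, 1 - δ ≤ x → ρ x = |R| * qs x ∧ h x = c + R * ps x ∧ θ x = θ₁
  mid : ∀ x, δ < x → x < 1 - δ → |R| * qs δ < ρ x

/-- Generic shadow: immersed, transversal double points, no triple points on `[a, b]`. -/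
structure Gen (a b : ℝ) (ρ h : ℝ → ℝ) : Prop where
  imm : ∀ x ∈ Icc a b, (deriv ρ x, deriv h x) ≠ (0, 0)
  dbl : ∀ x ∈ Icc a b, ∀ y ∈ Icc a b, x ≠ y → (ρ x, h x) = (ρ y, h y) →
    deriv ρ x * deriv h y - deriv h x * deriv ρ y ≠ 0
  trp : ∀ x ∈ Icc a b, ∀ y ∈ Icc a b, ∀ z ∈ Icc a b, x ≠ y → y ≠ z → x ≠ z →
    (ρ x, h x) = (ρ y, h y) → (ρ x, h x) ≠ (ρ z, h z)

end Pool.Agent.KNT
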