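import Pool.Agent.KNT.BlkI

/-!
# KNT/Main3: every long knot is trivial
-/

open scoped ContDiff Topology
open Set Filter

namespace Pool.Agent.KNT

theorem Kn_nil : Kn [] = U := by
  ext x
  simp [Kn, Bs, Fg]

theorem conf_tail {p : ℝ × (ℝ × ℝ → ℂ × ℝ)} {L : SL} (h : Conf (p :: L)) : Conf L :=
  ⟨fun q hq => h.1 q (List.mem_cons_of_mem _ hq), (List.pairwise_cons.1 h.2).2⟩

theorem all_HG {u : ℕ} (IH : ∀ L : SL, L.length = u → Conf L → LEq (Kn L) U) (t : ℝ) (g : ℝ → ℂ × ℝ) :
    HG u t g := by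
  refine core_normal (fun c R θ₀ θ₁ δ t ρ θ h hn hg hi => ?_) t g
  exact straight_HG hn hg hi (final_HG IH θ₀ hn.R_ne hn.t_pos)

theorem all_conf (u : ℕ) : ∀ L : SL, L.length = u → Conf L → LEq (Kn L) U := by
  induction u with
  | zero =>
    intro L hL _
    rw [List.length_eq_zero_iff.1 hL, Kn_nil]
    exact LEq.refl _
  | succ u ih =>
    intro L hL hC
    match L, hL, hC with
    | (t, Φ) :: L, hL, hC =>
      exact all_HG ih t (fun x => Φ (x, 0)) Φ L (by simpa using hL) hC fun x _ => rfl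

/-- **Every long knot is equivalent to the trivial one.** -/
theorem long_trivial {K : Set (ℂ × ℝ)} (hK : LongK K) : LEq K U := by
  obtain ⟨L, hL, h⟩ := long_strips hK
  exact h.trans (all_conf _ L rfl hL)

end Pool.Agent.KNT
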