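import Pool.Agent.KNT.Defs
import Pool.Agent.CLK.GP
import Pool.Agent.CLG.FD

/-!
# KNT/Bgn: block B of KNT (general position)  (difficulty 1)

Same statements as in `KNT/BlkI` (the final theorems are imported from here later), names with `B`.
* `Bexists_gen`: `c x = ρ x + i h x`, `w` from `CLK.gp` (`ι = Empty`, `ε = e`),
  `v 0 = (w.1.re, w.1.im)`, `v 1 = (w.2.1.re, w.2.1.im)`, `v 2 = (w.2.2.re, w.2.2.im)`;
  `‖v i‖ = max |re| |im| ≤ ‖w‖ < e`.  The real and imaginary parts of `c x + pw w x` are the two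
  functions; derivatives by components.
* `Bdbl_finite`: `CLG.fin_double` for `c x = ρ x + i h x`.
-/

open scoped ContDiff Topology
open Set Filter

namespace Pool.Agent.KNT

theorem Bgn_smooth {ρ h : ℝ → ℝ} (hρ : ContDiff ℝ ∞ ρ) (hh : ContDiff ℝ ∞ h) :
    ContDiff ℝ ∞ fun x => (⟨ρ x, h x⟩ : ℂ) :=
  Complex.equivRealProdCLM.symm.contDiff.comp (hρ.prodMk hh)

theorem Bgn_re {C : ℝ → ℂ} {C' : ℂ} {x : ℝ} (h : HasDerivAt C C' x) {f : ℝ → ℝ}
    (hf : ∀ x, f x = (C x).re) : deriv f x = C'.re := by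
  have e : f = fun x => (C x).re := funext hf
  rw [e]
  exact (Complex.reCLM.hasFDerivAt.comp_hasDerivAt x h).deriv

theorem Bgn_im {C : ℝ → ℂ} {C' : ℂ} {x : ℝ} (h : HasDerivAt C C' x) {f : ℝ → ℝ}
    (hf : ∀ x, f x = (C x).im) : deriv f x = C'.im := by
  have e : f = fun x => (C x).im := funext hf
  rw [e]
  exact (Complex.imCLM.hasFDerivAt.comp_hasDerivAt x h).deriv

theorem Bexists_gen {ρ h : ℝ → ℝ} (hρ : ContDiff ℝ ∞ ρ) (hh : ContDiff ℝ ∞ h) {e : ℝ} (he : 0 < e) :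
    ∃ v : Fin 3 → ℝ × ℝ, (∀ i, ‖v i‖ < e) ∧ ∀ a b : ℝ,
      Gen a b (fun x => ρ x + ((v 0).1 + (v 1).1 * x + (v 2).1 * x ^ 2))
        (fun x => h x + ((v 0).2 + (v 1).2 * x + (v 2).2 * x ^ 2)) := by
  have hc := Bgn_smooth hρ hh
  obtain ⟨w, hw, himm, htr, htrp, -⟩ := CLK.gp (ι := Empty) (contDiff_infty.1 hc 2)
    (γ := fun i => i.elim) (fun i => i.elim) he
  refine ⟨![(w.1.re, w.1.im), (w.2.1.re, w.2.1.im), (w.2.2.re, w.2.2.im)], ?_, ?_⟩
  · have hn : ∀ z : ℂ, ‖z‖ ≤ ‖w‖ → ‖(z.re, z.im)‖ < e := by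
      intro z hz
      rw [Prod.norm_mk, Real.norm_eq_abs, Real.norm_eq_abs]
      exact max_lt (((Complex.abs_re_le_norm z).trans hz).trans_lt hw)
        (((Complex.abs_im_le_norm z).trans hz).trans_lt hw)
    intro i
    fin_cases i
    · exact hn w.1 (norm_fst_le w)
    · exact hn w.2.1 ((norm_fst_le w.2).trans (norm_snd_le w))
    · exact hn w.2.2 ((norm_snd_le w.2).trans (norm_snd_le w))
  · intro a b
    have hd : ∀ x, HasDerivAt (fun x : ℝ => (⟨ρ x, h x⟩ : ℂ) + CLK.pw w x)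
        (deriv (fun x : ℝ => (⟨ρ x, h x⟩ : ℂ)) x + CLK.pw' w x) x := fun x =>
      ((hc.differentiable (by simp)) x).hasDerivAt.add (CLK.pw_hasDerivAt w x)
    have hf : ∀ x : ℝ, ρ x + (w.1.re + w.2.1.re * x + w.2.2.re * x ^ 2) =
        ((⟨ρ x, h x⟩ : ℂ) + CLK.pw w x).re := by
      intro x
      have e2 : ((x : ℂ) ^ 2) = ((x ^ 2 : ℝ) : ℂ) := by push_cast; rfl
      unfold CLK.pw
      rw [e2]
      simp only [Complex.add_re, Complex.mul_re, Complex.ofReal_re, Complex.ofReal_im]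
      ring
    have hg : ∀ x : ℝ, h x + (w.1.im + w.2.1.im * x + w.2.2.im * x ^ 2) =
        ((⟨ρ x, h x⟩ : ℂ) + CLK.pw w x).im := by
      intro x
      have e2 : ((x : ℂ) ^ 2) = ((x ^ 2 : ℝ) : ℂ) := by push_cast; rfl
      unfold CLK.pw
      rw [e2]
      simp only [Complex.add_im, Complex.mul_im, Complex.ofReal_re, Complex.ofReal_im]
      ring
    have hpair : ∀ x y : ℝ, (ρ x + (w.1.re + w.2.1.re * x + w.2.2.re * x ^ 2),
        h x + (w.1.im + w.2.1.im * x + w.2.2.im * x ^ 2)) =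
        (ρ y + (w.1.re + w.2.1.re * y + w.2.2.re * y ^ 2),
        h y + (w.1.im + w.2.1.im * y + w.2.2.im * y ^ 2)) ↔
        (⟨ρ x, h x⟩ : ℂ) + CLK.pw w x = (⟨ρ y, h y⟩ : ℂ) + CLK.pw w y := by
      intro x y
      rw [hf, hf, hg, hg, Prod.mk.injEq]
      exact Complex.ext_iff.symm
    refine ⟨?_, ?_, ?_⟩
    · intro x _ h0
      have h1 := congrArg Prod.fst h0
      have h2 := congrArg Prod.snd h0
      apply himm x
      refine Complex.ext ?_ ?_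
      · rw [← Bgn_re (hd x) hf]
        exact h1
      · rw [← Bgn_im (hd x) hg]
        exact h2
    · intro x _ y _ hxy hxy'
      have h1 := htr x y hxy ((hpair x y).1 hxy')
      have e1 := Bgn_re (hd x) hf
      have e2 := Bgn_re (hd y) hf
      have e3 := Bgn_im (hd x) hg
      have e4 := Bgn_im (hd y) hg
      show deriv (fun x => ρ x + (w.1.re + w.2.1.re * x + w.2.2.re * x ^ 2)) x *
        deriv (fun x => h x + (w.1.im + w.2.1.im * x + w.2.2.im * x ^ 2)) y -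
        deriv (fun x => h x + (w.1.im + w.2.1.im * x + w.2.2.im * x ^ 2)) x *
        deriv (fun x => ρ x + (w.1.re + w.2.1.re * x + w.2.2.re * x ^ 2)) y ≠ 0
      rw [e1, e2, e3, e4]
      exact h1
    · intro x _ y _ z _ hxy hyz hxz h1 h2
      have k1 := (hpair x y).1 h1
      have k2 := (hpair x z).1 h2
      exact htrp x y z hxy hyz hxz k1 (k1.symm.trans k2)

theorem Bdbl_finite {ρ h : ℝ → ℝ} (hρ : ContDiff ℝ ∞ ρ) (hh : ContDiff ℝ ∞ h) {a b : ℝ}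
    (hg : Gen a b ρ h) :
    {p : ℝ × ℝ | p.1 ∈ Icc a b ∧ p.2 ∈ Icc a b ∧ p.1 ≠ p.2 ∧ (ρ p.1, h p.1) = (ρ p.2, h p.2)}.Finite := by
  have hc := Bgn_smooth hρ hh
  have hd : ∀ x, HasDerivAt (fun x : ℝ => (⟨ρ x, h x⟩ : ℂ)) (deriv (fun x : ℝ => (⟨ρ x, h x⟩ : ℂ)) x) x :=
    fun x => ((hc.differentiable (by simp)) x).hasDerivAt
  have e1 : ∀ x, deriv ρ x = (deriv (fun x : ℝ => (⟨ρ x, h x⟩ : ℂ)) x).re := fun x =>
    Bgn_re (hd x) fun _ => rfl
  have e2 : ∀ x, deriv h x = (deriv (fun x : ℝ => (⟨ρ x, h x⟩ : ℂ)) x).im := fun x =>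
    Bgn_im (hd x) fun _ => rfl
  have hpair : ∀ x y : ℝ, (ρ x, h x) = (ρ y, h y) ↔ (⟨ρ x, h x⟩ : ℂ) = ⟨ρ y, h y⟩ := by
    intro x y
    rw [Prod.mk.injEq, Complex.mk.injEq]
  have h1 := CLG.fin_double (contDiff_infty.1 hc 1) (a := a) (b := b) (fun s hs h0 => by
      apply hg.imm s hs
      rw [e1, e2, h0]
      rfl) (fun s hs s' hs' hss he => by
      have := hg.dbl s hs s' hs' hss ((hpair s s').2 he)
      rw [e1, e1, e2, e2] at this
      exact this)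
  refine h1.subset ?_
  rintro p ⟨a1, a2, a3, a4⟩
  exact ⟨a1, a2, a3, (hpair _ _).1 a4⟩

end Pool.Agent.KNT
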