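import Pool.Agent.KNT.Defs

/-!
# KNT/CQs: the functions `qs`, `ps`

PROOFS. With `z = 2 x - 1`: `qs = (1 - z²)/(1 + z²)`, derivative in `z`: `-4 z / (1 + z²)²`; `ps = 2 z / (1 + z²)`, derivative
in `z`: `2 (1 - z²)/(1 + z²)²`. `qs² + ps² = 1`. `qs` is strictly increasing on `(-∞, 1/2]` and strictly decreasing on
`[1/2, ∞)`. `qs (1 - x) = qs x`, `ps (1 - x) = -ps x`.
`Cps_le`: for `0 ≤ x ≤ 1/4`: `z ∈ [-1, -1/2]`, `ps x ≤ -4/5` (`ps` is increasing on `[-1, 1]`).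
`Cqs_tail`: `|qs (1 + t)| = (4 t + 4 t²)/(2 + 4 t + 4 t²) ≤ 2 t (1 + t) ≤ 17/32 δ`, and `qs (δ/2) = δ (2 - δ)/(2 - 2 δ + δ²) ≥ 7/8 δ`.
-/

open scoped ContDiff Topology
open Set Filter
open Pool.Agent.CSG (stp)
open Pool.Agent.RSG (ex)

namespace Pool.Agent.KNT

theorem CQs_den (x : ℝ) : 0 < 1 + (2 * x - 1) ^ 2 := by positivity

theorem Cqs_smooth : ContDiff ℝ ∞ qs := by
  unfold qs
  apply ContDiff.div
  · fun_prop
  · fun_prop
  · intro x
    exact (CQs_den x).ne'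

theorem Cps_smooth : ContDiff ℝ ∞ ps := by
  unfold ps
  apply ContDiff.div
  · fun_prop
  · fun_prop
  · intro x
    exact (CQs_den x).ne'

theorem Cqs_symm (x : ℝ) : qs (1 - x) = qs x := by
  unfold qs
  ring_nf

theorem Cps_symm (x : ℝ) : ps (1 - x) = -ps x := by
  unfold ps
  rw [show (2 * (1 - x) - 1) = -(2 * x - 1) by ring, neg_sq, mul_neg, neg_div]

theorem Cqs_zero : qs 0 = 0 := by
  unfold qs
  norm_num

theorem Cqs_one : qs 1 = 0 := by
  unfold qs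
  norm_num

theorem Cps_zero : ps 0 = -1 := by
  unfold ps
  norm_num

theorem Cps_one : ps 1 = 1 := by
  unfold ps
  norm_num

theorem Cqs_pos {x : ℝ} (h0 : 0 < x) (h1 : x < 1) : 0 < qs x := by
  unfold qs
  apply div_pos _ (CQs_den x)
  nlinarith

theorem Cqs_neg {x : ℝ} (h1 : 1 < x) : qs x < 0 := by
  unfold qs
  apply div_neg_of_neg_of_pos _ (CQs_den x)
  nlinarith

theorem Cqs_sq_add (x : ℝ) : qs x ^ 2 + ps x ^ 2 = 1 := by
  unfold qs ps
  have := (CQs_den x).ne'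
  field_simp
  ring

theorem CQs_hasDeriv (x : ℝ) :
    HasDerivAt qs (-(8 * (2 * x - 1)) / (1 + (2 * x - 1) ^ 2) ^ 2) x := by
  have h1 : HasDerivAt (fun x : ℝ => (2 * x - 1)) 2 x := by
    have := ((hasDerivAt_id x).const_mul 2).sub_const 1
    simpa using this
  have h2 : HasDerivAt (fun x : ℝ => (2 * x - 1) ^ 2) (2 * (2 * x - 1) * 2) x := by
    have h := h1.mul h1
    have e : (fun x : ℝ => (2 * x - 1) ^ 2) = fun x : ℝ => (2 * x - 1) * (2 * x - 1) := by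
      funext y
      ring
    rw [e]
    refine h.congr_deriv ?_
    ring
  have h3 := (h2.const_sub 1).div (h2.const_add 1) (CQs_den x).ne'
  refine h3.congr_deriv ?_
  have := (CQs_den x).ne'
  field_simp
  ring

theorem Cqs_deriv_pos {x : ℝ} (h : x < 1 / 2) : 0 < deriv qs x := by
  rw [(CQs_hasDeriv x).deriv]
  apply div_pos _ (pow_pos (CQs_den x) 2)
  linarith

theorem Cqs_deriv_neg {x : ℝ} (h : 1 / 2 < x) : deriv qs x < 0 := by
  rw [(CQs_hasDeriv x).deriv]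
  apply div_neg_of_neg_of_pos _ (pow_pos (CQs_den x) 2)
  linarith

theorem Cqs_lt {x y : ℝ} (h : x < y) (hy : y ≤ 1 / 2) : qs x < qs y := by
  unfold qs
  rw [div_lt_div_iff₀ (CQs_den x) (CQs_den y)]
  nlinarith

theorem Cqs_lt' {x y : ℝ} (h : x < y) (hx : 1 / 2 ≤ x) : qs y < qs x := by
  unfold qs
  rw [div_lt_div_iff₀ (CQs_den y) (CQs_den x)]
  nlinarith

theorem Cps_lt {x y : ℝ} (hx : 0 ≤ x) (h : x < y) (hy : y ≤ 1) : ps x < ps y := by
  unfold ps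
  rw [div_lt_div_iff₀ (CQs_den x) (CQs_den y)]
  set z := 2 * x - 1 with hz
  set w := 2 * y - 1 with hw
  have h1 : z < w := by rw [hz, hw]; linarith
  have h2 : -1 ≤ z := by rw [hz]; linarith
  have h3 : w ≤ 1 := by rw [hw]; linarith
  have h4 : 0 ≤ (1 - w) * (1 + z) := mul_nonneg (by linarith) (by linarith)
  have h5 : 0 < (w - z) * (1 - z * w) := mul_pos (by linarith) (by nlinarith)
  nlinarith

theorem Cps_le {x : ℝ} (h0 : 0 ≤ x) (h : x ≤ 1 / 4) : ps x ≤ -(4 / 5) := by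
  unfold ps
  rw [div_le_iff₀ (CQs_den x)]
  nlinarith

/-- near the tip, with the tail -/
theorem Cps_ge {x : ℝ} (h0 : 3 / 4 ≤ x) (h : x ≤ 5 / 4) : 4 / 5 ≤ ps x := by
  unfold ps
  rw [le_div_iff₀ (CQs_den x)]
  nlinarith

theorem Cqs_tail {δ t x : ℝ} (hδ : 0 < δ) (hδ4 : δ < 1 / 4) (ht : t ≤ δ / 4) (h1 : 1 ≤ x) (hx : x ≤ 1 + t) :
    |qs x| < qs (δ / 2) := by
  have hq : qs x ≤ 0 := by
    unfold qs
    apply div_nonpos_of_nonpos_of_nonneg _ (CQs_den x).le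
    nlinarith
  rw [abs_of_nonpos hq]
  unfold qs
  rw [← neg_div, div_lt_div_iff₀ (CQs_den x) (CQs_den (δ / 2))]
  obtain ⟨s, rfl⟩ : ∃ s, x = 1 + s := ⟨x - 1, by ring⟩
  have hs0 : 0 ≤ s := by linarith
  have hs1 : s ≤ δ / 4 := by linarith
  have e1 : -(1 - (2 * (1 + s) - 1) ^ 2) * (1 + (2 * (δ / 2) - 1) ^ 2) =
      4 * s * (1 + s) * (2 - δ * (2 - δ)) := by ring
  have e2 : (1 - (2 * (δ / 2) - 1) ^ 2) * (1 + (2 * (1 + s) - 1) ^ 2) =
      δ * (2 - δ) * (2 + 4 * s * (1 + s)) := by ring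
  rw [e1, e2]
  have f1 : 0 ≤ s * (1 + s) := by positivity
  have f2 : 0 < δ * (2 - δ) := by
    apply mul_pos hδ
    linarith
  have f3 : s * (1 + s) ≤ δ / 4 * (17 / 16) := by
    apply mul_le_mul hs1 _ (by linarith) (by linarith)
    linarith
  have f4 : 7 / 4 * δ ≤ δ * (2 - δ) := by nlinarith
  nlinarith [mul_nonneg f1 f2.le]

/-- The semicircle with its tail is injective. -/
theorem Cqps_inj {x y : ℝ} (hq : qs x = qs y) (hp : ps x = ps y) : x = y := by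
  unfold qs at hq
  unfold ps at hp
  have h1 := CQs_den x
  have h2 := CQs_den y
  rw [div_eq_div_iff h1.ne' h2.ne'] at hq hp
  have h3 : (2 * x - 1) ^ 2 = (2 * y - 1) ^ 2 := by nlinarith
  rw [h3] at hp
  have h4 : 2 * (2 * x - 1) = 2 * (2 * y - 1) := mul_right_cancel₀ h2.ne' hp
  linarith

end Pool.Agent.KNT
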