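import Pool.Agent.KNT.CGa
import Pool.Agent.KNT.CQs

/-!
# KNT/CGb: the perturbed core is in normal form and generic

Let `ρ' = rg δ ρ v 1`, `h' = hg δ h v 1`, `v` small.
PROOFS.
* (a) `deriv ρ' > 0` on `[δ/2, δ]`: there `ρ = |R| qs` (also its derivative), `deriv qs ≥ m > 0`, and
  `|deriv (cg δ * pg1 v)| ≤ C ‖v‖`. In the same way `deriv ρ' < 0` on `[1 - δ, 1 - δ/2]`.
* (b) `ρ' x < |R| (qs (3δ/4) + qs δ) / 2` for `x ∈ [δ/2, 3δ/4] ∪ [1 - 3δ/4, 1 - δ/2]` and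
  `ρ' x > |R| (qs (3δ/4) + qs δ) / 2` for `x ∈ [δ, 1 - δ]` (`ρ ≥ |R| qs δ` there).
* (c) `h' x < c` iff ..: for `R > 0`: `h' x < c` on `[δ/2, δ]`, `h' x > c` on `[1 - δ, 1 - δ/2]` (`|ps| ≥ 4/5` there); for `R < 0`
  reversed.
* `Cgen_ncore`: `foot₀`, `foot₁`: `cg = 0`. `mid`: on `(δ/2, δ]` by (a) (`ρ' (δ/2) = |R| qs (δ/2)`), the same near `1`; on
  `[δ, 1 - δ]` `ρ' ≥ |R| qs δ - C ‖v‖ > |R| qs (δ/2)`.
* `Cgen_gen`. On `J = [3δ/4, 1 - 3δ/4]` `ρ'`, `h'` and their derivatives are those of the polynomial perturbation (`cg = 1` on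
  `J`; at the end points the derivative is one-sided). So for points of `J` the three properties hold. For
  `x ∈ [δ/2, 3δ/4) ∪ (1 - 3δ/4, 1 - δ/2]`: `imm` by (a); `(ρ' x, h' x) = (ρ' y, h' y)` with `y ∈ [δ/2, 1 - δ/2]` implies `y = x`:
  say `x < 3δ/4`; `y ≤ δ`: (a); `y ∈ [δ, 1 - δ]`: (b); `y > 1 - δ`: (c). So in `dbl`, `trp` all points are in `J`.
-/

open scoped ContDiff Topology
open Set Filter
open Pool.Agent.CSG (stp)
open Pool.Agent.RSG (ex)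

namespace Pool.Agent.KNT

theorem CGb_pg1 (v : Fin 3 → ℝ × ℝ) (x : ℝ) :
    HasDerivAt (pg1 v) ((v 1).1 + 2 * (v 2).1 * x) x := by
  have h1 : HasDerivAt (fun x : ℝ => (v 1).1 * x) (v 1).1 x := by
    simpa using (hasDerivAt_id x).const_mul (v 1).1
  have h2 : HasDerivAt (fun x : ℝ => (v 2).1 * x ^ 2) ((v 2).1 * (2 * x)) x := by
    have := hasDerivAt_pow 2 x
    simpa using this.const_mul (v 2).1
  have h3 := (h1.const_add (v 0).1).add h2
  have e : (v 1).1 + (v 2).1 * (2 * x) = (v 1).1 + 2 * (v 2).1 * x := by ring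
  rw [e] at h3
  exact h3

theorem CGb_pg1_le {v : Fin 3 → ℝ × ℝ} {e : ℝ} (hv : ∀ i, ‖v i‖ < e) {x : ℝ} (hx : x ∈ Icc (0 : ℝ) 1) :
    |pg1 v x| ≤ 3 * e ∧ |pg2 v x| ≤ 3 * e ∧ |(v 1).1 + 2 * (v 2).1 * x| ≤ 3 * e := by
  have h1 : ∀ i, |(v i).1| ≤ e := fun i => by
    have := norm_fst_le (v i)
    rw [Real.norm_eq_abs] at this
    linarith [hv i]
  have h2 : ∀ i, |(v i).2| ≤ e := fun i => by
    have := norm_snd_le (v i)
    rw [Real.norm_eq_abs] at this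
    linarith [hv i]
  have he : 0 ≤ e := (abs_nonneg _).trans (h1 0)
  have hx2 : x ^ 2 ≤ 1 := by nlinarith [hx.1, hx.2]
  have hx2' : 0 ≤ x ^ 2 := sq_nonneg x
  have key : ∀ a b c : ℝ, |a| ≤ e → |b| ≤ e → |c| ≤ e → |a + b * x + c * x ^ 2| ≤ 3 * e := by
    intro a b c ha hb hc
    have t1 : |b * x| ≤ e := by
      rw [abs_mul, abs_of_nonneg hx.1]
      nlinarith [hx.1, hx.2, abs_nonneg b]
    have t2 : |c * x ^ 2| ≤ e := by
      rw [abs_mul, abs_of_nonneg hx2']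
      nlinarith [abs_nonneg c]
    have t3 := abs_add_le (a + b * x) (c * x ^ 2)
    have t4 := abs_add_le a (b * x)
    linarith
  refine ⟨key _ _ _ (h1 0) (h1 1) (h1 2), key _ _ _ (h2 0) (h2 1) (h2 2), ?_⟩
  have t1 := h1 1
  have t2 : |2 * (v 2).1 * x| ≤ 2 * e := by
    rw [abs_mul, abs_mul, abs_two, abs_of_nonneg hx.1]
    nlinarith [hx.1, hx.2, abs_nonneg (v 2).1, h1 2, mul_nonneg (abs_nonneg (v 2).1) hx.1]
  have t3 := abs_add_le (v 1).1 (2 * (v 2).1 * x)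
  linarith

/-- the perturbation and its derivative are small -/
theorem CGb_small (δ : ℝ) : ∃ C : ℝ, 0 < C ∧ ∀ (v : Fin 3 → ℝ × ℝ) (e : ℝ), (∀ i, ‖v i‖ < e) →
    ∀ x ∈ Icc (0 : ℝ) 1, |cg δ x * pg1 v x| ≤ C * e ∧ |cg δ x * pg2 v x| ≤ C * e ∧
      |deriv (cg δ) x * pg1 v x + cg δ x * ((v 1).1 + 2 * (v 2).1 * x)| ≤ C * e := by
  have hs := Ccg_smooth δ
  obtain ⟨D, hD⟩ := isCompact_Icc.exists_bound_of_continuousOn (s := Icc (0 : ℝ) 1)
    (f := cg δ) hs.continuous.continuousOn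
  obtain ⟨D', hD'⟩ := isCompact_Icc.exists_bound_of_continuousOn (s := Icc (0 : ℝ) 1)
    (f := deriv (cg δ)) (hs.continuous_deriv (by simp)).continuousOn
  have hD0 : 0 ≤ D := (norm_nonneg _).trans (hD 0 ⟨le_rfl, zero_le_one⟩)
  have hD0' : 0 ≤ D' := (norm_nonneg _).trans (hD' 0 ⟨le_rfl, zero_le_one⟩)
  refine ⟨3 * D + 3 * D' + 1, by linarith, ?_⟩
  intro v e hv x hx
  obtain ⟨p1, p2, p3⟩ := CGb_pg1_le hv hx
  have he : 0 ≤ e := by
    have := norm_nonneg (v 0)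
    linarith [hv 0]
  have c1 : |cg δ x| ≤ D := hD x hx
  have c2 : |deriv (cg δ) x| ≤ D' := hD' x hx
  have q1 : |cg δ x * pg1 v x| ≤ D * (3 * e) := by
    rw [abs_mul]
    exact mul_le_mul c1 p1 (abs_nonneg _) hD0
  have q2 : |cg δ x * pg2 v x| ≤ D * (3 * e) := by
    rw [abs_mul]
    exact mul_le_mul c1 p2 (abs_nonneg _) hD0
  have q3 : |deriv (cg δ) x * pg1 v x| ≤ D' * (3 * e) := by
    rw [abs_mul]
    exact mul_le_mul c2 p1 (abs_nonneg _) hD0'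
  have q4 : |cg δ x * ((v 1).1 + 2 * (v 2).1 * x)| ≤ D * (3 * e) := by
    rw [abs_mul]
    exact mul_le_mul c1 p3 (abs_nonneg _) hD0
  have q5 := abs_add_le (deriv (cg δ) x * pg1 v x) (cg δ x * ((v 1).1 + 2 * (v 2).1 * x))
  have r1 : 0 ≤ D' * e := mul_nonneg hD0' he
  have r2 : 0 ≤ D * e := mul_nonneg hD0 he
  refine ⟨?_, ?_, ?_⟩ <;> nlinarith

theorem CGb_smooth {δ : ℝ} {ρ : ℝ → ℝ} (hρ : ContDiff ℝ ∞ ρ) (v : Fin 3 → ℝ × ℝ) (l : ℝ) :
    ContDiff ℝ ∞ (rg δ ρ v l) := by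
  have h1 : ContDiff ℝ ∞ (pg1 v) := by
    unfold pg1
    exact (contDiff_const.add (contDiff_const.mul contDiff_id)).add (contDiff_const.mul (contDiff_id.pow 2))
  exact hρ.add (contDiff_const.mul ((Ccg_smooth δ).mul h1))

theorem CGb_smooth' {δ : ℝ} {h : ℝ → ℝ} (hh : ContDiff ℝ ∞ h) (v : Fin 3 → ℝ × ℝ) (l : ℝ) :
    ContDiff ℝ ∞ (hg δ h v l) := by
  have h1 : ContDiff ℝ ∞ (pg2 v) := by
    unfold pg2
    exact (contDiff_const.add (contDiff_const.mul contDiff_id)).add (contDiff_const.mul (contDiff_id.pow 2))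
  exact hh.add (contDiff_const.mul ((Ccg_smooth δ).mul h1))

/-- derivative of the perturbed radius -/
theorem CGb_deriv {δ : ℝ} {ρ : ℝ → ℝ} (hρ : ContDiff ℝ ∞ ρ) (v : Fin 3 → ℝ × ℝ) (x : ℝ) :
    deriv (rg δ ρ v 1) x =
      deriv ρ x + (deriv (cg δ) x * pg1 v x + cg δ x * ((v 1).1 + 2 * (v 2).1 * x)) := by
  have h1 : HasDerivAt ρ (deriv ρ x) x := (hρ.differentiable (by simp) x).hasDerivAt
  have h2 : HasDerivAt (cg δ) (deriv (cg δ) x) x :=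
    ((Ccg_smooth δ).differentiable (by simp) x).hasDerivAt
  have h3 := h1.add ((h2.mul (CGb_pg1 v x)).const_mul 1)
  have h4 : HasDerivAt (rg δ ρ v 1) (deriv ρ x + 1 * (deriv (cg δ) x * pg1 v x +
      cg δ x * ((v 1).1 + 2 * (v 2).1 * x))) x := h3
  rw [h4.deriv, one_mul]

/-- all the estimates -/
structure CGbE (c R δ e : ℝ) (ρ h : ℝ → ℝ) (v : Fin 3 → ℝ × ℝ) : Prop where
  dpos : ∀ x, δ / 2 ≤ x → x < δ → 0 < deriv (rg δ ρ v 1) x
  dneg : ∀ x, 1 - δ < x → x ≤ 1 - δ / 2 → deriv (rg δ ρ v 1) x < 0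
  low : ∀ x, δ / 2 ≤ x → x ≤ 3 * δ / 4 → rg δ ρ v 1 x < |R| * (qs (3 * δ / 4) + qs δ) / 2
  low' : ∀ x, 1 - 3 * δ / 4 ≤ x → x ≤ 1 - δ / 2 → rg δ ρ v 1 x < |R| * (qs (3 * δ / 4) + qs δ) / 2
  high : ∀ x, δ ≤ x → x ≤ 1 - δ → |R| * (qs (3 * δ / 4) + qs δ) / 2 < rg δ ρ v 1 x
  hlow : ∀ x, δ / 2 ≤ x → x ≤ δ → R * (hg δ h v 1 x - c) < 0
  hhigh : ∀ x, 1 - δ ≤ x → x ≤ 1 - δ / 2 → 0 < R * (hg δ h v 1 x - c)

theorem CGb_est {c R θ₀ θ₁ δ t : ℝ} {ρ θ h : ℝ → ℝ} (hn : NCore c R θ₀ θ₁ δ t ρ θ h) :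
    ∃ e : ℝ, 0 < e ∧ ∀ v : Fin 3 → ℝ × ℝ, (∀ i, ‖v i‖ < e) → CGbE c R δ e ρ h v := by
  have h0 := hn.δ_pos
  have h1 := hn.δ_lt
  have hR : 0 < |R| := abs_pos.2 hn.R_ne
  obtain ⟨C, hC, hCb⟩ := CGb_small δ
  -- lower bound of the derivative of `qs`
  have hqd : Continuous (deriv qs) := Cqs_smooth.continuous_deriv (by simp)
  obtain ⟨x₁, hx₁, hm₁⟩ := (isCompact_Icc (a := δ / 2) (b := δ)).exists_isMinOn ⟨δ, by linarith, le_rfl⟩
    hqd.continuousOn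
  obtain ⟨x₂, hx₂, hm₂⟩ := (isCompact_Icc (a := 1 - δ) (b := 1 - δ / 2)).exists_isMaxOn
    ⟨1 - δ, le_rfl, by linarith⟩ hqd.continuousOn
  have hp₁ : 0 < deriv qs x₁ := Cqs_deriv_pos (by linarith [hx₁.2])
  have hp₂ : deriv qs x₂ < 0 := Cqs_deriv_neg (by linarith [hx₂.1])
  have hgap : 0 < qs δ - qs (3 * δ / 4) := sub_pos.2 (Cqs_lt (by linarith) (by linarith))
  obtain ⟨m, hm⟩ : ∃ m : ℝ, m = min (min (|R| * deriv qs x₁) (|R| * (-deriv qs x₂)))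
    (min (|R| * (qs δ - qs (3 * δ / 4)) / 2) (|R| * (4 / 5))) := ⟨_, rfl⟩
  have hm0 : 0 < m := by
    rw [hm]
    refine lt_min (lt_min ?_ ?_) (lt_min ?_ ?_)
    · positivity
    · exact mul_pos hR (by linarith)
    · positivity
    · positivity
  have m1 : m ≤ |R| * deriv qs x₁ := hm ▸ (min_le_left _ _).trans (min_le_left _ _)
  have m2 : m ≤ |R| * (-deriv qs x₂) := hm ▸ (min_le_left _ _).trans (min_le_right _ _)
  have m3 : m ≤ |R| * (qs δ - qs (3 * δ / 4)) / 2 := hm ▸ (min_le_right _ _).trans (min_le_left _ _)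
  have m4 : m ≤ |R| * (4 / 5) := hm ▸ (min_le_right _ _).trans (min_le_right _ _)
  have hsup : C * (m / (2 * C)) < m := by
    have : C * (m / (2 * C)) = m / 2 := by field_simp
    rw [this]
    linarith
  refine ⟨m / (2 * C), by positivity, fun v hv => ?_⟩
  have hb := hCb v _ hv
  have eq0 : ∀ x, x < δ → deriv ρ x = |R| * deriv qs x := by
    intro x hx
    have : ρ =ᶠ[𝓝 x] fun y => |R| * qs y := by
      filter_upwards [Iio_mem_nhds hx] with y hy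
      exact (hn.foot₀ y (le_of_lt hy)).1
    rw [this.deriv_eq, deriv_const_mul _ (Cqs_smooth.differentiable (by simp) x)]
  have eq1 : ∀ x, 1 - δ < x → deriv ρ x = |R| * deriv qs x := by
    intro x hx
    have : ρ =ᶠ[𝓝 x] fun y => |R| * qs y := by
      filter_upwards [Ioi_mem_nhds hx] with y hy
      exact (hn.foot₁ y (le_of_lt hy)).1
    rw [this.deriv_eq, deriv_const_mul _ (Cqs_smooth.differentiable (by simp) x)]
  have hrg : ∀ x, rg δ ρ v 1 x = ρ x + cg δ x * pg1 v x := fun x => by simp [rg]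
  have hhg : ∀ x, hg δ h v 1 x = h x + cg δ x * pg2 v x := fun x => by simp [hg]
  have hRR : ∀ y : ℝ, |y| < |R| * (4 / 5) → |R * y| < R ^ 2 * (4 / 5) := by
    intro y hy
    rw [abs_mul, ← sq_abs R]
    nlinarith
  refine ⟨?_, ?_, ?_, ?_, ?_, ?_, ?_⟩
  · intro x hx hx'
    have hI : x ∈ Icc (0 : ℝ) 1 := ⟨by linarith, by linarith⟩
    rw [CGb_deriv hn.smρ, eq0 x hx']
    have := (abs_le.1 (hb x hI).2.2).1
    have h3 : deriv qs x₁ ≤ deriv qs x := hm₁ ⟨hx, hx'.le⟩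
    have h4 : |R| * deriv qs x₁ ≤ |R| * deriv qs x := mul_le_mul_of_nonneg_left h3 hR.le
    linarith
  · intro x hx hx'
    have hI : x ∈ Icc (0 : ℝ) 1 := ⟨by linarith, by linarith⟩
    rw [CGb_deriv hn.smρ, eq1 x hx]
    have := (abs_le.1 (hb x hI).2.2).2
    have h3 : deriv qs x ≤ deriv qs x₂ := hm₂ ⟨hx.le, hx'⟩
    have h4 : |R| * deriv qs x ≤ |R| * deriv qs x₂ := mul_le_mul_of_nonneg_left h3 hR.le
    linarith
  · intro x hx hx'
    have hI : x ∈ Icc (0 : ℝ) 1 := ⟨by linarith, by linarith⟩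
    rw [hrg, (hn.foot₀ x (by linarith)).1]
    have := (abs_le.1 (hb x hI).1).2
    have h3 : qs x ≤ qs (3 * δ / 4) := by
      rcases hx'.lt_or_eq with h | h
      · exact (Cqs_lt h (by linarith)).le
      · rw [h]
    have h4 : |R| * qs x ≤ |R| * qs (3 * δ / 4) := mul_le_mul_of_nonneg_left h3 hR.le
    linarith
  · intro x hx hx'
    have hI : x ∈ Icc (0 : ℝ) 1 := ⟨by linarith, by linarith⟩
    rw [hrg, (hn.foot₁ x (by linarith)).1]
    have := (abs_le.1 (hb x hI).1).2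
    have h3 : qs x ≤ qs (3 * δ / 4) := by
      rw [← Cqs_symm x]
      rcases hx.lt_or_eq with h | h
      · exact (Cqs_lt (by linarith) (by linarith)).le
      · rw [← h]
        apply le_of_eq
        congr 1
        ring
    have h4 : |R| * qs x ≤ |R| * qs (3 * δ / 4) := mul_le_mul_of_nonneg_left h3 hR.le
    linarith
  · intro x hx hx'
    have hI : x ∈ Icc (0 : ℝ) 1 := ⟨by linarith, by linarith⟩
    have h3 : |R| * qs δ ≤ ρ x := by
      rcases hx.lt_or_eq with h | h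
      · rcases hx'.lt_or_eq with h' | h'
        · exact (hn.mid x h h').le
        · rw [(hn.foot₁ x (by linarith)).1, h', Cqs_symm]
      · rw [← h, (hn.foot₀ δ le_rfl).1]
    rw [hrg]
    have := (abs_le.1 (hb x hI).1).1
    linarith
  · intro x hx hx'
    have hI : x ∈ Icc (0 : ℝ) 1 := ⟨by linarith, by linarith⟩
    rw [hhg, (hn.foot₀ x hx').2.1]
    have h3 := Cps_le (by linarith : 0 ≤ x) (by linarith)
    have h4 := (abs_lt.1 (hRR _ (lt_of_le_of_lt (hb x hI).2.1 (hsup.trans_le m4)))).2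
    have h5 : R * (c + R * ps x + cg δ x * pg2 v x - c) = R ^ 2 * ps x + R * (cg δ x * pg2 v x) := by ring
    rw [h5]
    have h6 : R ^ 2 * ps x ≤ R ^ 2 * (-(4 / 5)) := mul_le_mul_of_nonneg_left h3 (sq_nonneg R)
    linarith
  · intro x hx hx'
    have hI : x ∈ Icc (0 : ℝ) 1 := ⟨by linarith, by linarith⟩
    rw [hhg, (hn.foot₁ x hx).2.1]
    have h3 := Cps_ge (by linarith : 3 / 4 ≤ x) (by linarith)
    have h4 := (abs_lt.1 (hRR _ (lt_of_le_of_lt (hb x hI).2.1 (hsup.trans_le m4)))).1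
    have h5 : R * (c + R * ps x + cg δ x * pg2 v x - c) = R ^ 2 * ps x + R * (cg δ x * pg2 v x) := by ring
    rw [h5]
    have h6 : R ^ 2 * (4 / 5) ≤ R ^ 2 * ps x := mul_le_mul_of_nonneg_left h3 (sq_nonneg R)
    linarith

theorem CGb_mono {c R δ e : ℝ} {ρ h : ℝ → ℝ} {v : Fin 3 → ℝ × ℝ} (hρ : ContDiff ℝ ∞ ρ)
    (hE : CGbE c R δ e ρ h v) : StrictMonoOn (rg δ ρ v 1) (Icc (δ / 2) δ) := by
  refine strictMonoOn_of_deriv_pos (convex_Icc _ _) (CGb_smooth hρ v 1).continuous.continuousOn ?_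
  intro x hx
  rw [interior_Icc] at hx
  exact hE.dpos x hx.1.le hx.2

theorem CGb_anti {c R δ e : ℝ} {ρ h : ℝ → ℝ} {v : Fin 3 → ℝ × ℝ} (hρ : ContDiff ℝ ∞ ρ)
    (hE : CGbE c R δ e ρ h v) : StrictAntiOn (rg δ ρ v 1) (Icc (1 - δ) (1 - δ / 2)) := by
  refine strictAntiOn_of_deriv_neg (convex_Icc _ _) (CGb_smooth hρ v 1).continuous.continuousOn ?_
  intro x hx
  rw [interior_Icc] at hx
  exact hE.dneg x hx.1 hx.2.le

theorem Cgen_ncore {c R θ₀ θ₁ δ t : ℝ} {ρ θ h : ℝ → ℝ} (hn : NCore c R θ₀ θ₁ δ t ρ θ h) :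
    ∃ e : ℝ, 0 < e ∧ ∀ v : Fin 3 → ℝ × ℝ, (∀ i, ‖v i‖ < e) → ∀ t' : ℝ, 0 < t' → t' ≤ δ / 8 →
      NCore c R θ₀ θ₁ (δ / 2) t' (rg δ ρ v 1) θ (hg δ h v 1) := by
  have h0 := hn.δ_pos
  have h1 := hn.δ_lt
  have hR : 0 < |R| := abs_pos.2 hn.R_ne
  obtain ⟨e, he, hE⟩ := CGb_est hn
  refine ⟨e, he, fun v hv t' ht' ht'' => ?_⟩
  have hE := hE v hv
  have hz : ∀ x, x ≤ δ / 2 ∨ 1 - δ / 2 ≤ x → rg δ ρ v 1 x = ρ x ∧ hg δ h v 1 x = h x := by
    intro x hx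
    have := Ccg_zero h0 h1 hx
    simp [rg, hg, this]
  refine ⟨CGb_smooth hn.smρ v 1, hn.smθ, CGb_smooth' hn.smh v 1, hn.R_ne, by linarith, by linarith, ht',
    by linarith, ?_, ?_, ?_⟩
  · intro x hx
    obtain ⟨a1, a2⟩ := hz x (Or.inl hx)
    obtain ⟨b1, b2, b3⟩ := hn.foot₀ x (by linarith)
    exact ⟨a1.trans b1, a2.trans b2, b3⟩
  · intro x hx
    obtain ⟨a1, a2⟩ := hz x (Or.inr hx)
    obtain ⟨b1, b2, b3⟩ := hn.foot₁ x (by linarith)
    exact ⟨a1.trans b1, a2.trans b2, b3⟩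
  · intro x hx hx'
    rcases le_or_gt x δ with h | h
    · have h2 := CGb_mono hn.smρ hE (a := δ / 2) (b := x) ⟨le_rfl, by linarith⟩ ⟨hx.le, h⟩ hx
      rw [(hz (δ / 2) (Or.inl le_rfl)).1, (hn.foot₀ (δ / 2) (by linarith)).1] at h2
      exact h2
    · rcases le_or_gt (1 - δ) x with h' | h'
      · have h2 := CGb_anti hn.smρ hE (a := x) (b := 1 - δ / 2) ⟨h', hx'.le⟩ ⟨by linarith, le_rfl⟩ hx'
        rw [(hz (1 - δ / 2) (Or.inr le_rfl)).1, (hn.foot₁ (1 - δ / 2) (by linarith)).1, Cqs_symm] at h2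
        exact h2
      · have h2 := hE.high x h.le h'.le
        have h3 : qs (δ / 2) < qs (3 * δ / 4) := Cqs_lt (by linarith) (by linarith)
        have h4 : qs (3 * δ / 4) < qs δ := Cqs_lt (by linarith) (by linarith)
        have h5 : |R| * qs (δ / 2) < |R| * (qs (3 * δ / 4) + qs δ) / 2 := by
          have h6 : qs (δ / 2) < (qs (3 * δ / 4) + qs δ) / 2 := by linarith
          have h7 := mul_lt_mul_of_pos_left h6 hR
          linarith
        linarith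

theorem Cgen_gen {c R θ₀ θ₁ δ t : ℝ} {ρ θ h : ℝ → ℝ} (hn : NCore c R θ₀ θ₁ δ t ρ θ h) :
    ∃ e : ℝ, 0 < e ∧ ∀ v : Fin 3 → ℝ × ℝ, (∀ i, ‖v i‖ < e) →
      Gen (3 * δ / 4) (1 - 3 * δ / 4) (fun x => ρ x + pg1 v x) (fun x => h x + pg2 v x) →
        Gen (δ / 2) (1 - δ / 2) (rg δ ρ v 1) (hg δ h v 1) := by
  have h0 := hn.δ_pos
  have h1 := hn.δ_lt
  obtain ⟨e, he, hE⟩ := CGb_est hn
  refine ⟨e, he, fun v hv hG => ?_⟩
  have hE := hE v hv
  have hmono := CGb_mono hn.smρ hE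
  have hanti := CGb_anti hn.smρ hE
  -- values and derivatives on `J`
  have hJ : ∀ x ∈ Icc (3 * δ / 4) (1 - 3 * δ / 4), rg δ ρ v 1 x = ρ x + pg1 v x ∧
      hg δ h v 1 x = h x + pg2 v x := by
    intro x hx
    have := Ccg_one h0 h1 hx.1 hx.2
    simp [rg, hg, this]
  have hs1 : ContDiff ℝ ∞ fun x => ρ x + pg1 v x := by
    have h2 : ContDiff ℝ ∞ (pg1 v) := by
      unfold pg1
      exact (contDiff_const.add (contDiff_const.mul contDiff_id)).add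
        (contDiff_const.mul (contDiff_id.pow 2))
    exact hn.smρ.add h2
  have hs2 : ContDiff ℝ ∞ fun x => h x + pg2 v x := by
    have h2 : ContDiff ℝ ∞ (pg2 v) := by
      unfold pg2
      exact (contDiff_const.add (contDiff_const.mul contDiff_id)).add
        (contDiff_const.mul (contDiff_id.pow 2))
    exact hn.smh.add h2
  have hu : UniqueDiffOn ℝ (Icc (3 * δ / 4) (1 - 3 * δ / 4)) := uniqueDiffOn_Icc (by linarith)
  have hd : ∀ {f g : ℝ → ℝ}, ContDiff ℝ ∞ f → ContDiff ℝ ∞ g →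
      (∀ x ∈ Icc (3 * δ / 4) (1 - 3 * δ / 4), f x = g x) →
      ∀ x ∈ Icc (3 * δ / 4) (1 - 3 * δ / 4), deriv f x = deriv g x := by
    intro f g hf hg' hfg x hx
    have h3 : derivWithin f (Icc (3 * δ / 4) (1 - 3 * δ / 4)) x =
        derivWithin g (Icc (3 * δ / 4) (1 - 3 * δ / 4)) x := derivWithin_congr hfg (hfg x hx)
    rw [← (hf.differentiable (by simp) x).derivWithin (hu x hx), h3,
      (hg'.differentiable (by simp) x).derivWithin (hu x hx)]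
  have hd1 := hd (CGb_smooth (δ := δ) hn.smρ v 1) hs1 fun x hx => (hJ x hx).1
  have hd2 := hd (CGb_smooth' (δ := δ) hn.smh v 1) hs2 fun x hx => (hJ x hx).2
  -- the key fact
  have key : ∀ x ∈ Icc (δ / 2) (1 - δ / 2), x ∉ Icc (3 * δ / 4) (1 - 3 * δ / 4) →
      ∀ y ∈ Icc (δ / 2) (1 - δ / 2), rg δ ρ v 1 x = rg δ ρ v 1 y → hg δ h v 1 x = hg δ h v 1 y → x = y := by
    intro x hx hxJ y hy e1 e2
    rcases lt_or_ge x (3 * δ / 4) with hxl | hxl
    · rcases le_or_gt y δ with hy1 | hy1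
      · exact hmono.injOn ⟨hx.1, by linarith⟩ ⟨hy.1, hy1⟩ e1
      · exfalso
        rcases le_or_gt y (1 - δ) with hy2 | hy2
        · have a1 := hE.low x hx.1 hxl.le
          have a2 := hE.high y hy1.le hy2
          linarith
        · have a1 := hE.hlow x hx.1 (by linarith)
          have a2 := hE.hhigh y hy2.le hy.2
          rw [e2] at a1
          linarith
    · have hxr : 1 - 3 * δ / 4 < x := by
        by_contra hc
        exact hxJ ⟨hxl, not_lt.1 hc⟩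
      rcases le_or_gt (1 - δ) y with hy1 | hy1
      · exact hanti.injOn ⟨by linarith, hx.2⟩ ⟨hy1, hy.2⟩ e1
      · exfalso
        rcases le_or_gt δ y with hy2 | hy2
        · have a1 := hE.low' x hxr.le hx.2
          have a2 := hE.high y hy2 hy1.le
          linarith
        · have a1 := hE.hhigh x (by linarith) hx.2
          have a2 := hE.hlow y hy.1 hy2.le
          rw [e2] at a1
          linarith
  have pair : ∀ x y, (rg δ ρ v 1 x, hg δ h v 1 x) = (rg δ ρ v 1 y, hg δ h v 1 y) →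
      rg δ ρ v 1 x = rg δ ρ v 1 y ∧ hg δ h v 1 x = hg δ h v 1 y := fun x y he =>
    ⟨congrArg Prod.fst he, congrArg Prod.snd he⟩
  have inJ : ∀ x ∈ Icc (δ / 2) (1 - δ / 2), ∀ y ∈ Icc (δ / 2) (1 - δ / 2), x ≠ y →
      (rg δ ρ v 1 x, hg δ h v 1 x) = (rg δ ρ v 1 y, hg δ h v 1 y) →
      x ∈ Icc (3 * δ / 4) (1 - 3 * δ / 4) := by
    intro x hx y hy hxy he
    by_contra hc
    exact hxy (key x hx hc y hy (pair x y he).1 (pair x y he).2)
  refine ⟨?_, ?_, ?_⟩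
  · intro x hx
    by_cases hxJ : x ∈ Icc (3 * δ / 4) (1 - 3 * δ / 4)
    · rw [hd1 x hxJ, hd2 x hxJ]
      exact hG.imm x hxJ
    · intro he0
      have he1 : deriv (rg δ ρ v 1) x = 0 := congrArg Prod.fst he0
      rcases lt_or_ge x (3 * δ / 4) with hxl | hxl
      · have := hE.dpos x hx.1 (by linarith)
        linarith
      · have hxr : 1 - 3 * δ / 4 < x := by
          by_contra hc
          exact hxJ ⟨hxl, not_lt.1 hc⟩
        have := hE.dneg x (by linarith) hx.2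
        linarith
  · intro x hx y hy hxy he1
    have hxJ := inJ x hx y hy hxy he1
    have hyJ := inJ y hy x hx hxy.symm he1.symm
    have he2 := pair x y he1
    rw [hd1 x hxJ, hd2 x hxJ, hd1 y hyJ, hd2 y hyJ]
    apply hG.dbl x hxJ y hyJ hxy
    rw [← (hJ x hxJ).1, ← (hJ x hxJ).2, ← (hJ y hyJ).1, ← (hJ y hyJ).2]
    exact he1
  · intro x hx y hy z hz hxy hyz hxz he1 he3
    have hxJ := inJ x hx y hy hxy he1
    have hyJ := inJ y hy x hx hxy.symm he1.symm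
    have hzJ := inJ z hz x hx hxz.symm he3.symm
    refine hG.trp x hxJ y hyJ z hzJ hxy hyz hxz ?_ ?_
    · rw [← (hJ x hxJ).1, ← (hJ x hxJ).2, ← (hJ y hyJ).1, ← (hJ y hyJ).2]
      exact he1
    · rw [← (hJ x hxJ).1, ← (hJ x hxJ).2, ← (hJ z hzJ).1, ← (hJ z hzJ).2]
      exact he3

end Pool.Agent.KNT
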