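import Pool.Agent.KNT.DatI

/-!
# KNT/FamI: homotopy of the core data

PROOF of `Gd_fam`. Let `Φ, c` be as in the definition of `Gd L t (g 0) (k 0)`. `h.dat 0 : Dat (Sp L) t (g 0) (k 0)`, so
`kn_lin` gives a small `e` with `Conf ((t, Lin (g 0) (k 0) e) :: L)` and `Kn ((t, Φ) :: L) ~ Kn ((t, Lin (g 0) (k 0) e) :: L)`.
`strip_fam` for the family `fun l => Lin (g l) (k l) e` (`coreFam_lin`) gives `e'` with
`Conf ((t, thin e' (Lin (g 1) (k 1) e)) :: L)` and the equivalence of the two knots. The strip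
`thin e' (Lin (g 1) (k 1) e) = Lin (g 1) (k 1) (e * e')` has core `g 1` and `nrm = (e * e') • k 1`: apply the hypothesis.
-/

open scoped ContDiff Topology
open Set Filter
open Pool.Agent.CSG (stp)
open Pool.Agent.RSG (ex)

namespace Pool.Agent.KNT

theorem Gd_fam {L : SL} {t : ℝ} {g k : ℝ → ℝ → ℂ × ℝ} (h : DatFam (Sp L) t g k)
    (h1 : Gd L t (g 1) (k 1)) : Gd L t (g 0) (k 0) := by
  intro Φ c hc hC hg hk
  have d0 := h.dat 0 ⟨le_rfl, zero_le_one⟩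
  obtain ⟨e₀, he₀, -, hlin⟩ := kn_lin d0 hc hC hg hk
  obtain ⟨hC1, hL1⟩ := hlin e₀ he₀ le_rfl
  have hcf : CoreFam (Sp L) t (fun l => Lin (g l) (k l) e₀) := coreFam_lin h he₀
  obtain ⟨e₁, he₁, -, hst⟩ := strip_fam (Φ := fun l => Lin (g l) (k l) e₀) hC1 hcf
  obtain ⟨hC2, hL2⟩ := hst e₁ he₁ le_rfl
  have h3 : thin e₁ (Lin (g 1) (k 1) e₀) = Lin (g 1) (k 1) (e₀ * e₁) := thin_lin _ _ _ _
  refine hL1.trans (hL2.trans ?_)
  refine h1 _ (e₀ * e₁) (mul_pos he₀ he₁) hC2 ?_ ?_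
  · intro x _
    rw [h3]
    show g 1 x + (e₀ * e₁ * 0) • k 1 x = g 1 x
    rw [mul_zero, zero_smul, add_zero]
  · intro x _
    rw [h3]
    exact nrm_lin _ _ _ _

end Pool.Agent.KNT
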