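import Pool.Agent.KNT.CrsD
import Pool.Agent.KNT.LocI

/-!
# KNT/CrsZ: the tubes are disjoint from the rest of the knot

`T l (ζ, x) = Tub (g l) (k l) (ζ, x)`; the tube `bT (g l) (k l) Sig X e '' Dom` consists of points `T l (ζ, x)` with
`x ∈ (a₂, b₂)`, `‖ζ‖ ≤ 5 e` (`‖ζ‖ ≤ |re| + |im|`, `Sig < 1/8`).
PROOFS.
* `crs_off`: `(g l x).1 ≠ 0` and `g l x ∉ Λ` for `l ∈ [0,1]`, `x ∈ [a₂, b₂]` (on `[a, b]` by `off`, `avoid`, elsewhere
  `g l x = g 0 x`, `dat0.off`, `dat0.avoid`, `0 < a₂`, `b₂ < 1`). The set of `((l, x), ζ)` with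
  `(T l (ζ, x)).1 ≠ 0` and `T l (ζ, x) ∉ Λ` is open: `near_pos`.
* `crs_rest`. Choose `a₂ < a' < a`, `b < b' < b₂`.
  (i) `x ∈ [a', b']`: for `x' ∈ M := [0, 1 + t/2] \ (a₂, b₂)` (compact) we have `g l x ≠ g 0 x'`: for `x ∈ [a, b]` by
  `self` (`x' ∉ Ioo a b`, and `x ≠ x'`), for the other `x` by `dat0.inj`. By compactness of
  `[0,1] × [a', b'] × M` (`near_pos` with the two small parameters `ζ` and `y`): `T l (ζ, x) ≠ g 0 x' + y' • k 0 x'` if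
  `‖ζ‖`, `|y'|` are small.
  (ii) `x ∈ (a₂, a') ∪ (b', b₂)`: there `T l (ζ, x) = T 0 (ζ, x)` (`ends`; also the derivative of `g l`), and
  `g 0 x' + y' • k 0 x' = T 0 (y', x')`. `T 0` is injective on `{‖ζ‖ ≤ r} × [0, 1 + t]` for small `r` (`inj_near`,
  `Tub_imm`, `dat0`), so an equality gives `x = x'`, impossible: `x ∈ (a₂, b₂)`, `x' ∉ (a₂, b₂)`.
  A point of `Rst t a₂ b₂ (Lin (g 0) (k 0) e)` is `g 0 x' + (e y) • k 0 x'`, `x' = prf t y ∈ M`, `|e y| ≤ e`.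
-/

open scoped ContDiff Topology
open Set Filter
open Pool.Agent.CSG (stp)
open Pool.Agent.RSG (ex)

namespace Pool.Agent.KNT

/-- the coordinates of the tube stay in a small neighbourhood of the core -/
theorem CrsZ_sT {t a₂ a b b₂ : ℝ} {Sig X : ℝ → ℝ} (ht : 0 < t) (hS : IsSX t a₂ a b b₂ Sig X) {e : ℝ}
    (he : 0 < e) {q : ℂ × ℝ} (hq : q ∈ Dom) :
    ‖(sT Sig X e q).1‖ ≤ 5 * e ∧ (sT Sig X e q).2 ∈ Ioo a₂ b₂ := by
  obtain ⟨h1, h2⟩ := hq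
  have hx : X q.2 ∈ Ioo a₂ b₂ := by
    have h3 := abs_lt.1 h2
    constructor
    · rw [← hS.X_neg]; exact hS.monoX h3.1
    · rw [← hS.X_one]; exact hS.monoX h3.2
  refine ⟨?_, hx⟩
  have hx' : X q.2 ∈ Ioo 0 (1 + t / 2) := ⟨hS.a₂_pos.trans hx.1, by linarith [hx.2, hS.b₂_lt]⟩
  obtain ⟨-, hs1, hs2, -⟩ := hS.sig _ hx'
  have hn : ‖(sT Sig X e q).1‖ ≤ |e * Sig (X q.2) * q.1.re| + |e * q.1.im| :=
    Complex.norm_le_abs_re_add_abs_im _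
  have hre : |q.1.re| ≤ 4 := (Complex.abs_re_le_norm _).trans h1.le
  have him : |q.1.im| ≤ 4 := (Complex.abs_im_le_norm _).trans h1.le
  have e1 : |e * Sig (X q.2) * q.1.re| ≤ e * (1 / 8) * 4 := by
    rw [abs_mul, abs_of_pos (mul_pos he (by linarith))]
    have : e * Sig (X q.2) ≤ e * (1 / 8) := mul_le_mul_of_nonneg_left hs2.le he.le
    exact mul_le_mul this hre (abs_nonneg _) (by positivity)
  have e2 : |e * q.1.im| ≤ e * 4 := by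
    rw [abs_mul, abs_of_pos he]
    exact mul_le_mul_of_nonneg_left him he.le
  linarith

theorem CrsZ_cont {Λ : Set (ℂ × ℝ)} {t a b : ℝ} {g k : ℝ → ℝ → ℂ × ℝ}
    (h : CrossFam Λ t a b g k) :
    Continuous fun p : ℝ × (ℂ × ℝ) => Tub (g p.1) (k p.1) p.2 := by
  have h1 : Continuous fun p : ℝ × ℝ => g p.1 p.2 := h.smg.continuous
  have h2 : Continuous fun p : ℝ × ℝ => k p.1 p.2 := h.smk.continuous
  have h3 : Continuous fun p : ℝ × ℝ => crp (deriv (g p.1) p.2) (k p.1 p.2) :=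
    (crp_smooth (deriv_fam_smooth h.smg) h.smk).continuous
  have hp : Continuous fun p : ℝ × (ℂ × ℝ) => ((p.1, p.2.2) : ℝ × ℝ) := by fun_prop
  have e1 := h1.comp hp
  have e2 := h2.comp hp
  have e3 := h3.comp hp
  have hr : Continuous fun p : ℝ × (ℂ × ℝ) => p.2.1.re :=
    Complex.continuous_re.comp (continuous_fst.comp continuous_snd)
  have hi : Continuous fun p : ℝ × (ℂ × ℝ) => p.2.1.im :=
    Complex.continuous_im.comp (continuous_fst.comp continuous_snd)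
  exact (e1.add (hr.smul e2)).add (hi.smul e3)

theorem CrsZ_zero (g k : ℝ → ℂ × ℝ) (x : ℝ) : Tub g k (0, x) = g x := by
  simp [Tub]

theorem crs_off {Λ : Set (ℂ × ℝ)} (hΛ : IsClosed Λ) {t a b a₂ b₂ : ℝ} {g k : ℝ → ℝ → ℂ × ℝ}
    (h : CrossFam Λ t a b g k) {Sig X : ℝ → ℝ} (hS : IsSX t a₂ a b b₂ Sig X) :
    ∃ e₀ : ℝ, 0 < e₀ ∧ ∀ e : ℝ, 0 < e → e ≤ e₀ → ∀ l ∈ Icc (0 : ℝ) 1, ∀ q ∈ Dom,
      (bT (g l) (k l) Sig X e q).1 ≠ 0 ∧ bT (g l) (k l) Sig X e q ∉ Λ := by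
  have ht : 0 < t := h.dat0.pos
  have hc := CrsZ_cont h
  have hp : Continuous fun p : (ℝ × ℝ) × ℂ => ((p.1.1, (p.2, p.1.2)) : ℝ × (ℂ × ℝ)) := by fun_prop
  have hT : Continuous fun p : (ℝ × ℝ) × ℂ => Tub (g p.1.1) (k p.1.1) (p.2, p.1.2) := hc.comp hp
  have hO : IsOpen {p : (ℝ × ℝ) × ℂ | (Tub (g p.1.1) (k p.1.1) (p.2, p.1.2)).1 ≠ 0 ∧
      Tub (g p.1.1) (k p.1.1) (p.2, p.1.2) ∉ Λ} :=
    (isOpen_ne_fun (continuous_fst.comp hT) continuous_const).inter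
      (hΛ.isOpen_compl.preimage hT)
  have hK : IsCompact ((Icc (0 : ℝ) 1) ×ˢ (Icc a₂ b₂)) := isCompact_Icc.prod isCompact_Icc
  obtain ⟨r, hr, hr'⟩ := near_pos (V := ℂ) hK hO (by
    rintro ⟨l, x⟩ ⟨hl, hx⟩
    simp only [mem_ofPred_eq, CrsZ_zero]
    have hx0 : 0 < x := hS.a₂_pos.trans_le hx.1
    have hx1 : x < 1 := hx.2.trans_lt hS.b₂_lt
    by_cases hab : x ∈ Icc a b
    · exact ⟨h.off l hl x hab, h.avoid l hl x hab⟩
    · have hx' : x ∈ Icc 0 (1 + t) := ⟨hx0.le, by linarith⟩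
      rw [(h.ends l hl x (fun hh => hab ⟨hh.1.le, hh.2.le⟩)).1]
      refine ⟨fun h0 => ?_, h.dat0.avoid x hx'⟩
      rcases (h.dat0.off x hx').1 h0 with h1 | h1
      · exact hx0.ne' h1
      · exact hx1.ne h1)
  refine ⟨r / 5, by positivity, fun e he he' l hl q hq => ?_⟩
  obtain ⟨h1, h2⟩ := CrsZ_sT ht hS he hq
  have h3 := hr' (l, (sT Sig X e q).2) ⟨hl, Ioo_subset_Icc_self h2⟩ (sT Sig X e q).1 (by linarith)
  exact h3

theorem CrsZ_deriv {Λ : Set (ℂ × ℝ)} {t a b : ℝ} {g k : ℝ → ℝ → ℂ × ℝ}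
    (h : CrossFam Λ t a b g k) {l : ℝ} (hl : l ∈ Icc (0 : ℝ) 1) {x : ℝ} (hx : x ∉ Icc a b) (ζ : ℂ) :
    Tub (g l) (k l) (ζ, x) = Tub (g 0) (k 0) (ζ, x) := by
  have h1 := h.ends l hl x (fun hh => hx ⟨hh.1.le, hh.2.le⟩)
  have h2 : deriv (g l) x = deriv (g 0) x := by
    apply Filter.EventuallyEq.deriv_eq
    filter_upwards [(isClosed_Icc (a := a) (b := b)).isOpen_compl.mem_nhds hx] with y hy
    exact (h.ends l hl y (fun hh => hy ⟨hh.1.le, hh.2.le⟩)).1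
  simp only [Tub, h1.1, h1.2, h2]

theorem crs_rest {Λ : Set (ℂ × ℝ)} {t a b a₂ b₂ : ℝ} {g k : ℝ → ℝ → ℂ × ℝ}
    (h : CrossFam Λ t a b g k) {Sig X : ℝ → ℝ} (hS : IsSX t a₂ a b b₂ Sig X) :
    ∃ e₀ : ℝ, 0 < e₀ ∧ ∀ e : ℝ, 0 < e → e ≤ e₀ → ∀ l ∈ Icc (0 : ℝ) 1,
      Disjoint (Rst t a₂ b₂ (Lin (g 0) (k 0) e)) (bT (g l) (k l) Sig X e '' Dom) := by
  have ht : 0 < t := h.dat0.pos
  have hc := CrsZ_cont h
  have ha₂ := hS.a₂_pos
  have ha₂' := hS.a₂_lt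
  have hab := hS.ab
  have hb := hS.b_lt
  have hb₂ := hS.b₂_lt
  -- part (i)
  have hp : Continuous fun p : (ℝ × (ℝ × ℝ)) × (ℂ × ℝ) =>
      ((p.1.1, (p.2.1, p.1.2.1)) : ℝ × (ℂ × ℝ)) := by fun_prop
  have hT : Continuous fun p : (ℝ × (ℝ × ℝ)) × (ℂ × ℝ) =>
      Tub (g p.1.1) (k p.1.1) (p.2.1, p.1.2.1) := hc.comp hp
  have hg0 : Continuous (g 0) := h.dat0.smg.continuous
  have hk0 : Continuous (k 0) := h.dat0.smk.continuous
  have hL : Continuous fun p : (ℝ × (ℝ × ℝ)) × (ℂ × ℝ) =>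
      g 0 p.1.2.2 + p.2.2 • k 0 p.1.2.2 := by fun_prop
  have hO : IsOpen {p : (ℝ × (ℝ × ℝ)) × (ℂ × ℝ) |
      Tub (g p.1.1) (k p.1.1) (p.2.1, p.1.2.1) ≠ g 0 p.1.2.2 + p.2.2 • k 0 p.1.2.2} :=
    isOpen_ne_fun hT hL
  have hK : IsCompact ((Icc (0 : ℝ) 1) ×ˢ ((Icc ((a₂ + a) / 2) ((b + b₂) / 2)) ×ˢ
      (Icc 0 (1 + t) \ Ioo a₂ b₂))) :=
    isCompact_Icc.prod (isCompact_Icc.prod (isCompact_Icc.diff isOpen_Ioo))
  obtain ⟨r₁, hr₁, hr₁'⟩ := near_pos (V := ℂ × ℝ) hK hO (by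
    rintro ⟨l, x, x'⟩ ⟨hl, hx, hx', hx''⟩
    simp only [mem_ofPred_eq, Prod.fst_zero, Prod.snd_zero, CrsZ_zero, zero_smul, add_zero]
    intro heq
    have hxx : x ∈ Ioo a₂ b₂ := ⟨by have := hx.1; simp only at this; linarith,
      by have := hx.2; simp only at this; linarith⟩
    by_cases hxab : x ∈ Icc a b
    · have := h.self l hl x hxab x' hx' (fun hh => hx'' ⟨by linarith [hh.1], by linarith [hh.2]⟩) heq
      exact hx'' (this ▸ hxx)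
    · rw [(h.ends l hl x (fun hh => hxab ⟨hh.1.le, hh.2.le⟩)).1] at heq
      have := h.dat0.inj ⟨by linarith [hxx.1], by linarith [hxx.2]⟩ hx' heq
      exact hx'' (this ▸ hxx))
  -- part (ii)
  have hsm : ContDiff ℝ ∞ (Tub (g 0) (k 0)) := by
    have h1 : ContDiff ℝ ∞ (g 0) := h.dat0.smg
    have h2 : ContDiff ℝ ∞ (k 0) := h.dat0.smk
    have h3 : ContDiff ℝ ∞ (deriv (g 0)) := h1.deriv'
    have h4 : ContDiff ℝ ∞ fun x => crp (deriv (g 0) x) (k 0 x) := crp_smooth h3 h2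
    have hre : ContDiff ℝ ∞ fun q : ℂ × ℝ => q.1.re := Complex.reCLM.contDiff.comp contDiff_fst
    have him : ContDiff ℝ ∞ fun q : ℂ × ℝ => q.1.im := Complex.imCLM.contDiff.comp contDiff_fst
    exact ((h1.comp contDiff_snd).add (hre.smul (h2.comp contDiff_snd))).add
      (him.smul (h4.comp contDiff_snd))
  have hK2 : IsCompact (({0} : Set ℂ) ×ˢ (Icc (0 : ℝ) (1 + t))) :=
    isCompact_singleton.prod isCompact_Icc
  obtain ⟨O, hOo, hOK, hOi⟩ := inj_near hK2 (f := Tub (g 0) (k 0))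
    (fun x _ => (hsm.of_le (by norm_num)).contDiffAt)
    (by
      rintro ⟨ζ, x⟩ ⟨hζ, hx⟩
      have hζ' : ζ = 0 := hζ
      subst hζ'
      exact Tub_imm h.dat0.smg h.dat0.smk (h.dat0.imm x hx))
    (by
      rintro ⟨ζ, x⟩ ⟨hζ, hx⟩ ⟨ζ', x'⟩ ⟨hζ', hx'⟩ heq
      have e1 : ζ = 0 := hζ
      have e2 : ζ' = 0 := hζ'
      subst e1
      subst e2
      rw [CrsZ_zero, CrsZ_zero] at heq
      have e3 : x = x' := h.dat0.inj hx hx' heq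
      rw [e3])
  have hO2 : IsOpen {p : ℝ × ℂ | (p.2, p.1) ∈ O} := hOo.preimage (by fun_prop)
  obtain ⟨r₂, hr₂, hr₂'⟩ := near_pos (V := ℂ) (isCompact_Icc (a := (0 : ℝ)) (b := 1 + t)) hO2
    (fun x hx => hOK ⟨rfl, hx⟩)
  refine ⟨min r₁ r₂ / 5, by positivity, fun e he he' l hl => ?_⟩
  have he1 : 5 * e ≤ r₁ := by have := min_le_left r₁ r₂; linarith
  have he2 : 5 * e ≤ r₂ := by have := min_le_right r₁ r₂; linarith
  rw [Set.disjoint_left]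
  rintro p ⟨y, ⟨hy, hy'⟩, rfl⟩ ⟨q, hq, hqe⟩
  obtain ⟨h1, h2⟩ := CrsZ_sT ht hS he hq
  have hx' := prf_mem ht y
  have hey : |e * y| ≤ e := by
    rw [abs_mul, abs_of_pos he]
    have : |y| ≤ 1 := abs_le.2 ⟨hy.1, hy.2⟩
    nlinarith
  simp only [bT, Lin] at hqe
  by_cases hxx : (sT Sig X e q).2 ∈ Icc ((a₂ + a) / 2) ((b + b₂) / 2)
  · refine hr₁' (l, ((sT Sig X e q).2, prf t y)) ⟨hl, hxx, hx', hy'⟩ ((sT Sig X e q).1, e * y) ?_ hqe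
    rw [Prod.norm_def]
    refine max_le (by linarith) ?_
    show |e * y| ≤ r₁
    linarith
  · have hxab : (sT Sig X e q).2 ∉ Icc a b := fun hh => hxx ⟨by linarith [hh.1], by linarith [hh.2]⟩
    have e1 : Tub (g l) (k l) (sT Sig X e q) = Tub (g 0) (k 0) (sT Sig X e q) :=
      CrsZ_deriv h hl hxab _
    have e2 : g 0 (prf t y) + (e * y) • k 0 (prf t y) =
        Tub (g 0) (k 0) (((e * y : ℝ) : ℂ), prf t y) := by
      simp [Tub]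
    rw [e1, e2] at hqe
    have m1 : sT Sig X e q ∈ O :=
      hr₂' (sT Sig X e q).2 ⟨by linarith [h2.1], by linarith [h2.2]⟩ (sT Sig X e q).1 (by linarith)
    have m2 : (((e * y : ℝ) : ℂ), prf t y) ∈ O :=
      hr₂' (prf t y) hx' ((e * y : ℝ) : ℂ) (by
        rw [Complex.norm_real]
        show |e * y| ≤ r₂
        linarith)
    have h5 := hOi m1 m2 hqe
    rw [h5] at h2
    exact hy' h2

end Pool.Agent.KNT
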