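import Pool.Agent.KNT.LinA

/-!
# KNT/DatI: `Dat`, `Gd`, `HG`

PROOFS.
* `dat_of_conf`: `Φ` is a strip disjoint from `Sp L` (`conf_cons`). `smk`: `nrm Φ x = fderiv ℝ Φ (x, 0) (0, 1)`.
  `inj`, `avoid`: `(x, 0) ∈ Rec t`. `off`: `Strip.off`, `foot`, `tip`. `imm`: `fderiv ℝ Φ (x, 0)` is injective,
  `deriv (fun x => Φ (x, 0)) x = fderiv ℝ Φ (x, 0) (1, 0)`. `base`: `(Φ (0, y)).1 = 0` for `|y| ≤ 1`. `tip`: `trv`.
* `Gd_congr`, `HG_of_Gd` (take `c = 1`, `g' = fun x => Φ (x, 0)`, `k = nrm Φ`), `Gd_of_HG`: by definition.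
* `Gd_neg`: given `Φ` with `nrm Φ = c • k`, `Φ' (x, y) = Φ (x, -y)` has `nrm Φ' = c • (-k)`; `flip_LEq`.
* `Gd_reparam`: given `Φ` over `(g, c • k)`, `Rpm χ id Φ` is a strip over `(g ∘ χ, c • k ∘ χ)` (`IsRep t t' χ id`, χ maps
  `[0, 1 + t']` into `[0, 1 + t]` by monotonicity); `conf_rep`, `rep_LEq`.
* `HG_tail`: `thin_LEq` with `e = 1` (`thin 1 Φ = Φ`), or `Rpm id id`.
-/

open scoped ContDiff Topology
open Set Filter
open Pool.Agent.CSG (stp)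
open Pool.Agent.RSG (ex)

namespace Pool.Agent.KNT

theorem DatI_nrm {t : ℝ} {Φ : ℝ × ℝ → ℂ × ℝ} (h : Strip t Φ) (x : ℝ) :
    nrm Φ x = fderiv ℝ Φ (x, 0) (0, 1) := by
  unfold nrm
  have h1 : HasFDerivAt Φ (fderiv ℝ Φ (x, 0)) (x, 0) :=
    ((h.smooth.differentiable (by simp)) (x, 0)).hasFDerivAt
  have h2 : HasDerivAt (fun y : ℝ => (x, y)) ((0 : ℝ), (1 : ℝ)) 0 :=
    (hasDerivAt_const (0 : ℝ) x).prodMk (hasDerivAt_id (0 : ℝ))
  exact (h1.comp_hasDerivAt (0 : ℝ) h2).deriv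

theorem DatI_cor {t : ℝ} {Φ : ℝ × ℝ → ℂ × ℝ} (h : Strip t Φ) (x : ℝ) :
    deriv (fun x => Φ (x, 0)) x = fderiv ℝ Φ (x, 0) (1, 0) := by
  have h1 : HasFDerivAt Φ (fderiv ℝ Φ (x, 0)) (x, 0) :=
    ((h.smooth.differentiable (by simp)) (x, 0)).hasFDerivAt
  have h2 : HasDerivAt (fun y : ℝ => (y, (0 : ℝ))) ((1 : ℝ), (0 : ℝ)) x :=
    (hasDerivAt_id x).prodMk (hasDerivAt_const x (0 : ℝ))
  exact (h1.comp_hasDerivAt x h2).deriv

theorem DatI_comb {W : Type*} [NormedAddCommGroup W] [NormedSpace ℝ W] (A : ℝ × ℝ →L[ℝ] W)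
    (r s : ℝ) : r • A (1, 0) + s • A (0, 1) = A (r, s) := by
  rw [← map_smul, ← map_smul, ← map_add]
  simp

theorem dat_of_conf {t : ℝ} {Φ : ℝ × ℝ → ℂ × ℝ} {L : SL} (h : Conf ((t, Φ) :: L)) :
    Dat (Sp L) t (fun x => Φ (x, 0)) (nrm Φ) := by
  obtain ⟨hS, hL, hd⟩ := conf_cons.1 h
  have hrec : ∀ x ∈ Icc 0 (1 + t), (x, (0 : ℝ)) ∈ Rec t := fun x hx => ⟨hx, by simp⟩
  refine ⟨hS.pos, ?_, ?_, ?_, ?_, ?_, ?_, ?_, ?_⟩
  · exact hS.smooth.comp (contDiff_id.prodMk contDiff_const)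
  · have h1 : nrm Φ = fun x => fderiv ℝ Φ (x, 0) (0, 1) := funext (DatI_nrm hS)
    rw [h1]
    have h2 : ContDiff ℝ ∞ (fderiv ℝ Φ) := hS.smooth.fderiv_right (by simp)
    exact (h2.comp (contDiff_id.prodMk contDiff_const)).clm_apply contDiff_const
  · intro x hx y hy hxy
    have := hS.inj (hrec x hx) (hrec y hy) hxy
    exact congrArg Prod.fst this
  · intro x hx
    constructor
    · intro h0
      rcases hS.off (x, 0) (hrec x hx) h0 with h1 | h1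
      · exact Or.inl h1
      · exact Or.inr (congrArg Prod.fst h1)
    · rintro (rfl | rfl)
      · exact hS.foot 0 (by simp)
      · exact hS.tip
  · intro x hx
    rw [LinearIndependent.pair_iff]
    intro r s hrs
    rw [DatI_cor hS, DatI_nrm hS, DatI_comb] at hrs
    have h1 := hS.imm (x, 0) (hrec x hx) (hrs.trans (map_zero _).symm)
    exact ⟨congrArg Prod.fst h1, congrArg Prod.snd h1⟩
  · have h1 : HasDerivAt (fun y : ℝ => Φ (0, y)) (nrm Φ 0) 0 := by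
      have h2 : DifferentiableAt ℝ (fun y : ℝ => Φ (0, y)) 0 :=
        ((hS.smooth.comp (contDiff_const.prodMk contDiff_id)).differentiable (by simp)) 0
      exact h2.hasDerivAt
    have h3 : HasDerivAt (fun y : ℝ => (Φ (0, y)).1) (nrm Φ 0).1 0 := h1.fst
    have h4 : (fun y : ℝ => (Φ (0, y)).1) =ᶠ[𝓝 0] fun _ => 0 := by
      have : Ioo (-1 : ℝ) 1 ∈ 𝓝 (0 : ℝ) := Ioo_mem_nhds (by norm_num) (by norm_num)
      filter_upwards [this] with y hy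
      exact hS.foot y (abs_le.2 ⟨hy.1.le, hy.2.le⟩)
    have h5 : HasDerivAt (fun y : ℝ => (Φ (0, y)).1) 0 0 :=
      (hasDerivAt_const (0 : ℝ) (0 : ℂ)).congr_of_eventuallyEq h4
    exact h3.unique h5
  · rw [LinearIndependent.pair_iff]
    intro r s hrs
    have h1 : DifferentiableAt ℝ Φ (1, 0) := (hS.smooth.differentiable (by simp)) (1, 0)
    have h2 : ∀ v, fderiv ℝ (fun q : ℝ × ℝ => (Φ q).1) (1, 0) v = (fderiv ℝ Φ (1, 0) v).1 := by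
      intro v
      have h3 := (h1.hasFDerivAt.fst).fderiv
      rw [h3]
      rfl
    rw [DatI_cor hS, DatI_nrm hS, ← h2, ← h2, DatI_comb] at hrs
    have h4 := hS.trv (hrs.trans (map_zero _).symm)
    exact ⟨congrArg Prod.fst h4, congrArg Prod.snd h4⟩
  · intro x hx hx2
    exact Set.disjoint_left.1 hd ⟨(x, 0), hrec x hx, rfl⟩ hx2

theorem Gd_congr {L : SL} {t : ℝ} {g k g' k' : ℝ → ℂ × ℝ} (hg : ∀ x ∈ Icc 0 (1 + t), g' x = g x)
    (hk : ∀ x ∈ Icc 0 (1 + t), k' x = k x) (h : Gd L t g' k') : Gd L t g k := by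
  intro Φ c hc hC h1 h2
  refine h Φ c hc hC (fun x hx => (h1 x hx).trans (hg x hx).symm) (fun x hx => ?_)
  rw [h2 x hx, hk x hx]

theorem HG_of_Gd {u : ℕ} {t : ℝ} {g : ℝ → ℂ × ℝ}
    (h : ∀ (L : SL) (g' k : ℝ → ℂ × ℝ), L.length = u → Conf L → Dat (Sp L) t g' k →
      (∀ x ∈ Icc 0 (1 + t), g' x = g x) → Gd L t g' k) : HG u t g := by
  intro Φ L hL hC hg
  have hd := dat_of_conf hC
  exact h L (fun x => Φ (x, 0)) (nrm Φ) hL (conf_cons.1 hC).2.1 hd hg Φ 1 one_pos hC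
    (fun x _ => rfl) (fun x _ => (one_smul ℝ _).symm)

theorem Gd_of_HG {u : ℕ} {t : ℝ} {g : ℝ → ℂ × ℝ} (h : HG u t g) {L : SL} (hL : L.length = u)
    (k : ℝ → ℂ × ℝ) : Gd L t g k := by
  intro Φ c _ hC hg _
  exact h Φ L hL hC hg

theorem Gd_neg {L : SL} {t : ℝ} {g k : ℝ → ℂ × ℝ} (h : Gd L t g (fun x => -k x)) : Gd L t g k := by
  intro Φ c hc hC hg hk
  obtain ⟨h1, h2⟩ := flip_LEq hC
  rw [← h2]
  refine h _ c hc h1 (fun x hx => ?_) (fun x hx => ?_)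
  · simpa using hg x hx
  · have h3 : nrm (fun q : ℝ × ℝ => Φ (q.1, -q.2)) x = -nrm Φ x := by
      unfold nrm
      have h4 := deriv_comp_neg (f := fun y : ℝ => Φ (x, y)) (x := (0 : ℝ))
      rw [neg_zero] at h4
      exact h4
    rw [h3, hk x hx, smul_neg]

theorem DatI_mem {t t' : ℝ} {χ : ℝ → ℝ} (hχ : ContDiff ℝ ∞ χ) (h0 : χ 0 = 0)
    (hd : ∀ x ∈ Icc 0 (1 + t'), 0 < deriv χ x) (ht : χ (1 + t') ≤ 1 + t) :
    ∀ x ∈ Icc 0 (1 + t'), χ x ∈ Icc 0 (1 + t) := by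
  have hm : StrictMonoOn χ (Icc 0 (1 + t')) :=
    strictMonoOn_of_deriv_pos (convex_Icc _ _) hχ.continuous.continuousOn
      (fun x hx => hd x (interior_subset hx))
  intro x hx
  have hle : (0 : ℝ) ≤ 1 + t' := hx.1.trans hx.2
  constructor
  · rw [← h0]
    exact hm.monotoneOn (left_mem_Icc.2 hle) hx hx.1
  · exact (hm.monotoneOn hx (right_mem_Icc.2 hle) hx.2).trans ht

theorem Gd_reparam {L : SL} {t t' : ℝ} {g k : ℝ → ℂ × ℝ} {χ : ℝ → ℝ} (hχ : ContDiff ℝ ∞ χ) (h0 : χ 0 = 0)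
    (h1 : χ 1 = 1) (ht' : 0 < t') (hd : ∀ x ∈ Icc 0 (1 + t'), 0 < deriv χ x) (ht : χ (1 + t') ≤ 1 + t)
    (h : Gd L t' (g ∘ χ) (k ∘ χ)) : Gd L t g k := by
  have hm := DatI_mem hχ h0 hd ht
  have hrep : IsRep t t' χ id := by
    refine ⟨hχ, contDiff_id, ht', h0, h1, hd, ht, rfl, fun y _ => ?_, fun y hy => ?_⟩
    · rw [deriv_id]
      exact one_pos
    · exact abs_le.2 ⟨hy.1, hy.2⟩
  intro Φ c hc hC hg hk
  refine (rep_LEq hrep hC).trans (h (Rpm χ id Φ) c hc (conf_rep hrep hC) (fun x hx => ?_)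
    (fun x hx => ?_))
  · exact hg (χ x) (hm x hx)
  · exact hk (χ x) (hm x hx)

theorem HG_tail {u : ℕ} {t t' : ℝ} {g : ℝ → ℂ × ℝ} (ht' : 0 < t') (ht : t' ≤ t) (h : HG u t' g) :
    HG u t g := by
  intro Φ L hL hC hg
  obtain ⟨h1, h2⟩ := thin_LEq ht' ht one_pos le_rfl hC
  refine h2.trans (h _ L hL h1 (fun x hx => ?_))
  have h3 : thin 1 Φ (x, 0) = Φ (x, 0) := by simp [thin]
  rw [h3]
  exact hg x ⟨hx.1, hx.2.trans (by linarith)⟩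

end Pool.Agent.KNT
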