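import Pool.Agent.KNT.CrsT
import Pool.Agent.KNT.CrsZ
import Pool.Agent.KNT.DatI

/-!
# KNT/CrsM: regular homotopy of the middle part of the core

PROOFS.
* `crs_kn`: `gr (Lin (g l) (k l) e) (prf t) = Rst t a₂ b₂ (Lin (g l) (k l) e) ∪ bT (g l) (k l) Sig X e '' Str`: a point of
  the finger with `x = prf t y ∈ (a₂, b₂)` has `|y| = Sig x` (`sig_iff`), `x = X s` for a unique `s ∈ (-1, 1)` (`X` is
  continuous, strictly increasing, `X (-1) = a₂`, `X 1 = b₂`), and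
  `bT (g l) (k l) Sig X e (±1, s) = g l x ± (e * Sig x) • k l x = Lin (g l) (k l) e (x, ± Sig x)`; conversely
  `Sig x ∈ [-1, 1]`, `prf t (± Sig x) = x`. For `l = 0` and `l = 1` the sets `Zr`, `Rst` are the same:
  `g 1 x = g 0 x`, `k 1 x = k 0 x` for `x ∉ Ioo a b` (`x = 0`, resp. `x ∉ Ioo a₂ b₂`).
* `Gd_cross`. Let `Φ, c` be as in `Gd L t (g 0) (k 0)`. `Sp L` is closed, `Conf L`. Choose `a₂ ∈ (0, a)`, `b₂ ∈ (b, 1)`,
  `Sig` (`exists_Sig`), `X` (`exists_X`); let `e` be small enough for `kn_lin` (`Φ`, `g 0`, `k 0`), for `conf_lin`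
  (`g 1`, `k 1`), `crs_tubes`, `crs_off`, `crs_rest`. Then
  `Kn ((t, Φ) :: L) ~ Kn ((t, Lin (g 0) (k 0) e) :: L) = Z ∪ bT_0 '' Str ~ Z ∪ bT_1 '' Str = Kn ((t, Lin (g 1) (k 1) e) :: L)`
  with `Z = Zr (Lin (g 0) (k 0) e) L ∪ Rst t a₂ b₂ (Lin (g 0) (k 0) e)` by `LEq.rib` (`Zr ⊆ U ∪ Sp L`), and the last knot is
  trivial by the hypothesis (`c = e`, `nrm_lin`).
-/

open scoped ContDiff Topology
open Set Filter
open Pool.Agent.CSG (stp)
open Pool.Agent.RSG (ex)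

namespace Pool.Agent.KNT

theorem CrsM_bT {g k : ℝ → ℂ × ℝ} {Sig X : ℝ → ℝ} {e δ s : ℝ} :
    bT g k Sig X e ((δ : ℂ), s) = Lin g k e (X s, δ * Sig (X s)) := by
  unfold bT sT Tub Lin
  simp only [Complex.ofReal_re, Complex.ofReal_im, mul_zero, zero_smul, add_zero]
  congr 2
  ring

theorem CrsM_gr {t a b a₂ b₂ : ℝ} (ht : 0 < t) {g k : ℝ → ℂ × ℝ}
    {Sig X : ℝ → ℝ} (hS : IsSX t a₂ a b b₂ Sig X) (e : ℝ) :
    gr (Lin g k e) (prf t) = Rst t a₂ b₂ (Lin g k e) ∪ bT g k Sig X e '' Str := by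
  have hsub : ∀ x ∈ Ioo a₂ b₂, x ∈ Ioo 0 (1 + t / 2) := by
    intro x hx
    have h1 := hS.a₂_pos
    have h2 := hS.b₂_lt
    exact ⟨by linarith [hx.1], by linarith [hx.2]⟩
  have hXs : ∀ s : ℝ, |s| < 1 → X s ∈ Ioo a₂ b₂ := by
    intro s hs
    rw [abs_lt] at hs
    refine ⟨?_, ?_⟩
    · rw [← hS.X_neg]; exact hS.monoX hs.1
    · rw [← hS.X_one]; exact hS.monoX hs.2
  apply Subset.antisymm
  · rintro _ ⟨y, hy, rfl⟩
    by_cases hx : prf t y ∈ Ioo a₂ b₂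
    · right
      have h1 := (hS.sig_iff _ (hsub _ hx) y).1 rfl
      have h2 : prf t y ∈ Ioo (X (-1)) (X 1) := by rw [hS.X_neg, hS.X_one]; exact hx
      obtain ⟨s, hs, hs'⟩ := intermediate_value_Ioo (by norm_num) hS.smX.continuous.continuousOn h2
      have hs1 : |s| < 1 := abs_lt.2 hs
      rcases abs_choice y with hc | hc
      · refine ⟨(((1 : ℝ) : ℂ), s), ⟨Or.inl (by simp), hs1⟩, ?_⟩
        rw [CrsM_bT, hs', ← h1, hc, one_mul]
      · refine ⟨(((-1 : ℝ) : ℂ), s), ⟨Or.inr (by simp), hs1⟩, ?_⟩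
        rw [CrsM_bT, hs', ← h1, hc]
        congr 2
        ring
    · left
      exact ⟨y, ⟨hy, hx⟩, rfl⟩
  · rintro p (⟨y, ⟨hy, -⟩, rfl⟩ | ⟨⟨z, s⟩, ⟨hz, hs⟩, rfl⟩)
    · exact ⟨y, hy, rfl⟩
    · have hx := hXs s hs
      obtain ⟨-, h1, h2, h3⟩ := hS.sig _ (hsub _ hx)
      have key : ∀ δ : ℝ, (δ = 1 ∨ δ = -1) → bT g k Sig X e ((δ : ℂ), s) ∈ gr (Lin g k e) (prf t) := by
        intro δ hδ
        have h4 : |δ * Sig (X s)| = Sig (X s) := by
          rcases hδ with rfl | rfl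
          · rw [one_mul, abs_of_pos (by linarith)]
          · rw [neg_one_mul, abs_neg, abs_of_pos (by linarith)]
        refine ⟨δ * Sig (X s), ?_, ?_⟩
        · rw [mem_Icc, ← abs_le, h4]
          linarith
        · show Lin g k e (prf t (δ * Sig (X s)), δ * Sig (X s)) = _
          rw [(hS.sig_iff _ (hsub _ hx) (δ * Sig (X s))).2 h4, CrsM_bT]
      rcases hz with hz | hz
      · have := key 1 (Or.inl rfl)
        have e1 : z = ((1 : ℝ) : ℂ) := by simpa using hz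
        rw [e1]; exact this
      · have := key (-1) (Or.inr rfl)
        have e1 : z = ((-1 : ℝ) : ℂ) := by simpa using hz
        rw [e1]; exact this

theorem crs_kn {Λ : Set (ℂ × ℝ)} {t a b a₂ b₂ : ℝ} {g k : ℝ → ℝ → ℂ × ℝ} (h : CrossFam Λ t a b g k)
    {Sig X : ℝ → ℝ} (hS : IsSX t a₂ a b b₂ Sig X) (L : SL) (e : ℝ) {l : ℝ} (hl : l = 0 ∨ l = 1) :
    Kn ((t, Lin (g l) (k l) e) :: L) =
      (Zr (Lin (g 0) (k 0) e) L ∪ Rst t a₂ b₂ (Lin (g 0) (k 0) e)) ∪ bT (g l) (k l) Sig X e '' Str := by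
  have hl' : l ∈ Icc (0 : ℝ) 1 := by rcases hl with rfl | rfl <;> simp
  have hends := h.ends l hl'
  have h0 : (0 : ℝ) ∉ Ioo a b := fun hx => by linarith [hx.1, h.a_pos]
  have e1 : bas (Lin (g l) (k l) e) = bas (Lin (g 0) (k 0) e) := by
    unfold bas
    apply image_congr
    intro y _
    unfold Lin
    simp only
    rw [(hends 0 h0).1, (hends 0 h0).2]
  have e2 : Zr (Lin (g l) (k l) e) L = Zr (Lin (g 0) (k 0) e) L := by
    unfold Zr
    rw [e1]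
  have e3 : Rst t a₂ b₂ (Lin (g l) (k l) e) = Rst t a₂ b₂ (Lin (g 0) (k 0) e) := by
    unfold Rst
    apply image_congr
    rintro y ⟨-, hy⟩
    have hy' : prf t y ∉ Ioo a b := fun hx => hy ⟨hS.a₂_lt.trans hx.1, hx.2.trans hS.b_lt⟩
    unfold Lin
    simp only
    rw [(hends _ hy').1, (hends _ hy').2]
  rw [Kn_cons, e2, CrsM_gr h.dat0.pos hS e, e3, union_assoc]

theorem Gd_cross {L : SL} {t a b : ℝ} {g k : ℝ → ℝ → ℂ × ℝ} (h : CrossFam (Sp L) t a b g k)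
    (h1 : Gd L t (g 1) (k 1)) : Gd L t (g 0) (k 0) := by
  intro Φ c hc hC hg hk
  have hL : Conf L := (conf_cons.1 hC).2.1
  have ht : 0 < t := h.dat0.pos
  obtain ⟨Sig, hs1, hs2, -⟩ := exists_Sig ht
  have ha := h.a_pos
  have hab := h.a_lt
  have hb := h.b_lt
  obtain ⟨X, x1, x2, x3, x4, x5, x6, x7⟩ := exists_X (a₂ := a / 2) (a := a) (b := b) (b₂ := (b + 1) / 2)
    (by linarith) hab (by linarith)
  have hS : IsSX t (a / 2) a b ((b + 1) / 2) Sig X :=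
    ⟨by linarith, by linarith, hab, by linarith, by linarith, hs1, hs2, x1, x2, x3, x4, x5, x6, x7⟩
  obtain ⟨e₁, p1, -, q1⟩ := kn_lin h.dat0 hc hC hg hk
  obtain ⟨e₂, p2, -, q2⟩ := conf_lin h.dat1 hL
  obtain ⟨e₃, p3, q3⟩ := crs_tubes h hS
  obtain ⟨e₄, p4, q4⟩ := crs_off (Sp_compact hL).isClosed h hS
  obtain ⟨e₅, p5, q5⟩ := crs_rest h hS
  obtain ⟨e, he0, he1, he2, he3, he4, he5⟩ : ∃ e : ℝ, 0 < e ∧ e ≤ e₁ ∧ e ≤ e₂ ∧ e ≤ e₃ ∧ e ≤ e₄ ∧ e ≤ e₅ := by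
    refine ⟨min e₁ (min e₂ (min e₃ (min e₄ e₅))), ?_, ?_, ?_, ?_, ?_, ?_⟩
    · exact lt_min p1 (lt_min p2 (lt_min p3 (lt_min p4 p5)))
    · exact min_le_left _ _
    · exact (min_le_right _ _).trans (min_le_left _ _)
    · exact (min_le_right _ _).trans ((min_le_right _ _).trans (min_le_left _ _))
    · exact (min_le_right _ _).trans ((min_le_right _ _).trans ((min_le_right _ _).trans (min_le_left _ _)))
    · exact (min_le_right _ _).trans ((min_le_right _ _).trans ((min_le_right _ _).trans (min_le_right _ _)))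
  have A := (q1 e he0 he1).2
  have k0 := crs_kn h hS L e (l := 0) (Or.inl rfl)
  have k1 := crs_kn h hS L e (l := 1) (Or.inr rfl)
  have T := q3 e he0 he3
  have hdis : ∀ l ∈ Icc (0 : ℝ) 1, Disjoint
      (Zr (Lin (g 0) (k 0) e) L ∪ Rst t (a / 2) ((b + 1) / 2) (Lin (g 0) (k 0) e))
      (bT (g l) (k l) Sig X e '' Dom) := by
    intro l hl
    rw [disjoint_union_left]
    refine ⟨?_, q5 e he0 he5 l hl⟩
    rw [Set.disjoint_right]
    rintro _ ⟨q, hq, rfl⟩ hz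
    obtain ⟨m1, m2⟩ := q4 e he0 he4 l hl q hq
    rcases hz with hz | hz
    · exact m1 hz.1
    · exact m2 (Fg_sub hL hz)
  have B := LEq.rib (b := fun l => bT (g l) (k l) Sig X e) T hdis
  have B' : LEq (Kn ((t, Lin (g 0) (k 0) e) :: L)) (Kn ((t, Lin (g 1) (k 1) e) :: L)) := by
    rw [k0, k1]; exact B
  have C := h1 (Lin (g 1) (k 1) e) e he0 (q2 e he0 he2)
    (fun x _ => by unfold Lin; simp) (fun x _ => nrm_lin _ _ _ _)
  exact A.trans (B'.trans C)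

end Pool.Agent.KNT
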