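import Pool.Agent.KNT.EngD
import Pool.Agent.ISO.Core

/-!
# KNT/Cdm: elementary properties of `CD` and `LEq`

All proofs are immediate from the definitions. `cd_of_move`: for `Λ = ⊥` the condition `∀ m ∈ ⊥, x + m ∉ C` is
`x ∉ C`. `CD.fix`: `x ∉ O` implies `x ∉ C` for the compact set `C ⊆ O`. `CD.image_disj`: all points of `Z` are fixed.
`CD.comp`: the supports are compact, take the union of the two sets.
-/

open scoped ContDiff Topology
open Set Filter
open Pool.Agent.CSG (stp)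
open Pool.Agent.RSG (ex)

namespace Pool.Agent.KNT

theorem CD.one (O : Set (ℂ × ℝ)) : CD O (Equiv.refl _) :=
  ⟨contDiff_id, contDiff_id, ∅, isCompact_empty, empty_subset _, fun _ _ => rfl⟩

theorem CD.inv {O : Set (ℂ × ℝ)} {F : Equiv.Perm (ℂ × ℝ)} (h : CD O F) : CD O F.symm := by
  obtain ⟨C, hC, hCO, hF⟩ := h.supp
  refine ⟨h.smooth_symm, h.smooth, C, hC, hCO, fun x hx => ?_⟩
  rw [Equiv.symm_apply_eq, hF x hx]

theorem CD.comp {O : Set (ℂ × ℝ)} {F G : Equiv.Perm (ℂ × ℝ)} (hF : CD O F) (hG : CD O G) :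
    CD O (F.trans G) := by
  obtain ⟨C, hC, hCO, hFC⟩ := hF.supp
  obtain ⟨C', hC', hCO', hGC⟩ := hG.supp
  refine ⟨hG.smooth.comp hF.smooth, hF.smooth_symm.comp hG.smooth_symm, C ∪ C', hC.union hC',
    union_subset hCO hCO', fun x hx => ?_⟩
  show G (F x) = x
  rw [hFC x (fun h => hx (Or.inl h)), hGC x (fun h => hx (Or.inr h))]

theorem CD.mono {O O' : Set (ℂ × ℝ)} {F : Equiv.Perm (ℂ × ℝ)} (h : CD O F) (hO : O ⊆ O') : CD O' F := by
  obtain ⟨C, hC, hCO, hF⟩ := h.supp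
  exact ⟨h.smooth, h.smooth_symm, C, hC, hCO.trans hO, hF⟩

theorem CD.fix {O : Set (ℂ × ℝ)} {F : Equiv.Perm (ℂ × ℝ)} (h : CD O F) {x : ℂ × ℝ} (hx : x ∉ O) :
    F x = x := by
  obtain ⟨C, hC, hCO, hF⟩ := h.supp
  exact hF x (fun hxC => hx (hCO hxC))

theorem CD.image_disj {O Z : Set (ℂ × ℝ)} {F : Equiv.Perm (ℂ × ℝ)} (h : CD O F) (hZ : Disjoint Z O) :
    F '' Z = Z := by
  have h1 : ∀ x ∈ Z, F x = x := fun x hx => h.fix (fun hxO => Set.disjoint_left.1 hZ hx hxO)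
  ext x
  constructor
  · rintro ⟨y, hy, rfl⟩
    rw [h1 y hy]
    exact hy
  · intro hx
    exact ⟨x, hx, h1 x hx⟩

theorem cd_of_move {O : Set (ℂ × ℝ)} {F : Equiv.Perm (ℂ × ℝ)} (h : ISO.Move (⊥ : AddSubgroup (ℂ × ℝ)) O F) :
    CD O F := by
  obtain ⟨C, hC, hCO, hF⟩ := h.supp
  refine ⟨h.smooth, h.smooth_symm, C, hC, hCO, fun x hx => hF x ?_⟩
  intro m hm
  rw [AddSubgroup.mem_bot] at hm
  rw [hm, add_zero]
  exact hx

theorem LEq.of_cd {O : Set (ℂ × ℝ)} {F : Equiv.Perm (ℂ × ℝ)} (h : CD O F) (K : Set (ℂ × ℝ)) :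
    LEq K (F '' K) :=
  LEq.diff K (h.mono (subset_univ _))

theorem LEq.of_eq {K K' : Set (ℂ × ℝ)} (h : K = K') : LEq K K' := by
  subst h
  exact LEq.refl K

/-- The derivative of a diffeomorphism is bijective. -/
theorem CD.fderiv_bij {O : Set (ℂ × ℝ)} {F : Equiv.Perm (ℂ × ℝ)} (h : CD O F) (x : ℂ × ℝ) :
    Function.Bijective (fderiv ℝ F x) := by
  have hF : ∀ y, HasFDerivAt F (fderiv ℝ F y) y := fun y =>
    ((h.smooth.differentiable (by simp)) y).hasFDerivAt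
  have hG : ∀ y, HasFDerivAt F.symm (fderiv ℝ F.symm y) y := fun y =>
    ((h.smooth_symm.differentiable (by simp)) y).hasFDerivAt
  have h1 : (fderiv ℝ F.symm (F x)).comp (fderiv ℝ F x) = ContinuousLinearMap.id ℝ _ := by
    have e1 := (hG (F x)).comp x (hF x)
    have e2 : (F.symm : ℂ × ℝ → ℂ × ℝ) ∘ F = id := funext fun y => F.symm_apply_apply y
    rw [e2] at e1
    exact e1.unique (hasFDerivAt_id x)
  have h2 : (fderiv ℝ F x).comp (fderiv ℝ F.symm (F x)) = ContinuousLinearMap.id ℝ _ := by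
    have e0 : HasFDerivAt F (fderiv ℝ F x) (F.symm (F x)) := by
      rw [F.symm_apply_apply]
      exact hF x
    have e1 := e0.comp (F x) (hG (F x))
    have e2 : (F : ℂ × ℝ → ℂ × ℝ) ∘ F.symm = id := funext fun y => F.apply_symm_apply y
    rw [e2] at e1
    exact e1.unique (hasFDerivAt_id (F x))
  rw [Function.bijective_iff_has_inverse]
  exact ⟨fderiv ℝ F.symm (F x), fun v => DFunLike.congr_fun h1 v, fun v => DFunLike.congr_fun h2 v⟩

end Pool.Agent.KNT
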