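import Pool.Agent.KNT.KnB
import Pool.Agent.KNT.Cdm

/-!
# KNT/MapI: images of configurations under diffeomorphisms

PROOFS.
* `conf_mp`. The images `F '' (p.2 '' Rec p.1)` are pairwise disjoint (`F` injective). For a strip `Ψ = p.2` of `L`:
  `F ∘ Ψ` is smooth, injective on `Rec`, immersed (chain rule, `CD.fderiv_bij`). For `q ∈ Rec` (`Ψ q ∈ Sp L`):
  `(F (Ψ q)).1 = 0 ↔ F (Ψ q) ∈ U = F '' K₀ ↔ Ψ q ∈ K₀ ↔ Ψ q ∈ U ↔ (Ψ q).1 = 0` (`hmeet`); this gives `foot`, `tip`, `off`.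
  `trv`: let `p₀ = Ψ (1, 0) ∈ U ∩ Sp L`. By `hnear` the points `(0, h)` with `h` near `p₀.2` are in `K₀`, so
  `(F (0, h)).1 = 0`, and `D := fderiv ℝ F p₀` maps `(0, 1)` to a vector `(0, d)`, `d ≠ 0` (`D` injective).
  If `(D (fderiv Ψ (1,0) v)).1 = 0` then `D (fderiv Ψ (1,0) v) = r • D (0, 1)` for some real `r`, so
  `fderiv Ψ (1,0) v = (0, r)` has first component `0`, and `v = 0` by `trv` for `Ψ`.
* `Kn_mp`: `Bs (mp F L) = F '' Bs L`, `Fg (mp F L) = F '' Fg L`, `U = F '' K₀`, `F` injective.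
* `HG_map`, `Gd_map`: `K₀ = U`: `F '' Kn ((t, Φ) :: L) = Kn ((t, F ∘ Φ) :: mp F L)`, `Conf` by `conf_mp` for
  `(t, Φ) :: L`; `nrm (F ∘ Φ) x = fderiv ℝ F (Φ (x, 0)) (nrm Φ x)` (chain rule; `Strip.smooth`), linear in `c • k x`.
  `(mp F L).length = L.length`.
-/

open scoped ContDiff Topology
open Set Filter
open Pool.Agent.CSG (stp)
open Pool.Agent.RSG (ex)

namespace Pool.Agent.KNT

theorem Sp_mp (F : ℂ × ℝ → ℂ × ℝ) (L : SL) : Sp (mp F L) = F '' Sp L := by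
  unfold Sp mp
  ext x
  simp only [mem_iUnion, List.mem_map, mem_image, exists_prop]
  constructor
  · rintro ⟨p, ⟨p', hp', rfl⟩, q, hq, rfl⟩
    exact ⟨p'.2 q, ⟨p', hp', q, hq, rfl⟩, rfl⟩
  · rintro ⟨y, ⟨p', hp', q, hq, rfl⟩, rfl⟩
    exact ⟨(p'.1, F ∘ p'.2), ⟨p', hp', rfl⟩, q, hq, rfl⟩

theorem MapI_Bs (F : ℂ × ℝ → ℂ × ℝ) (L : SL) : Bs (mp F L) = F '' Bs L := by
  unfold Bs mp bas
  ext x
  simp only [mem_iUnion, List.mem_map, mem_image, exists_prop]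
  constructor
  · rintro ⟨p, ⟨p', hp', rfl⟩, q, hq, rfl⟩
    exact ⟨p'.2 (0, q), ⟨p', hp', q, hq, rfl⟩, rfl⟩
  · rintro ⟨y, ⟨p', hp', q, hq, rfl⟩, rfl⟩
    exact ⟨(p'.1, F ∘ p'.2), ⟨p', hp', rfl⟩, q, hq, rfl⟩

theorem MapI_Fg (F : ℂ × ℝ → ℂ × ℝ) (L : SL) : Fg (mp F L) = F '' Fg L := by
  unfold Fg mp gr
  ext x
  simp only [mem_iUnion, List.mem_map, mem_image, exists_prop]
  constructor
  · rintro ⟨p, ⟨p', hp', rfl⟩, q, hq, rfl⟩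
    exact ⟨p'.2 (prf p'.1 q, q), ⟨p', hp', q, hq, rfl⟩, rfl⟩
  · rintro ⟨y, ⟨p', hp', q, hq, rfl⟩, rfl⟩
    exact ⟨(p'.1, F ∘ p'.2), ⟨p', hp', rfl⟩, q, hq, rfl⟩

/-- derivative of the first component -/
theorem MapI_fst {Ψ : ℝ × ℝ → ℂ × ℝ} {q : ℝ × ℝ} (hΨ : DifferentiableAt ℝ Ψ q) (v : ℝ × ℝ) :
    fderiv ℝ (fun q : ℝ × ℝ => (Ψ q).1) q v = (fderiv ℝ Ψ q v).1 := by
  have h : HasFDerivAt (fun q : ℝ × ℝ => (Ψ q).1) ((ContinuousLinearMap.fst ℝ ℂ ℝ).comp (fderiv ℝ Ψ q)) q :=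
    hΨ.hasFDerivAt.fst
  rw [h.fderiv]
  rfl

theorem MapI_strip {L : SL} {F : Equiv.Perm (ℂ × ℝ)} (hF : CD univ F) {K₀ : Set (ℂ × ℝ)}
    (hK : F '' K₀ = U) (hmeet : K₀ ∩ Sp L = U ∩ Sp L)
    (hnear : ∀ q ∈ U ∩ Sp L, ∀ᶠ x in 𝓝 q, x ∈ K₀ ↔ x ∈ U) {t : ℝ} {Ψ : ℝ × ℝ → ℂ × ℝ}
    (hΨ : Strip t Ψ) (hL : Ψ '' Rec t ⊆ Sp L) : Strip t (F ∘ Ψ) := by
  have hn : (∞ : WithTop ℕ∞) ≠ 0 := by simp
  have hK' : ∀ x, F x ∈ U ↔ x ∈ K₀ := by
    intro x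
    rw [← hK]
    exact F.injective.mem_set_image
  have key : ∀ q ∈ Rec t, ((F (Ψ q)).1 = 0 ↔ (Ψ q).1 = 0) := by
    intro q hq
    have h1 : Ψ q ∈ Sp L := hL ⟨q, hq, rfl⟩
    have h2 : Ψ q ∈ K₀ ↔ Ψ q ∈ U := by
      constructor
      · intro h
        have : Ψ q ∈ U ∩ Sp L := by rw [← hmeet]; exact ⟨h, h1⟩
        exact this.1
      · intro h
        have : Ψ q ∈ K₀ ∩ Sp L := by rw [hmeet]; exact ⟨h, h1⟩
        exact this.1
    have h3 : F (Ψ q) ∈ U ↔ Ψ q ∈ U := (hK' _).trans h2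
    exact h3
  have hFd : ∀ x, DifferentiableAt ℝ F x := fun x => hF.smooth.differentiable hn x
  have hΨd : ∀ x, DifferentiableAt ℝ Ψ x := fun x => hΨ.smooth.differentiable hn x
  have hchain : ∀ q, fderiv ℝ (F ∘ Ψ) q = (fderiv ℝ F (Ψ q)).comp (fderiv ℝ Ψ q) := fun q =>
    fderiv_comp q (hFd _) (hΨd _)
  have h10 : ((1, 0) : ℝ × ℝ) ∈ Rec t := by
    refine ⟨⟨zero_le_one, ?_⟩, ?_, ?_⟩
    · have := hΨ.pos
      show (1 : ℝ) ≤ 1 + t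
      linarith
    · show (-1 : ℝ) ≤ 0
      norm_num
    · show (0 : ℝ) ≤ 1
      norm_num
  refine ⟨hΨ.pos, hF.smooth.comp hΨ.smooth, F.injective.comp_injOn hΨ.inj, ?_, ?_, ?_, ?_, ?_⟩
  · intro q hq
    rw [hchain]
    exact (hF.fderiv_bij (Ψ q)).1.comp (hΨ.imm q hq)
  · intro y hy
    have h0 : ((0, y) : ℝ × ℝ) ∈ Rec t := by
      refine ⟨⟨le_rfl, ?_⟩, abs_le.1 hy⟩
      have := hΨ.pos
      show (0 : ℝ) ≤ 1 + t
      linarith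
    exact (key _ h0).2 (hΨ.foot y hy)
  · exact (key _ h10).2 hΨ.tip
  · intro q hq h0
    exact hΨ.off q hq ((key q hq).1 h0)
  · -- transversality
    set p₀ := Ψ (1, 0) with hp₀
    set D := fderiv ℝ F p₀ with hD
    have hp1 : p₀.1 = 0 := hΨ.tip
    have hev : ∀ᶠ h : ℝ in 𝓝 p₀.2, (F ((0 : ℂ), h)).1 = 0 := by
      have hc : ContinuousAt (fun h : ℝ => ((0, h) : ℂ × ℝ)) p₀.2 := by fun_prop
      have e : ((0, p₀.2) : ℂ × ℝ) = p₀ := Prod.ext hp1.symm rfl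
      have h1 := hnear p₀ ⟨hp1, hL ⟨(1, 0), h10, rfl⟩⟩
      rw [← e] at h1
      filter_upwards [hc.eventually h1] with h hh
      have h2 : ((0, h) : ℂ × ℝ) ∈ U := rfl
      exact (hK' _).2 (hh.2 h2)
    have hD01 : (D (0, 1)).1 = 0 := by
      have e : ((0, p₀.2) : ℂ × ℝ) = p₀ := Prod.ext hp1.symm rfl
      have hd : HasFDerivAt F D ((0, p₀.2) : ℂ × ℝ) := by
        rw [e]; exact (hFd p₀).hasFDerivAt
      have hj : HasDerivAt (fun h : ℝ => ((0, h) : ℂ × ℝ)) (0, 1) p₀.2 :=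
        (hasDerivAt_const p₀.2 (0 : ℂ)).prodMk (hasDerivAt_id p₀.2)
      have h3 : HasDerivAt (fun h : ℝ => F ((0, h) : ℂ × ℝ)) (D (0, 1)) p₀.2 :=
        HasFDerivAt.comp_hasDerivAt (f := fun h : ℝ => ((0, h) : ℂ × ℝ)) p₀.2 hd hj
      have h4 : HasDerivAt (fun h : ℝ => (F ((0, h) : ℂ × ℝ)).1) (D (0, 1)).1 p₀.2 := h3.fst
      have h5 : HasDerivAt (fun h : ℝ => (F ((0, h) : ℂ × ℝ)).1) 0 p₀.2 :=
        (hasDerivAt_const p₀.2 (0 : ℂ)).congr_of_eventuallyEq hev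
      exact h4.unique h5
    have hDinj : Function.Injective D := (hF.fderiv_bij p₀).1
    have hd0 : (D (0, 1)).2 ≠ 0 := by
      intro h0
      have h1 : D (0, 1) = D 0 := by
        rw [map_zero]
        exact Prod.ext hD01 h0
      have h2 := congrArg Prod.snd (hDinj h1)
      exact one_ne_zero h2
    rw [injective_iff_map_eq_zero]
    intro v hv
    have hcd : DifferentiableAt ℝ (F ∘ Ψ) (1, 0) := (hFd _).comp _ (hΨd _)
    have h1 : (D (fderiv ℝ Ψ (1, 0) v)).1 = 0 := by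
      have := MapI_fst hcd v
      rw [hchain] at this
      have h2 : fderiv ℝ (fun q : ℝ × ℝ => ((F ∘ Ψ) q).1) (1, 0) v = 0 := hv
      rw [h2] at this
      exact this.symm
    set w := fderiv ℝ Ψ (1, 0) v with hw
    have h2 : D w = D (((D w).2 / (D (0, 1)).2) • (0, 1)) := by
      rw [map_smul]
      refine Prod.ext ?_ ?_
      · rw [h1]
        show (0 : ℂ) = ((D w).2 / (D (0, 1)).2) • (D (0, 1)).1
        rw [hD01, smul_zero]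
      · show (D w).2 = ((D w).2 / (D (0, 1)).2) * (D (0, 1)).2
        rw [div_mul_cancel₀ _ hd0]
    have h3 : w.1 = 0 := by
      rw [hDinj h2]
      simp
    have h4 : fderiv ℝ (fun q : ℝ × ℝ => (Ψ q).1) (1, 0) v = 0 := by
      rw [MapI_fst (hΨd _)]
      exact h3
    exact (injective_iff_map_eq_zero _).1 hΨ.trv v h4

theorem conf_mp {L : SL} (hL : Conf L) {F : Equiv.Perm (ℂ × ℝ)} (hF : CD univ F) {K₀ : Set (ℂ × ℝ)}
    (hK : F '' K₀ = U) (hmeet : K₀ ∩ Sp L = U ∩ Sp L)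
    (hnear : ∀ q ∈ U ∩ Sp L, ∀ᶠ x in 𝓝 q, x ∈ K₀ ↔ x ∈ U) : Conf (mp F L) := by
  constructor
  · intro p hp
    unfold mp at hp
    rw [List.mem_map] at hp
    obtain ⟨p', hp', rfl⟩ := hp
    refine MapI_strip hF hK hmeet hnear (hL.1 p' hp') ?_
    intro x hx
    exact mem_iUnion₂.2 ⟨p', hp', hx⟩
  · unfold mp
    rw [List.pairwise_map]
    refine hL.2.imp ?_
    intro p q hpq
    show Disjoint ((F ∘ p.2) '' Rec p.1) ((F ∘ q.2) '' Rec q.1)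
    rw [image_comp, image_comp]
    exact (disjoint_image_iff F.injective).2 hpq

theorem Kn_mp {L : SL} (hL : Conf L) {F : Equiv.Perm (ℂ × ℝ)} {K₀ : Set (ℂ × ℝ)} (hK : F '' K₀ = U) :
    Kn (mp F L) = F '' ((K₀ \ Bs L) ∪ Fg L) := by
  unfold Kn
  rw [MapI_Bs, MapI_Fg, image_union, image_sdiff F.injective, hK]

theorem MapI_conf {L : SL} (hL : Conf L) {F : Equiv.Perm (ℂ × ℝ)} (hF : CD univ F) (hU : F '' U = U) :
    Conf (mp F L) :=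
  conf_mp hL hF hU rfl fun _ _ => Eventually.of_forall fun _ => Iff.rfl

theorem HG_map {u : ℕ} {t : ℝ} {g : ℝ → ℂ × ℝ} {F : Equiv.Perm (ℂ × ℝ)} (hF : CD univ F)
    (hU : F '' U = U) (h : HG u t (F ∘ g)) : HG u t g := by
  intro Φ L hL hc hg
  have h1 : Conf ((t, F ∘ Φ) :: mp F L) := MapI_conf hc hF hU
  have h2 := h (F ∘ Φ) (mp F L) (by unfold mp; rw [List.length_map]; exact hL) h1
    (fun x hx => by show F (Φ (x, 0)) = F (g x); rw [hg x hx])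
  have h3 : Kn ((t, F ∘ Φ) :: mp F L) = F '' Kn ((t, Φ) :: L) := Kn_mp hc hU
  rw [h3] at h2
  exact (LEq.diff _ hF).trans h2

theorem Gd_map {L : SL} {t : ℝ} {g k : ℝ → ℂ × ℝ} {F : Equiv.Perm (ℂ × ℝ)} (hF : CD univ F)
    (hU : F '' U = U) (h : Gd (mp F L) t (F ∘ g) (fun x => fderiv ℝ F (g x) (k x))) : Gd L t g k := by
  intro Φ c hc0 hc hg hk
  have hn : (∞ : WithTop ℕ∞) ≠ 0 := by simp
  have h1 : Conf ((t, F ∘ Φ) :: mp F L) := MapI_conf hc hF hU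
  have hs : Strip t Φ := hc.1 (t, Φ) (List.mem_cons_self)
  have h2 := h (F ∘ Φ) c hc0 h1
    (fun x hx => by show F (Φ (x, 0)) = F (g x); rw [hg x hx])
    (fun x hx => by
      have hd : HasDerivAt (fun y : ℝ => Φ (x, y)) (nrm Φ x) 0 := by
        have h3 : DifferentiableAt ℝ (fun y : ℝ => Φ (x, y)) 0 := by
          have h4 : ContDiff ℝ ∞ (fun y : ℝ => Φ (x, y)) :=
            hs.smooth.comp (contDiff_const.prodMk contDiff_id)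
          exact h4.differentiable hn 0
        exact h3.hasDerivAt
      have hFd : HasFDerivAt F (fderiv ℝ F (Φ (x, 0))) (Φ (x, 0)) :=
        (hF.smooth.differentiable hn _).hasFDerivAt
      have h5 : HasDerivAt (fun y : ℝ => F (Φ (x, y))) (fderiv ℝ F (Φ (x, 0)) (nrm Φ x)) 0 :=
        HasFDerivAt.comp_hasDerivAt (f := fun y : ℝ => Φ (x, y)) 0 hFd hd
      have h6 : nrm (F ∘ Φ) x = fderiv ℝ F (Φ (x, 0)) (nrm Φ x) := h5.deriv
      rw [h6, hk x hx, map_smul, hg x hx])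
  have h3 : Kn ((t, F ∘ Φ) :: mp F L) = F '' Kn ((t, Φ) :: L) := Kn_mp hc hU
  rw [h3] at h2
  exact (LEq.diff _ hF).trans h2

end Pool.Agent.KNT
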