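import Pool.Agent.KNT.DatI

/-!
# KNT/ThnI: the other fingers may be made thin

PROOFS.
* `conf_thin`: `thin e Φ '' Rec t ⊆ Φ '' Rec t`; every strip stays a strip (`strip_rep` with `isRep_thin`, `t' = t`;
  `thin e Φ = Rpm id (e * ·) Φ`).
* `kn_thinL`: by induction on the part already thinned: for lists `L₁, L₂` with `Conf (L₁ ++ L₂)`:
  `Kn (L₁ ++ L₂) ~ Kn (L₁ ++ map thin L₂)`; move the head of `L₂` to the front (`Kn_perm`), apply `thin_LEq` (`t' = t`), and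
  move it back. With `L₁ = [(t, Φ)]`.
* `Gd_thinL`: `Kn ((t, Φ) :: L) ~ Kn ((t, Φ) :: map thin L)`, and `Conf` of the new list.
* `exists_thin_disjoint`: for each of the finitely many strips `{(x, y)}` with `y = 0` is mapped off the closed set `C`,
  so there is `e_p` such that `p.2 (x, e y) ∉ C` for `x ∈ [0, 1 + p.1]`, `|y| ≤ 1`, `0 < e ≤ e_p` (`near_pos`); take the
  minimum (induction on the list).
-/

open scoped ContDiff Topology
open Set Filter
open Pool.Agent.CSG (stp)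
open Pool.Agent.RSG (ex)

namespace Pool.Agent.KNT

theorem ThnI_strip {e : ℝ} (he : 0 < e) (he1 : e ≤ 1) {p : ℝ × (ℝ × ℝ → ℂ × ℝ)} (h : Strip p.1 p.2) :
    Strip p.1 (thin e p.2) ∧ thin e p.2 '' Rec p.1 ⊆ p.2 '' Rec p.1 :=
  strip_rep (isRep_thin h.pos le_rfl he he1) h

theorem conf_thin {L L' : SL} {e : ℝ} (he : 0 < e) (he1 : e ≤ 1) (h : Conf (L' ++ L)) :
    Conf (L' ++ L.map fun p => (p.1, thin e p.2)) := by
  obtain ⟨h1, h2⟩ := h
  have h3 : ∀ p ∈ L, Strip p.1 p.2 := fun p hp => h1 p (List.mem_append_right _ hp)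
  rw [List.pairwise_append] at h2
  obtain ⟨h4, h5, h6⟩ := h2
  constructor
  · intro p hp
    rw [List.mem_append] at hp
    rcases hp with hp | hp
    · exact h1 p (List.mem_append_left _ hp)
    · rw [List.mem_map] at hp
      obtain ⟨q, hq, rfl⟩ := hp
      exact (ThnI_strip he he1 (h3 q hq)).1
  · rw [List.pairwise_append]
    refine ⟨h4, ?_, ?_⟩
    · rw [List.pairwise_map]
      refine h5.imp_of_mem ?_
      intro p q hp hq hd
      exact hd.mono (ThnI_strip he he1 (h3 p hp)).2 (ThnI_strip he he1 (h3 q hq)).2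
    · intro p hp q hq
      rw [List.mem_map] at hq
      obtain ⟨q', hq', rfl⟩ := hq
      exact (h6 p hp q' hq').mono_right (ThnI_strip he he1 (h3 q' hq')).2

theorem kn_thinL {L L' : SL} {e : ℝ} (he : 0 < e) (he1 : e ≤ 1) (h : Conf (L' ++ L)) :
    LEq (Kn (L' ++ L)) (Kn (L' ++ L.map fun p => (p.1, thin e p.2))) := by
  induction L generalizing L' with
  | nil => exact LEq.refl _
  | cons p L ih =>
    obtain ⟨t, Φ⟩ := p
    have hp1 : (L' ++ (t, Φ) :: L).Perm ((t, Φ) :: (L' ++ L)) := List.perm_middle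
    obtain ⟨e1, c1⟩ := Kn_perm hp1
    have hc1 := c1 h
    have ht : 0 < t := ((hc1.1 (t, Φ) List.mem_cons_self)).pos
    obtain ⟨hc2, hl⟩ := thin_LEq ht le_rfl he he1 hc1
    have hp2 : ((t, thin e Φ) :: (L' ++ L)).Perm ((L' ++ [(t, thin e Φ)]) ++ L) := by
      rw [List.append_assoc]
      exact (List.perm_middle (a := (t, thin e Φ)) (l₁ := L') (l₂ := L)).symm
    obtain ⟨e2, c2⟩ := Kn_perm hp2
    have h3 := ih (L' := L' ++ [(t, thin e Φ)]) (c2 hc2)
    rw [List.map_cons, e1]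
    refine hl.trans ?_
    rw [e2]
    rw [List.append_assoc L' [(t, thin e Φ)] (List.map _ L)] at h3
    exact h3

theorem Gd_thinL {L : SL} {t e : ℝ} {g k : ℝ → ℂ × ℝ} (he : 0 < e) (he1 : e ≤ 1)
    (h : Gd (L.map fun p => (p.1, thin e p.2)) t g k) : Gd L t g k := by
  intro Φ c hc hC hg hk
  have h1 : Conf ([(t, Φ)] ++ L) := hC
  exact (kn_thinL he he1 h1).trans (h Φ c hc (conf_thin he he1 h1) hg hk)

theorem ThnI_aux {C : Set (ℂ × ℝ)} (hC : IsClosed C) {L : SL} (hL : ∀ p ∈ L, Strip p.1 p.2)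
    (h : ∀ p ∈ L, ∀ x ∈ Icc 0 (1 + p.1), p.2 (x, 0) ∉ C) :
    ∃ e : ℝ, 0 < e ∧ e ≤ 1 ∧ ∀ p ∈ L, ∀ x ∈ Icc 0 (1 + p.1), ∀ y : ℝ, |y| ≤ e → p.2 (x, y) ∉ C := by
  induction L with
  | nil => exact ⟨1, one_pos, le_rfl, fun p hp => absurd hp List.not_mem_nil⟩
  | cons p L ih =>
    obtain ⟨e, he, he1, h1⟩ := ih (fun q hq => hL q (List.mem_cons_of_mem _ hq))
      (fun q hq => h q (List.mem_cons_of_mem _ hq))
    have hO : IsOpen {q : ℝ × ℝ | p.2 q ∉ C} :=
      (hC.isOpen_compl).preimage (hL p List.mem_cons_self).smooth.continuous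
    obtain ⟨e', he', h2⟩ := near_pos (V := ℝ) (X := ℝ) (K := Icc 0 (1 + p.1)) isCompact_Icc hO
      (fun x hx => h p List.mem_cons_self x hx)
    refine ⟨min e e', lt_min he he', (min_le_left _ _).trans he1, ?_⟩
    intro q hq x hx y hy
    rw [List.mem_cons] at hq
    rcases hq with rfl | hq
    · exact h2 x hx y (by rw [Real.norm_eq_abs]; exact hy.trans (min_le_right _ _))
    · exact h1 q hq x hx y (hy.trans (min_le_left _ _))

theorem exists_thin_disjoint {L : SL} (hL : Conf L) {C : Set (ℂ × ℝ)} (hC : IsClosed C)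
    (h : ∀ p ∈ L, ∀ x ∈ Icc 0 (1 + p.1), p.2 (x, 0) ∉ C) :
    ∃ e : ℝ, 0 < e ∧ e ≤ 1 ∧ Disjoint (Sp (L.map fun p => (p.1, thin e p.2))) C := by
  obtain ⟨e, he, he1, h1⟩ := ThnI_aux hC hL.1 h
  refine ⟨e, he, he1, ?_⟩
  rw [Set.disjoint_left]
  intro z hz hzC
  simp only [Sp, Set.mem_iUnion] at hz
  obtain ⟨q, hq, hz⟩ := hz
  rw [List.mem_map] at hq
  obtain ⟨p, hp, rfl⟩ := hq
  obtain ⟨⟨x, y⟩, ⟨hx, hy⟩, rfl⟩ := hz
  refine h1 p hp x hx (e * y) ?_ hzC
  rw [abs_mul, abs_of_pos he]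
  have h2 : |y| ≤ 1 := abs_le.mpr hy
  nlinarith

end Pool.Agent.KNT
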