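import Pool.Agent.KNT.Defs
import Pool.Agent.RSG.ExM

/-!
# KNT/Dkf (difficulty 3): the transversal field of the rotated core

`e = ex (θ x)`.  The core `g_l = cor ρ (θ + l β) h` has the derivative
`g_l' = (ex (θ + l β) (ρ' + 2 π i ρ (θ' + l β')), h')`.  The real linear map
`A_l(x) (w, a) = (ex (l β) (w + 2 π i l ρ e (β' (ρ' Re (w conj e) + h' a) / (ρ'² + h'²))), a)` satisfies `A_l(x) g_0' = g_l'`
(for `w = e (ρ' + 2 π i ρ θ')`, `Re (w conj e) = ρ'`, so the quotient is `β'`).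
It is injective: after the rotation `ex (l β)` it is `id + N`, `N` has its values in the real line spanned by `(i e, 0)`, on which
`Re (w conj e) = 0`, so `N ∘ N = 0` and `id - N` is the inverse.
`Dkf_smooth`: `β' / (ρ'² + h'²)` is smooth: near `x ∈ tsupport β` the denominator is not zero, near other points `β' = 0`.
-/

open scoped ContDiff Topology
open Set Filter
open Pool.Agent.RSG (ex)

namespace Pool.Agent.KNT

/-- the linear map `A_l(x)` -/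
noncomputable def Akf (ρ θ β h : ℝ → ℝ) (l x : ℝ) (p : ℂ × ℝ) : ℂ × ℝ :=
  (ex (l * β x) * (p.1 + 2 * Real.pi * Complex.I * l * ρ x * ex (θ x) *
    ((deriv β x * (deriv ρ x * (p.1 * (starRingEnd ℂ) (ex (θ x))).re + deriv h x * p.2) /
      (deriv ρ x ^ 2 + deriv h x ^ 2) : ℝ) : ℂ)), p.2)

variable {ρ θ β h : ℝ → ℝ}

theorem Dkf_ofReal {V : Type*} [NormedAddCommGroup V] [NormedSpace ℝ V] {f : V → ℝ}
    (hf : ContDiff ℝ ∞ f) : ContDiff ℝ ∞ fun x => ((f x : ℝ) : ℂ) := Complex.ofRealCLM.contDiff.comp hf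

theorem Dkf_re {V : Type*} [NormedAddCommGroup V] [NormedSpace ℝ V] {f : V → ℂ}
    (hf : ContDiff ℝ ∞ f) : ContDiff ℝ ∞ fun x => (f x).re := Complex.reCLM.contDiff.comp hf

theorem Dkf_conj {V : Type*} [NormedAddCommGroup V] [NormedSpace ℝ V] {f : V → ℂ}
    (hf : ContDiff ℝ ∞ f) : ContDiff ℝ ∞ fun x => (starRingEnd ℂ) (f x) :=
  (Complex.conjCLE : ℂ ≃L[ℝ] ℂ).contDiff.comp hf

theorem Dkf_dsm {f : ℝ → ℝ} (hf : ContDiff ℝ ∞ f) : ContDiff ℝ ∞ (deriv f) := by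
  have h : ContDiff ℝ (∞ + 1) f := by simpa using hf
  exact (contDiff_succ_iff_deriv.1 h).2.2

/-- the quotient is smooth -/
theorem Dkf_phi (hρ : ContDiff ℝ ∞ ρ) (hβ : ContDiff ℝ ∞ β) (hh : ContDiff ℝ ∞ h)
    (hne : ∀ x ∈ tsupport β, (deriv ρ x, deriv h x) ≠ (0, 0)) :
    ContDiff ℝ ∞ fun x => deriv β x / (deriv ρ x ^ 2 + deriv h x ^ 2) := by
  rw [contDiff_iff_contDiffAt]
  intro x
  by_cases hx : x ∈ tsupport β
  · refine ContDiffAt.div (Dkf_dsm hβ).contDiffAt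
      (((Dkf_dsm hρ).pow 2).add ((Dkf_dsm hh).pow 2)).contDiffAt ?_
    intro h0
    apply hne x hx
    have h1 : deriv ρ x ^ 2 = 0 := by nlinarith [sq_nonneg (deriv ρ x), sq_nonneg (deriv h x)]
    have h2 : deriv h x ^ 2 = 0 := by nlinarith [sq_nonneg (deriv ρ x), sq_nonneg (deriv h x)]
    rw [pow_eq_zero_iff (by norm_num)] at h1 h2
    rw [h1, h2]
  · have h1 : (fun x => deriv β x / (deriv ρ x ^ 2 + deriv h x ^ 2)) =ᶠ[𝓝 x] fun _ => 0 := by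
      have h2 : β =ᶠ[𝓝 x] fun _ => 0 := notMem_tsupport_iff_eventuallyEq.1 hx
      filter_upwards [h2.eventuallyEq_nhds] with y hy
      rw [hy.deriv_eq]
      simp
    exact contDiffAt_const.congr_of_eventuallyEq h1

theorem Dkf_smooth (hρ : ContDiff ℝ ∞ ρ) (hθ : ContDiff ℝ ∞ θ) (hβ : ContDiff ℝ ∞ β) (hh : ContDiff ℝ ∞ h)
    (hne : ∀ x ∈ tsupport β, (deriv ρ x, deriv h x) ≠ (0, 0)) {k : ℝ → ℂ × ℝ} (hk : ContDiff ℝ ∞ k) :
    ContDiff ℝ ∞ fun p : ℝ × ℝ => Akf ρ θ β h p.1 p.2 (k p.2) := by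
  have hφ := Dkf_phi hρ hβ hh hne
  have e : (fun p : ℝ × ℝ => Akf ρ θ β h p.1 p.2 (k p.2)) = fun p : ℝ × ℝ =>
      (ex (p.1 * β p.2) * ((k p.2).1 + 2 * Real.pi * Complex.I * p.1 * ρ p.2 * ex (θ p.2) *
        ((deriv β p.2 / (deriv ρ p.2 ^ 2 + deriv h p.2 ^ 2) *
          (deriv ρ p.2 * ((k p.2).1 * (starRingEnd ℂ) (ex (θ p.2))).re + deriv h p.2 * (k p.2).2) : ℝ) : ℂ)),
        (k p.2).2) := by
    funext p
    unfold Akf
    congr 3
    push_cast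
    ring
  rw [e]
  have k1 : ContDiff ℝ ∞ fun p : ℝ × ℝ => (k p.2).1 := contDiff_fst.comp (hk.comp contDiff_snd)
  have k2 : ContDiff ℝ ∞ fun p : ℝ × ℝ => (k p.2).2 := contDiff_snd.comp (hk.comp contDiff_snd)
  have eθ : ContDiff ℝ ∞ fun p : ℝ × ℝ => ex (θ p.2) := RSG.ex_smooth.comp (hθ.comp contDiff_snd)
  have eβ : ContDiff ℝ ∞ fun p : ℝ × ℝ => ex (p.1 * β p.2) :=
    RSG.ex_smooth.comp (contDiff_fst.mul (hβ.comp contDiff_snd))
  have dρ : ContDiff ℝ ∞ fun p : ℝ × ℝ => deriv ρ p.2 := (Dkf_dsm hρ).comp contDiff_snd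
  have dh : ContDiff ℝ ∞ fun p : ℝ × ℝ => deriv h p.2 := (Dkf_dsm hh).comp contDiff_snd
  have φ' : ContDiff ℝ ∞ fun p : ℝ × ℝ => deriv β p.2 / (deriv ρ p.2 ^ 2 + deriv h p.2 ^ 2) :=
    hφ.comp contDiff_snd
  have c1 : ContDiff ℝ ∞ fun p : ℝ × ℝ => ((p.1 : ℝ) : ℂ) := Dkf_ofReal contDiff_fst
  have c2 : ContDiff ℝ ∞ fun p : ℝ × ℝ => ((ρ p.2 : ℝ) : ℂ) := Dkf_ofReal (hρ.comp contDiff_snd)
  have r1 : ContDiff ℝ ∞ fun p : ℝ × ℝ => ((k p.2).1 * (starRingEnd ℂ) (ex (θ p.2))).re :=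
    Dkf_re (k1.mul (Dkf_conj eθ))
  have q1 : ContDiff ℝ ∞ fun p : ℝ × ℝ => ((deriv β p.2 / (deriv ρ p.2 ^ 2 + deriv h p.2 ^ 2) *
      (deriv ρ p.2 * ((k p.2).1 * (starRingEnd ℂ) (ex (θ p.2))).re + deriv h p.2 * (k p.2).2) : ℝ) : ℂ) :=
    Dkf_ofReal (φ'.mul ((dρ.mul r1).add (dh.mul k2)))
  exact (eβ.mul (k1.add ((((contDiff_const.mul c1).mul c2).mul eθ).mul q1))).prodMk k2

theorem Dkf_cor_smooth (hρ : ContDiff ℝ ∞ ρ) (hθ : ContDiff ℝ ∞ θ) (hβ : ContDiff ℝ ∞ β) (hh : ContDiff ℝ ∞ h) :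
    ContDiff ℝ ∞ fun p : ℝ × ℝ => cor ρ (fun x => θ x + p.1 * β x) h p.2 := by
  unfold cor
  exact ((Dkf_ofReal (hρ.comp contDiff_snd)).mul (RSG.ex_smooth.comp ((hθ.comp contDiff_snd).add
    (contDiff_fst.mul (hβ.comp contDiff_snd))))).prodMk (hh.comp contDiff_snd)

/-- the derivative of a core -/
theorem Dkf_cor {ρ θ h : ℝ → ℝ} (hρ : ContDiff ℝ ∞ ρ) (hθ : ContDiff ℝ ∞ θ) (hh : ContDiff ℝ ∞ h)
    (x : ℝ) : deriv (cor ρ θ h) x =
      (ex (θ x) * (((deriv ρ x : ℝ) : ℂ) + (2 * Real.pi * ρ x * deriv θ x : ℝ) * Complex.I), deriv h x) := by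
  have h1 : HasDerivAt (fun x => (ρ x : ℂ)) ((deriv ρ x : ℝ) : ℂ) x :=
    ((hρ.differentiable (by simp)) x).hasDerivAt.ofReal_comp
  have h2 : HasDerivAt (fun x => ((2 * Real.pi * θ x : ℝ) : ℂ) * Complex.I)
      (((2 * Real.pi * deriv θ x : ℝ) : ℂ) * Complex.I) x :=
    ((((hθ.differentiable (by simp)) x).hasDerivAt.const_mul (2 * Real.pi)).ofReal_comp).mul_const
      Complex.I
  have h3 := h2.cexp
  have h4 := h1.mul h3
  have h5 : HasDerivAt h (deriv h x) x := ((hh.differentiable (by simp)) x).hasDerivAt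
  have e : ex (θ x) * (((deriv ρ x : ℝ) : ℂ) + (2 * Real.pi * ρ x * deriv θ x : ℝ) * Complex.I) =
      ((deriv ρ x : ℝ) : ℂ) * Complex.exp (((2 * Real.pi * θ x : ℝ) : ℂ) * Complex.I) +
      (ρ x : ℂ) * (Complex.exp (((2 * Real.pi * θ x : ℝ) : ℂ) * Complex.I) *
        (((2 * Real.pi * deriv θ x : ℝ) : ℂ) * Complex.I)) := by
    unfold ex
    push_cast
    ring
  rw [e]
  exact (HasDerivAt.prodMk h4 h5).deriv

theorem Dkf_deriv (hρ : ContDiff ℝ ∞ ρ) (hθ : ContDiff ℝ ∞ θ) (hβ : ContDiff ℝ ∞ β) (hh : ContDiff ℝ ∞ h) (l : ℝ) {x : ℝ}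
    (hx : (deriv ρ x, deriv h x) ≠ (0, 0)) :
    Akf ρ θ β h l x (deriv (cor ρ θ h) x) = deriv (cor ρ (fun x => θ x + l * β x) h) x := by
  have hθ' : ContDiff ℝ ∞ fun x => θ x + l * β x := hθ.add (contDiff_const.mul hβ)
  rw [Dkf_cor hρ hθ hh, Dkf_cor hρ hθ' hh]
  have d : deriv (fun x => θ x + l * β x) x = deriv θ x + l * deriv β x := by
    rw [deriv_fun_add ((hθ.differentiable (by simp)) x)
      (((contDiff_const.mul hβ).differentiable (by simp)) x),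
      deriv_const_mul _ ((hβ.differentiable (by simp)) x)]
  have hpos : deriv ρ x ^ 2 + deriv h x ^ 2 ≠ 0 := by
    intro h0
    apply hx
    have h1 : deriv ρ x ^ 2 = 0 := by nlinarith [sq_nonneg (deriv ρ x), sq_nonneg (deriv h x)]
    have h2 : deriv h x ^ 2 = 0 := by nlinarith [sq_nonneg (deriv ρ x), sq_nonneg (deriv h x)]
    rw [pow_eq_zero_iff (by norm_num)] at h1 h2
    rw [h1, h2]
  have hre : (ex (θ x) * (((deriv ρ x : ℝ) : ℂ) + (2 * Real.pi * ρ x * deriv θ x : ℝ) * Complex.I) *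
      (starRingEnd ℂ) (ex (θ x))).re = deriv ρ x := by
    have h1 := RSG.ex_mul_conj (θ x)
    have h2 : ex (θ x) * (((deriv ρ x : ℝ) : ℂ) + (2 * Real.pi * ρ x * deriv θ x : ℝ) * Complex.I) *
        (starRingEnd ℂ) (ex (θ x)) =
        ((deriv ρ x : ℝ) : ℂ) + (2 * Real.pi * ρ x * deriv θ x : ℝ) * Complex.I := by
      rw [mul_right_comm, h1, one_mul]
    rw [h2, Complex.add_re, Complex.ofReal_re, Complex.re_ofReal_mul, Complex.I_re, mul_zero, add_zero]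
  unfold Akf
  simp only [hre]
  have hq : deriv β x * (deriv ρ x * deriv ρ x + deriv h x * deriv h x) / (deriv ρ x ^ 2 + deriv h x ^ 2) =
      deriv β x := by
    rw [div_eq_iff hpos]
    ring
  rw [hq, d, RSG.ex_add]
  apply Prod.ext
  · simp only
    push_cast
    ring
  · rfl

theorem Dkf_lin (l x s t : ℝ) (u v : ℂ × ℝ) :
    Akf ρ θ β h l x (s • u + t • v) = s • Akf ρ θ β h l x u + t • Akf ρ θ β h l x v := by
  unfold Akf
  have e1 : ((s • u + t • v).1 * (starRingEnd ℂ) (ex (θ x))).re =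
      s * (u.1 * (starRingEnd ℂ) (ex (θ x))).re + t * (v.1 * (starRingEnd ℂ) (ex (θ x))).re := by
    have : (s • u + t • v).1 * (starRingEnd ℂ) (ex (θ x)) =
        (s : ℂ) * (u.1 * (starRingEnd ℂ) (ex (θ x))) + (t : ℂ) * (v.1 * (starRingEnd ℂ) (ex (θ x))) := by
      simp only [Prod.fst_add, Prod.smul_fst, Complex.real_smul]
      ring
    rw [this, Complex.add_re, Complex.re_ofReal_mul, Complex.re_ofReal_mul]
  have e2 : (s • u + t • v).2 = s * u.2 + t * v.2 := by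
    simp only [Prod.snd_add, Prod.smul_snd, smul_eq_mul]
  have e3 : (s • u + t • v).1 = s * u.1 + t * v.1 := by
    simp only [Prod.fst_add, Prod.smul_fst, Complex.real_smul]
  rw [e1, e2, e3]
  apply Prod.ext
  · simp only [Prod.fst_add, Prod.smul_fst, Complex.real_smul]
    push_cast
    ring
  · simp only [Prod.snd_add, Prod.smul_snd, smul_eq_mul]

theorem Dkf_ker (l x : ℝ) {p : ℂ × ℝ} (h0 : Akf ρ θ β h l x p = 0) : p = 0 := by
  have h1 : ex (l * β x) * (p.1 + 2 * Real.pi * Complex.I * l * ρ x * ex (θ x) *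
    ((deriv β x * (deriv ρ x * (p.1 * (starRingEnd ℂ) (ex (θ x))).re + deriv h x * p.2) /
      (deriv ρ x ^ 2 + deriv h x ^ 2) : ℝ) : ℂ)) = 0 := congrArg Prod.fst h0
  have h2 : p.2 = 0 := congrArg Prod.snd h0
  have h3 := (mul_eq_zero.1 h1).resolve_left (RSG.ex_ne _)
  rw [h2, mul_zero, add_zero] at h3
  set q : ℝ := deriv β x * (deriv ρ x * (p.1 * (starRingEnd ℂ) (ex (θ x))).re) /
      (deriv ρ x ^ 2 + deriv h x ^ 2) with hq
  have h4 : p.1 * (starRingEnd ℂ) (ex (θ x)) = ((-(2 * Real.pi * l * ρ x * q) : ℝ) : ℂ) * Complex.I := by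
    have h5 : p.1 = -(2 * Real.pi * Complex.I * l * ρ x * ex (θ x) * (q : ℂ)) := by
      linear_combination h3
    have h6 := RSG.ex_mul_conj (θ x)
    rw [h5]
    push_cast
    linear_combination (-(2 * Real.pi * Complex.I * l * ρ x * (q : ℂ))) * h6
  have h7 : (p.1 * (starRingEnd ℂ) (ex (θ x))).re = 0 := by
    rw [h4, Complex.re_ofReal_mul, Complex.I_re, mul_zero]
  have h8 : q = 0 := by
    rw [hq, h7]
    simp
  rw [h8] at h3
  apply Prod.ext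
  · simpa using h3
  · exact h2

theorem Dkf_indep (l x : ℝ) {u v : ℂ × ℝ} (huv : LinearIndependent ℝ ![u, v]) :
    LinearIndependent ℝ ![Akf ρ θ β h l x u, Akf ρ θ β h l x v] := by
  rw [LinearIndependent.pair_iff] at huv ⊢
  intro s t hst
  rw [← Dkf_lin] at hst
  exact huv s t (Dkf_ker l x hst)

theorem Dkf_zero (x : ℝ) (p : ℂ × ℝ) : Akf ρ θ β h 0 x p = p := by
  unfold Akf
  rw [zero_mul, RSG.ex_zero]
  apply Prod.ext
  · simp
  · rfl

theorem Dkf_id (l : ℝ) {x : ℝ} (h0 : β x = 0) (h1 : deriv β x = 0) (p : ℂ × ℝ) : Akf ρ θ β h l x p = p := by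
  unfold Akf
  rw [h0, h1, mul_zero, RSG.ex_zero]
  apply Prod.ext
  · simp
  · rfl

end Pool.Agent.KNT
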