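import Pool.Agent.KNT.Dfe
import Pool.Agent.KNT.Dkf
import Pool.Agent.RSG.ExM

/-!
# KNT/Dcr (difficulty 3): the family of cores

`θ₁` (here `ψ`) and `θ'` agree outside the windows, which lie in `[δ, 1 - δ]`; the circles over the windows do not meet `Λ`.
`g l = cor ρ (ψ + l β) h`, `β = θ' - ψ`, `k l x = A_l(x) (k x)`.

FIELDS.  smooth: `Dkf_cor_smooth`, `Dkf_smooth` (`Dsh_imm`).  `dat0`: `g 0 = cor ρ ψ h`, `k 0 = k` (`Dkf_zero`), given.
`ends`: for `x ∉ (δ/2, 1 - δ/2)` `β = 0` near `x` (all of `(-∞, δ)` and `(1 - δ, ∞)` is outside the windows), so `β x = deriv β x = 0`, `Dkf_id`.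
`imm`: `deriv (g l) x = A_l(x) (deriv (g 0) x)` (`Dkf_deriv`, `Dsh_imm`), `dat0.imm`, `Dkf_indep`.
`off`: `ρ x > 0` on `[δ/2, 1 - δ/2]` (`Dsh_pos`).
`avoid`: `x` in a window: the point is on the circle over `x`; otherwise `β x = 0` and `g l x = g 0 x ∉ Λ`.
`self`: `x ∈ [δ/2, 1 - δ/2]`, `y ∈ [0, 1 + t]`, `y ∉ (δ/2, 1 - δ/2)`, `g l x = g 0 y`: the absolute values of the first components give
`ρ x = |ρ y|`; by `Dsh_low`, `Dsh_end` both are `|R| qs (δ/2)` and `x, y ∈ {δ/2, 1 - δ/2}`; the heights are different (`Dsh_ht`), so `x = y`.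
`dat1`: `inj`: `hi'` (`g 1 = cor ρ θ' h`); `off`: `(g 1 x).1 = 0 ↔ ρ x = 0`, `Dsh_zero`; `imm` for `x ∈ [0, 1 + t]` as above (`Dkf_deriv` holds for all
`x` by `Dsh_imm`); `base`, `tip`: near `0` and near `1` `g 1 = g 0`, `k 1 = k 0` (`ends`), so `deriv` is the same; `avoid`: as above.
-/

open scoped ContDiff Topology
open Set Filter
open Pool.Agent.RSG (ex)

namespace Pool.Agent.KNT

variable {c R θ₀ θ₁ δ t : ℝ} {ρ θ θ' h : ℝ → ℝ}

theorem Dcr_fst (l x : ℝ) {ρ θ h β : ℝ → ℝ} :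
    (cor ρ (fun x => θ x + l * β x) h x).1 = (ρ x : ℂ) * ex (θ x + l * β x) := rfl

theorem Dcr_snd (l x : ℝ) {ρ θ h β : ℝ → ℝ} :
    (cor ρ (fun x => θ x + l * β x) h x).2 = h x := rfl

theorem Dcr_zero {ρ θ h β : ℝ → ℝ} (l : ℝ) {x : ℝ} (hx : β x = 0) :
    cor ρ (fun x => θ x + l * β x) h x = cor ρ θ h x := by
  show ((ρ x : ℂ) * ex (θ x + l * β x), h x) = ((ρ x : ℂ) * ex (θ x), h x)
  rw [hx, mul_zero, add_zero]

theorem Dcr_norm {ρ θ h : ℝ → ℝ} (x : ℝ) : ‖(cor ρ θ h x).1‖ = |ρ x| := by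
  show ‖(ρ x : ℂ) * ex (θ x)‖ = |ρ x|
  rw [norm_mul, Complex.norm_real, Pool.Agent.RSG.ex_norm, mul_one, Real.norm_eq_abs]

theorem Dcr_cross (hn : NCore c R θ₀ θ₁ δ t ρ θ h) (hg : Gen δ (1 - δ) ρ h) {ψ : ℝ → ℝ} (hψ : ContDiff ℝ ∞ ψ)
    (hθ' : ContDiff ℝ ∞ θ') {W : Set ℝ} (hW : W ⊆ Icc δ (1 - δ)) (hβ : ∀ x, x ∉ W → ψ x = θ' x) {Λ : Set (ℂ × ℝ)}
    (hΛ : ∀ y ∈ W, ∀ φ : ℝ, ((ρ y : ℂ) * ex φ, h y) ∉ Λ) {k : ℝ → ℂ × ℝ} (d0 : Dat Λ t (cor ρ ψ h) k)
    (hi' : InjOn (cor ρ θ' h) (Icc 0 (1 + t))) :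
    CrossFam Λ t (δ / 2) (1 - δ / 2) (fun l => cor ρ (fun x => ψ x + l * (θ' x - ψ x)) h)
      (fun l x => Akf ρ ψ (fun x => θ' x - ψ x) h l x (k x)) := by
  have hδ := hn.δ_pos
  have hδ4 := hn.δ_lt
  have ht := hn.t_pos
  have htδ := hn.t_le
  set β : ℝ → ℝ := fun x => θ' x - ψ x with hβd
  have hβs : ContDiff ℝ ∞ β := hθ'.sub hψ
  have hβ0 : ∀ x, x ∉ W → β x = 0 := fun x hx => by
    show θ' x - ψ x = 0
    rw [hβ x hx, sub_self]
  have hβe : ∀ x, x ∉ Ioo (δ / 2) (1 - δ / 2) → β =ᶠ[𝓝 x] 0 := by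
    intro x hx
    have hx' : x < δ ∨ 1 - δ < x := by
      by_contra hcon
      push Not at hcon
      exact hx ⟨by linarith [hcon.1], by linarith [hcon.2]⟩
    rcases hx' with h1 | h1
    · filter_upwards [Iio_mem_nhds h1] with y hy
      exact hβ0 y fun hyW => absurd (hW hyW).1 (not_le.2 hy)
    · filter_upwards [Ioi_mem_nhds h1] with y hy
      exact hβ0 y fun hyW => absurd (hW hyW).2 (not_le.2 hy)
  have hβe0 : ∀ x, x ∉ Ioo (δ / 2) (1 - δ / 2) → β x = 0 := fun x hx => (hβe x hx).self_of_nhds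
  have hβd0 : ∀ x, x ∉ Ioo (δ / 2) (1 - δ / 2) → deriv β x = 0 := fun x hx => by
    rw [(hβe x hx).deriv_eq]
    exact congrFun deriv_zero x
  have hsmg : ContDiff ℝ ∞ fun p : ℝ × ℝ => cor ρ (fun x => ψ x + p.1 * β x) h p.2 :=
    Dkf_cor_smooth hn.smρ hψ hβs hn.smh
  have hsmk : ContDiff ℝ ∞ fun p : ℝ × ℝ => Akf ρ ψ β h p.1 p.2 (k p.2) :=
    Dkf_smooth hn.smρ hψ hβs hn.smh (fun x _ => Dsh_imm hn hg x) d0.smk
  have hpair : ∀ l : ℝ, ContDiff ℝ ∞ fun x : ℝ => (l, x) := fun l => contDiff_const.prodMk contDiff_id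
  have himm : ∀ (l : ℝ), ∀ x ∈ Icc 0 (1 + t), LinearIndependent ℝ
      ![deriv (cor ρ (fun x => ψ x + l * β x) h) x, Akf ρ ψ β h l x (k x)] := by
    intro l x hx
    rw [← Dkf_deriv hn.smρ hψ hβs hn.smh l (Dsh_imm hn hg x)]
    exact Dkf_indep l x (d0.imm x hx)
  have havoid : ∀ (l : ℝ), ∀ x ∈ Icc 0 (1 + t), cor ρ (fun x => ψ x + l * β x) h x ∉ Λ := by
    intro l x hx
    by_cases hxW : x ∈ W
    · exact hΛ x hxW _
    · rw [Dcr_zero l (hβ0 x hxW)]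
      exact d0.avoid x hx
  have hsub : ∀ x ∈ Icc (δ / 2) (1 - δ / 2), x ∈ Icc 0 (1 + t) := fun x hx =>
    ⟨by linarith [hx.1], by linarith [hx.2]⟩
  refine
    { smg := hsmg
      smk := hsmk
      a_pos := by linarith
      a_lt := by linarith
      b_lt := by linarith
      dat0 := ?_
      dat1 := ?_
      ends := ?_
      imm := fun l _ x hx => himm l x (hsub x hx)
      off := ?_
      avoid := fun l _ x hx => havoid l x (hsub x hx)
      self := ?_ }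
  · have e0 : (fun x => ψ x + 0 * β x) = ψ := by funext x; ring
    have e1 : (fun x => Akf ρ ψ β h 0 x (k x)) = k := by
      funext x
      exact Dkf_zero x _
    show Dat Λ t (cor ρ (fun x => ψ x + 0 * β x) h) (fun x => Akf ρ ψ β h 0 x (k x))
    rw [e0, e1]
    exact d0
  · have e1 : (fun x => ψ x + 1 * β x) = θ' := by
      funext x
      show ψ x + 1 * (θ' x - ψ x) = θ' x
      ring
    have h0n : (0 : ℝ) ∉ Ioo (δ / 2) (1 - δ / 2) := fun hh => by linarith [hh.1]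
    have h1n : (1 : ℝ) ∉ Ioo (δ / 2) (1 - δ / 2) := fun hh => by linarith [hh.2]
    refine
      { pos := d0.pos
        smg := hsmg.comp (hpair 1)
        smk := hsmk.comp (hpair 1)
        inj := ?_
        off := ?_
        imm := fun x hx => himm 1 x hx
        base := ?_
        tip := ?_
        avoid := fun x hx => havoid 1 x hx }
    · show InjOn (cor ρ (fun x => ψ x + 1 * β x) h) (Icc 0 (1 + t))
      rw [e1]
      exact hi'
    · intro x hx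
      rw [← Dsh_zero hn hx]
      show (ρ x : ℂ) * ex (ψ x + 1 * β x) = 0 ↔ ρ x = 0
      rw [mul_eq_zero]
      constructor
      · rintro (h1 | h1)
        · exact_mod_cast h1
        · exact absurd h1 (Pool.Agent.RSG.ex_ne _)
      · intro h1
        left
        exact_mod_cast h1
    · show (Akf ρ ψ β h 1 0 (k 0)).1 = 0
      rw [Dkf_id 1 (hβe0 0 h0n) (hβd0 0 h0n)]
      exact d0.base
    · show LinearIndependent ℝ ![(deriv (cor ρ (fun x => ψ x + 1 * β x) h) 1).1, (Akf ρ ψ β h 1 1 (k 1)).1]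
      rw [Dkf_id 1 (hβe0 1 h1n) (hβd0 1 h1n)]
      have h2 : cor ρ (fun x => ψ x + 1 * β x) h =ᶠ[𝓝 1] cor ρ ψ h := by
        filter_upwards [hβe 1 h1n] with y hy
        exact Dcr_zero 1 hy
      rw [h2.deriv_eq]
      exact d0.tip
  · intro l _ x hx
    constructor
    · show cor ρ (fun x => ψ x + l * β x) h x = cor ρ (fun x => ψ x + 0 * β x) h x
      rw [Dcr_zero l (hβe0 x hx), Dcr_zero 0 (hβe0 x hx)]
    · show Akf ρ ψ β h l x (k x) = Akf ρ ψ β h 0 x (k x)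
      rw [Dkf_id l (hβe0 x hx) (hβd0 x hx), Dkf_zero]
  · intro l _ x hx
    show (ρ x : ℂ) * ex (ψ x + l * β x) ≠ 0
    have h1 : 0 < ρ x := Dsh_pos hn (by linarith [hx.1]) (by linarith [hx.2])
    exact mul_ne_zero (by exact_mod_cast h1.ne') (Pool.Agent.RSG.ex_ne _)
  · intro l _ x hx y hy hy' he
    have he' : cor ρ (fun x => ψ x + l * β x) h x = cor ρ (fun x => ψ x + 0 * β x) h y := he
    have h1 : 0 < ρ x := Dsh_pos hn (by linarith [hx.1]) (by linarith [hx.2])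
    have h2 : ρ x = |ρ y| := by
      have h3 := congrArg (fun q : ℂ × ℝ => ‖q.1‖) he'
      simp only [Dcr_norm] at h3
      rwa [abs_of_pos h1] at h3
    have h4 : h x = h y := congrArg Prod.snd he'
    have h5 := Dsh_low hn hx
    have h6 := Dsh_end hn hy hy'
    have h7 : ρ x = |R| * qs (δ / 2) := le_antisymm (h2 ▸ h6.1) h5.1
    have h8 := h5.2 h7
    have h9 := h6.2 (h2 ▸ h7)
    have h10 := Dsh_ht hn
    rcases h8 with h8 | h8 <;> rcases h9 with h9 | h9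
    · rw [h8, h9]
    · exact absurd (by rw [h8, h9] at h4; exact h4) h10
    · exact absurd (by rw [h8, h9] at h4; exact h4.symm) h10
    · rw [h8, h9]

end Pool.Agent.KNT
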