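import Pool.Agent.KNT.Defs

/-!
# KNT/Ddt (difficulty 2): lemmas on core data

* `Ddt_congr`: all fields are clear except those with `deriv`: for `x ∈ [0, 1 + t]` `deriv g x = deriv g' x`: at interior points
  the functions agree near `x`; at the end points the two (two-sided) derivatives are the limits of the derivatives in
  the interior (both derivatives are continuous), `0 < 1 + t`.
* `Ddt_map`: `F` is the identity near `U`: `fderiv ℝ F q = id` for `‖q.1‖ < r`.  `deriv (F ∘ g) x = fderiv ℝ F (g x) (deriv g x)`;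
  `fderiv ℝ F q` is injective (`F.symm ∘ F = id`, chain rule); `(F q).1 = 0 ↔ q.1 = 0` (`F` is injective and the identity on `U`).
-/

open scoped ContDiff Topology
open Set Filter

namespace Pool.Agent.KNT

theorem Ddt_deriv {t : ℝ} (ht : 0 < t) {g g' : ℝ → ℂ × ℝ} (hg : ContDiff ℝ ∞ g)
    (hg' : ContDiff ℝ ∞ g') (he : ∀ x ∈ Icc 0 (1 + t), g' x = g x) :
    ∀ x ∈ Icc 0 (1 + t), deriv g' x = deriv g x := by
  intro x hx
  have hu : UniqueDiffWithinAt ℝ (Icc (0 : ℝ) (1 + t)) x := uniqueDiffOn_Icc (by linarith) x hx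
  rw [← ((hg.differentiable (by simp)) x).derivWithin hu,
    ← ((hg'.differentiable (by simp)) x).derivWithin hu]
  exact derivWithin_congr he (he x hx)

theorem Ddt_congr {Λ : Set (ℂ × ℝ)} {t : ℝ} {g g' k : ℝ → ℂ × ℝ} (h : Dat Λ t g' k) (hg : ContDiff ℝ ∞ g)
    (he : ∀ x ∈ Icc 0 (1 + t), g' x = g x) : Dat Λ t g k := by
  have hd := Ddt_deriv h.pos hg h.smg he
  have ht := h.pos
  refine ⟨h.pos, hg, h.smk, h.inj.congr he, ?_, ?_, h.base, ?_, ?_⟩
  · intro x hx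
    rw [← he x hx]
    exact h.off x hx
  · intro x hx
    rw [← hd x hx]
    exact h.imm x hx
  · rw [← hd 1 ⟨by norm_num, by linarith⟩]
    exact h.tip
  · intro x hx
    rw [← he x hx]
    exact h.avoid x hx

theorem Ddt_mono {Λ Λ' : Set (ℂ × ℝ)} {t : ℝ} {g k : ℝ → ℂ × ℝ} (h : Dat Λ t g k) (hs : Λ' ⊆ Λ) : Dat Λ' t g k :=
  ⟨h.pos, h.smg, h.smk, h.inj, h.off, h.imm, h.base, h.tip, fun x hx hx' => h.avoid x hx (hs hx')⟩

/-- the derivative is injective -/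
theorem Ddt_fd {F : Equiv.Perm (ℂ × ℝ)} (hF : CD univ F) (q : ℂ × ℝ) :
    Function.Injective (fderiv ℝ F q) := by
  have h1 : HasFDerivAt F (fderiv ℝ F q) q := ((hF.smooth.differentiable (by simp)) q).hasFDerivAt
  have h2 : HasFDerivAt F.symm (fderiv ℝ F.symm (F q)) (F q) :=
    ((hF.smooth_symm.differentiable (by simp)) (F q)).hasFDerivAt
  have h3 := h2.comp q h1
  have h4 : (F.symm ∘ F : ℂ × ℝ → ℂ × ℝ) = id := by
    funext x
    exact F.symm_apply_apply x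
  rw [h4] at h3
  have h5 := h3.unique (hasFDerivAt_id q)
  intro v w hvw
  have h6 : ∀ v, fderiv ℝ F.symm (F q) (fderiv ℝ F q v) = v := fun v => by
    have := DFunLike.congr_fun h5 v
    simpa using this
  rw [← h6 v, ← h6 w, hvw]

theorem Ddt_id {F : Equiv.Perm (ℂ × ℝ)} {r : ℝ} (hr : 0 < r) (hU : ∀ q : ℂ × ℝ, ‖q.1‖ ≤ r → F q = q)
    {q : ℂ × ℝ} (hq : q.1 = 0) (v : ℂ × ℝ) : fderiv ℝ F q v = v := by
  have c : Continuous fun p : ℂ × ℝ => ‖p.1‖ := by fun_prop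
  have h0 : ‖q.1‖ < r := by
    rw [hq, norm_zero]
    exact hr
  have h1 : (F : ℂ × ℝ → ℂ × ℝ) =ᶠ[𝓝 q] id := by
    filter_upwards [c.continuousAt.eventually (gt_mem_nhds h0)] with p hp
    exact hU p (le_of_lt hp)
  rw [h1.fderiv_eq, fderiv_id]
  rfl

theorem Ddt_map {Λ : Set (ℂ × ℝ)} {t : ℝ} {g k : ℝ → ℂ × ℝ} (h : Dat Λ t g k) {F : Equiv.Perm (ℂ × ℝ)} (hF : CD univ F)
    {r : ℝ} (hr : 0 < r) (hU : ∀ q : ℂ × ℝ, ‖q.1‖ ≤ r → F q = q) :
    Dat (F '' Λ) t (F ∘ g) (fun x => fderiv ℝ F (g x) (k x)) := by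
  have ht := h.pos
  have hd : ∀ x, deriv (F ∘ g) x = fderiv ℝ F (g x) (deriv g x) := fun x =>
    fderiv_comp_deriv x ((hF.smooth.differentiable (by simp)) _)
      ((h.smg.differentiable (by simp)) x)
  have hz : ∀ q : ℂ × ℝ, (F q).1 = 0 ↔ q.1 = 0 := by
    intro q
    constructor
    · intro h1
      have h2 : F (F q) = F q := hU (F q) (by rw [h1, norm_zero]; exact hr.le)
      have h3 := F.injective h2
      rw [← h3]
      exact h1
    · intro h1
      rw [hU q (by rw [h1, norm_zero]; exact hr.le)]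
      exact h1
  refine ⟨h.pos, hF.smooth.comp h.smg, ?_, F.injective.comp_injOn h.inj, ?_, ?_, ?_, ?_, ?_⟩
  · have h1 : ContDiff ℝ ∞ (fderiv ℝ F) := hF.smooth.fderiv_right (by simp)
    exact (h1.comp h.smg).clm_apply h.smk
  · intro x hx
    rw [Function.comp_apply, hz]
    exact h.off x hx
  · intro x hx
    have h1 := (h.imm x hx).map' (fderiv ℝ F (g x)).toLinearMap
      (LinearMap.ker_eq_bot.2 (Ddt_fd hF (g x)))
    rw [hd]
    have h2 : ![fderiv ℝ F (g x) (deriv g x), fderiv ℝ F (g x) (k x)] =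
        (fderiv ℝ F (g x)).toLinearMap ∘ ![deriv g x, k x] := by
      funext i
      fin_cases i <;> rfl
    rw [h2]
    exact h1
  · have h1 : (g 0).1 = 0 := (h.off 0 ⟨le_rfl, by linarith⟩).2 (Or.inl rfl)
    simp only [Ddt_id hr hU h1]
    exact h.base
  · have h1 : (g 1).1 = 0 := (h.off 1 ⟨by norm_num, by linarith⟩).2 (Or.inr rfl)
    rw [hd]
    simp only [Ddt_id hr hU h1]
    exact h.tip
  · rintro x hx ⟨y, hy, he⟩
    have h1 := F.injective he
    rw [h1] at hy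
    exact h.avoid x hx hy

theorem Ddt_U {F : Equiv.Perm (ℂ × ℝ)} {r : ℝ} (hr : 0 < r) (hU : ∀ q : ℂ × ℝ, ‖q.1‖ ≤ r → F q = q) : F '' U = U := by
  have h1 : ∀ q ∈ U, F q = q := fun q hq => hU q (by
    have h2 : q.1 = 0 := hq
    rw [h2, norm_zero]
    exact hr.le)
  ext q
  constructor
  · rintro ⟨p, hp, rfl⟩
    rw [h1 p hp]
    exact hp
  · intro hq
    exact ⟨q, hq, h1 q hq⟩

theorem Ddt_Sp (F : Equiv.Perm (ℂ × ℝ)) (L : SL) : Sp (mp F L) = F '' Sp L := by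
  ext x
  simp only [Sp, mp, mem_iUnion, mem_image, List.mem_map, exists_prop]
  constructor
  · rintro ⟨p, ⟨q, hq, rfl⟩, y, hy, rfl⟩
    exact ⟨q.2 y, ⟨q, hq, y, hy, rfl⟩, rfl⟩
  · rintro ⟨z, ⟨q, hq, y, hy, rfl⟩, rfl⟩
    exact ⟨(q.1, F ∘ q.2), ⟨q, hq, rfl⟩, y, hy, rfl⟩

theorem Ddt_thin {L : SL} {e : ℝ} (he : 0 < e) (he1 : e ≤ 1) : Sp (L.map fun p => (p.1, thin e p.2)) ⊆ Sp L := by
  intro x hx
  simp only [Sp, mem_iUnion, mem_image, List.mem_map, exists_prop] at hx ⊢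
  obtain ⟨p, ⟨q, hq, rfl⟩, y, hy, rfl⟩ := hx
  refine ⟨q, hq, (y.1, e * y.2), ?_, rfl⟩
  obtain ⟨h1, h2, h3⟩ := hy
  refine ⟨h1, ?_, ?_⟩
  · change -1 ≤ e * y.2
    nlinarith
  · change e * y.2 ≤ 1
    nlinarith

/-- `Sp L` is compact -/
theorem Ddt_compact {L : SL} (hL : ∀ p ∈ L, Continuous p.2) : IsCompact (Sp L) := by
  unfold Sp
  refine (List.finite_toSet L).isCompact_biUnion fun p hp => ?_
  exact (isCompact_Icc.prod isCompact_Icc).image (hL p hp)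

end Pool.Agent.KNT
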