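import Pool.Agent.KNT.Defs
import Pool.Agent.RSG.ExM

/-!
# KNT/Drt (difficulty 2): rotations about the axis by an angle which depends on the shadow

`F (w, h) = (w ex (f (|w|, h)), h)`, `f = 0` for `|w| ≤ r₀` and far away.  The inverse is the same with `-f`.  Smooth: near `w ≠ 0` `|w|` is
smooth; for `|w| < r₀` it is the identity.  Support: `{r₀ ≤ |w|} ∩ {‖(|w|, h)‖ ≤ B}` is contained in a closed ball.
`Drt_cor`: `ρ x ≥ 0`: clear; `|ρ x| ≤ r₀`: both sides are the identity (`f (|ρ x|, h x) = 0`, `f (ρ x, h x) = 0` as `ρ x ≤ r₀`).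
-/

open scoped ContDiff Topology
open Set Filter
open Pool.Agent.RSG (ex)

namespace Pool.Agent.KNT

/-- the rotation by the angle `f` -/
noncomputable def Drt_R (f : ℝ × ℝ → ℝ) (q : ℂ × ℝ) : ℂ × ℝ := (q.1 * ex (f (‖q.1‖, q.2)), q.2)

theorem Drt_norm (w : ℂ) (x : ℝ) : ‖w * ex x‖ = ‖w‖ := by
  rw [norm_mul, RSG.ex_norm, mul_one]

theorem Drt_inv {f g : ℝ × ℝ → ℝ} (h : ∀ q, f q + g q = 0) (q : ℂ × ℝ) :
    Drt_R g (Drt_R f q) = q := by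
  unfold Drt_R
  simp only [Drt_norm]
  rw [mul_assoc, ← RSG.ex_add, h, RSG.ex_zero, mul_one]

theorem Drt_zero {f : ℝ × ℝ → ℝ} {q : ℂ × ℝ} (h : f (‖q.1‖, q.2) = 0) : Drt_R f q = q := by
  unfold Drt_R
  rw [h, RSG.ex_zero, mul_one]

theorem Drt_smooth {f : ℝ × ℝ → ℝ} (hf : ContDiff ℝ ∞ f) {r₀ : ℝ} (hr : 0 < r₀)
    (h0 : ∀ q, q.1 ≤ r₀ → f q = 0) : ContDiff ℝ ∞ (Drt_R f) := by
  rw [contDiff_iff_contDiffAt]
  intro q
  rcases lt_or_ge ‖q.1‖ r₀ with h | h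
  · have c : Continuous fun p : ℂ × ℝ => ‖p.1‖ := by fun_prop
    refine (contDiffAt_id (x := q)).congr_of_eventuallyEq ?_
    filter_upwards [c.continuousAt.eventually (gt_mem_nhds h)] with p hp
    exact Drt_zero (h0 _ (le_of_lt hp))
  · have hq : q.1 ≠ 0 := by
      intro h1
      rw [h1, norm_zero] at h
      linarith
    have h1 : ContDiffAt ℝ ∞ (fun p : ℂ × ℝ => ‖p.1‖) q :=
      (contDiffAt_norm ℝ hq).comp q contDiffAt_fst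
    have h2 : ContDiffAt ℝ ∞ (fun p : ℂ × ℝ => f (‖p.1‖, p.2)) q :=
      hf.contDiffAt.comp q (h1.prodMk contDiffAt_snd)
    have h3 : ContDiffAt ℝ ∞ (fun p : ℂ × ℝ => ex (f (‖p.1‖, p.2))) q :=
      RSG.ex_smooth.contDiffAt.comp q h2
    exact (contDiffAt_fst.mul h3).prodMk contDiffAt_snd

theorem Drt_perm {f : ℝ × ℝ → ℝ} (hf : ContDiff ℝ ∞ f) {r₀ B : ℝ} (hr : 0 < r₀) (h0 : ∀ q, q.1 ≤ r₀ → f q = 0)
    (h1 : ∀ q, B ≤ ‖q‖ → f q = 0) :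
    ∃ F : Equiv.Perm (ℂ × ℝ), CD univ F ∧ (∀ q, F q = (q.1 * ex (f (‖q.1‖, q.2)), q.2)) ∧
      ∀ q : ℂ × ℝ, ‖q.1‖ ≤ r₀ → F q = q := by
  let F : Equiv.Perm (ℂ × ℝ) :=
    ⟨Drt_R f, Drt_R (fun q => -f q), Drt_inv (fun q => by ring), Drt_inv (fun q => by ring)⟩
  refine ⟨F, ⟨Drt_smooth hf hr h0, Drt_smooth hf.neg hr (fun q hq => by rw [h0 q hq, neg_zero]),
    Metric.closedBall 0 B, isCompact_closedBall _ _, subset_univ _, fun x hx => ?_⟩, fun q => rfl,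
    fun q hq => Drt_zero (h0 _ hq)⟩
  apply Drt_zero
  apply h1
  rw [mem_closedBall_zero_iff, not_le] at hx
  have e : ‖((‖x.1‖, x.2) : ℝ × ℝ)‖ = ‖x‖ := by
    rw [Prod.norm_def, Prod.norm_def, norm_norm]
  rw [e]
  exact hx.le

theorem Drt_cor {f : ℝ × ℝ → ℝ} {r₀ : ℝ} (h0 : ∀ q, q.1 ≤ r₀ → f q = 0) {F : Equiv.Perm (ℂ × ℝ)}
    (hF : ∀ q, F q = (q.1 * ex (f (‖q.1‖, q.2)), q.2)) {ρ θ h : ℝ → ℝ} {x : ℝ} (hx : 0 ≤ ρ x ∨ |ρ x| ≤ r₀) :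
    F (cor ρ θ h x) = cor ρ (fun x => θ x + f (ρ x, h x)) h x := by
  rw [hF]
  unfold cor
  have e1 : ‖(ρ x : ℂ) * ex (θ x)‖ = |ρ x| := by
    rw [Drt_norm, Complex.norm_real, Real.norm_eq_abs]
  have e2 : f (|ρ x|, h x) = f (ρ x, h x) := by
    rcases hx with hx | hx
    · rw [abs_of_nonneg hx]
    · rw [h0 _ hx, h0 _ ((le_abs_self _).trans hx)]
  simp only [e1, e2]
  rw [RSG.ex_add, mul_assoc]

/-- circles are preserved -/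
theorem Drt_circ {f : ℝ × ℝ → ℝ} {F : Equiv.Perm (ℂ × ℝ)} (hF : ∀ q, F q = (q.1 * ex (f (‖q.1‖, q.2)), q.2))
    {q : ℂ × ℝ} {a b φ : ℝ} (he : F q = ((a : ℂ) * ex φ, b)) : ∃ φ' : ℝ, q = ((a : ℂ) * ex φ', b) := by
  rw [hF, Prod.mk.injEq] at he
  obtain ⟨e1, e2⟩ := he
  refine ⟨φ + -f (‖q.1‖, q.2), ?_⟩
  rw [RSG.ex_add, ← mul_assoc, ← e1, mul_assoc, ← RSG.ex_add, add_neg_cancel, RSG.ex_zero, mul_one,
    ← e2]

end Pool.Agent.KNT
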