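import Pool.Agent.KNT.MapI

/-!
# KNT/DragI: isotopy of the core by an ambient isotopy

PROOF of `HG_drag`. `t > 0` may be assumed (otherwise there is no strip, `HG` is empty: `Strip.pos`). Let
`E₀ = g 0 '' ([0, a/2] ∪ [(1 + b)/2, 1 + t])` (compact) and `O = (U ∪ E₀)ᶜ` (open). Apply `ISO.core_arc` with `Λ = ⊥` to
`k s x = g s x` on `[a/2, (1 + b)/2]` (moving part `[a, b]`: `a' = a`, `b' = b`, `a₀ = a/4`, `b₀ = 1`): `hend` ✓.,
`hkO`: for `x ∈ [a, b]` `g s x ∉ U` by `hU`, and `g s x ≠ g 0 x' = g s x'` for `x' ∈ [0, a/2] ∪ [(1+b)/2, 1+t]` by `hinj`.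
We get `F` with `CD O F` (`cd_of_move`) and `F (g 0 x) = g 1 x` for `x ∈ [a/2, (1+b)/2]`; for the other `x ∈ [0, 1 + t]`
`g 0 x ∈ E₀` is fixed by `F` and `g 1 x = g 0 x`. `F` fixes the points of `U`, so `F '' U = U`. Now `HG_map`
(`CD.mono`), and `HG u t (F ∘ g 0)` follows from `HG u t (g 1)` since the cores agree on `[0, 1 + t]`.
-/

open scoped ContDiff Topology
open Set Filter
open Pool.Agent.CSG (stp)
open Pool.Agent.RSG (ex)

namespace Pool.Agent.KNT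

theorem HG_congr {u : ℕ} {t : ℝ} {g g' : ℝ → ℂ × ℝ} (hg : ∀ x ∈ Icc 0 (1 + t), g' x = g x)
    (h : HG u t g') : HG u t g := by
  intro Φ L hL hC h1
  exact h Φ L hL hC (fun x hx => (h1 x hx).trans (hg x hx).symm)

theorem DragI_lat : ISO.Lat (⊥ : AddSubgroup (ℂ × ℝ)) := by
  intro R
  refine (Set.finite_singleton (0 : ℂ × ℝ)).subset ?_
  rintro m ⟨hm, -⟩
  exact AddSubgroup.mem_bot.1 hm

theorem DragI_main {u : ℕ} {t a b : ℝ} {g : ℝ → ℝ → ℂ × ℝ} (ht : 0 < t) (ha : 0 < a) (hab : a ≤ b)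
    (hb : b < 1)
    (hg : ContDiff ℝ ∞ fun p : ℝ × ℝ => g p.1 p.2)
    (hend : ∀ s ∈ Icc (0 : ℝ) 1, ∀ x ∈ Icc 0 (1 + t), x ≤ a ∨ b ≤ x → g s x = g 0 x)
    (hU : ∀ s ∈ Icc (0 : ℝ) 1, ∀ x ∈ Icc a b, (g s x).1 ≠ 0)
    (himm : ∀ s ∈ Icc (0 : ℝ) 1, ∀ x ∈ Icc 0 (1 + t), deriv (g s) x ≠ 0)
    (hinj : ∀ s ∈ Icc (0 : ℝ) 1, InjOn (g s) (Icc 0 (1 + t)))
    (h : HG u t (g 1)) : HG u t (g 0) := by
  set E₀ : Set (ℂ × ℝ) := g 0 '' (Icc 0 (a / 2) ∪ Icc ((1 + b) / 2) (1 + t)) with hE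
  have hg0 : Continuous (g 0) := by
    have h1 : Continuous fun x : ℝ => ((0 : ℝ), x) := by fun_prop
    exact hg.continuous.comp h1
  have hEc : IsCompact E₀ := (isCompact_Icc.union isCompact_Icc).image hg0
  have hUc : IsClosed U := by
    have h1 : U = (fun q : ℂ × ℝ => q.1) ⁻¹' {0} := rfl
    rw [h1]
    exact isClosed_singleton.preimage continuous_fst
  have hO : IsOpen (U ∪ E₀)ᶜ := (hUc.union hEc.isClosed).isOpen_compl
  have hin : ∀ l ∈ Icc (a / 2) ((1 + b) / 2), l ∈ Icc 0 (1 + t) := fun l hl =>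
    ⟨by linarith [hl.1], by linarith [hl.2]⟩
  obtain ⟨F, hF, hFk⟩ := ISO.core_arc (Λ := ⊥) DragI_lat hO (k := g) (a₀ := a / 4) (a := a / 2)
    (a' := a) (b' := b) (b := (1 + b) / 2) (b₀ := 1) (by linarith) (by linarith) (by linarith)
    (by linarith) (fun s _ l _ => hg.contDiffAt)
    (fun s hs l hl hl' => hend s hs l (hin l hl) hl')
    (fun s hs l hl => by
      rintro (h1 | ⟨x, hx, hxe⟩)
      · exact hU s hs l hl h1
      · have hx1 : x ∈ Icc 0 (1 + t) := by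
          rcases hx with hx | hx
          · exact ⟨hx.1, by linarith [hx.2]⟩
          · exact ⟨by linarith [hx.1], hx.2⟩
        have hx2 : x ≤ a ∨ b ≤ x := by
          rcases hx with hx | hx
          · left; linarith [hx.2]
          · right; linarith [hx.1]
        have hl1 : l ∈ Icc 0 (1 + t) := ⟨by linarith [hl.1], by linarith [hl.2]⟩
        have h3 := hinj s hs hl1 hx1 (hxe.symm.trans (hend s hs x hx1 hx2).symm)
        subst h3
        rcases hx with hx | hx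
        · linarith [hx.2, hl.1]
        · linarith [hx.1, hl.2])
    (fun s hs l hl => himm s hs l (hin l hl))
    (fun s hs l hl l' hl' m hm he => by
      have hm0 : m = 0 := AddSubgroup.mem_bot.1 hm
      rw [hm0, add_zero] at he
      exact hinj s hs (hin l hl) (hin l' hl') he)
  have hCD := cd_of_move hF
  have hFU : F '' U = U := hCD.image_disj (by
    rw [Set.disjoint_compl_right_iff_subset]
    exact Set.subset_union_left)
  refine HG_map (hCD.mono (Set.subset_univ _)) hFU (HG_congr (g' := g 1) (fun x hx => ?_) h)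
  by_cases hx2 : x ∈ Icc (a / 2) ((1 + b) / 2)
  · exact (hFk x hx2).symm
  · have hx3 : x ∈ Icc 0 (a / 2) ∪ Icc ((1 + b) / 2) (1 + t) := by
      by_cases h1 : x ≤ a / 2
      · exact Or.inl ⟨hx.1, h1⟩
      · right
        refine ⟨?_, hx.2⟩
        by_contra h2
        exact hx2 ⟨(not_le.1 h1).le, (not_le.1 h2).le⟩
    have hx4 : x ≤ a ∨ b ≤ x := by
      rcases hx3 with hx3 | hx3
      · left; linarith [hx3.2]
      · right; linarith [hx3.1]
    have h5 : F (g 0 x) = g 0 x := hCD.fix (fun hc => hc (Or.inr ⟨x, hx3, rfl⟩))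
    have h6 := hend 1 (by simp) x hx hx4
    rw [Function.comp_apply, h5, h6]

theorem HG_drag {u : ℕ} {t a b : ℝ} {g : ℝ → ℝ → ℂ × ℝ} (ha : 0 < a) (hab : a ≤ b) (hb : b < 1)
    (hg : ContDiff ℝ ∞ fun p : ℝ × ℝ => g p.1 p.2)
    (hend : ∀ s ∈ Icc (0 : ℝ) 1, ∀ x ∈ Icc 0 (1 + t), x ≤ a ∨ b ≤ x → g s x = g 0 x)
    (hU : ∀ s ∈ Icc (0 : ℝ) 1, ∀ x ∈ Icc a b, (g s x).1 ≠ 0)
    (himm : ∀ s ∈ Icc (0 : ℝ) 1, ∀ x ∈ Icc 0 (1 + t), deriv (g s) x ≠ 0)
    (hinj : ∀ s ∈ Icc (0 : ℝ) 1, InjOn (g s) (Icc 0 (1 + t)))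
    (h : HG u t (g 1)) : HG u t (g 0) := by
  intro Φ L hL hC hΦ
  have ht : 0 < t := (conf_cons.1 hC).1.pos
  exact DragI_main ht ha hab hb hg hend hU himm hinj h Φ L hL hC hΦ

end Pool.Agent.KNT
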