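import Pool.Agent.KNT.EMain

/-!
# KNT/EFin: block E, final theorem (from block D, `cross_HG`)
-/

open scoped ContDiff Topology
open Set Filter
open Complex (I)
open Pool.Agent.CSG (stp)
open Pool.Agent.RSG (ex)

namespace Pool.Agent.KNT

/-- the step along the core, corrected outside `[-1/4, 5/4]` -/
noncomputable def Acut (c R : ℝ) (h : ℝ → ℝ) (x : ℝ) : ℝ :=
  stp (-(1 / 2)) (-(1 / 4)) x * stp (-(1 / 2)) (1 / 2) ((h x - c) / R) * (1 - stp (5 / 4) (3 / 2) x) +
    stp (5 / 4) (3 / 2) x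

theorem Acut_smooth (c R : ℝ) {h : ℝ → ℝ} (hh : ContDiff ℝ ∞ h) : ContDiff ℝ ∞ (Acut c R h) := by
  unfold Acut
  have h1 : ContDiff ℝ ∞ fun x => stp (-(1 / 2)) (1 / 2) ((h x - c) / R) :=
    (CSG.stp_smooth _ _).comp ((hh.sub contDiff_const).div_const R)
  exact (((CSG.stp_smooth _ _).mul h1).mul (contDiff_const.sub (CSG.stp_smooth _ _))).add
    (CSG.stp_smooth _ _)

theorem Acut_foot {c R : ℝ} (hR : R ≠ 0) {h : ℝ → ℝ} {x : ℝ} (hx : x ≤ 1 / 4) (hh : h x = c + R * ps x) :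
    Acut c R h x = 0 := by
  have e2 : stp (5 / 4) (3 / 2) x = 0 := CSG.stp_zero (by norm_num) (by linarith)
  have e3 : stp (-(1 / 2)) (-(1 / 4)) x * stp (-(1 / 2)) (1 / 2) ((h x - c) / R) = 0 := by
    rcases le_or_gt x (-(1 / 2)) with h1 | h1
    · rw [CSG.stp_zero (by norm_num) h1, zero_mul]
    · rw [hh, EMain_one_sub x hR, CSG.stp_zero (a := -(1 / 2)) (b := 1 / 2) (by norm_num)
        ((ps_foot h1.le hx).trans (by norm_num)), mul_zero]
  unfold Acut
  rw [e2, e3]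
  ring

theorem Acut_tip {c R : ℝ} (hR : R ≠ 0) {h : ℝ → ℝ} {x : ℝ} (hx : 3 / 4 ≤ x) (hh : h x = c + R * ps x) :
    Acut c R h x = 1 := by
  unfold Acut
  rcases le_or_gt x (3 / 2) with h1 | h1
  · rw [hh, EMain_one_sub x hR, CSG.stp_one (a := -(1 / 2)) (b := 1 / 2) (by norm_num)
      (le_trans (by norm_num) (ps_tip hx h1)), CSG.stp_one (a := -(1 / 2)) (b := -(1 / 4)) (by norm_num)
      (by linarith)]
    ring
  · rw [CSG.stp_one (a := 5 / 4) (b := 3 / 2) (by norm_num) h1.le]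
    ring

theorem Acut_in {c R : ℝ} {h : ℝ → ℝ} {x : ℝ} (hx : 0 ≤ x) (hx1 : x ≤ 5 / 4) :
    Acut c R h x = stp (-(1 / 2)) (1 / 2) ((h x - c) / R) := by
  unfold Acut
  rw [CSG.stp_one (a := -(1 / 2)) (b := -(1 / 4)) (by norm_num) (by linarith),
    CSG.stp_zero (a := 5 / 4) (b := 3 / 2) (by norm_num) hx1]
  ring

/-- Block E: straightening to the semicircle. -/
theorem straight_HG' {u : ℕ} {c R θ₀ θ₁ δ t : ℝ} {ρ θ h : ℝ → ℝ} (hn : NCore c R θ₀ θ₁ δ t ρ θ h)
    (hg : Gen δ (1 - δ) ρ h) (hi : InjOn (cor ρ θ h) (Icc 0 (1 + t)))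
    (H : HG u t (gsph c R θ₀)) : HG u t (cor ρ θ h) := by
  have hR := hn.R_ne
  have hδ := hn.δ_pos
  have hδ1 := hn.δ_lt
  have ht := hn.t_pos
  have ht1 := hn.t_le
  have hRp : 0 < |R| := abs_pos.2 hR
  have hF : EFt c R δ t ρ h :=
    { smρ := hn.smρ
      smh := hn.smh
      R_ne := hR
      δ_pos := hδ
      δ_lt := hδ1
      t_pos := ht
      t_le := ht1
      f0 := fun x hx => ⟨(hn.foot₀ x hx).1, (hn.foot₀ x hx).2.1⟩
      f1 := fun x hx => ⟨(hn.foot₁ x hx).1, (hn.foot₁ x hx).2.1⟩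
      pos := by
        intro x h0 h1
        rcases le_or_gt x δ with h2 | h2
        · rw [(hn.foot₀ x h2).1]
          exact mul_pos hRp (qs_pos h0 h1)
        rcases le_or_gt (1 - δ) x with h3 | h3
        · rw [(hn.foot₁ x h3).1]
          exact mul_pos hRp (qs_pos h0 h1)
        · exact (mul_pos hRp (qs_pos hδ (by linarith))).trans (hn.mid x h2 h3) }
  set T : ℝ := θ₀ + 1 / 4 - θ₁ with hT
  set θ₂ : ℝ → ℝ := fun x => θ x + T * Acut c R h x with hθ₂
  have hin : ∀ x ∈ Icc (0 : ℝ) (1 + t), Acut c R h x = stp (-(1 / 2)) (1 / 2) ((h x - c) / R) :=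
    fun x hx => Acut_in hx.1 (by linarith [hx.2])
  -- the turned core is in normal form
  have hn2 : NCore c R θ₀ (θ₀ + 1 / 4) δ t ρ θ₂ h :=
    { smρ := hn.smρ
      smθ := hn.smθ.add (contDiff_const.mul (Acut_smooth c R hn.smh))
      smh := hn.smh
      R_ne := hR
      δ_pos := hδ
      δ_lt := hδ1
      t_pos := ht
      t_le := ht1
      foot₀ := by
        intro x hx
        obtain ⟨h1, h2, h3⟩ := hn.foot₀ x hx
        refine ⟨h1, h2, ?_⟩
        show θ x + T * Acut c R h x = θ₀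
        rw [Acut_foot hR (by linarith) h2, h3, mul_zero, add_zero]
      foot₁ := by
        intro x hx
        obtain ⟨h1, h2, h3⟩ := hn.foot₁ x hx
        refine ⟨h1, h2, ?_⟩
        show θ x + T * Acut c R h x = θ₀ + 1 / 4
        rw [Acut_tip hR (by linarith) h2, h3, mul_one, hT]
        ring
      mid := hn.mid }
  have hi2 : InjOn (cor ρ θ₂ h) (Icc 0 (1 + t)) := by
    intro x hx y hy hxy
    apply hi hx hy
    have hw : (ρ x : ℂ) * ex (θ₂ x) = ρ y * ex (θ₂ y) := congrArg Prod.fst hxy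
    have hh : h x = h y := congrArg Prod.snd hxy
    have hA : Acut c R h x = Acut c R h y := by rw [hin x hx, hin y hy, hh]
    simp only [hθ₂, RSG.ex_add, ← mul_assoc, hA] at hw
    have hw2 := mul_right_cancel₀ (RSG.ex_ne _) hw
    unfold cor
    rw [hw2, hh]
  -- chain
  have s1 := drag_two hR hδ hδ1 ht ht1 H
  have s2 : HG u t (cor (fun x => |R| * qs x) (eth θ₀ δ) (fun x => c + R * ps x)) := by
    refine turn_HG (c := c) (R := R) (T := -(1 / 4)) (by
      have := qs_smooth.continuous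
      fun_prop) (by
      have := ps_smooth.continuous
      fun_prop) ?_
    refine EInj_congr ?_ s1
    intro x _
    unfold cor eth
    simp only [EMain_one_sub x hR]
    have : θ₀ + (stp (δ / 2) (1 - δ / 2) x - stp (-(1 / 2)) (1 / 2) (ps x)) / 4 =
        θ₀ + stp (δ / 2) (1 - δ / 2) x / 4 + -(1 / 4) * stp (-(1 / 2)) (1 / 2) (ps x) := by ring
    rw [this]
  have s3 := drag_one hF s2
  have s4 : HG u t (cor ρ θ₂ h) := by
    refine cross_HG' hn2 hg (eth_smooth θ₀ δ) ?_ ?_ hi2 (hF.inj θ₀) s3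
    · intro x hx
      rw [(hn2.foot₀ x (by linarith)).2.2]
      unfold eth
      rw [CSG.stp_zero (by linarith) hx]
      ring
    · intro x hx
      rw [(hn2.foot₁ x (by linarith)).2.2]
      unfold eth
      rw [CSG.stp_one (by linarith) hx]
  refine turn_HG (c := c) (R := R) (T := T) hn.smρ.continuous hn.smh.continuous ?_
  refine EInj_congr ?_ s4
  intro x hx
  unfold cor
  simp only [hθ₂, hin x hx]

end Pool.Agent.KNT
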