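import Pool.Agent.KNT.GC

/-!
# KNT/GE: the strips
-/

open scoped ContDiff Topology
open Set Filter

namespace Pool.Agent.KNT

variable {r : ℝ} {w : ℝ → ℂ} {h : ℝ → ℝ} {d t : ℝ} {S : Finset (ℝ × ℝ)}

/-- the strip of the pair `p` -/
noncomputable def Psi (w : ℝ → ℂ) (d : ℝ) (p : ℝ × ℝ) (q : ℝ × ℝ) : ℂ × ℝ :=
  (w (p.1 + d * q.2) - w (p.1 + d * q.2 + q.1 * (p.2 - p.1)), p.1 + d * q.2 + q.1 * (p.2 - p.1))

/-- the parameters are in `[-r, r]` -/
theorem Psi_mem (hD : GD r w h d t S) {p : ℝ × ℝ} (hp : p ∈ S) {q : ℝ × ℝ} (hq : q ∈ Rec t) :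
    p.1 + d * q.2 ∈ Icc (-r) r ∧ p.1 + d * q.2 + q.1 * (p.2 - p.1) ∈ Icc (-r) r ∧
      |p.1 + d * q.2 - p.1| ≤ d := by
  obtain ⟨h1, h2, h3, h4, -⟩ := (hD.mem p).1 hp
  have g1 := hD.lo p hp
  have g2 := hD.hi p hp
  have g3 := hD.dpos
  have g4 := hD.small p hp
  obtain ⟨⟨a1, a2⟩, ⟨b1, b2⟩⟩ := hq
  have k1 : d * q.2 ≤ d * 1 := mul_le_mul_of_nonneg_left b2 g3.le
  have k2 : d * (-1) ≤ d * q.2 := mul_le_mul_of_nonneg_left b1 g3.le
  have k3 : 0 ≤ q.1 * (p.2 - p.1) := mul_nonneg a1 (by linarith)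
  have k4 : q.1 * (p.2 - p.1) ≤ (1 + t) * (p.2 - p.1) := mul_le_mul_of_nonneg_right a2 (by linarith)
  refine ⟨⟨by linarith, by linarith⟩, ⟨by linarith, by nlinarith⟩, ?_⟩
  rw [add_sub_cancel_left, abs_le]
  exact ⟨by linarith, by linarith⟩

theorem GD.key (hD : GD r w h d t S) {p : ℝ × ℝ} (hp : p ∈ S) {a y : ℝ} (ha : a ∈ Icc (-r) r)
    (hap : |a - p.1| ≤ d) (hy : y ∈ Icc (-r) r) (e : w a = w y) : a = y ∨ (a = p.1 ∧ y = p.2) := by
  by_cases hay : a = y
  · exact Or.inl hay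
  · right
    obtain ⟨h1, h2, h3, h4, -⟩ := (hD.mem p).1 hp
    have hd := hD.dpos
    have hap' : a = p.1 := by
      by_contra hne
      have := hD.sep hp ha hy hay e hne
      linarith
    refine ⟨hap', ?_⟩
    rw [hap'] at e hay
    exact hD.uniq h1 hy h2 hay h3.ne e h4

theorem GD.snd_far (hD : GD r w h d t S) {p q : ℝ × ℝ} (hp : p ∈ S) (hq : q ∈ S) : d < |p.2 - q.1| := by
  obtain ⟨h1, h2, h3, h4, -⟩ := (hD.mem p).1 hp
  have := hD.sep hq h2 h1 h3.ne' h4.symm (hD.snd_ne hp hq)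
  have := hD.dpos
  linarith

theorem Psi_smooth (hw : ContDiff ℝ ∞ w) (d : ℝ) (p : ℝ × ℝ) : ContDiff ℝ ∞ (Psi w d p) := by
  have h1 : ContDiff ℝ ∞ fun q : ℝ × ℝ => p.1 + d * q.2 :=
    contDiff_const.add (contDiff_const.mul contDiff_snd)
  have h2 : ContDiff ℝ ∞ fun q : ℝ × ℝ => p.1 + d * q.2 + q.1 * (p.2 - p.1) :=
    h1.add (contDiff_fst.mul contDiff_const)
  exact ((hw.comp h1).sub (hw.comp h2)).prodMk h2

/-- the derivative of the first component -/
theorem Psi_d1 (hw : ContDiff ℝ ∞ w) (d : ℝ) (p q : ℝ × ℝ) (u : ℝ × ℝ) :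
    fderiv ℝ (fun q : ℝ × ℝ => (Psi w d p q).1) q u =
      (d * u.2) • deriv w (p.1 + d * q.2) -
        (d * u.2 + u.1 * (p.2 - p.1)) • deriv w (p.1 + d * q.2 + q.1 * (p.2 - p.1)) := by
  have h1 : HasFDerivAt (fun q : ℝ × ℝ => p.1 + d * q.2) (d • ContinuousLinearMap.snd ℝ ℝ ℝ) q :=
    ((hasFDerivAt_snd (p := q)).const_mul d).const_add p.1
  have h2 : HasFDerivAt (fun q : ℝ × ℝ => p.1 + d * q.2 + q.1 * (p.2 - p.1))
      (d • ContinuousLinearMap.snd ℝ ℝ ℝ + (p.2 - p.1) • ContinuousLinearMap.fst ℝ ℝ ℝ) q :=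
    h1.add ((hasFDerivAt_fst (p := q)).mul_const (p.2 - p.1))
  have g1 := ((hw.differentiable (by simp)) (p.1 + d * q.2)).hasDerivAt.hasFDerivAt.comp q h1
  have g2 := ((hw.differentiable (by simp))
    (p.1 + d * q.2 + q.1 * (p.2 - p.1))).hasDerivAt.hasFDerivAt.comp q h2
  have g3 := g1.sub g2
  have g4 : fderiv ℝ (fun q : ℝ × ℝ => (Psi w d p q).1) q = _ := g3.fderiv
  rw [g4]
  simp
  ring

theorem Psi_d2 (w : ℝ → ℂ) (d : ℝ) (p q : ℝ × ℝ) (u : ℝ × ℝ) :
    fderiv ℝ (fun q : ℝ × ℝ => (Psi w d p q).2) q u = d * u.2 + u.1 * (p.2 - p.1) := by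
  have h1 : HasFDerivAt (fun q : ℝ × ℝ => p.1 + d * q.2) (d • ContinuousLinearMap.snd ℝ ℝ ℝ) q :=
    ((hasFDerivAt_snd (p := q)).const_mul d).const_add p.1
  have h2 : HasFDerivAt (fun q : ℝ × ℝ => p.1 + d * q.2 + q.1 * (p.2 - p.1))
      (d • ContinuousLinearMap.snd ℝ ℝ ℝ + (p.2 - p.1) • ContinuousLinearMap.fst ℝ ℝ ℝ) q :=
    h1.add ((hasFDerivAt_fst (p := q)).mul_const (p.2 - p.1))
  have g4 : fderiv ℝ (fun q : ℝ × ℝ => (Psi w d p q).2) q = _ := h2.fderiv
  rw [g4]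
  simp
  ring

theorem lin_indep2 {W W' : ℂ} (hW : W.re * W'.im - W.im * W'.re ≠ 0) {a b : ℝ}
    (e : a • W - b • W' = 0) : a = 0 ∧ b = 0 := by
  have e1 := congrArg Complex.re e
  have e2 := congrArg Complex.im e
  simp only [Complex.sub_re, Complex.sub_im, Complex.real_smul, Complex.mul_re, Complex.mul_im,
    Complex.ofReal_re, Complex.ofReal_im, Complex.zero_re, Complex.zero_im, zero_mul, sub_zero,
    add_zero] at e1 e2
  constructor
  · have h : a * (W.re * W'.im - W.im * W'.re) = 0 := by linear_combination W'.im * e1 - W'.re * e2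
    exact (mul_eq_zero.1 h).resolve_right hW
  · have h : b * (W.re * W'.im - W.im * W'.re) = 0 := by linear_combination W.im * e1 - W.re * e2
    exact (mul_eq_zero.1 h).resolve_right hW

theorem Psi_strip (hD : GD r w h d t S) {p : ℝ × ℝ} (hp : p ∈ S) : Strip t (Psi w d p) := by
  obtain ⟨h1, h2, h3, h4, -⟩ := (hD.mem p).1 hp
  have hr : 0 < p.2 - p.1 := by linarith
  have hd := hD.dpos
  have hw := hD.gk.smw
  refine ⟨hD.tpos, Psi_smooth hw d p, ?_, ?_, ?_, ?_, ?_, ?_⟩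
  · -- injective
    intro q hq q' hq' e
    obtain ⟨m1, m2, m3⟩ := Psi_mem hD hp hq
    obtain ⟨n1, n2, n3⟩ := Psi_mem hD hp hq'
    have e' : (w (p.1 + d * q.2) - w (p.1 + d * q.2 + q.1 * (p.2 - p.1)),
      p.1 + d * q.2 + q.1 * (p.2 - p.1)) = (w (p.1 + d * q'.2) - w (p.1 + d * q'.2 + q'.1 * (p.2 - p.1)),
      p.1 + d * q'.2 + q'.1 * (p.2 - p.1)) := e
    obtain ⟨e1, e2⟩ := Prod.mk.inj e'
    rw [e2] at e1
    have e3 : w (p.1 + d * q.2) = w (p.1 + d * q'.2) := sub_left_injective e1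
    have e4 : p.1 + d * q.2 = p.1 + d * q'.2 := by
      rcases hD.key hp m1 m3 n1 e3 with h5 | ⟨-, h5⟩
      · exact h5
      · exfalso
        rw [h5] at n3
        have := hD.snd_far hp hp
        linarith
    have e5 : q.2 = q'.2 := mul_left_cancel₀ hd.ne' (add_left_cancel e4)
    rw [e4] at e2
    have e6 : q.1 = q'.1 := mul_right_cancel₀ hr.ne' (add_left_cancel e2)
    exact Prod.ext e6 e5
  · -- immersion
    intro q hq
    obtain ⟨m1, m2, m3⟩ := Psi_mem hD hp hq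
    rw [injective_iff_map_eq_zero]
    intro u hu
    have hs := (Psi_smooth hw d p).differentiable (by simp) q
    have e1 : fderiv ℝ (fun q : ℝ × ℝ => (Psi w d p q).1) q u = 0 := by
      rw [fderiv.fst hs]
      show (fderiv ℝ (Psi w d p) q u).1 = 0
      rw [hu]
      rfl
    have e2 : fderiv ℝ (fun q : ℝ × ℝ => (Psi w d p q).2) q u = 0 := by
      rw [fderiv.snd hs]
      show (fderiv ℝ (Psi w d p) q u).2 = 0
      rw [hu]
      rfl
    rw [Psi_d1 hw] at e1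
    rw [Psi_d2] at e2
    rw [e2, zero_smul, sub_zero] at e1
    rcases smul_eq_zero.1 e1 with h5 | h5
    · have h6 : u.2 = 0 := (mul_eq_zero.1 h5).resolve_left hd.ne'
      rw [h6, mul_zero, zero_add] at e2
      have h7 : u.1 = 0 := (mul_eq_zero.1 e2).resolve_right hr.ne'
      exact Prod.ext h7 h6
    · exact absurd h5 (hD.imm m1)
  · intro y _
    show w (p.1 + d * y) - w (p.1 + d * y + 0 * (p.2 - p.1)) = 0
    rw [zero_mul, add_zero, sub_self]
  · show w (p.1 + d * 0) - w (p.1 + d * 0 + 1 * (p.2 - p.1)) = 0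
    rw [mul_zero, add_zero, one_mul, add_sub_cancel, h4, sub_self]
  · intro q hq e
    obtain ⟨m1, m2, m3⟩ := Psi_mem hD hp hq
    have e1 : w (p.1 + d * q.2) = w (p.1 + d * q.2 + q.1 * (p.2 - p.1)) := sub_eq_zero.1 e
    rcases hD.key hp m1 m3 m2 e1 with h5 | ⟨h5, h6⟩
    · left
      have : q.1 * (p.2 - p.1) = 0 := by linarith
      exact (mul_eq_zero.1 this).resolve_right hr.ne'
    · right
      have h7 : q.2 = 0 := by
        have : d * q.2 = 0 := by linarith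
        exact (mul_eq_zero.1 this).resolve_left hd.ne'
      have h8 : q.1 = 1 := by
        rw [h7, mul_zero, add_zero] at h6
        have : q.1 * (p.2 - p.1) = 1 * (p.2 - p.1) := by linarith
        exact mul_right_cancel₀ hr.ne' this
      exact Prod.ext h8 h7
  · rw [injective_iff_map_eq_zero]
    intro u hu
    rw [Psi_d1 hw] at hu
    simp only [mul_zero, add_zero, one_mul, add_sub_cancel] at hu
    obtain ⟨a1, a2⟩ := lin_indep2 (hD.trans h1 h2 h3.ne h4) hu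
    have h6 : u.2 = 0 := (mul_eq_zero.1 a1).resolve_left hd.ne'
    rw [h6, mul_zero, zero_add] at a2
    exact Prod.ext ((mul_eq_zero.1 a2).resolve_right hr.ne') h6

theorem Psi_disjoint (hD : GD r w h d t S) {p p' : ℝ × ℝ} (hp : p ∈ S) (hp' : p' ∈ S) (hne : p ≠ p') :
    Disjoint (Psi w d p '' Rec t) (Psi w d p' '' Rec t) := by
  rw [Set.disjoint_left]
  rintro _ ⟨q, hq, rfl⟩ ⟨q', hq', e⟩
  obtain ⟨m1, m2, m3⟩ := Psi_mem hD hp hq
  obtain ⟨n1, n2, n3⟩ := Psi_mem hD hp' hq'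
  have hd := hD.dpos
  have e' : (w (p'.1 + d * q'.2) - w (p'.1 + d * q'.2 + q'.1 * (p'.2 - p'.1)),
      p'.1 + d * q'.2 + q'.1 * (p'.2 - p'.1)) = (w (p.1 + d * q.2) - w (p.1 + d * q.2 + q.1 * (p.2 - p.1)),
      p.1 + d * q.2 + q.1 * (p.2 - p.1)) := e
  obtain ⟨e1, e2⟩ := Prod.mk.inj e'
  rw [e2] at e1
  have e3 : w (p.1 + d * q.2) = w (p'.1 + d * q'.2) := (sub_left_injective e1).symm
  rcases hD.key hp m1 m3 n1 e3 with h5 | ⟨-, h5⟩
  · rw [← h5] at n3
    have k1 := hD.sep' hp hp' hne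
    have k2 : |p.1 - p'.1| ≤ |p.1 + d * q.2 - p.1| + |p.1 + d * q.2 - p'.1| := by
      have := abs_sub_le p.1 (p.1 + d * q.2) p'.1
      rw [abs_sub_comm p.1 (p.1 + d * q.2)] at this
      exact this
    linarith
  · rw [h5] at n3
    have := hD.snd_far hp hp'
    linarith

/-- the list of strips -/
noncomputable def SLs (w : ℝ → ℂ) (d t : ℝ) (S : Finset (ℝ × ℝ)) : SL :=
  S.toList.map fun p => (t, Psi w d p)

theorem mem_SLs {x : ℝ × (ℝ × ℝ → ℂ × ℝ)} : x ∈ SLs w d t S ↔ ∃ p ∈ S, (t, Psi w d p) = x := by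
  unfold SLs
  rw [List.mem_map]
  simp only [Finset.mem_toList]

theorem SLs_conf (hD : GD r w h d t S) : Conf (SLs w d t S) := by
  refine ⟨?_, ?_⟩
  · intro x hx
    obtain ⟨p, hp, rfl⟩ := mem_SLs.1 hx
    exact Psi_strip hD hp
  · unfold SLs
    rw [List.pairwise_map]
    refine (Finset.nodup_toList S).imp_of_mem ?_
    intro p p' hp hp' hne
    exact Psi_disjoint hD (Finset.mem_toList.1 hp) (Finset.mem_toList.1 hp') hne

theorem Kn_SLs (hD : GD r w h d t S) {F : Equiv.Perm (ℂ × ℝ)}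
    (hF : ∀ l y : ℝ, F (w l, y) = (w l - w y, y)) :
    F '' (range fun l => (w l, hA d t S l)) = Kn (SLs w d t S) := by
  have hd := hD.dpos
  rw [← range_comp]
  ext x
  constructor
  · rintro ⟨l, rfl⟩
    show F (w l, hA d t S l) ∈ _
    rw [hF]
    by_cases hl : ∃ p ∈ S, |l - p.1| ≤ d
    · obtain ⟨p, hp, hlp⟩ := hl
      right
      refine mem_biUnion (mem_SLs.2 ⟨p, hp, rfl⟩) ?_
      have e1 : p.1 + d * ((l - p.1) / d) = l := by
        rw [mul_div_cancel₀ _ hd.ne']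
        ring
      have e2 : hA d t S l = p.1 + d * ((l - p.1) / d) + prf t ((l - p.1) / d) * (p.2 - p.1) := by
        rw [hA_near hD hp hlp, e1]
        ring
      refine ⟨(l - p.1) / d, ?_, ?_⟩
      · apply abs_le.1
        rw [abs_div, abs_of_pos hd, div_le_one hd]
        exact hlp
      · show (w (p.1 + d * ((l - p.1) / d)) -
          w (p.1 + d * ((l - p.1) / d) + prf t ((l - p.1) / d) * (p.2 - p.1)),
          p.1 + d * ((l - p.1) / d) + prf t ((l - p.1) / d) * (p.2 - p.1)) = _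
        rw [← e2, e1]
    · push Not at hl
      left
      have e : hA d t S l = l := hA_far hD fun p hp => by
        have := hl p hp
        linarith
      rw [e, sub_self]
      refine ⟨rfl, ?_⟩
      intro hB
      obtain ⟨x, hx, y, hy, hxy⟩ := mem_iUnion₂.1 hB
      obtain ⟨p, hp, rfl⟩ := mem_SLs.1 hx
      have h1 : p.1 + d * y + 0 * (p.2 - p.1) = l := congrArg Prod.snd hxy
      have h2 := hl p hp
      rw [← h1] at h2
      have h3 : |y| < 1 := abs_lt.2 hy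
      have h4 : p.1 + d * y + 0 * (p.2 - p.1) - p.1 = d * y := by ring
      rw [h4, abs_mul, abs_of_pos hd] at h2
      nlinarith
  · rintro (⟨hU, hB⟩ | hFg)
    · have hx : x = (0, x.2) := Prod.ext hU rfl
      refine ⟨x.2, ?_⟩
      show F (w x.2, hA d t S x.2) = x
      have e : hA d t S x.2 = x.2 := by
        apply hA_far hD
        intro p hp
        by_contra hlt
        push Not at hlt
        apply hB
        refine mem_biUnion (mem_SLs.2 ⟨p, hp, rfl⟩) ?_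
        refine ⟨(x.2 - p.1) / d, ?_, ?_⟩
        · apply abs_lt.1
          rw [abs_div, abs_of_pos hd, div_lt_one hd]
          linarith
        · have e1 : p.1 + d * ((x.2 - p.1) / d) = x.2 := by
            rw [mul_div_cancel₀ _ hd.ne']
            ring
          show (w (p.1 + d * ((x.2 - p.1) / d)) - w (p.1 + d * ((x.2 - p.1) / d) + 0 * (p.2 - p.1)),
            p.1 + d * ((x.2 - p.1) / d) + 0 * (p.2 - p.1)) = x
          rw [zero_mul, add_zero, sub_self, e1]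
          exact hx.symm
      rw [e, hF, sub_self]
      exact hx.symm
    · obtain ⟨x', hx', y, hy, hxy⟩ := mem_iUnion₂.1 hFg
      obtain ⟨p, hp, rfl⟩ := mem_SLs.1 hx'
      have hy' : |y| ≤ 1 := abs_le.2 hy
      have e0 : p.1 + d * y - p.1 = d * y := by ring
      have e1 : hA d t S (p.1 + d * y) = p.1 + d * y + prf t y * (p.2 - p.1) := by
        rw [hA_near hD hp, e0, mul_div_cancel_left₀ _ hd.ne']
        · ring
        · rw [e0, abs_mul, abs_of_pos hd]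
          nlinarith
      refine ⟨p.1 + d * y, ?_⟩
      show F (w (p.1 + d * y), hA d t S (p.1 + d * y)) = x
      rw [e1, hF, ← hxy]
      rfl

/-- **Block G**: a long knot is a knot with fingers. -/
theorem Glong_strips {K : Set (ℂ × ℝ)} (hK : LongK K) : ∃ L : SL, Conf L ∧ LEq K (Kn L) := by
  obtain ⟨r, w, h, F, hk, hF, hFK⟩ := exists_GK hK
  obtain ⟨d, t, S, hD⟩ := exists_GD hk
  obtain ⟨F', hF', hFK'⟩ := hD.iso
  obtain ⟨r', hr', hw⟩ := hk.sup
  obtain ⟨F'', hF'', hsh⟩ := exists_shear hk.smw hw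
  refine ⟨SLs w d t S, SLs_conf hD, ?_⟩
  rw [← Kn_SLs hD hsh, ← hFK', ← hFK]
  exact ((LEq.diff K hF).trans (LEq.diff _ hF')).trans (LEq.diff _ hF'')

end Pool.Agent.KNT
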