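import Pool.Agent.KNT.Defs
import Pool.Agent.ISO.Small
import Pool.Agent.RSG.ExM

/-!
# KNT/Dsp (difficulty 3): the other fingers are moved off finitely many circles

`A` finite, `ρ > 0` on `A`; circles `C_y = {(ρ y ex φ, h y)}`, `C` their union, a compact set disjoint from `U`.  `g` a curve with
`g x ∉ Sp L`.  We look for `F = id + χ v` with `v` small.

PROOF.  `Kc` := union of the cores `p.2 (x, 0)`, `0 ≤ x ≤ 1 + p.1`, `p ∈ L` (compact; `Kc ⊆ Sp L`; `0 < p.1` by `Strip.pos`).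
`G₀ := g '' [0, 1 + t] ∪ U` is closed, `Kc ∩ C` compact and disjoint from `G₀` (`C ∩ U = ∅` as `ρ y ≠ 0`).  Choose an open `N` with
`Kc ∩ C ⊆ N`, `closure N` compact and disjoint from `G₀`, and then a smooth `χ : ℂ × ℝ → ℝ` with compact support disjoint from `G₀` and
`χ = 1` on `N` (e.g. `exists_compact_between` twice, `exists_contDiff_tsupport_subset` /
`exists_contMDiff_one_nhds_of_subset_interior`, or a smooth Urysohn function).  `tsupport χ` is compact and disjoint from the closed set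
`U`, so `‖q.1‖ > r` on it for some `r > 0`.
`Kc \ N` is compact and disjoint from the closed set `C`: let `d > 0` be smaller than their distance.
For small `v` (`‖fderiv (χ v)‖ ≤ 1/2` and `‖χ v‖ < d`) `ISO.small_perm` gives the diffeomorphism `F = id + χ v`; `CD univ F`: the support
is contained in `tsupport χ` (`F.symm` is smooth by `small_perm`).  For `p ∈ Kc \ N` `F p ∉ C` (distance).  For `p ∈ Kc ∩ N`, `F p = p + v`, so we
need `v ∉ {C - Kc}`: for `y ∈ A`, `p ∈ L` the map `(φ, x) ↦ (ρ y ex φ, h y) - p.2 (x, 0)` from `ℝ × ℝ` to `ℂ × ℝ` is smooth, and its range has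
dense complement (`ContDiff.dense_compl_range_of_finrank_lt_finrank`; `finrank (ℂ × ℝ) = 3`); a finite (countable) union of these
ranges still has dense complement: use the Hausdorff dimension (`dimH_iUnion`, `ContDiff.dimH_range_le`, `dense_compl_of_dimH_lt_finrank`)
or Baire.  So a small `v` outside all of them exists.
-/

open scoped ContDiff Topology Manifold
open Set Filter
open Pool.Agent.RSG (ex)

namespace Pool.Agent.KNT

/-- cutoff function -/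
theorem Dsp_cut {S G₀ : Set (ℂ × ℝ)} (hS : IsCompact S) (hG : IsClosed G₀) (hd : Disjoint S G₀) :
    ∃ (χ : ℂ × ℝ → ℝ) (K N : Set (ℂ × ℝ)), ContDiff ℝ ∞ χ ∧ IsCompact K ∧ IsOpen N ∧ S ⊆ N ∧
      Disjoint K G₀ ∧ (∀ x, x ∉ K → χ x = 0) ∧ (∀ x ∈ N, χ x = 1) ∧ ∀ x, 0 ≤ χ x ∧ χ x ≤ 1 := by
  obtain ⟨K1, h1, h2, h3⟩ := exists_compact_between hS hG.isOpen_compl
    (fun x hx hx' => hd.le_bot ⟨hx, hx'⟩)
  obtain ⟨K2, h4, h5, h6⟩ := exists_compact_between h1 hG.isOpen_compl h3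
  obtain ⟨f, f1, f2, f3⟩ := exists_contMDiffMap_zero_one_of_isClosed (n := ⊤) 𝓘(ℝ, ℂ × ℝ)
    (s := (interior K2)ᶜ) (t := K1) isOpen_interior.isClosed_compl h1.isClosed
    (Set.disjoint_left.2 fun x hx hx' => hx (h5 hx'))
  refine ⟨f, K2, interior K1, f.contMDiff.contDiff, h4, isOpen_interior, h2,
    Set.disjoint_left.2 fun x hx hx' => h6 hx hx', ?_, ?_, fun x => f3 x⟩
  · intro x hx
    exact f1 (fun hx' => hx (interior_subset hx'))
  · intro x hx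
    exact f2 (interior_subset hx)

/-- the circles -/
def Dsp_C (A : Set ℝ) (ρ h : ℝ → ℝ) : Set (ℂ × ℝ) := ⋃ y ∈ A, Metric.sphere (0 : ℂ) (ρ y) ×ˢ {h y}

theorem Dsp_C_compact {A : Set ℝ} (hA : A.Finite) (ρ h : ℝ → ℝ) : IsCompact (Dsp_C A ρ h) :=
  hA.isCompact_biUnion fun _ _ => (isCompact_sphere _ _).prod isCompact_singleton

theorem Dsp_C_mem {A : Set ℝ} {ρ h : ℝ → ℝ} (hρ : ∀ y ∈ A, 0 < ρ y) {q : ℂ × ℝ} :
    q ∈ Dsp_C A ρ h ↔ ∃ y ∈ A, ∃ φ : ℝ, q = ((ρ y : ℂ) * ex φ, h y) := by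
  unfold Dsp_C
  rw [Set.mem_iUnion₂]
  constructor
  · rintro ⟨y, hy, h1, h2⟩
    refine ⟨y, hy, Complex.arg q.1 / (2 * Real.pi), ?_⟩
    have h3 : ‖q.1‖ = ρ y := by simpa using h1
    have h4 : q.2 = h y := h2
    have h5 := Pool.Agent.RSG.ex_arg (p := q.1)
    rw [h3] at h5
    exact Prod.ext h5.symm h4
  · rintro ⟨y, hy, φ, rfl⟩
    refine ⟨y, hy, ?_, rfl⟩
    rw [mem_sphere_zero_iff_norm]
    show ‖(ρ y : ℂ) * ex φ‖ = ρ y
    rw [norm_mul, Pool.Agent.RSG.ex_norm, mul_one, Complex.norm_real,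
      Real.norm_of_nonneg (hρ y hy).le]

/-- the cores -/
def Dsp_K (L : SL) : Set (ℂ × ℝ) := ⋃ p ∈ L, (fun x : ℝ => p.2 (x, 0)) '' Icc 0 (1 + p.1)

theorem Dsp_K_compact {L : SL} (hL : ∀ p ∈ L, Strip p.1 p.2) : IsCompact (Dsp_K L) := by
  have h1 : {p | p ∈ L}.Finite := List.finite_toSet L
  refine h1.isCompact_biUnion fun p hp => isCompact_Icc.image ?_
  exact (hL p hp).smooth.continuous.comp (by fun_prop)

theorem Dsp_bad {L : SL} (hL : ∀ p ∈ L, Strip p.1 p.2) {A : Set ℝ} (hA : A.Finite)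
    (ρ h : ℝ → ℝ) : Dense (⋃ y ∈ A, ⋃ p ∈ {p | p ∈ L},
      range fun q : ℝ × ℝ => (((ρ y : ℂ) * ex q.1, h y) : ℂ × ℝ) - p.2 (q.2, 0))ᶜ := by
  apply dense_compl_of_dimH_lt_finrank
  have h1 : {p | p ∈ L}.Finite := List.finite_toSet L
  have hfr : Module.finrank ℝ (ℂ × ℝ) = 3 := by
    rw [Module.finrank_prod, Complex.finrank_real_complex, Module.finrank_self]
  rw [hfr]
  refine lt_of_le_of_lt (b := 2) ?_ (by norm_num)
  rw [dimH_bUnion hA.countable]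
  refine iSup₂_le fun y _ => ?_
  rw [dimH_bUnion h1.countable]
  refine iSup₂_le fun p hp => ?_
  have hs : ContDiff ℝ 1 fun q : ℝ × ℝ => (((ρ y : ℂ) * ex q.1, h y) : ℂ × ℝ) - p.2 (q.2, 0) := by
    have e1 : ContDiff ℝ 1 fun q : ℝ × ℝ => ex q.1 :=
      (Pool.Agent.RSG.ex_smooth.of_le (by simp)).comp contDiff_fst
    have e2 : ContDiff ℝ 1 fun q : ℝ × ℝ => p.2 (q.2, 0) :=
      ((hL p hp).smooth.of_le (by simp)).comp (contDiff_snd.prodMk contDiff_const)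
    exact ((contDiff_const.mul e1).prodMk contDiff_const).sub e2
  have h2 := hs.dimH_range_le
  have h3 : Module.finrank ℝ (ℝ × ℝ) = 2 := by
    rw [Module.finrank_prod, Module.finrank_self]
  rw [h3] at h2
  exact_mod_cast h2

theorem Dsp_move {L : SL} (hL : ∀ p ∈ L, Strip p.1 p.2) {g : ℝ → ℂ × ℝ} {t : ℝ} (hg : Continuous g)
    (hgL : ∀ x ∈ Icc 0 (1 + t), g x ∉ Sp L) {A : Set ℝ} (hA : A.Finite) {ρ h : ℝ → ℝ} (hρ : ∀ y ∈ A, 0 < ρ y) :
    ∃ (F : Equiv.Perm (ℂ × ℝ)) (r : ℝ), CD univ F ∧ 0 < r ∧ (∀ q : ℂ × ℝ, ‖q.1‖ ≤ r → F q = q) ∧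
      (∀ x ∈ Icc 0 (1 + t), ∀ᶠ q in 𝓝 (g x), F q = q) ∧
      ∀ p ∈ L, ∀ x ∈ Icc 0 (1 + p.1), ∀ y ∈ A, ∀ φ : ℝ, F (p.2 (x, 0)) ≠ ((ρ y : ℂ) * ex φ, h y) := by
  have hKc := Dsp_K_compact hL
  have hCc := Dsp_C_compact hA ρ h
  have hU : IsClosed U := isClosed_eq continuous_fst continuous_const
  have hG₀ : IsClosed (g '' Icc 0 (1 + t) ∪ U) := (isCompact_Icc.image hg).isClosed.union hU
  have hd : Disjoint (Dsp_K L ∩ Dsp_C A ρ h) (g '' Icc 0 (1 + t) ∪ U) := by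
    rw [Set.disjoint_left]
    rintro q ⟨h1, h2⟩ (h3 | h3)
    · obtain ⟨x, hx, rfl⟩ := h3
      apply hgL x hx
      obtain ⟨p, hp, s, hs, he⟩ := Set.mem_iUnion₂.1 h1
      exact Set.mem_iUnion₂.2 ⟨p, hp, (s, 0), ⟨hs, by simp⟩, he⟩
    · obtain ⟨y, hy, φ, he⟩ := (Dsp_C_mem hρ).1 h2
      have h4 : q.1 = 0 := h3
      rw [he] at h4
      have h5 : (ρ y : ℂ) * ex φ = 0 := h4
      rcases mul_eq_zero.1 h5 with h6 | h6
      · exact (hρ y hy).ne' (by exact_mod_cast h6)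
      · exact Pool.Agent.RSG.ex_ne φ h6
  obtain ⟨χ, K, N, c1, c2, c3, c4, c5, c6, c7, c8⟩ := Dsp_cut (hKc.inter hCc) hG₀ hd
  -- the distance
  obtain ⟨d, hd0, hd1⟩ := (hKc.diff c3).exists_thickening_subset_open hCc.isClosed.isOpen_compl
    (fun q hq hq' => hq.2 (c4 ⟨hq.1, hq'⟩))
  -- bound of the derivative
  have hcs : HasCompactSupport χ := HasCompactSupport.intro c2 c6
  obtain ⟨M, hM⟩ := (hcs.fderiv (𝕜 := ℝ)).exists_bound_of_continuous
    (c1.continuous_fderiv (by simp))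
  have hM0 : 0 ≤ M := (norm_nonneg _).trans (hM 0)
  -- the small vector
  have hε : 0 < min d (1 / (2 * (M + 1))) := lt_min hd0 (by positivity)
  obtain ⟨v, hv1, hv2⟩ := (Dsp_bad hL hA ρ h).exists_dist_lt 0 hε
  rw [dist_zero_left] at hv2
  have hvd : ‖v‖ < d := lt_of_lt_of_le hv2 (min_le_left _ _)
  have hvM : ‖v‖ < 1 / (2 * (M + 1)) := lt_of_lt_of_le hv2 (min_le_right _ _)
  have hGs : ContDiff ℝ ∞ fun q => χ q • v := c1.smul contDiff_const
  have hGd : ∀ x, ‖fderiv ℝ (fun q => χ q • v) x‖ ≤ 1 / 2 := by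
    intro x
    have h1 : HasFDerivAt (fun q => χ q • v) ((fderiv ℝ χ x).smulRight v) x :=
      ((c1.differentiable (by simp)) x).hasFDerivAt.smul_const v
    rw [h1.fderiv, ContinuousLinearMap.norm_smulRight_apply]
    have h2 := hM x
    have h3 : ‖fderiv ℝ χ x‖ * ‖v‖ ≤ M * (1 / (2 * (M + 1))) :=
      mul_le_mul h2 hvM.le (norm_nonneg _) hM0
    refine h3.trans ?_
    rw [mul_one_div, div_le_div_iff₀ (by positivity) (by norm_num)]
    linarith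
  obtain ⟨F, F1, F2, F3⟩ := Pool.Agent.ISO.small_perm hGs hGd
  have hFK : ∀ q, q ∉ K → F q = q := by
    intro q hq
    rw [F3, c6 q hq, zero_smul, add_zero]
  -- the radius
  obtain ⟨r, hr0, hr1⟩ := c2.exists_forall_le' (f := fun q : ℂ × ℝ => ‖q.1‖) (a := 0)
    (by fun_prop) (by
      intro q hq
      rw [norm_pos_iff]
      intro h1
      exact c5.le_bot ⟨hq, Or.inr h1⟩)
  refine ⟨F, r / 2, ⟨F1, F2, K, c2, subset_univ _, hFK⟩, by positivity, ?_, ?_, ?_⟩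
  · intro q hq
    apply hFK
    intro hq'
    have h1 : r ≤ ‖q.1‖ := hr1 q hq'
    linarith
  · intro x hx
    have h1 : Kᶜ ∈ 𝓝 (g x) := c2.isClosed.isOpen_compl.mem_nhds
      (fun h1 => c5.le_bot ⟨h1, Or.inl ⟨x, hx, rfl⟩⟩)
    filter_upwards [h1] with q hq
    exact hFK q hq
  · intro p hp x hx y hy φ he
    have hmem : p.2 (x, 0) ∈ Dsp_K L := Set.mem_iUnion₂.2 ⟨p, hp, x, hx, rfl⟩
    by_cases hN : p.2 (x, 0) ∈ N
    · rw [F3, c7 _ hN, one_smul] at he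
      apply hv1
      refine Set.mem_iUnion₂.2 ⟨y, hy, Set.mem_iUnion₂.2 ⟨p, hp, (φ, x), ?_⟩⟩
      show (((ρ y : ℂ) * ex φ, h y) : ℂ × ℝ) - p.2 (x, 0) = v
      rw [← he]
      abel
    · have h1 : F (p.2 (x, 0)) ∈ Metric.thickening d (Dsp_K L \ N) := by
        rw [Metric.mem_thickening_iff]
        refine ⟨_, ⟨hmem, hN⟩, ?_⟩
        rw [F3, dist_eq_norm, add_sub_cancel_left, norm_smul, Real.norm_of_nonneg (c8 _).1]
        have h2 := mul_le_mul_of_nonneg_right (c8 (p.2 (x, 0))).2 (norm_nonneg v)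
        linarith
      exact hd1 h1 ((Dsp_C_mem hρ).2 ⟨y, hy, φ, he⟩)

end Pool.Agent.KNT
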