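import Pool.Agent.KNT.ProfI

/-!
# KNT/RepI: reparametrisation of a strip

`Rpm χ ζ Φ (x, y) = Φ (χ x, ζ y)`.

PROOFS.
* `strip_rep`: `χ` is strictly increasing on `[0, 1 + t']`, `χ 0 = 0`, `χ 1 = 1`, `χ (1 + t') ≤ 1 + t`; `ζ` is strictly
  increasing on `[-1, 1]`, `|ζ y| ≤ 1` there. So `Rec t'` is mapped injectively into `Rec t`.
  `off`: `(Φ (χ x, ζ y)).1 = 0` gives `χ x = 0`, i.e. `x = 0`, or `(χ x, ζ y) = (1, 0)`, i.e. `(x, y) = (1, 0)`.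
  `imm`, `trv`: chain rule, the derivative of `(x, y) ↦ (χ x, ζ y)` is `(u, v) ↦ (χ' x u, ζ' y v)`, bijective.
* `conf_rep`: the image of `Rec t'` is contained in `Φ '' Rec t`.
* `rep_LEq`. Let `Ψ = Rpm χ ζ Φ`. We have `Kn ((t', Ψ) :: L) = Zr Ψ L ∪ gr Ψ (prf t') = Zr Φ L ∪ gr Φ p` with
  `p y = χ (prf t' (ζ⁻¹ y))` if `y ∈ ζ '' [-1, 1]`, `p y = 0` otherwise. [`bas Ψ = {Φ (0, y) : y ∈ ζ '' (-1, 1)}`. The
  points `Φ (0, y)`, `|y| < 1`, `y ∉ ζ '' (-1, 1)`, are in `U \ bas Ψ` and in `gr Φ p`; `Bs L`, `Fg L` are the same.]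
  `p` is smooth: near `y = ζ z`, `|z| < 1`, it is `χ ∘ prf t' ∘ (local inverse of ζ)`; `p = 0` off the compact set
  `ζ '' [-1/8, 1/8]`. Let `r = max |ζ (1/8)| |ζ (-1/8)| < 1` (strict monotonicity, `|ζ (±1)| ≤ 1`), enlarged to a common
  `r < 1` with `1/8 ≤ r`. `p 0 = χ (1 + t'/2) > χ 1 = 1`. So `IsPrf t r p` and `IsPrf t r (prf t)`: `prof_LEq`, `Kn_cons`.
* `flip_LEq`: `Φ (x, -y)`: the sets are equal (`prf` is even).
-/

open scoped ContDiff Topology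
open Set Filter
open Pool.Agent.CSG (stp)
open Pool.Agent.RSG (ex)

namespace Pool.Agent.KNT

def Rpm (χ ζ : ℝ → ℝ) (Φ : ℝ × ℝ → ℂ × ℝ) : ℝ × ℝ → ℂ × ℝ := fun q => Φ (χ q.1, ζ q.2)

/-- hypotheses on a reparametrisation -/
structure IsRep (t t' : ℝ) (χ ζ : ℝ → ℝ) : Prop where
  smχ : ContDiff ℝ ∞ χ
  smζ : ContDiff ℝ ∞ ζ
  t'_pos : 0 < t'
  χ0 : χ 0 = 0
  χ1 : χ 1 = 1
  χd : ∀ x ∈ Icc 0 (1 + t'), 0 < deriv χ x
  χt : χ (1 + t') ≤ 1 + t
  ζ0 : ζ 0 = 0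
  ζd : ∀ y ∈ Icc (-1 : ℝ) 1, 0 < deriv ζ y
  ζb : ∀ y ∈ Icc (-1 : ℝ) 1, |ζ y| ≤ 1

theorem isRep_thin {t t' e : ℝ} (ht' : 0 < t') (ht : t' ≤ t) (he : 0 < e) (he1 : e ≤ 1) :
    IsRep t t' id (fun y => e * y) where
  smχ := contDiff_id
  smζ := contDiff_const.mul contDiff_id
  t'_pos := ht'
  χ0 := rfl
  χ1 := rfl
  χd x _ := by
    rw [deriv_id]
    exact one_pos
  χt := by
    simp only [id_eq]
    linarith
  ζ0 := mul_zero _
  ζd y _ := by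
    have h : HasDerivAt (fun y : ℝ => e * y) (e * 1) y := (hasDerivAt_id y).const_mul e
    rw [h.deriv, mul_one]
    exact he
  ζb y hy := by
    rw [abs_mul, abs_of_pos he]
    have h1 : |y| ≤ 1 := abs_le.2 ⟨hy.1, hy.2⟩
    calc e * |y| ≤ 1 * 1 := mul_le_mul he1 h1 (abs_nonneg y) zero_le_one
      _ = 1 := one_mul 1

section RepIaux

variable {t t' : ℝ} {χ ζ : ℝ → ℝ}

theorem RepI_χmono (h : IsRep t t' χ ζ) : StrictMonoOn χ (Icc 0 (1 + t')) :=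
  strictMonoOn_of_deriv_pos (convex_Icc _ _) h.smχ.continuous.continuousOn
    (fun x hx => h.χd x (interior_subset hx))

theorem RepI_ζmono (h : IsRep t t' χ ζ) : StrictMonoOn ζ (Icc (-1) 1) :=
  strictMonoOn_of_deriv_pos (convex_Icc _ _) h.smζ.continuous.continuousOn
    (fun x hx => h.ζd x (interior_subset hx))

theorem RepI_χmem (h : IsRep t t' χ ζ) {x : ℝ} (hx : x ∈ Icc 0 (1 + t')) :
    χ x ∈ Icc 0 (1 + t) := by
  have ht' := h.t'_pos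
  have h0 : (0 : ℝ) ∈ Icc 0 (1 + t') := ⟨le_rfl, by linarith⟩
  have h1 : 1 + t' ∈ Icc 0 (1 + t') := ⟨by linarith, le_rfl⟩
  have hm := (RepI_χmono h).monotoneOn
  refine ⟨?_, ?_⟩
  · rw [← h.χ0]
    exact hm h0 hx hx.1
  · exact (hm hx h1 hx.2).trans h.χt

theorem RepI_ζmem (h : IsRep t t' χ ζ) {y : ℝ} (hy : y ∈ Icc (-1 : ℝ) 1) :
    ζ y ∈ Icc (-1 : ℝ) 1 := by
  have := abs_le.1 (h.ζb y hy)
  exact ⟨this.1, this.2⟩

theorem RepI_ζmem' (h : IsRep t t' χ ζ) {y : ℝ} (hy : y ∈ Ioo (-1 : ℝ) 1) :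
    ζ y ∈ Ioo (-1 : ℝ) 1 := by
  have hm := RepI_ζmono h
  have a1 : (-1 : ℝ) ∈ Icc (-1 : ℝ) 1 := ⟨le_rfl, by norm_num⟩
  have a2 : (1 : ℝ) ∈ Icc (-1 : ℝ) 1 := ⟨by norm_num, le_rfl⟩
  have hy' : y ∈ Icc (-1 : ℝ) 1 := ⟨hy.1.le, hy.2.le⟩
  have h1 := hm a1 hy' hy.1
  have h2 := hm hy' a2 hy.2
  have h3 := (RepI_ζmem h a1).1
  have h4 := (RepI_ζmem h a2).2
  exact ⟨by linarith, by linarith⟩

theorem RepI_fd (h : IsRep t t' χ ζ) (q : ℝ × ℝ) :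
    HasFDerivAt (fun q : ℝ × ℝ => (χ q.1, ζ q.2))
      (((deriv χ q.1) • ContinuousLinearMap.fst ℝ ℝ ℝ).prod
        ((deriv ζ q.2) • ContinuousLinearMap.snd ℝ ℝ ℝ)) q := by
  have h1 : HasDerivAt χ (deriv χ q.1) q.1 :=
    ((h.smχ.differentiable (by simp)) q.1).hasDerivAt
  have h2 : HasDerivAt ζ (deriv ζ q.2) q.2 :=
    ((h.smζ.differentiable (by simp)) q.2).hasDerivAt
  exact (h1.comp_hasFDerivAt q hasFDerivAt_fst).prodMk (h2.comp_hasFDerivAt q hasFDerivAt_snd)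

theorem RepI_inj (h : IsRep t t' χ ζ) {q : ℝ × ℝ} (hq : q ∈ Rec t') :
    Function.Injective (((deriv χ q.1) • ContinuousLinearMap.fst ℝ ℝ ℝ).prod
        ((deriv ζ q.2) • ContinuousLinearMap.snd ℝ ℝ ℝ)) := by
  intro u v huv
  have h1 := congrArg Prod.fst huv
  have h2 := congrArg Prod.snd huv
  have h3 : deriv χ q.1 * u.1 = deriv χ q.1 * v.1 := h1
  have h4 : deriv ζ q.2 * u.2 = deriv ζ q.2 * v.2 := h2
  exact Prod.ext (mul_left_cancel₀ (h.χd _ hq.1).ne' h3) (mul_left_cancel₀ (h.ζd _ hq.2).ne' h4)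

theorem RepI_smooth (h : IsRep t t' χ ζ) :
    ContDiff ℝ ∞ (fun q : ℝ × ℝ => (χ q.1, ζ q.2)) :=
  (h.smχ.comp contDiff_fst).prodMk (h.smζ.comp contDiff_snd)

theorem RepI_mem (h : IsRep t t' χ ζ) {q : ℝ × ℝ} (hq : q ∈ Rec t') :
    (χ q.1, ζ q.2) ∈ Rec t := ⟨RepI_χmem h hq.1, RepI_ζmem h hq.2⟩

end RepIaux

theorem strip_rep {t t' : ℝ} {χ ζ : ℝ → ℝ} (h : IsRep t t' χ ζ) {Φ : ℝ × ℝ → ℂ × ℝ} (hΦ : Strip t Φ) :
    Strip t' (Rpm χ ζ Φ) ∧ Rpm χ ζ Φ '' Rec t' ⊆ Φ '' Rec t := by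
  have ht' := h.t'_pos
  have h10 : ((1 : ℝ), (0 : ℝ)) ∈ Rec t' :=
    ⟨⟨zero_le_one, by simp only; linarith⟩, ⟨by norm_num, by norm_num⟩⟩
  refine ⟨?_, ?_⟩
  · refine ⟨ht', hΦ.smooth.comp (RepI_smooth h), ?_, ?_, ?_, ?_, ?_, ?_⟩
    · intro q hq q' hq' he
      have h1 := hΦ.inj (RepI_mem h hq) (RepI_mem h hq') he
      have h2 : χ q.1 = χ q'.1 := congrArg Prod.fst h1
      have h3 : ζ q.2 = ζ q'.2 := congrArg Prod.snd h1
      exact Prod.ext ((RepI_χmono h).injOn hq.1 hq'.1 h2) ((RepI_ζmono h).injOn hq.2 hq'.2 h3)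
    · intro q hq
      have h1 : HasFDerivAt Φ (fderiv ℝ Φ (χ q.1, ζ q.2)) (χ q.1, ζ q.2) :=
        ((hΦ.smooth.differentiable (by simp)) _).hasFDerivAt
      have h2 := HasFDerivAt.comp q h1 (RepI_fd h q)
      have h3 : fderiv ℝ (Rpm χ ζ Φ) q = (fderiv ℝ Φ (χ q.1, ζ q.2)).comp
          (((deriv χ q.1) • ContinuousLinearMap.fst ℝ ℝ ℝ).prod
            ((deriv ζ q.2) • ContinuousLinearMap.snd ℝ ℝ ℝ)) := h2.fderiv
      rw [h3]
      exact (hΦ.imm _ (RepI_mem h hq)).comp (RepI_inj h hq)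
    · intro y hy
      have hy' := abs_le.1 hy
      change (Φ (χ 0, ζ y)).1 = 0
      rw [h.χ0]
      exact hΦ.foot _ (h.ζb y ⟨hy'.1, hy'.2⟩)
    · change (Φ (χ 1, ζ 0)).1 = 0
      rw [h.χ1, h.ζ0]
      exact hΦ.tip
    · intro q hq h0
      rcases hΦ.off _ (RepI_mem h hq) h0 with h1 | h1
      · left
        have h2 : χ q.1 = χ 0 := by
          rw [h.χ0]
          exact h1
        exact (RepI_χmono h).injOn hq.1 ⟨le_rfl, by linarith⟩ h2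
      · right
        have h2 : χ q.1 = χ 1 := by
          rw [h.χ1]
          exact congrArg Prod.fst h1
        have h3 : ζ q.2 = ζ 0 := by
          rw [h.ζ0]
          exact congrArg Prod.snd h1
        exact Prod.ext ((RepI_χmono h).injOn hq.1 h10.1 h2) ((RepI_ζmono h).injOn hq.2 h10.2 h3)
    · have he : ((χ (1, 0).1, ζ (1, 0).2) : ℝ × ℝ) = (1, 0) := by
        simp only [h.χ1, h.ζ0]
      have h1 : HasFDerivAt (fun q : ℝ × ℝ => (Φ q).1) (fderiv ℝ (fun q : ℝ × ℝ => (Φ q).1) (1, 0))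
          (χ (1, 0).1, ζ (1, 0).2) := by
        rw [he]
        have hs : ContDiff ℝ ∞ (fun q : ℝ × ℝ => (Φ q).1) := contDiff_fst.comp hΦ.smooth
        exact ((hs.differentiable (by simp)) _).hasFDerivAt
      have h2 := HasFDerivAt.comp (1, 0) h1 (RepI_fd h (1, 0))
      have h3 : fderiv ℝ (fun q : ℝ × ℝ => (Rpm χ ζ Φ q).1) (1, 0) =
          (fderiv ℝ (fun q : ℝ × ℝ => (Φ q).1) (1, 0)).comp
          (((deriv χ ((1 : ℝ), (0 : ℝ)).1) • ContinuousLinearMap.fst ℝ ℝ ℝ).prod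
            ((deriv ζ ((1 : ℝ), (0 : ℝ)).2) • ContinuousLinearMap.snd ℝ ℝ ℝ)) := h2.fderiv
      rw [h3]
      exact hΦ.trv.comp (RepI_inj h h10)
  · rintro _ ⟨q, hq, rfl⟩
    exact ⟨_, RepI_mem h hq, rfl⟩

theorem conf_rep {t t' : ℝ} {χ ζ : ℝ → ℝ} (h : IsRep t t' χ ζ) {Φ : ℝ × ℝ → ℂ × ℝ} {L : SL}
    (hC : Conf ((t, Φ) :: L)) : Conf ((t', Rpm χ ζ Φ) :: L) := by
  obtain ⟨h1, h2, h3⟩ := conf_cons.1 hC
  obtain ⟨h4, h5⟩ := strip_rep h h1
  exact conf_cons.2 ⟨h4, h2, h3.mono_left h5⟩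

theorem RepI_Bs_sub {L : SL} (hL : Conf L) : Bs L ⊆ Sp L := by
  intro q hq
  simp only [Bs, Sp, mem_iUnion] at hq ⊢
  obtain ⟨p, hp, y, hy, rfl⟩ := hq
  refine ⟨p, hp, (0, y), ⟨⟨le_rfl, ?_⟩, ⟨hy.1.le, hy.2.le⟩⟩, rfl⟩
  have := (hL.1 p hp).pos
  simp only
  linarith

/-- The profile of the reparametrised finger. -/
theorem RepI_prf {t t' : ℝ} {χ ζ : ℝ → ℝ} (h : IsRep t t' χ ζ) :
    ∃ (r : ℝ) (p : ℝ → ℝ), r < 1 ∧ 1 / 8 ≤ r ∧ IsPrf t r p ∧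
      (∀ z ∈ Icc (-1 : ℝ) 1, p (ζ z) = χ (prf t' z)) ∧
      (∀ y, y ∉ ζ '' Icc (-1 : ℝ) 1 → p y = 0) := by
  classical
  have ht' := h.t'_pos
  have hm := RepI_ζmono h
  have hχm := RepI_χmono h
  have a1 : (-1 : ℝ) ∈ Icc (-1 : ℝ) 1 := ⟨le_rfl, by norm_num⟩
  have a2 : (1 : ℝ) ∈ Icc (-1 : ℝ) 1 := ⟨by norm_num, le_rfl⟩
  have a3 : (1 / 8 : ℝ) ∈ Icc (-1 : ℝ) 1 := ⟨by norm_num, by norm_num⟩
  have a4 : (-(1 / 8) : ℝ) ∈ Icc (-1 : ℝ) 1 := ⟨by norm_num, by norm_num⟩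
  have a0 : (0 : ℝ) ∈ Icc (-1 : ℝ) 1 := ⟨by norm_num, by norm_num⟩
  obtain ⟨inv, hinv⟩ : ∃ inv : ℝ → ℝ, inv = Function.invFunOn ζ (Icc (-1 : ℝ) 1) := ⟨_, rfl⟩
  have hinv' : ∀ z ∈ Icc (-1 : ℝ) 1, inv (ζ z) = z := by
    intro z hz
    rw [hinv]
    exact hm.injOn.leftInvOn_invFunOn hz
  obtain ⟨p, hp⟩ : ∃ p : ℝ → ℝ, p = fun y =>
    if y ∈ ζ '' Icc (-1 : ℝ) 1 then χ (prf t' (inv y)) else 0 := ⟨_, rfl⟩
  have p1 : ∀ z ∈ Icc (-1 : ℝ) 1, p (ζ z) = χ (prf t' z) := by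
    intro z hz
    rw [hp]
    simp only
    rw [if_pos ⟨z, hz, rfl⟩, hinv' z hz]
  have p2 : ∀ y, y ∉ ζ '' Icc (-1 : ℝ) 1 → p y = 0 := by
    intro y hy
    rw [hp]
    simp only
    rw [if_neg hy]
  have p3 : ∀ y, y ∉ ζ '' Icc (-(1 / 8) : ℝ) (1 / 8) → p y = 0 := by
    intro y hy
    by_cases hy' : y ∈ ζ '' Icc (-1 : ℝ) 1
    · obtain ⟨z, hz, rfl⟩ := hy'
      rw [p1 z hz, prf_zero, h.χ0]
      by_contra hlt
      push Not at hlt
      have := abs_lt.1 hlt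
      exact hy ⟨z, ⟨this.1.le, this.2.le⟩, rfl⟩
    · exact p2 y hy'
  have ζ1 := hm a0 a3 (by norm_num)
  have ζ2 := hm a4 a0 (by norm_num)
  have ζ3 := hm a3 a2 (by norm_num)
  have ζ4 := hm a1 a4 (by norm_num)
  rw [h.ζ0] at ζ1 ζ2
  have ζ5 := (RepI_ζmem h a2).2
  have ζ6 := (RepI_ζmem h a1).1
  obtain ⟨r, hr⟩ : ∃ r : ℝ, r = max (1 / 8) (max (ζ (1 / 8)) (-ζ (-(1 / 8)))) := ⟨_, rfl⟩
  have r1 : r < 1 := by
    rw [hr]
    refine max_lt (by norm_num) (max_lt (by linarith) (by linarith))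
  have r2 : 1 / 8 ≤ r := by
    rw [hr]
    exact le_max_left _ _
  have r3 : ζ (1 / 8) ≤ r := by
    rw [hr]
    exact (le_max_left _ _).trans (le_max_right _ _)
  have r4 : -ζ (-(1 / 8)) ≤ r := by
    rw [hr]
    exact (le_max_right _ _).trans (le_max_right _ _)
  refine ⟨r, p, r1, r2, ⟨?_, ?_, ?_, ?_⟩, p1, p2⟩
  · rw [contDiff_iff_contDiffAt]
    intro y₀
    by_cases hy : y₀ ∈ ζ '' Icc (-(1 / 8) : ℝ) (1 / 8)
    · obtain ⟨z₀, hz₀, rfl⟩ := hy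
      have hz1 : z₀ ∈ Ioo (-1 : ℝ) 1 := ⟨by linarith [hz₀.1], by linarith [hz₀.2]⟩
      have hd : deriv ζ z₀ ≠ 0 := (h.ζd z₀ ⟨hz1.1.le, hz1.2.le⟩).ne'
      have hs : ContDiffAt ℝ ∞ ζ z₀ := h.smζ.contDiffAt
      have hf : HasFDerivAt ζ ((ContinuousLinearEquiv.unitsEquivAut ℝ (Units.mk0 _ hd) :
          ℝ ≃L[ℝ] ℝ) : ℝ →L[ℝ] ℝ) z₀ := by
        have h1 : HasDerivAt ζ (deriv ζ z₀) z₀ :=
          ((h.smζ.differentiable (by simp)) z₀).hasDerivAt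
        have he : ((ContinuousLinearEquiv.unitsEquivAut ℝ (Units.mk0 _ hd) :
            ℝ ≃L[ℝ] ℝ) : ℝ →L[ℝ] ℝ) = ContinuousLinearMap.toSpanSingleton ℝ (deriv ζ z₀) := by
          ext
          simp
        rw [he]
        exact h1.hasFDerivAt
      have hg := hs.to_localInverse hf (by simp)
      have hgc : ContinuousAt (hs.localInverse hf (by simp)) (ζ z₀) := hg.continuousAt
      have hg0 : hs.localInverse hf (by simp) (ζ z₀) = z₀ := hs.localInverse_apply_image hf (by simp)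
      have hev : ∀ᶠ y in 𝓝 (ζ z₀), ζ (hs.localInverse hf (by simp) y) = y :=
        (hs.hasStrictFDerivAt' hf (by simp)).eventually_right_inverse
      have hev2 : ∀ᶠ y in 𝓝 (ζ z₀), hs.localInverse hf (by simp) y ∈ Ioo (-1 : ℝ) 1 := by
        apply hgc.eventually
        rw [hg0]
        exact Ioo_mem_nhds hz1.1 hz1.2
      have hcomp : ContDiffAt ℝ ∞ (fun y => χ (prf t' (hs.localInverse hf (by simp) y))) (ζ z₀) :=
        (h.smχ.comp (prf_smooth t')).contDiffAt.comp (ζ z₀) hg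
      refine hcomp.congr_of_eventuallyEq ?_
      filter_upwards [hev, hev2] with y e1 e2
      have e3 := p1 _ ⟨e2.1.le, e2.2.le⟩
      rw [e1] at e3
      exact e3
    · have hc : IsClosed (ζ '' Icc (-(1 / 8) : ℝ) (1 / 8)) :=
        (isCompact_Icc.image h.smζ.continuous).isClosed
      have hev : p =ᶠ[𝓝 y₀] fun _ => 0 := by
        filter_upwards [hc.isOpen_compl.mem_nhds hy] with y hy'
        exact p3 y hy'
      exact contDiffAt_const.congr_of_eventuallyEq hev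
  · intro y _
    by_cases hy' : y ∈ ζ '' Icc (-1 : ℝ) 1
    · obtain ⟨z, hz, rfl⟩ := hy'
      rw [p1 z hz]
      exact RepI_χmem h (prf_mem ht' z)
    · rw [p2 y hy']
      have h1 := (RepI_χmem h (show (1 + t') ∈ Icc 0 (1 + t') from ⟨by linarith, le_rfl⟩))
      exact ⟨le_rfl, h1.1.trans h1.2⟩
  · intro y hy
    by_cases hy' : y ∈ ζ '' Icc (-1 : ℝ) 1
    · obtain ⟨z, hz, rfl⟩ := hy'
      rw [p1 z hz, prf_zero, h.χ0]
      by_contra hlt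
      push Not at hlt
      have h4 := abs_lt.1 hlt
      have h5 := hm hz a3 h4.2
      have h6 := hm a4 hz h4.1
      have h7 : |ζ z| < r := abs_lt.2 ⟨by linarith, by linarith⟩
      linarith
    · exact p2 y hy'
  · have h1 := p1 0 a0
    rw [h.ζ0, prf_at_zero] at h1
    rw [h1]
    have h2 : χ 1 < χ (1 + t' / 2) :=
      hχm ⟨zero_le_one, by linarith⟩ ⟨by linarith, by linarith⟩ (by linarith)
    rw [h.χ1] at h2
    exact h2

theorem rep_LEq {t t' : ℝ} {χ ζ : ℝ → ℝ} (h : IsRep t t' χ ζ) {Φ : ℝ × ℝ → ℂ × ℝ} {L : SL}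
    (hC : Conf ((t, Φ) :: L)) : LEq (Kn ((t, Φ) :: L)) (Kn ((t', Rpm χ ζ Φ) :: L)) := by
  obtain ⟨r, p, r1, r2, hp, p1, p2⟩ := RepI_prf h
  obtain ⟨hS, hL, hD⟩ := conf_cons.1 hC
  have ht := hS.pos
  have hpr : IsPrf t r (prf t) := by
    have h0 := isPrf_prf ht
    exact ⟨h0.smooth, h0.range, fun y hy => prf_zero (r2.trans hy), h0.one⟩
  have key : Kn ((t', Rpm χ ζ Φ) :: L) = Zr Φ L ∪ gr Φ p := by
    rw [Kn_cons]
    have hbas : bas (Rpm χ ζ Φ) = (fun y : ℝ => Φ (0, y)) '' (ζ '' Ioo (-1) 1) := by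
      unfold bas Rpm
      rw [image_image]
      simp only [h.χ0]
    have hbas' : bas (Rpm χ ζ Φ) ⊆ bas Φ := by
      rw [hbas]
      rintro _ ⟨_, ⟨y, hy, rfl⟩, rfl⟩
      exact ⟨ζ y, RepI_ζmem' h hy, rfl⟩
    have hgr : ∀ z ∈ Icc (-1 : ℝ) 1, Rpm χ ζ Φ (prf t' z, z) = Φ (p (ζ z), ζ z) := by
      intro z hz
      rw [p1 z hz]
      rfl
    apply Subset.antisymm
    · rintro q (hq | ⟨z, hz, rfl⟩)
      · rcases hq with ⟨hU, hB⟩ | hF
        · by_cases hqb : q ∈ bas Φ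
          · obtain ⟨y, hy, rfl⟩ := hqb
            right
            have hy2 : y ∉ ζ '' Ioo (-1) 1 := by
              intro hy3
              apply hB
              left
              rw [hbas]
              exact ⟨y, hy3, rfl⟩
            have hpy : p y = 0 := by
              by_cases hy3 : y ∈ ζ '' Icc (-1 : ℝ) 1
              · obtain ⟨z, hz, rfl⟩ := hy3
                rw [p1 z hz, prf_zero, h.χ0]
                by_contra hlt
                push Not at hlt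
                have h4 := abs_lt.1 hlt
                exact hy2 ⟨z, ⟨by linarith [h4.1], by linarith [h4.2]⟩, rfl⟩
              · exact p2 y hy3
            refine ⟨y, ⟨hy.1.le, hy.2.le⟩, ?_⟩
            simp only [hpy]
          · left
            left
            refine ⟨hU, ?_⟩
            rintro (h1 | h1)
            · exact hqb h1
            · exact hB (Or.inr h1)
        · exact Or.inl (Or.inr hF)
      · right
        simp only [hgr z hz]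
        exact ⟨ζ z, RepI_ζmem h hz, rfl⟩
    · rintro q (hq | ⟨y, hy, rfl⟩)
      · left
        rcases hq with ⟨hU, hB⟩ | hF
        · left
          refine ⟨hU, ?_⟩
          rintro (h1 | h1)
          · exact hB (Or.inl (hbas' h1))
          · exact hB (Or.inr h1)
        · exact Or.inr hF
      · by_cases hy3 : y ∈ ζ '' Icc (-1 : ℝ) 1
        · obtain ⟨z, hz, rfl⟩ := hy3
          right
          refine ⟨z, hz, ?_⟩
          simp only [hgr z hz]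
        · left
          left
          simp only [p2 y hy3]
          have hmem : ((0 : ℝ), y) ∈ Rec t := ⟨⟨le_rfl, by simp only; linarith⟩, hy⟩
          refine ⟨hS.foot y (abs_le.2 ⟨hy.1, hy.2⟩), ?_⟩
          rintro (h1 | h1)
          · rw [hbas] at h1
            obtain ⟨_, ⟨z, hz, rfl⟩, he⟩ := h1
            have hz' : z ∈ Icc (-1 : ℝ) 1 := ⟨hz.1.le, hz.2.le⟩
            have h2 := hS.inj ⟨⟨le_rfl, by simp only; linarith⟩, RepI_ζmem h hz'⟩ hmem he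
            exact hy3 ⟨z, hz', congrArg Prod.snd h2⟩
          · exact Set.disjoint_left.1 hD ⟨_, hmem, rfl⟩ (RepI_Bs_sub hL h1)
  rw [key, Kn_cons]
  exact prof_LEq hC r1 hpr hp

theorem thin_LEq {t t' e : ℝ} (ht' : 0 < t') (ht : t' ≤ t) (he : 0 < e) (he1 : e ≤ 1)
    {Φ : ℝ × ℝ → ℂ × ℝ} {L : SL} (hC : Conf ((t, Φ) :: L)) :
    Conf ((t', thin e Φ) :: L) ∧ LEq (Kn ((t, Φ) :: L)) (Kn ((t', thin e Φ) :: L)) := by
  have h := isRep_thin ht' ht he he1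
  exact ⟨conf_rep h hC, rep_LEq h hC⟩

theorem RepI_flipL (t : ℝ) : (fun q : ℝ × ℝ => (q.1, -q.2)) '' Rec t = Rec t := by
  apply Subset.antisymm
  · rintro _ ⟨q, hq, rfl⟩
    exact ⟨hq.1, ⟨by linarith [hq.2.2], by linarith [hq.2.1]⟩⟩
  · intro q hq
    exact ⟨(q.1, -q.2), ⟨hq.1, ⟨by simp only; linarith [hq.2.2], by simp only; linarith [hq.2.1]⟩⟩,
      by simp⟩

theorem flip_LEq {t : ℝ} {Φ : ℝ × ℝ → ℂ × ℝ} {L : SL} (hC : Conf ((t, Φ) :: L)) :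
    Conf ((t, fun q => Φ (q.1, -q.2)) :: L) ∧
      Kn ((t, fun q => Φ (q.1, -q.2)) :: L) = Kn ((t, Φ) :: L) := by
  obtain ⟨hS, hL, hD⟩ := conf_cons.1 hC
  have hmem : ∀ q ∈ Rec t, ((q.1, -q.2) : ℝ × ℝ) ∈ Rec t := by
    intro q hq
    exact ⟨hq.1, ⟨by linarith [hq.2.2], by linarith [hq.2.1]⟩⟩
  obtain ⟨N, hN⟩ : ∃ N : ℝ × ℝ →L[ℝ] ℝ × ℝ, ∀ q, N q = (q.1, -q.2) :=
    ⟨(ContinuousLinearMap.fst ℝ ℝ ℝ).prod (-ContinuousLinearMap.snd ℝ ℝ ℝ), fun q => rfl⟩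
  have hNe : (fun q : ℝ × ℝ => ((q.1, -q.2) : ℝ × ℝ)) = N := by
    funext q
    exact (hN q).symm
  have hNi : Function.Injective N := by
    intro u v huv
    rw [hN, hN] at huv
    obtain ⟨h1, h2⟩ := Prod.mk.inj huv
    exact Prod.ext h1 (neg_injective h2)
  have hfun : (fun q : ℝ × ℝ => Φ (q.1, -q.2)) = Φ ∘ N := by
    funext q
    simp only [Function.comp, hN]
  refine ⟨conf_cons.2 ⟨?_, hL, ?_⟩, ?_⟩
  · refine ⟨hS.pos, ?_, ?_, ?_, ?_, ?_, ?_, ?_⟩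
    · rw [hfun]
      exact hS.smooth.comp N.contDiff
    · intro q hq q' hq' he
      obtain ⟨h2, h3⟩ := Prod.mk.inj (hS.inj (hmem q hq) (hmem q' hq') he)
      exact Prod.ext h2 (neg_injective h3)
    · intro q hq
      have h1 : HasFDerivAt Φ (fderiv ℝ Φ (N q)) (N q) :=
        ((hS.smooth.differentiable (by simp)) _).hasFDerivAt
      have h2 := HasFDerivAt.comp q h1 N.hasFDerivAt
      have h3 : Function.Injective (fderiv ℝ Φ (N q)) := by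
        rw [hN]
        exact hS.imm _ (hmem q hq)
      rw [hfun, h2.fderiv]
      exact h3.comp hNi
    · intro y hy
      simp only
      exact hS.foot _ (by rwa [abs_neg])
    · simp only [neg_zero]
      exact hS.tip
    · intro q hq h0
      rcases hS.off _ (hmem q hq) h0 with h1 | h1
      · exact Or.inl h1
      · right
        obtain ⟨h2, h3⟩ := Prod.mk.inj h1
        exact Prod.ext h2 (neg_eq_zero.1 h3)
    · have h1 : HasFDerivAt (fun q : ℝ × ℝ => (Φ q).1) (fderiv ℝ (fun q : ℝ × ℝ => (Φ q).1) (1, 0))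
          (N (1, 0)) := by
        rw [hN]
        simp only [neg_zero]
        have hs : ContDiff ℝ ∞ (fun q : ℝ × ℝ => (Φ q).1) := contDiff_fst.comp hS.smooth
        exact ((hs.differentiable (by simp)) _).hasFDerivAt
      have h2 := HasFDerivAt.comp (1, 0) h1 N.hasFDerivAt
      have h3 : (fun q : ℝ × ℝ => (Φ (q.1, -q.2)).1) = (fun q : ℝ × ℝ => (Φ q).1) ∘ N := by
        funext q
        simp only [Function.comp, hN]
      rw [h3, h2.fderiv]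
      exact hS.trv.comp hNi
  · rw [← Function.comp_def Φ (fun q : ℝ × ℝ => (q.1, -q.2)), image_comp, RepI_flipL]
    exact hD
  · rw [Kn_cons, Kn_cons]
    have hb : bas (fun q : ℝ × ℝ => Φ (q.1, -q.2)) = bas Φ := by
      apply Subset.antisymm
      · rintro _ ⟨y, hy, rfl⟩
        exact ⟨-y, ⟨by linarith [hy.2], by linarith [hy.1]⟩, rfl⟩
      · rintro _ ⟨y, hy, rfl⟩
        refine ⟨-y, ⟨by linarith [hy.2], by linarith [hy.1]⟩, ?_⟩
        simp only [neg_neg]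
    have hg : gr (fun q : ℝ × ℝ => Φ (q.1, -q.2)) (prf t) = gr Φ (prf t) := by
      apply Subset.antisymm
      · rintro _ ⟨y, hy, rfl⟩
        refine ⟨-y, ⟨by linarith [hy.2], by linarith [hy.1]⟩, ?_⟩
        simp only [prf_neg]
      · rintro _ ⟨y, hy, rfl⟩
        refine ⟨-y, ⟨by linarith [hy.2], by linarith [hy.1]⟩, ?_⟩
        simp only [prf_neg, neg_neg]
    rw [hg]
    unfold Zr
    rw [hb]

end Pool.Agent.KNT
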