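import Pool.Agent.KNT.CoreS

/-!
# KNT/StrF: isotopy of a thin strip (the other fingers are fixed)

PROOF. `strips_of_core` (with `Λ = Sp L`, closed by `Sp_compact`) gives `e₀`; let `0 < e ≤ e₀`. By `thin_LEq` (`t' = t`)
`Kn ((t, Φ 0) :: L)` is equivalent to `Kn ((t, thin e (Φ 0)) :: L)`. For `l ∈ [0, 1]`: `Conf ((t, thin e (Φ l)) :: L)`
(`conf_cons`), and `bas (thin e (Φ l)) = bas (thin e (Φ 0))` (`foot`, `e |y| ≤ 1`), so
`Zr (thin e (Φ l)) L = Zr (thin e (Φ 0)) L =: Z`. Apply `arc_LEq` with `r = 1/2` and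
`k s y = thin e (Φ s) (prf t y, y) = Φ s (prf t y, e y)`:
* `hend`: for `1/2 ≤ |y|` `prf t y = 0`, `foot`.
* `hkZ`: by `Zr_meet` `(prf t y, y)` would be `(0, ±1)` (impossible, `|y| ≤ 1/2`) or `(1, 0)` (impossible,
  `prf t 0 = 1 + t/2`).
* `himm`: derivative `fderiv ℝ (thin e (Φ s)) (prf t y, y) (prf' , 1) ≠ 0`. `hinj`: `Strip.inj`.
`Z ∪ k s '' [-1, 1] = Kn ((t, thin e (Φ s)) :: L)` by `Kn_cons`.
-/

open scoped ContDiff Topology
open Set Filter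
open Pool.Agent.CSG (stp)
open Pool.Agent.RSG (ex)

namespace Pool.Agent.KNT

theorem StrF_foot {Λ : Set (ℂ × ℝ)} {t : ℝ} {Φ : ℝ → ℝ × ℝ → ℂ × ℝ} (h : CoreFam Λ t Φ) {e : ℝ}
    (he : 0 < e) (he1 : e ≤ 1) {l : ℝ} (hl : l ∈ Icc (0 : ℝ) 1) {y : ℝ} (hy : |y| ≤ 1) :
    thin e (Φ l) (0, y) = thin e (Φ 0) (0, y) := by
  refine h.foot l hl (e * y) ?_
  rw [abs_mul, abs_of_pos he]
  nlinarith [abs_nonneg y]

theorem StrF_Zr {Λ : Set (ℂ × ℝ)} {t : ℝ} {Φ : ℝ → ℝ × ℝ → ℂ × ℝ} (L : SL) (h : CoreFam Λ t Φ) {e : ℝ}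
    (he : 0 < e) (he1 : e ≤ 1) {l : ℝ} (hl : l ∈ Icc (0 : ℝ) 1) :
    Zr (thin e (Φ l)) L = Zr (thin e (Φ 0)) L := by
  have hb : bas (thin e (Φ l)) = bas (thin e (Φ 0)) := by
    unfold bas
    refine image_congr fun y hy => ?_
    exact StrF_foot h he he1 hl (abs_le.mpr ⟨hy.1.le, hy.2.le⟩)
  unfold Zr
  rw [hb]

theorem strip_fam {t : ℝ} {Φ : ℝ → ℝ × ℝ → ℂ × ℝ} {L : SL} (hC : Conf ((t, Φ 0) :: L))
    (h : CoreFam (Sp L) t Φ) : ∃ e₀ : ℝ, 0 < e₀ ∧ e₀ ≤ 1 ∧ ∀ e : ℝ, 0 < e → e ≤ e₀ →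
      Conf ((t, thin e (Φ 1)) :: L) ∧ LEq (Kn ((t, Φ 0) :: L)) (Kn ((t, thin e (Φ 1)) :: L)) := by
  have hL : Conf L := (conf_cons.1 hC).2.1
  have ht : 0 < t := h.pos
  obtain ⟨e₀, he₀, he₁, hs⟩ := strips_of_core h (Sp_compact hL).isClosed
  refine ⟨e₀, he₀, he₁, fun e he hee => ?_⟩
  have he1 : e ≤ 1 := hee.trans he₁
  have hcf : ∀ l ∈ Icc (0 : ℝ) 1, Conf ((t, thin e (Φ l)) :: L) := fun l hl =>
    conf_cons.2 ⟨(hs e he hee l hl).1, hL, (hs e he hee l hl).2⟩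
  have h0 : (0 : ℝ) ∈ Icc (0 : ℝ) 1 := ⟨le_rfl, zero_le_one⟩
  have h1 : (1 : ℝ) ∈ Icc (0 : ℝ) 1 := ⟨zero_le_one, le_rfl⟩
  refine ⟨hcf 1 h1, (thin_LEq ht le_rfl he he1 hC).2.trans ?_⟩
  rw [Kn_cons, Kn_cons, StrF_Zr L h he he1 h1]
  have hmem : ∀ y : ℝ, |y| ≤ 1 → (prf t y, y) ∈ Rec t := fun y hy =>
    ⟨prf_mem ht y, abs_le.mp hy⟩
  have hsm : ContDiff ℝ ∞ fun p : ℝ × ℝ => thin e (Φ p.1) (prf t p.2, p.2) := by
    have a1 : ContDiff ℝ ∞ fun p : ℝ × ℝ => (p.1, (prf t p.2, e * p.2)) :=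
      contDiff_fst.prodMk (((prf_smooth t).comp contDiff_snd).prodMk
        (contDiff_const.mul contDiff_snd))
    exact h.sm.comp a1
  refine arc_LEq (Z := Zr (thin e (Φ 0)) L) (Zr_closed (hcf 0 h0))
    (k := fun s y => thin e (Φ s) (prf t y, y)) (r := 1 / 2) (by norm_num) (by norm_num) hsm
    ?_ ?_ ?_ ?_
  · intro s hs' y hy hy2
    show thin e (Φ s) (prf t y, y) = thin e (Φ 0) (prf t y, y)
    rw [prf_zero (by linarith)]
    exact StrF_foot h he he1 hs' (abs_le.mpr hy)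
  · intro s hs' y hy hz
    rw [← StrF_Zr L h he he1 hs'] at hz
    rcases Zr_meet (hcf s hs') (hmem y (by linarith)) hz with hq | hq | hq
    · have : y = 1 := congrArg Prod.snd hq
      rw [this, abs_one] at hy
      norm_num at hy
    · have : y = -1 := congrArg Prod.snd hq
      rw [this, abs_neg, abs_one] at hy
      norm_num at hy
    · have e1 : y = 0 := congrArg Prod.snd hq
      have e2 : prf t y = 1 := congrArg Prod.fst hq
      rw [e1, prf_at_zero] at e2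
      linarith
  · intro s hs' y hy hd
    have hS := (hs e he hee s hs').1
    have a1 : HasDerivAt (fun y : ℝ => (prf t y, y)) (deriv (prf t) y, (1 : ℝ)) y :=
      (((prf_smooth t).differentiable (by simp) y).hasDerivAt).prodMk (hasDerivAt_id y)
    have a2 : HasFDerivAt (thin e (Φ s)) (fderiv ℝ (thin e (Φ s)) (prf t y, y)) (prf t y, y) :=
      (hS.smooth.differentiable (by simp) _).hasFDerivAt
    have a3 : HasDerivAt (fun y : ℝ => thin e (Φ s) (prf t y, y))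
        (fderiv ℝ (thin e (Φ s)) (prf t y, y) (deriv (prf t) y, (1 : ℝ))) y :=
      HasFDerivAt.comp_hasDerivAt (f := fun y : ℝ => (prf t y, y)) y a2 a1
    have a4 : deriv (fun y : ℝ => thin e (Φ s) (prf t y, y)) y = 0 := hd
    rw [a3.deriv] at a4
    have a5 := hS.imm _ (hmem y (abs_le.mpr hy)) (a4.trans (map_zero _).symm)
    have a6 : (1 : ℝ) = 0 := congrArg Prod.snd a5
    exact one_ne_zero a6
  · intro s hs' y hy y' hy' he'
    have hS := (hs e he hee s hs').1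
    have a1 := hS.inj (hmem y (abs_le.mpr hy)) (hmem y' (abs_le.mpr hy')) he'
    exact congrArg Prod.snd a1

end Pool.Agent.KNT
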