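import Pool.Agent.KNT.EngI
import Pool.Agent.KNT.Bgn
import Pool.Agent.KNT.CNI
import Pool.Agent.KNT.Dmn
import Pool.Agent.KNT.EFin
import Pool.Agent.KNF.Fin
import Pool.Agent.KNT.GE

/-!
# KNT/BlkI: the final theorems of the blocks B - G (each one imported from its block)
-/

open scoped ContDiff Topology
open Set Filter
open Pool.Agent.CSG (stp)
open Pool.Agent.RSG (ex)

namespace Pool.Agent.KNT

/-- Block B (helper95). -/
theorem exists_gen {ρ h : ℝ → ℝ} (hρ : ContDiff ℝ ∞ ρ) (hh : ContDiff ℝ ∞ h) {e : ℝ} (he : 0 < e) :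
    ∃ v : Fin 3 → ℝ × ℝ, (∀ i, ‖v i‖ < e) ∧ ∀ a b : ℝ,
      Gen a b (fun x => ρ x + ((v 0).1 + (v 1).1 * x + (v 2).1 * x ^ 2))
        (fun x => h x + ((v 0).2 + (v 1).2 * x + (v 2).2 * x ^ 2)) := by
  exact Bexists_gen hρ hh he

/-- Block B (helper95): finitely many double pairs. -/
theorem dbl_finite {ρ h : ℝ → ℝ} (hρ : ContDiff ℝ ∞ ρ) (hh : ContDiff ℝ ∞ h) {a b : ℝ} (hg : Gen a b ρ h) :
    {p : ℝ × ℝ | p.1 ∈ Icc a b ∧ p.2 ∈ Icc a b ∧ p.1 ≠ p.2 ∧ (ρ p.1, h p.1) = (ρ p.2, h p.2)}.Finite := by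
  exact Bdbl_finite hρ hh hg

/-- Block C (helper93): it is enough to treat cores in normal form with generic shadow. -/
theorem core_normal {u : ℕ}
    (H : ∀ (c R θ₀ θ₁ δ t : ℝ) (ρ θ h : ℝ → ℝ), NCore c R θ₀ θ₁ δ t ρ θ h → Gen δ (1 - δ) ρ h →
      InjOn (cor ρ θ h) (Icc 0 (1 + t)) → HG u t (cor ρ θ h)) (t : ℝ) (g : ℝ → ℂ × ℝ) : HG u t g := by
  exact Ccore_normal H t g

/-- Block D (helper99): the angle may be changed arbitrarily. -/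
theorem cross_HG {u : ℕ} {c R θ₀ θ₁ δ t : ℝ} {ρ θ θ' h : ℝ → ℝ} (hn : NCore c R θ₀ θ₁ δ t ρ θ h)
    (hg : Gen δ (1 - δ) ρ h) (hθ' : ContDiff ℝ ∞ θ')
    (h0 : ∀ x ≤ δ / 2, θ' x = θ x) (h1 : ∀ x, 1 - δ / 2 ≤ x → θ' x = θ x)
    (hi : InjOn (cor ρ θ h) (Icc 0 (1 + t))) (hi' : InjOn (cor ρ θ' h) (Icc 0 (1 + t)))
    (H : HG u t (cor ρ θ' h)) : HG u t (cor ρ θ h) := by
  exact cross_HG' hn hg hθ' h0 h1 hi hi' H

/-- Block E (helper99, helper90): straightening to the semicircle. -/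
theorem straight_HG {u : ℕ} {c R θ₀ θ₁ δ t : ℝ} {ρ θ h : ℝ → ℝ} (hn : NCore c R θ₀ θ₁ δ t ρ θ h)
    (hg : Gen δ (1 - δ) ρ h) (hi : InjOn (cor ρ θ h) (Icc 0 (1 + t)))
    (H : HG u t (gsph c R θ₀)) : HG u t (cor ρ θ h) := by
  exact straight_HG' hn hg hi H

/-- Block F (helper47): a finger along the semicircle can be removed. -/
theorem final_HG {u : ℕ} (IH : ∀ L : SL, L.length = u → Conf L → LEq (Kn L) U) {c R t : ℝ} (θ₀ : ℝ)
    (hR : R ≠ 0) (ht : 0 < t) : HG u t (gsph c R θ₀) := by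
  exact KNF.Ffinal_HG IH θ₀ hR ht

/-- Block G (helper4, helper16): a long knot is a knot with fingers. -/
theorem long_strips {K : Set (ℂ × ℝ)} (hK : LongK K) : ∃ L : SL, Conf L ∧ LEq K (Kn L) := by
  exact Glong_strips hK

end Pool.Agent.KNT
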