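import Pool.Agent.KNT.CQs

/-!
# KNT/CFd: definitions for the normal form near the feet

`PreN`: `ρ` is in normal form near the feet, `θ` and `h` are not.
`ct δ`: cutoff function, `1` for `x ≤ δ` and for `x ≥ 1 - δ`, `0` on `[2 δ, 1 - 2 δ]`; `ct0`, `ct1` its two parts.
`mixf δ f φ ψ l`: `f` is replaced by `φ` near `0` and by `ψ` near `1` (for `l = 1`).
-/

open scoped ContDiff Topology
open Set Filter
open Pool.Agent.CSG (stp)
open Pool.Agent.RSG (ex)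

namespace Pool.Agent.KNT

structure PreN (c R ε t : ℝ) (ρ θ h : ℝ → ℝ) : Prop where
  smρ : ContDiff ℝ ∞ ρ
  smθ : ContDiff ℝ ∞ θ
  smh : ContDiff ℝ ∞ h
  R_ne : R ≠ 0
  ε_pos : 0 < ε
  t_pos : 0 < t
  t_le : t ≤ ε
  near0 : ∀ x, |x| ≤ ε → ρ x = |R| * qs x
  near1 : ∀ x, |x - 1| ≤ ε → ρ x = |R| * qs x
  pos : ∀ x ∈ Ioo (0 : ℝ) 1, 0 < ρ x
  h0 : h 0 = c - R
  h1 : h 1 = c + R

noncomputable def ct0 (δ x : ℝ) : ℝ := 1 - stp δ (2 * δ) x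
noncomputable def ct1 (δ x : ℝ) : ℝ := stp (1 - 2 * δ) (1 - δ) x

noncomputable def mixf (δ : ℝ) (f φ ψ : ℝ → ℝ) (l x : ℝ) : ℝ :=
  f x + l * (ct0 δ x * (φ x - f x) + ct1 δ x * (ψ x - f x))

/-- the angle of the family -/
noncomputable def thF (δ : ℝ) (θ : ℝ → ℝ) (l : ℝ) : ℝ → ℝ := mixf δ θ (fun _ => θ 0) (fun _ => θ 1) l
/-- the height of the family -/
noncomputable def hF (c R δ : ℝ) (h : ℝ → ℝ) (l : ℝ) : ℝ → ℝ :=
  mixf δ h (fun x => c + R * ps x) (fun x => c + R * ps x) l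
/-- the radius at the end -/
noncomputable def rhF (R δ : ℝ) (ρ : ℝ → ℝ) : ℝ → ℝ :=
  mixf δ ρ (fun x => |R| * qs x) (fun x => |R| * qs x) 1

end Pool.Agent.KNT
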