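import Pool.Agent.KNT.CFd

/-!
# KNT/CFe: estimates for the cutoffs

PROOFS.
* `Cstp_deriv_bound`: `stp a b x = st ((x - a)/(b - a))`, `st = Real.smoothTransition`, the derivative of `st` is continuous and
  vanishes off `[0, 1]`, so it is bounded by some `B`; `deriv (stp a b) x = st' (..) / (b - a)`.
* `Cmix_est`: on `|x| ≤ 2 δ` (`δ ≤ 1/8`) `ct1 δ x = 0`, `mixf δ f φ ψ l x = f x + l ct0 (φ x - f x)`. `φ 0 = f 0`, so
  `|φ x - f x| ≤ M |x| ≤ 2 M δ` on `[-1, 2]` (Lipschitz, `M` a bound of the derivatives of `f`, `φ` on `[-1, 2]`), the derivative is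
  `f' + l (ct0' (φ - f) + ct0 (φ' - f'))`, bounded by `M + (B/δ) (2 M δ) + 2 M`. Same near `1`.
  `Cmix_mid`: both cutoffs vanish on `[2 δ, 1 - 2 δ]`. `Cmix_foot`: `ct0 = 1`, `ct1 = 0` for `x ≤ δ`; `ct0 = 0`, `ct1 = 1` for
  `x ≥ 1 - δ`.
-/

open scoped ContDiff Topology
open Set Filter
open Pool.Agent.CSG (stp)
open Pool.Agent.RSG (ex)

namespace Pool.Agent.KNT

/-- the derivative of the smooth transition vanishes off the unit interval -/
theorem CFe_st0 {x : ℝ} (hx : x ∉ Icc (0 : ℝ) 1) : deriv Real.smoothTransition x = 0 := by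
  rcases lt_or_ge x 0 with h | h
  · have h1 : Real.smoothTransition =ᶠ[𝓝 x] fun _ => (0 : ℝ) := by
      filter_upwards [Iio_mem_nhds h] with y hy
      exact Real.smoothTransition.zero_of_nonpos (le_of_lt hy)
    rw [h1.deriv_eq]
    simp
  · have h1 : 1 < x := by
      by_contra hh
      exact hx ⟨h, not_lt.1 hh⟩
    have h2 : Real.smoothTransition =ᶠ[𝓝 x] fun _ => (1 : ℝ) := by
      filter_upwards [Ioi_mem_nhds h1] with y hy
      exact Real.smoothTransition.one_of_one_le (le_of_lt hy)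
    rw [h2.deriv_eq]
    simp

theorem CFe_hstp (a b x : ℝ) : HasDerivAt (stp a b)
    (deriv Real.smoothTransition ((x - a) / (b - a)) * (1 / (b - a))) x := by
  have e1 : HasDerivAt (fun x : ℝ => (x - a) / (b - a)) (1 / (b - a)) x :=
    ((hasDerivAt_id x).sub_const a).div_const (b - a)
  have e2 : HasDerivAt Real.smoothTransition (deriv Real.smoothTransition ((x - a) / (b - a)))
      ((x - a) / (b - a)) :=
    ((Real.smoothTransition.contDiff (n := 1)).differentiable (by norm_num) _).hasDerivAt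
  exact e2.comp x e1

theorem Cstp_deriv_bound : ∃ B : ℝ, 0 < B ∧ ∀ a b x : ℝ, a < b → |deriv (stp a b) x| ≤ B / (b - a) := by
  have hc : Continuous (deriv Real.smoothTransition) :=
    (Real.smoothTransition.contDiff (n := 1)).continuous_deriv le_rfl
  obtain ⟨B, hB⟩ := (isCompact_Icc (a := (0 : ℝ)) (b := 1)).exists_bound_of_continuousOn hc.continuousOn
  have hall : ∀ x, |deriv Real.smoothTransition x| ≤ max B 0 + 1 := by
    intro x
    by_cases hx : x ∈ Icc (0 : ℝ) 1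
    · have h1 := hB x hx
      rw [Real.norm_eq_abs] at h1
      have h2 := le_max_left B 0
      linarith
    · rw [CFe_st0 hx, abs_zero]
      have h2 := le_max_right B 0
      linarith
  have hpos : 0 < max B 0 + 1 := by
    have h2 := le_max_right B 0
    linarith
  refine ⟨max B 0 + 1, hpos, ?_⟩
  intro a b x hab
  have hb : 0 < b - a := by linarith
  rw [(CFe_hstp a b x).deriv, abs_mul, abs_of_pos (one_div_pos.2 hb), div_eq_mul_one_div (max B 0 + 1)]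
  exact mul_le_mul_of_nonneg_right (hall _) (one_div_pos.2 hb).le

theorem CFe_ct0 (δ : ℝ) : ContDiff ℝ ∞ (ct0 δ) := by
  unfold ct0
  exact contDiff_const.sub (Pool.Agent.CSG.stp_smooth _ _)

theorem CFe_ct1 (δ : ℝ) : ContDiff ℝ ∞ (ct1 δ) := by
  unfold ct1
  exact Pool.Agent.CSG.stp_smooth _ _

theorem CFe_ct0_one {δ x : ℝ} (h0 : 0 < δ) (hx : x ≤ δ) : ct0 δ x = 1 := by
  unfold ct0
  rw [Pool.Agent.CSG.stp_zero (by linarith) hx, sub_zero]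

theorem CFe_ct0_zero {δ x : ℝ} (h0 : 0 < δ) (hx : 2 * δ ≤ x) : ct0 δ x = 0 := by
  unfold ct0
  rw [Pool.Agent.CSG.stp_one (by linarith) hx, sub_self]

theorem CFe_ct1_zero {δ x : ℝ} (h0 : 0 < δ) (hx : x ≤ 1 - 2 * δ) : ct1 δ x = 0 := by
  unfold ct1
  exact Pool.Agent.CSG.stp_zero (by linarith) hx

theorem CFe_ct1_one {δ x : ℝ} (h0 : 0 < δ) (hx : 1 - δ ≤ x) : ct1 δ x = 1 := by
  unfold ct1
  exact Pool.Agent.CSG.stp_one (by linarith) hx

theorem Cmix_smooth {δ : ℝ} {f φ ψ : ℝ → ℝ} (hf : ContDiff ℝ ∞ f) (hφ : ContDiff ℝ ∞ φ)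
    (hψ : ContDiff ℝ ∞ ψ) : ContDiff ℝ ∞ fun p : ℝ × ℝ => mixf δ f φ ψ p.1 p.2 := by
  unfold mixf
  have h0 := (CFe_ct0 δ).comp (contDiff_snd (𝕜 := ℝ) (E := ℝ) (F := ℝ))
  have h1 := (CFe_ct1 δ).comp (contDiff_snd (𝕜 := ℝ) (E := ℝ) (F := ℝ))
  have hf' := hf.comp (contDiff_snd (𝕜 := ℝ) (E := ℝ) (F := ℝ))
  have hφ' := hφ.comp (contDiff_snd (𝕜 := ℝ) (E := ℝ) (F := ℝ))
  have hψ' := hψ.comp (contDiff_snd (𝕜 := ℝ) (E := ℝ) (F := ℝ))
  exact hf'.add (contDiff_fst.mul ((h0.mul (hφ'.sub hf')).add (h1.mul (hψ'.sub hf'))))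

theorem Cmix_zero (δ : ℝ) (f φ ψ : ℝ → ℝ) : mixf δ f φ ψ 0 = f := by
  funext x
  unfold mixf
  ring

theorem Cmix_mid {δ : ℝ} (h0 : 0 < δ) (h1 : δ ≤ 1 / 8) (f φ ψ : ℝ → ℝ) (l : ℝ) {x : ℝ}
    (hx : x ∈ Icc (2 * δ) (1 - 2 * δ)) : mixf δ f φ ψ l x = f x := by
  have _ := h1
  unfold mixf
  rw [CFe_ct0_zero h0 hx.1, CFe_ct1_zero h0 hx.2]
  ring

theorem Cmix_foot0 {δ : ℝ} (h0 : 0 < δ) (h1 : δ ≤ 1 / 8) (f φ ψ : ℝ → ℝ) {x : ℝ} (hx : x ≤ δ) :
    mixf δ f φ ψ 1 x = φ x := by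
  unfold mixf
  rw [CFe_ct0_one h0 hx, CFe_ct1_zero h0 (by linarith)]
  ring

theorem Cmix_foot1 {δ : ℝ} (h0 : 0 < δ) (h1 : δ ≤ 1 / 8) (f φ ψ : ℝ → ℝ) {x : ℝ} (hx : 1 - δ ≤ x) :
    mixf δ f φ ψ 1 x = ψ x := by
  unfold mixf
  rw [CFe_ct0_zero h0 (by linarith), CFe_ct1_one h0 hx]
  ring

theorem Cmix_at0 {δ : ℝ} (h0 : 0 < δ) (h1 : δ ≤ 1 / 8) {f φ ψ : ℝ → ℝ} (h : φ 0 = f 0) (l : ℝ) :
    mixf δ f φ ψ l 0 = f 0 := by
  unfold mixf
  rw [CFe_ct1_zero h0 (by linarith), h]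
  ring

theorem Cmix_at1 {δ : ℝ} (h0 : 0 < δ) (h1 : δ ≤ 1 / 8) {f φ ψ : ℝ → ℝ} (h : ψ 1 = f 1) (l : ℝ) :
    mixf δ f φ ψ l 1 = f 1 := by
  unfold mixf
  rw [CFe_ct0_zero h0 (by linarith), h]
  ring

/-- bound of a smooth function's derivative on `[-1, 2]` -/
theorem CFe_bd {f : ℝ → ℝ} (hf : ContDiff ℝ ∞ f) :
    ∃ M : ℝ, 0 < M ∧ ∀ x ∈ Icc (-1 : ℝ) 2, |deriv f x| ≤ M := by
  have hc : Continuous (deriv f) := hf.continuous_deriv (by simp)
  obtain ⟨B, hB⟩ := (isCompact_Icc (a := (-1 : ℝ)) (b := 2)).exists_bound_of_continuousOn hc.continuousOn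
  have h2 := le_max_right B 0
  have h3 := le_max_left B 0
  refine ⟨max B 0 + 1, by linarith, ?_⟩
  intro x hx
  have h1 := hB x hx
  rw [Real.norm_eq_abs] at h1
  linarith

theorem CFe_lip {f : ℝ → ℝ} (hf : ContDiff ℝ ∞ f) {M : ℝ} (hM : ∀ x ∈ Icc (-1 : ℝ) 2, |deriv f x| ≤ M)
    {x y : ℝ} (hx : x ∈ Icc (-1 : ℝ) 2) (hy : y ∈ Icc (-1 : ℝ) 2) : |f x - f y| ≤ M * |x - y| := by
  have h1 := Convex.norm_image_sub_le_of_norm_deriv_le (f := f) (C := M) (s := Icc (-1 : ℝ) 2)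
    (fun z _ => (hf.differentiable (by simp)) z) (fun z hz => by
      rw [Real.norm_eq_abs]
      exact hM z hz) (convex_Icc _ _) hy hx
  rw [Real.norm_eq_abs, Real.norm_eq_abs] at h1
  exact h1

theorem CFe_hmix {δ : ℝ} {f φ ψ : ℝ → ℝ} (hf : ContDiff ℝ ∞ f) (hφ : ContDiff ℝ ∞ φ)
    (hψ : ContDiff ℝ ∞ ψ) (l x : ℝ) : HasDerivAt (mixf δ f φ ψ l)
      (deriv f x + l * ((deriv (ct0 δ) x * (φ x - f x) + ct0 δ x * (deriv φ x - deriv f x)) +
        (deriv (ct1 δ) x * (ψ x - f x) + ct1 δ x * (deriv ψ x - deriv f x)))) x := by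
  have d0 := ((CFe_ct0 δ).differentiable (by simp) x).hasDerivAt
  have d1 := ((CFe_ct1 δ).differentiable (by simp) x).hasDerivAt
  have df := (hf.differentiable (by simp) x).hasDerivAt
  have dφ := (hφ.differentiable (by simp) x).hasDerivAt
  have dψ := (hψ.differentiable (by simp) x).hasDerivAt
  have h := df.add (((d0.mul (dφ.sub df)).add (d1.mul (dψ.sub df))).const_mul l)
  unfold mixf
  exact h

theorem CFe_num {M B δ l c c' u w f' φ' : ℝ} (hM : 0 < M) (hB : 0 < B) (hδ : 0 < δ)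
    (hl : l ∈ Icc (0 : ℝ) 1) (hc0 : 0 ≤ c) (hc1 : c ≤ 1) (hc' : |c'| ≤ B / δ) (hu : |u| ≤ 2 * M * δ)
    (hw : |w| ≤ 4 * M * δ) (hf' : |f'| ≤ M) (hφ' : |φ'| ≤ M) :
    |u + l * (c * w)| ≤ (6 * M + 4 * M * B) * δ ∧
      |f' + l * (c' * w + c * (φ' - f'))| ≤ 6 * M + 4 * M * B := by
  have hl0 := hl.1
  have hl1 := hl.2
  have a1 : |l * (c * w)| ≤ 4 * M * δ := by
    rw [abs_mul, abs_mul, abs_of_nonneg hl0, abs_of_nonneg hc0]
    have h1 : c * |w| ≤ 1 * |w| := mul_le_mul_of_nonneg_right hc1 (abs_nonneg _)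
    have h2 : l * (c * |w|) ≤ 1 * (c * |w|) :=
      mul_le_mul_of_nonneg_right hl1 (mul_nonneg hc0 (abs_nonneg _))
    linarith
  have a2 : |c' * w| ≤ 4 * M * B := by
    rw [abs_mul]
    have h1 : |c'| * |w| ≤ (B / δ) * (4 * M * δ) :=
      mul_le_mul hc' hw (abs_nonneg _) (by positivity)
    have h2 : (B / δ) * (4 * M * δ) = 4 * M * B := by
      field_simp
    linarith
  have a3 : |c * (φ' - f')| ≤ 2 * M := by
    rw [abs_mul, abs_of_nonneg hc0]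
    have h1 : |φ' - f'| ≤ |φ'| + |f'| := abs_sub _ _
    have h2 : c * |φ' - f'| ≤ 1 * |φ' - f'| := mul_le_mul_of_nonneg_right hc1 (abs_nonneg _)
    linarith
  have a4 : |l * (c' * w + c * (φ' - f'))| ≤ 4 * M * B + 2 * M := by
    rw [abs_mul, abs_of_nonneg hl0]
    have h1 : |c' * w + c * (φ' - f')| ≤ |c' * w| + |c * (φ' - f')| := abs_add_le _ _
    have h2 : l * |c' * w + c * (φ' - f')| ≤ 1 * |c' * w + c * (φ' - f')| :=
      mul_le_mul_of_nonneg_right hl1 (abs_nonneg _)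
    linarith
  constructor
  · have h1 : |u + l * (c * w)| ≤ |u| + |l * (c * w)| := abs_add_le _ _
    have h2 : 0 ≤ 4 * M * B * δ := by positivity
    nlinarith
  · have h1 : |f' + l * (c' * w + c * (φ' - f'))| ≤ |f'| + |l * (c' * w + c * (φ' - f'))| :=
      abs_add_le _ _
    linarith

theorem CFe_ct0' {B : ℝ} (hB : ∀ a b x : ℝ, a < b → |deriv (stp a b) x| ≤ B / (b - a)) {δ : ℝ}
    (h0 : 0 < δ) (x : ℝ) : |deriv (ct0 δ) x| ≤ B / δ := by
  have h1 : deriv (ct0 δ) x = -deriv (stp δ (2 * δ)) x := by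
    unfold ct0
    exact deriv_const_sub (1 : ℝ)
  rw [h1, abs_neg]
  have h2 := hB δ (2 * δ) x (by linarith)
  have h3 : 2 * δ - δ = δ := by ring
  rw [h3] at h2
  exact h2

theorem CFe_ct1' {B : ℝ} (hB : ∀ a b x : ℝ, a < b → |deriv (stp a b) x| ≤ B / (b - a)) {δ : ℝ}
    (h0 : 0 < δ) (x : ℝ) : |deriv (ct1 δ) x| ≤ B / δ := by
  unfold ct1
  have h2 := hB (1 - 2 * δ) (1 - δ) x (by linarith)
  have h3 : 1 - δ - (1 - 2 * δ) = δ := by ring
  rw [h3] at h2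
  exact h2

theorem CFe_d0 {δ x : ℝ} (h0 : 0 < δ) (hx : 2 * δ < x) : deriv (ct0 δ) x = 0 := by
  have h1 : ct0 δ =ᶠ[𝓝 x] fun _ => (0 : ℝ) := by
    filter_upwards [Ioi_mem_nhds hx] with y hy
    exact CFe_ct0_zero h0 (le_of_lt hy)
  rw [h1.deriv_eq]
  simp

theorem CFe_d1 {δ x : ℝ} (h0 : 0 < δ) (hx : x < 1 - 2 * δ) : deriv (ct1 δ) x = 0 := by
  have h1 : ct1 δ =ᶠ[𝓝 x] fun _ => (0 : ℝ) := by
    filter_upwards [Iio_mem_nhds hx] with y hy
    exact CFe_ct1_zero h0 (le_of_lt hy)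
  rw [h1.deriv_eq]
  simp

theorem Cmix_est {f φ ψ : ℝ → ℝ} (hf : ContDiff ℝ ∞ f) (hφ : ContDiff ℝ ∞ φ) (hψ : ContDiff ℝ ∞ ψ)
    (h0 : φ 0 = f 0) (h1 : ψ 1 = f 1) :
    ∃ C : ℝ, 0 < C ∧ ∀ δ : ℝ, 0 < δ → δ ≤ 1 / 8 → ∀ l ∈ Icc (0 : ℝ) 1,
      (∀ x, |x| ≤ 2 * δ → |mixf δ f φ ψ l x - f 0| ≤ C * δ ∧ |deriv (mixf δ f φ ψ l) x| ≤ C) ∧
      (∀ x, |x - 1| ≤ 2 * δ → |mixf δ f φ ψ l x - f 1| ≤ C * δ ∧ |deriv (mixf δ f φ ψ l) x| ≤ C) := by
  obtain ⟨B, hB0, hB⟩ := Cstp_deriv_bound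
  obtain ⟨M1, hM1, hb1⟩ := CFe_bd hf
  obtain ⟨M2, hM2, hb2⟩ := CFe_bd hφ
  obtain ⟨M3, hM3, hb3⟩ := CFe_bd hψ
  have hM : 0 < M1 + M2 + M3 := by linarith
  have b1 : ∀ x ∈ Icc (-1 : ℝ) 2, |deriv f x| ≤ M1 + M2 + M3 := fun x hx => by
    have := hb1 x hx
    linarith
  have b2 : ∀ x ∈ Icc (-1 : ℝ) 2, |deriv φ x| ≤ M1 + M2 + M3 := fun x hx => by
    have := hb2 x hx
    linarith
  have b3 : ∀ x ∈ Icc (-1 : ℝ) 2, |deriv ψ x| ≤ M1 + M2 + M3 := fun x hx => by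
    have := hb3 x hx
    linarith
  generalize M1 + M2 + M3 = M at hM b1 b2 b3
  refine ⟨6 * M + 4 * M * B, by positivity, ?_⟩
  intro δ hδ hδ8 l hl
  constructor
  · intro x hx
    have hx' := abs_le.1 hx
    have hxI : x ∈ Icc (-1 : ℝ) 2 := ⟨by linarith [hx'.1], by linarith [hx'.2]⟩
    have h0I : (0 : ℝ) ∈ Icc (-1 : ℝ) 2 := ⟨by norm_num, by norm_num⟩
    have e1 : |f x - f 0| ≤ 2 * M * δ := by
      have h := CFe_lip hf b1 hxI h0I
      rw [sub_zero] at h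
      nlinarith
    have e2 : |φ x - f 0| ≤ 2 * M * δ := by
      have h := CFe_lip hφ b2 hxI h0I
      rw [sub_zero, h0] at h
      nlinarith
    have e3 : |φ x - f x| ≤ 4 * M * δ := by
      have h : |φ x - f x| ≤ |φ x - f 0| + |f 0 - f x| := abs_sub_le _ _ _
      rw [abs_sub_comm (f 0) (f x)] at h
      linarith
    have hct1 : ct1 δ x = 0 := CFe_ct1_zero hδ (by linarith [hx'.2])
    have hct1' : deriv (ct1 δ) x = 0 := CFe_d1 hδ (by linarith [hx'.2])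
    have hc0 : 0 ≤ ct0 δ x := by
      unfold ct0
      linarith [Pool.Agent.CSG.stp_le_one δ (2 * δ) x]
    have hc1 : ct0 δ x ≤ 1 := by
      unfold ct0
      linarith [Pool.Agent.CSG.stp_nonneg δ (2 * δ) x]
    have hn := CFe_num hM hB0 hδ hl hc0 hc1 (CFe_ct0' hB hδ x) e1 e3 (b1 x hxI) (b2 x hxI)
    constructor
    · have h2 : mixf δ f φ ψ l x - f 0 = (f x - f 0) + l * (ct0 δ x * (φ x - f x)) := by
        unfold mixf
        rw [hct1]
        ring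
      rw [h2]
      exact hn.1
    · rw [(CFe_hmix hf hφ hψ l x).deriv, hct1, hct1']
      have h2 : deriv f x + l * (deriv (ct0 δ) x * (φ x - f x) + ct0 δ x * (deriv φ x - deriv f x) +
          (0 * (ψ x - f x) + 0 * (deriv ψ x - deriv f x))) =
          deriv f x + l * (deriv (ct0 δ) x * (φ x - f x) + ct0 δ x * (deriv φ x - deriv f x)) := by
        ring
      rw [h2]
      exact hn.2
  · intro x hx
    have hx' := abs_le.1 hx
    have hxI : x ∈ Icc (-1 : ℝ) 2 := ⟨by linarith [hx'.1], by linarith [hx'.2]⟩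
    have h1I : (1 : ℝ) ∈ Icc (-1 : ℝ) 2 := ⟨by norm_num, by norm_num⟩
    have e1 : |f x - f 1| ≤ 2 * M * δ := by
      have h := CFe_lip hf b1 hxI h1I
      nlinarith
    have e2 : |ψ x - f 1| ≤ 2 * M * δ := by
      have h := CFe_lip hψ b3 hxI h1I
      rw [h1] at h
      nlinarith
    have e3 : |ψ x - f x| ≤ 4 * M * δ := by
      have h : |ψ x - f x| ≤ |ψ x - f 1| + |f 1 - f x| := abs_sub_le _ _ _
      rw [abs_sub_comm (f 1) (f x)] at h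
      linarith
    have hct0 : ct0 δ x = 0 := CFe_ct0_zero hδ (by linarith [hx'.1])
    have hct0' : deriv (ct0 δ) x = 0 := CFe_d0 hδ (by linarith [hx'.1])
    have hc0 : 0 ≤ ct1 δ x := by
      unfold ct1
      exact Pool.Agent.CSG.stp_nonneg _ _ _
    have hc1 : ct1 δ x ≤ 1 := by
      unfold ct1
      exact Pool.Agent.CSG.stp_le_one _ _ _
    have hn := CFe_num hM hB0 hδ hl hc0 hc1 (CFe_ct1' hB hδ x) e1 e3 (b1 x hxI) (b3 x hxI)
    constructor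
    · have h2 : mixf δ f φ ψ l x - f 1 = (f x - f 1) + l * (ct1 δ x * (ψ x - f x)) := by
        unfold mixf
        rw [hct0]
        ring
      rw [h2]
      exact hn.1
    · rw [(CFe_hmix hf hφ hψ l x).deriv, hct0, hct0']
      have h2 : deriv f x + l * (0 * (φ x - f x) + 0 * (deriv φ x - deriv f x) +
          (deriv (ct1 δ) x * (ψ x - f x) + ct1 δ x * (deriv ψ x - deriv f x))) =
          deriv f x + l * (deriv (ct1 δ) x * (ψ x - f x) + ct1 δ x * (deriv ψ x - deriv f x)) := by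
        ring
      rw [h2]
      exact hn.2

end Pool.Agent.KNT
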