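import Pool.Agent.KNT.CUt

/-!
# KNT/CPol: polar form of a core

PROOF. Let `w x = (g x).1`, smooth, `w 0 = w 1 = 0` (`off`), `w x ≠ 0` for the other `x ∈ [0, 1 + t]`. `CUt_div` at `0`:
`w x = x q₀ x`, `q₀ 0 = deriv w 0`; `q₀ 1 = w 1 = 0`; `CUt_div` for `q₀` at `1`: `q₀ x = (x - 1) q₁ x`; let `q = -q₁`, so
`w x = x (1 - x) q x`. `q x ≠ 0` on `[0, 1 + t]`: for `x ≠ 0, 1` clear; `q 0 = q₀ 0 = deriv w 0 = (deriv g 0).1 ≠ 0` (otherwise
`deriv g 0` and `k 0` are both in `{0} × ℝ`, `base`, contradiction to `imm` at `0`);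
`q 1 = -deriv w 1 = -(deriv g 1).1 ≠ 0` (`tip`; differentiate `w = x (1 - x) q` at `1`).
`Cexists_angle` gives `θ` with `q x = ‖q x‖ ex (θ x)` on `[0, 1 + t]`. Let `u x = Re (q x * ex (-θ x))` (smooth, `= ‖q x‖` on
`[0, 1 + t]`) and `ρ x = x (1 - x) u x`.
`Cdat_congr`: `g' = g` on `[0, 1 + t]`, so also the derivatives agree there (at the end points: one-sided derivatives).
`Cdat_reparam`: `deriv (g ∘ χ) x = deriv χ x • deriv g (χ x)`; `χ` maps `[0, 1 + t']` into `[0, 1 + t]`, injectively, and only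
`0 ↦ 0`, `1 ↦ 1`.
-/

open scoped ContDiff Topology
open Set Filter
open Pool.Agent.CSG (stp)
open Pool.Agent.RSG (ex)

namespace Pool.Agent.KNT

theorem CPol_ex_smooth : ContDiff ℝ ∞ ex := by
  unfold ex
  apply ContDiff.cexp
  apply ContDiff.mul _ contDiff_const
  exact Complex.ofRealCLM.contDiff.comp (contDiff_const.mul contDiff_id)

theorem CPol_ex_mul_neg (x : ℝ) : ex x * ex (-x) = 1 := by
  unfold ex
  rw [← Complex.exp_add]
  have : ((2 * Real.pi * x : ℝ) : ℂ) * Complex.I + ((2 * Real.pi * (-x) : ℝ) : ℂ) * Complex.I = 0 := by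
    push_cast
    ring
  rw [this, Complex.exp_zero]

theorem CPol_mem0 {t : ℝ} (ht : 0 < t) : (0 : ℝ) ∈ Icc 0 (1 + t) := ⟨le_rfl, by linarith⟩

theorem CPol_mem1 {t : ℝ} (ht : 0 < t) : (1 : ℝ) ∈ Icc 0 (1 + t) := ⟨by norm_num, by linarith⟩

theorem CPol_hasDeriv {g : ℝ → ℂ × ℝ} (hg : ContDiff ℝ ∞ g) (x : ℝ) : HasDerivAt g (deriv g x) x :=
  ((hg.differentiable (by simp)) x).hasDerivAt

theorem CPol_fst {g : ℝ → ℂ × ℝ} (hg : ContDiff ℝ ∞ g) (x : ℝ) :
    HasDerivAt (fun x => (g x).1) (deriv g x).1 x :=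
  (CPol_hasDeriv hg x).fst

theorem Cexists_polar {Λ : Set (ℂ × ℝ)} {t : ℝ} {g k : ℝ → ℂ × ℝ} (hd : Dat Λ t g k) :
    ∃ ρ θ : ℝ → ℝ, ContDiff ℝ ∞ ρ ∧ ContDiff ℝ ∞ θ ∧
      (∀ x ∈ Icc 0 (1 + t), (g x).1 = (ρ x : ℂ) * ex (θ x)) ∧ (∀ x ∈ Ioo (0 : ℝ) 1, 0 < ρ x) ∧
      (∀ x, 1 < x → x ≤ 1 + t → ρ x < 0) ∧ ρ 0 = 0 ∧ ρ 1 = 0 ∧ 0 < deriv ρ 0 ∧ deriv ρ 1 < 0 := by
  have ht := hd.pos
  have hw : ContDiff ℝ ∞ (fun x => (g x).1) := contDiff_fst.comp hd.smg
  have hw0 : (g 0).1 = 0 := (hd.off 0 (CPol_mem0 ht)).2 (Or.inl rfl)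
  have hw1 : (g 1).1 = 0 := (hd.off 1 (CPol_mem1 ht)).2 (Or.inr rfl)
  obtain ⟨q₀, hq₀, hq₀e, hq₀0⟩ := CUt_div hw (a := 0) hw0
  have hq₀1 : q₀ 1 = 0 := by
    have := hq₀e 1
    simp only [hw1] at this
    simpa using this.symm
  obtain ⟨q₁, hq₁, hq₁e, hq₁1⟩ := CUt_div hq₀ (a := 1) hq₀1
  set q : ℝ → ℂ := fun x => -q₁ x with hqdef
  have hq : ContDiff ℝ ∞ q := hq₁.neg
  have hwq : ∀ x, (g x).1 = ((x * (1 - x) : ℝ) : ℂ) * q x := by
    intro x
    have e1 := hq₀e x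
    rw [e1, hq₁e x]
    simp only [hqdef]
    push_cast
    ring
  have hdw0 : deriv (fun x => (g x).1) 0 = (deriv g 0).1 := (CPol_fst hd.smg 0).deriv
  have hdw1 : deriv (fun x => (g x).1) 1 = (deriv g 1).1 := (CPol_fst hd.smg 1).deriv
  have hne0 : q 0 ≠ 0 := by
    have e1 : q 0 = (deriv g 0).1 := by
      rw [← hdw0, ← hq₀0, hq₁e 0]
      simp only [hqdef]
      push_cast
      ring
    rw [e1]
    intro h0
    have hli := hd.imm 0 (CPol_mem0 ht)
    rw [LinearIndependent.pair_iff] at hli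
    have hb := hd.base
    have h1 := hli (k 0).2 (-(deriv g 0).2) (by
      apply Prod.ext
      · simp [h0, hb]
      · simp only [Prod.snd_add, Prod.smul_snd, smul_eq_mul, Prod.snd_zero]
        ring)
    have h2 := hli 1 0 (by
      apply Prod.ext
      · simp [h0]
      · simp only [Prod.snd_add, Prod.smul_snd, smul_eq_mul, Prod.snd_zero]
        have := h1.2
        have h3 : (deriv g 0).2 = 0 := by linarith
        rw [h3]
        ring)
    exact one_ne_zero h2.1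
  have hne1 : q 1 ≠ 0 := by
    have e1 : q 1 = -(deriv g 1).1 := by
      have h1 : HasDerivAt (fun x => (g x).1) (((1 : ℝ) : ℂ) * q₀ 1 + ((1 - 0 : ℝ) : ℂ) * deriv q₀ 1) 1 := by
        have h2 : HasDerivAt (fun x : ℝ => ((x - 0 : ℝ) : ℂ)) ((1 : ℝ) : ℂ) 1 :=
          ((hasDerivAt_id (1 : ℝ)).sub_const 0).ofReal_comp
        have h3 : HasDerivAt q₀ (deriv q₀ 1) 1 := ((hq₀.differentiable (by simp)) 1).hasDerivAt
        have h4 := h2.mul h3
        have e : (fun x => (g x).1) = fun x : ℝ => ((x - 0 : ℝ) : ℂ) * q₀ x := by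
          funext x
          exact hq₀e x
        rw [e]
        exact h4
      rw [hq₀1, ← hq₁1] at h1
      have h5 := h1.unique (CPol_fst hd.smg 1)
      simp only [hqdef]
      rw [← h5]
      simp
    rw [e1, neg_ne_zero]
    exact hd.tip.ne_zero 0
  have hne : ∀ x ∈ Icc 0 (1 + t), q x ≠ 0 := by
    intro x hx h0
    have h1 : (g x).1 = 0 := by rw [hwq x, h0, mul_zero]
    rcases (hd.off x hx).1 h1 with h | h
    · rw [h] at h0
      exact hne0 h0
    · rw [h] at h0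
      exact hne1 h0
  obtain ⟨θ, hθ, hθq⟩ := Cexists_angle hq (a := 0) (b := 1 + t) (by linarith) hne
  set u : ℝ → ℝ := fun x => (q x * ex (-θ x)).re with hu
  have hus : ContDiff ℝ ∞ u :=
    Complex.reCLM.contDiff.comp (hq.mul (CPol_ex_smooth.comp hθ.neg))
  have hun : ∀ x ∈ Icc 0 (1 + t), u x = ‖q x‖ := by
    intro x hx
    simp only [hu]
    have e1 : q x * ex (-θ x) = (‖q x‖ : ℂ) := by
      calc q x * ex (-θ x) = (‖q x‖ : ℂ) * ex (θ x) * ex (-θ x) := by rw [← hθq x hx]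
        _ = (‖q x‖ : ℂ) * (ex (θ x) * ex (-θ x)) := by ring
        _ = _ := by rw [CPol_ex_mul_neg, mul_one]
    rw [e1, Complex.ofReal_re]
  have hupos : ∀ x ∈ Icc 0 (1 + t), 0 < u x := by
    intro x hx
    rw [hun x hx]
    exact norm_pos_iff.2 (hne x hx)
  have hρd : ∀ x, HasDerivAt (fun x => x * (1 - x) * u x)
      ((1 * (1 - x) + x * (-1)) * u x + x * (1 - x) * deriv u x) x := by
    intro x
    have h1 : HasDerivAt (fun x : ℝ => x * (1 - x)) (1 * (1 - x) + x * (-1)) x :=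
      (hasDerivAt_id x).mul ((hasDerivAt_id x).const_sub 1)
    exact h1.mul ((hus.differentiable (by simp)) x).hasDerivAt
  refine ⟨fun x => x * (1 - x) * u x, θ, ?_, hθ, ?_, ?_, ?_, ?_, ?_, ?_, ?_⟩
  · exact (contDiff_id.mul (contDiff_const.sub contDiff_id)).mul hus
  · intro x hx
    rw [hwq x]
    conv_lhs => rw [hθq x hx]
    simp only [hun x hx]
    push_cast
    ring
  · intro x hx
    have := hupos x ⟨hx.1.le, by linarith [hx.2]⟩
    have h1 : 0 < x * (1 - x) := mul_pos hx.1 (by linarith [hx.2])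
    exact mul_pos h1 this
  · intro x hx hx'
    have := hupos x ⟨by linarith, hx'⟩
    have h1 : x * (1 - x) < 0 := by nlinarith
    exact mul_neg_of_neg_of_pos h1 this
  · simp
  · simp
  · rw [(hρd 0).deriv]
    have := hupos 0 (CPol_mem0 ht)
    simpa using this
  · rw [(hρd 1).deriv]
    have := hupos 1 (CPol_mem1 ht)
    simpa using this

theorem CPol_deriv_congr {t : ℝ} (ht : 0 < t) {g g' : ℝ → ℂ × ℝ} (hg : ContDiff ℝ ∞ g)
    (hg' : ContDiff ℝ ∞ g') (h : ∀ x ∈ Icc 0 (1 + t), g' x = g x) {x : ℝ} (hx : x ∈ Icc 0 (1 + t)) :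
    deriv g' x = deriv g x := by
  have hu : UniqueDiffWithinAt ℝ (Icc (0 : ℝ) (1 + t)) x :=
    uniqueDiffOn_Icc (by linarith) x hx
  have d1 := ((hg.differentiable (by simp)) x).derivWithin hu
  have d2 := ((hg'.differentiable (by simp)) x).derivWithin hu
  rw [← d1, ← d2]
  exact derivWithin_congr h (h x hx)

theorem Cdat_congr {Λ : Set (ℂ × ℝ)} {t : ℝ} {g g' k : ℝ → ℂ × ℝ} (hd : Dat Λ t g k)
    (hg' : ContDiff ℝ ∞ g') (h : ∀ x ∈ Icc 0 (1 + t), g' x = g x) : Dat Λ t g' k := by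
  have ht := hd.pos
  refine ⟨hd.pos, hg', hd.smk, ?_, ?_, ?_, hd.base, ?_, ?_⟩
  · intro x hx y hy hxy
    rw [h x hx, h y hy] at hxy
    exact hd.inj hx hy hxy
  · intro x hx
    rw [h x hx]
    exact hd.off x hx
  · intro x hx
    rw [CPol_deriv_congr ht hd.smg hg' h hx]
    exact hd.imm x hx
  · rw [CPol_deriv_congr ht hd.smg hg' h (CPol_mem1 ht)]
    exact hd.tip
  · intro x hx
    rw [h x hx]
    exact hd.avoid x hx

theorem CPol_li {V : Type*} [AddCommGroup V] [Module ℝ V] {a b : V} {c : ℝ} (hc : c ≠ 0)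
    (h : LinearIndependent ℝ ![a, b]) : LinearIndependent ℝ ![c • a, b] := by
  rw [LinearIndependent.pair_iff] at h ⊢
  intro s r hsr
  rw [smul_smul] at hsr
  obtain ⟨h1, h2⟩ := h _ _ hsr
  exact ⟨(mul_eq_zero.1 h1).resolve_right hc, h2⟩

theorem Cdat_reparam {Λ : Set (ℂ × ℝ)} {t t' : ℝ} {g k : ℝ → ℂ × ℝ} (hd : Dat Λ t g k) {χ : ℝ → ℝ}
    (hχ : ContDiff ℝ ∞ χ) (h0 : χ 0 = 0) (h1 : χ 1 = 1) (ht' : 0 < t') (hp : ∀ x, 0 < deriv χ x)
    (ht : χ (1 + t') ≤ 1 + t) : Dat Λ t' (g ∘ χ) (k ∘ χ) := by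
  have hmono : StrictMono χ := strictMono_of_deriv_pos hp
  have hmem : ∀ x ∈ Icc 0 (1 + t'), χ x ∈ Icc 0 (1 + t) := by
    intro x hx
    constructor
    · rw [← h0]
      exact hmono.monotone hx.1
    · exact (hmono.monotone hx.2).trans ht
  have hder : ∀ x, deriv (g ∘ χ) x = deriv χ x • deriv g (χ x) := by
    intro x
    have a1 := CPol_hasDeriv hd.smg (χ x)
    have a2 : HasDerivAt χ (deriv χ x) x := ((hχ.differentiable (by simp)) x).hasDerivAt
    exact (a1.scomp x a2).deriv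
  refine ⟨ht', hd.smg.comp hχ, hd.smk.comp hχ, ?_, ?_, ?_, ?_, ?_, ?_⟩
  · intro x hx y hy hxy
    exact hmono.injective (hd.inj (hmem x hx) (hmem y hy) hxy)
  · intro x hx
    have := hd.off (χ x) (hmem x hx)
    simp only [Function.comp_apply]
    rw [this]
    constructor
    · rintro (h | h)
      · left
        exact hmono.injective (h.trans h0.symm)
      · right
        exact hmono.injective (h.trans h1.symm)
    · rintro (h | h)
      · left
        rw [h, h0]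
      · right
        rw [h, h1]
  · intro x hx
    rw [hder x]
    exact CPol_li (hp x).ne' (hd.imm (χ x) (hmem x hx))
  · simp only [Function.comp_apply, h0]
    exact hd.base
  · rw [hder 1, h1]
    simp only [Function.comp_apply, h1, Prod.smul_fst]
    exact CPol_li (hp 1).ne' hd.tip
  · intro x hx
    exact hd.avoid (χ x) (hmem x hx)

theorem Cdat_tail {Λ : Set (ℂ × ℝ)} {t t' : ℝ} {g k : ℝ → ℂ × ℝ} (hd : Dat Λ t g k) (ht' : 0 < t')
    (ht : t' ≤ t) : Dat Λ t' g k := by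
  have hsub : Icc (0 : ℝ) (1 + t') ⊆ Icc 0 (1 + t) := Icc_subset_Icc le_rfl (by linarith)
  exact ⟨ht', hd.smg, hd.smk, hd.inj.mono hsub, fun x hx => hd.off x (hsub hx),
    fun x hx => hd.imm x (hsub hx), hd.base, hd.tip, fun x hx => hd.avoid x (hsub hx)⟩

end Pool.Agent.KNT
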