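import Pool.Agent.KNT.CFe
import Pool.Agent.KNT.CPol

/-!
# KNT/CFi: the family near the feet (immersion, off, avoid)

`g l = cor ρ (thF δ θ l) (hF c R δ h l)`.
PROOFS. `deriv (cor ρ θ' h') x = (ρ' ex θ' + ρ (2 π i θ'') ex θ', h'')` where `θ''` is the derivative of the angle.
* `Ccor_smooth`, `Ccor_deriv`: direct (`ex` is smooth, `deriv ex = 2 π i ex`).
* `Cfeet_imm0`: by `Cmix_est` for `θ` and for `h` (`c + R ps 0 = c - R = h 0`), for `|x| ≤ 2 δ`, `2 δ ≤ ε`: the angle is within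
  `C δ` of `θ 0` and has derivative `≤ C`; `ρ x = |R| qs x`, `|ρ x| ≤ C δ`, `|ρ' x - |R| qs' 0| ≤ C δ`, `qs' 0 = 2`. So
  `‖(deriv (g l) x).1 - 2 |R| ex (θ 0)‖ ≤ C' δ`, `|(deriv (g l) x).2| ≤ C'`; and `‖(k x).1‖ ≤ C' δ` (`base`),
  `|(k x).2| ≥ m > 0` (`(k 0).2 ≠ 0`: `imm` at `0`). If `a • deriv (g l) x + b • k x = 0`: second components give
  `|b| ≤ |a| C'/m`, the first ones `|a| (2 |R| - C' δ) ≤ |b| C' δ ≤ |a| C'^2 δ / m`; so `a = 0`, `b = 0` for `δ` small.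
* `Cfeet_imm1`: near `1` the first components of `deriv (g l) x` and of `k x` are within `C' δ` of `-2 |R| ex (θ 1)` and of
  `(k 1).1`; these two complex numbers are independent over `ℝ`: `deriv g 1 = (ρ' 1 ex (θ 1), ..)` with `ρ' 1 = -2 |R|`,
  `Dat.tip`. Independence of `u, v : ℂ` is `im (conj u * v) ≠ 0`, an open condition.
* `Cfeet_off`: on `[0, 2 δ]` and `[1 - 2 δ, 1 + t]` `ρ x = |R| qs x` (`2 δ ≤ ε`, `t ≤ ε`), zero only for `x = 0, 1`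
  (`Cqs_pos`, `Cqs_neg`).
* `Cfeet_avoid`: `g l x` is within `C' δ` of `g 0 0 = (0, c - R)` resp. `g 0 1 = (0, c + R)`, which are not in the closed set `Λ`.
* `Cfeet_close`: heights and angles (`Cmix_est`).
-/

open scoped ContDiff Topology
open Set Filter
open Pool.Agent.CSG (stp)
open Pool.Agent.RSG (ex)

namespace Pool.Agent.KNT

theorem Ccor_norm (x : ℝ) : ‖ex x‖ = 1 := by
  unfold ex
  exact Complex.norm_exp_ofReal_mul_I _

theorem Ccor_exd (x : ℝ) : HasDerivAt ex (((2 * Real.pi : ℝ) : ℂ) * Complex.I * ex x) x := by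
  have h0 : HasDerivAt (fun x : ℝ => 2 * Real.pi * x) (2 * Real.pi) x := by
    simpa using (hasDerivAt_id x).const_mul (2 * Real.pi)
  have h1 : HasDerivAt (fun x : ℝ => ((2 * Real.pi * x : ℝ) : ℂ) * Complex.I)
      (((2 * Real.pi : ℝ) : ℂ) * Complex.I) x := h0.ofReal_comp.mul_const Complex.I
  have h2 := h1.cexp
  refine h2.congr_deriv ?_
  unfold ex
  ring

theorem Ccor_exs : ContDiff ℝ ∞ ex := by
  unfold ex
  exact Complex.contDiff_exp.comp ((Complex.ofRealCLM.contDiff.comp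
    (contDiff_const.mul contDiff_id)).mul contDiff_const)

theorem Ccor_smooth {ρ θ h : ℝ → ℝ} (hρ : ContDiff ℝ ∞ ρ) (hθ : ContDiff ℝ ∞ θ) (hh : ContDiff ℝ ∞ h) :
    ContDiff ℝ ∞ (cor ρ θ h) := by
  unfold cor
  exact ((Complex.ofRealCLM.contDiff.comp hρ).mul (Ccor_exs.comp hθ)).prodMk hh

theorem Ccor_deriv {ρ θ h : ℝ → ℝ} (hρ : ContDiff ℝ ∞ ρ) (hθ : ContDiff ℝ ∞ θ) (hh : ContDiff ℝ ∞ h) (x : ℝ) :
    deriv (cor ρ θ h) x = (((deriv ρ x : ℝ) + (ρ x * (2 * Real.pi * deriv θ x) : ℝ) * Complex.I) * ex (θ x),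
      deriv h x) := by
  have dρ : HasDerivAt ρ (deriv ρ x) x := ((hρ.differentiable (by simp)) x).hasDerivAt
  have dθ : HasDerivAt θ (deriv θ x) x := ((hθ.differentiable (by simp)) x).hasDerivAt
  have dh : HasDerivAt h (deriv h x) x := ((hh.differentiable (by simp)) x).hasDerivAt
  have d1 := dρ.ofReal_comp
  have d2 : HasDerivAt (fun y => ex (θ y)) (deriv θ x • (((2 * Real.pi : ℝ) : ℂ) * Complex.I * ex (θ x))) x :=
    (Ccor_exd (θ x)).scomp x dθ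
  have d3 := (d1.mul d2).prodMk dh
  have d4 : HasDerivAt (cor ρ θ h) _ x := d3
  rw [d4.deriv]
  refine Prod.ext ?_ rfl
  show ((deriv ρ x : ℝ) : ℂ) * ex (θ x) + (ρ x : ℂ) * (deriv θ x • (((2 * Real.pi : ℝ) : ℂ) * Complex.I * ex (θ x))) = _
  rw [Complex.real_smul]
  push_cast
  ring

theorem Ccor_est {ρ : ℝ → ℝ} (hρ : ContDiff ℝ ∞ ρ) {p θ₀ C : ℝ} (hC : 0 < C) (hp : ρ p = 0) {η : ℝ}
    (hη : 0 < η) : ∃ δ₀ : ℝ, 0 < δ₀ ∧ ∀ δ : ℝ, 0 < δ → δ ≤ δ₀ → ∀ x, |x - p| ≤ 2 * δ →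
      ∀ θ d : ℝ, |θ - θ₀| ≤ C * δ → |d| ≤ C →
      ‖((deriv ρ x : ℝ) + (ρ x * (2 * Real.pi * d) : ℝ) * Complex.I) * ex θ - (deriv ρ p : ℝ) * ex θ₀‖ < η := by
  have hπ := Real.pi_pos
  have hK : 0 < 1 + 2 * Real.pi * C + |deriv ρ p| := by positivity
  have hη1 : 0 < η / (1 + 2 * Real.pi * C + |deriv ρ p| + 1) := by positivity
  have hη2 : η / (1 + 2 * Real.pi * C + |deriv ρ p| + 1) * (1 + 2 * Real.pi * C + |deriv ρ p|) < η := by
    rw [div_mul_eq_mul_div, div_lt_iff₀ (by positivity)]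
    nlinarith
  generalize η / (1 + 2 * Real.pi * C + |deriv ρ p| + 1) = e at hη1 hη2
  have hc1 : Continuous (deriv ρ) := hρ.continuous_deriv (by simp)
  obtain ⟨r1, hr1, h1⟩ := Metric.continuousAt_iff.1 (hc1.continuousAt (x := p)) e hη1
  obtain ⟨r2, hr2, h2⟩ := Metric.continuousAt_iff.1 (hρ.continuous.continuousAt (x := p)) e hη1
  obtain ⟨r3, hr3, h3⟩ := Metric.continuousAt_iff.1 (Ccor_exs.continuous.continuousAt (x := θ₀)) e hη1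
  refine ⟨min (r1 / 3) (min (r2 / 3) (r3 / (2 * C))), by positivity, ?_⟩
  intro δ hδ hδ0 x hx θ d hθ hd
  have k1 : δ ≤ r1 / 3 := le_trans hδ0 (min_le_left _ _)
  have k2 : δ ≤ r2 / 3 := le_trans hδ0 (le_trans (min_le_right _ _) (min_le_left _ _))
  have k3 : δ ≤ r3 / (2 * C) := le_trans hδ0 (le_trans (min_le_right _ _) (min_le_right _ _))
  have k3' : C * δ < r3 := by
    rw [le_div_iff₀ (by positivity)] at k3
    nlinarith
  have g1 : |deriv ρ x - deriv ρ p| < e := by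
    have := h1 (x := x) (by rw [Real.dist_eq]; linarith)
    rwa [Real.dist_eq] at this
  have g2 : |ρ x| < e := by
    have := h2 (x := x) (by rw [Real.dist_eq]; linarith)
    rwa [Real.dist_eq, hp, sub_zero] at this
  have g3 : ‖ex θ - ex θ₀‖ < e := by
    have := h3 (x := θ) (by rw [Real.dist_eq]; linarith)
    rwa [dist_eq_norm] at this
  have e0 : ((deriv ρ x : ℝ) + (ρ x * (2 * Real.pi * d) : ℝ) * Complex.I) * ex θ - (deriv ρ p : ℝ) * ex θ₀ =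
      ((deriv ρ x - deriv ρ p : ℝ) : ℂ) * ex θ + ((ρ x * (2 * Real.pi * d) : ℝ) : ℂ) * Complex.I * ex θ +
        ((deriv ρ p : ℝ) : ℂ) * (ex θ - ex θ₀) := by
    push_cast
    ring
  rw [e0]
  have n1 : ‖((deriv ρ x - deriv ρ p : ℝ) : ℂ) * ex θ‖ = |deriv ρ x - deriv ρ p| := by
    rw [norm_mul, Ccor_norm, mul_one, Complex.norm_real, Real.norm_eq_abs]
  have n2 : ‖((ρ x * (2 * Real.pi * d) : ℝ) : ℂ) * Complex.I * ex θ‖ = |ρ x| * (2 * Real.pi * |d|) := by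
    rw [norm_mul, norm_mul, Ccor_norm, Complex.norm_I, mul_one, mul_one, Complex.norm_real,
      Real.norm_eq_abs, abs_mul, abs_mul, abs_of_pos (by positivity : 0 < 2 * Real.pi)]
  have n3 : ‖((deriv ρ p : ℝ) : ℂ) * (ex θ - ex θ₀)‖ = |deriv ρ p| * ‖ex θ - ex θ₀‖ := by
    rw [norm_mul, Complex.norm_real, Real.norm_eq_abs]
  have n4 : |ρ x| * (2 * Real.pi * |d|) ≤ e * (2 * Real.pi * C) := by
    apply mul_le_mul g2.le _ (by positivity) hη1.le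
    exact mul_le_mul_of_nonneg_left hd (by positivity)
  have n5 : |deriv ρ p| * ‖ex θ - ex θ₀‖ ≤ |deriv ρ p| * e := mul_le_mul_of_nonneg_left g3.le (abs_nonneg _)
  calc _ ≤ ‖((deriv ρ x - deriv ρ p : ℝ) : ℂ) * ex θ + ((ρ x * (2 * Real.pi * d) : ℝ) : ℂ) * Complex.I * ex θ‖ +
        ‖((deriv ρ p : ℝ) : ℂ) * (ex θ - ex θ₀)‖ := norm_add_le _ _
    _ ≤ ‖((deriv ρ x - deriv ρ p : ℝ) : ℂ) * ex θ‖ + ‖((ρ x * (2 * Real.pi * d) : ℝ) : ℂ) * Complex.I * ex θ‖ +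
        ‖((deriv ρ p : ℝ) : ℂ) * (ex θ - ex θ₀)‖ := by
        have := norm_add_le (((deriv ρ x - deriv ρ p : ℝ) : ℂ) * ex θ)
          (((ρ x * (2 * Real.pi * d) : ℝ) : ℂ) * Complex.I * ex θ)
        linarith
    _ < η := by
        rw [n1, n2, n3]
        nlinarith

theorem Cind0 {u₀ : ℂ} (hu : u₀ ≠ 0) {C m : ℝ} (hC : 0 < C) (hm : 0 < m) :
    ∃ η : ℝ, 0 < η ∧ ∀ v k : ℂ × ℝ, ‖v.1 - u₀‖ < η → |v.2| ≤ C → ‖k.1‖ < η → m ≤ |k.2| →
      LinearIndependent ℝ ![v, k] := by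
  have hu' : 0 < ‖u₀‖ := norm_pos_iff.2 hu
  refine ⟨‖u₀‖ * m / (2 * (m + C)), by positivity, ?_⟩
  intro v k h1 h2 h3 h4
  have hη : ‖u₀‖ * m / (2 * (m + C)) * (m + C) = ‖u₀‖ * m / 2 := by
    field_simp
  generalize ‖u₀‖ * m / (2 * (m + C)) = η at h1 h3 hη
  rw [LinearIndependent.pair_iff]
  intro a b hab
  have e1 : a • v.1 + b • k.1 = 0 := congrArg Prod.fst hab
  have e2 : a * v.2 + b * k.2 = 0 := congrArg Prod.snd hab
  have e1' : |a| * ‖v.1‖ = |b| * ‖k.1‖ := by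
    have : a • v.1 = -(b • k.1) := eq_neg_of_add_eq_zero_left e1
    have h5 := congrArg norm this
    rwa [norm_neg, norm_smul, norm_smul, Real.norm_eq_abs, Real.norm_eq_abs] at h5
  have e2' : |a| * |v.2| = |b| * |k.2| := by
    have : a * v.2 = -(b * k.2) := by linarith
    have h5 := congrArg abs this
    rwa [abs_neg, abs_mul, abs_mul] at h5
  have n1 : ‖u₀‖ - η ≤ ‖v.1‖ := by
    have := norm_sub_norm_le u₀ v.1
    rw [norm_sub_rev] at this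
    linarith
  have n2 : |b| * m ≤ |a| * C := by
    calc |b| * m ≤ |b| * |k.2| := mul_le_mul_of_nonneg_left h4 (abs_nonneg _)
      _ = |a| * |v.2| := e2'.symm
      _ ≤ |a| * C := mul_le_mul_of_nonneg_left h2 (abs_nonneg _)
  have n3 : |a| * (‖u₀‖ - η) ≤ |b| * η := by
    calc |a| * (‖u₀‖ - η) ≤ |a| * ‖v.1‖ := mul_le_mul_of_nonneg_left n1 (abs_nonneg _)
      _ = |b| * ‖k.1‖ := e1'
      _ ≤ |b| * η := mul_le_mul_of_nonneg_left h3.le (abs_nonneg _)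
  have hη0 : 0 < η := lt_of_le_of_lt (norm_nonneg _) h3
  have n4 : |a| * (‖u₀‖ - η) * m ≤ |a| * C * η := by
    calc |a| * (‖u₀‖ - η) * m ≤ |b| * η * m := mul_le_mul_of_nonneg_right n3 hm.le
      _ = |b| * m * η := by ring
      _ ≤ |a| * C * η := mul_le_mul_of_nonneg_right n2 hη0.le
  have n5 : |a| * (‖u₀‖ * m / 2) ≤ 0 := by
    have : |a| * (‖u₀‖ - η) * m - |a| * C * η = |a| * (‖u₀‖ * m - η * (m + C)) := by ring
    rw [hη] at this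
    have h6 : ‖u₀‖ * m - ‖u₀‖ * m / 2 = ‖u₀‖ * m / 2 := by ring
    rw [h6] at this
    linarith
  have ha : a = 0 := by
    by_contra hne
    have : 0 < |a| := abs_pos.2 hne
    have : 0 < |a| * (‖u₀‖ * m / 2) := by positivity
    linarith
  refine ⟨ha, ?_⟩
  rw [ha, zero_mul, zero_add] at e2
  have hk2 : k.2 ≠ 0 := by
    intro h
    rw [h, abs_zero] at h4
    linarith
  exact (mul_eq_zero.1 e2).resolve_right hk2

theorem Cind1 {u₁ k₁ : ℂ} (h : LinearIndependent ℝ ![u₁, k₁]) :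
    ∃ η : ℝ, 0 < η ∧ ∀ v k : ℂ × ℝ, ‖v.1 - u₁‖ < η → ‖k.1 - k₁‖ < η → LinearIndependent ℝ ![v, k] := by
  have hO : IsOpen {f : Fin 2 → ℂ | LinearIndependent ℝ f} := isOpen_setOfPred_linearIndependent
  obtain ⟨η, hη, hb⟩ := Metric.isOpen_iff.1 hO ![u₁, k₁] h
  refine ⟨η, hη, fun v k h1 h2 => ?_⟩
  have h3 : ![v.1, k.1] ∈ {f : Fin 2 → ℂ | LinearIndependent ℝ f} := by
    apply hb
    rw [Metric.mem_ball, dist_pi_lt_iff hη]
    intro i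
    fin_cases i
    · show dist v.1 u₁ < η
      rw [dist_eq_norm]
      exact h1
    · show dist k.1 k₁ < η
      rw [dist_eq_norm]
      exact h2
  have h4 : LinearIndependent ℝ ![v.1, k.1] := h3
  rw [LinearIndependent.pair_iff] at h4 ⊢
  intro a b hab
  exact h4 a b (congrArg Prod.fst hab)

theorem Ccor_fam {f φ ψ : ℝ → ℝ} (hf : ContDiff ℝ ∞ f) (hφ : ContDiff ℝ ∞ φ)
    (hψ : ContDiff ℝ ∞ ψ) (δ l : ℝ) : ContDiff ℝ ∞ (mixf δ f φ ψ l) :=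
  (Cmix_smooth (δ := δ) hf hφ hψ).comp (contDiff_const.prodMk contDiff_id)

theorem Ccor_psm (c R : ℝ) : ContDiff ℝ ∞ fun x => c + R * ps x :=
  contDiff_const.add (contDiff_const.mul Cps_smooth)

theorem Cfeet_est {c R ε t : ℝ} {ρ θ h : ℝ → ℝ} (hp : PreN c R ε t ρ θ h) :
    ∃ C : ℝ, 0 < C ∧ ∀ δ : ℝ, 0 < δ → δ ≤ 1 / 8 → ∀ l ∈ Icc (0 : ℝ) 1,
      (∀ x, |x| ≤ 2 * δ → |thF δ θ l x - θ 0| ≤ C * δ ∧ |deriv (thF δ θ l) x| ≤ C ∧
        |hF c R δ h l x - h 0| ≤ C * δ ∧ |deriv (hF c R δ h l) x| ≤ C) ∧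
      (∀ x, |x - 1| ≤ 2 * δ → |thF δ θ l x - θ 1| ≤ C * δ ∧ |deriv (thF δ θ l) x| ≤ C ∧
        |hF c R δ h l x - h 1| ≤ C * δ ∧ |deriv (hF c R δ h l) x| ≤ C) := by
  obtain ⟨C₁, hC₁, H₁⟩ := Cmix_est (f := θ) (φ := fun _ => θ 0) (ψ := fun _ => θ 1) hp.smθ
    contDiff_const contDiff_const rfl rfl
  obtain ⟨C₂, hC₂, H₂⟩ := Cmix_est (f := h) (φ := fun x => c + R * ps x) (ψ := fun x => c + R * ps x) hp.smh
    (Ccor_psm c R) (Ccor_psm c R) (by rw [Cps_zero, hp.h0]; ring) (by rw [Cps_one, hp.h1]; ring)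
  refine ⟨C₁ + C₂, by positivity, ?_⟩
  intro δ hδ hδ' l hl
  obtain ⟨a1, a2⟩ := H₁ δ hδ hδ' l hl
  obtain ⟨b1, b2⟩ := H₂ δ hδ hδ' l hl
  constructor
  · intro x hx
    obtain ⟨c1, c2⟩ := a1 x hx
    obtain ⟨d1, d2⟩ := b1 x hx
    refine ⟨le_trans c1 ?_, le_trans c2 ?_, le_trans d1 ?_, le_trans d2 ?_⟩ <;> nlinarith
  · intro x hx
    obtain ⟨c1, c2⟩ := a2 x hx
    obtain ⟨d1, d2⟩ := b2 x hx
    refine ⟨le_trans c1 ?_, le_trans c2 ?_, le_trans d1 ?_, le_trans d2 ?_⟩ <;> nlinarith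

theorem Cfeet_rho {Λ : Set (ℂ × ℝ)} {t : ℝ} {ρ θ h : ℝ → ℝ} {k : ℝ → ℂ × ℝ} (hd : Dat Λ t (cor ρ θ h) k) :
    ρ 0 = 0 ∧ ρ 1 = 0 := by
  have ht := hd.pos
  have h0 : (cor ρ θ h 0).1 = 0 := (hd.off 0 ⟨le_rfl, by linarith⟩).2 (Or.inl rfl)
  have h1 : (cor ρ θ h 1).1 = 0 := (hd.off 1 ⟨zero_le_one, by linarith⟩).2 (Or.inr rfl)
  have ne : ∀ x, ex x ≠ 0 := fun x hx => by
    have := Ccor_norm x
    rw [hx, norm_zero] at this
    exact zero_ne_one this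
  constructor
  · exact Complex.ofReal_eq_zero.1 ((mul_eq_zero.1 h0).resolve_right (ne _))
  · exact Complex.ofReal_eq_zero.1 ((mul_eq_zero.1 h1).resolve_right (ne _))

theorem Cfeet_imm {c R ε t : ℝ} {ρ θ h : ℝ → ℝ} (hp : PreN c R ε t ρ θ h) {Λ : Set (ℂ × ℝ)} {k : ℝ → ℂ × ℝ}
    (hd : Dat Λ t (cor ρ θ h) k) : ∃ δ₀ : ℝ, 0 < δ₀ ∧ ∀ δ : ℝ, 0 < δ → δ ≤ δ₀ → ∀ l ∈ Icc (0 : ℝ) 1,
      ∀ x, |x| ≤ 2 * δ ∨ |x - 1| ≤ 2 * δ →
        LinearIndependent ℝ ![deriv (cor ρ (thF δ θ l) (hF c R δ h l)) x, k x] := by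
  obtain ⟨hρ0, hρ1⟩ := Cfeet_rho hd
  obtain ⟨C, hC, H⟩ := Cfeet_est hp
  have ht := hd.pos
  have ne : ∀ x, ex x ≠ 0 := fun x hx => by
    have := Ccor_norm x
    rw [hx, norm_zero] at this
    exact zero_ne_one this
  have D0 := Ccor_deriv hp.smρ hp.smθ hp.smh 0
  have D1 := Ccor_deriv hp.smρ hp.smθ hp.smh 1
  rw [hρ0] at D0
  rw [hρ1] at D1
  have I0 := hd.imm 0 ⟨le_rfl, by linarith⟩
  rw [LinearIndependent.pair_iff] at I0
  have hb := hd.base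
  -- the derivative of the radius at `0`
  have hk2 : (k 0).2 ≠ 0 := by
    intro h0
    have h1 := I0 0 1 (by
      rw [zero_smul, one_smul, zero_add]
      exact Prod.ext hb h0)
    exact one_ne_zero h1.2
  have hdρ0 : deriv ρ 0 ≠ 0 := by
    intro h0
    have h1 := I0 (k 0).2 (-(deriv h 0)) (by
      rw [D0, h0]
      refine Prod.ext ?_ ?_
      · show (k 0).2 • ((((0 : ℝ) : ℂ) + ((0 * (2 * Real.pi * deriv θ 0) : ℝ) : ℂ) * Complex.I) * ex (θ 0)) +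
          -(deriv h 0) • (k 0).1 = 0
        rw [hb]
        simp
      · show (k 0).2 * deriv h 0 + -(deriv h 0) * (k 0).2 = 0
        ring)
    exact hk2 h1.1
  have hu0 : ((deriv ρ 0 : ℝ) : ℂ) * ex (θ 0) ≠ 0 := mul_ne_zero (Complex.ofReal_ne_zero.2 hdρ0) (ne _)
  obtain ⟨η₀, hη₀, A0⟩ := Cind0 hu0 hC (m := |(k 0).2| / 2) (by positivity)
  have hti : LinearIndependent ℝ ![((deriv ρ 1 : ℝ) : ℂ) * ex (θ 1), (k 1).1] := by
    have h1 := hd.tip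
    rw [D1] at h1
    have e1 : (((deriv ρ 1 : ℝ) + (0 * (2 * Real.pi * deriv θ 1) : ℝ) * Complex.I) * ex (θ 1)) =
        ((deriv ρ 1 : ℝ) : ℂ) * ex (θ 1) := by
      rw [zero_mul, Complex.ofReal_zero, zero_mul, add_zero]
    simp only [e1] at h1
    exact h1
  obtain ⟨η₁, hη₁, A1⟩ := Cind1 hti
  obtain ⟨δ₁, hδ₁, E1⟩ := Ccor_est hp.smρ (p := 0) (θ₀ := θ 0) hC hρ0 hη₀
  obtain ⟨δ₂, hδ₂, E2⟩ := Ccor_est hp.smρ (p := 1) (θ₀ := θ 1) hC hρ1 hη₁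
  obtain ⟨r3, hr3, h3⟩ := Metric.continuousAt_iff.1 (hd.smk.continuous.continuousAt (x := 0))
    (min η₀ (|(k 0).2| / 2)) (by positivity)
  obtain ⟨r4, hr4, h4⟩ := Metric.continuousAt_iff.1 (hd.smk.continuous.continuousAt (x := 1)) η₁ hη₁
  refine ⟨min (min (1 / 8) (min δ₁ δ₂)) (min (r3 / 3) (r4 / 3)), by positivity, ?_⟩
  intro δ hδ hδ0 l hl x hx
  have k0 : δ ≤ 1 / 8 := le_trans hδ0 (le_trans (min_le_left _ _) (min_le_left _ _))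
  have k1 : δ ≤ δ₁ := le_trans hδ0 (le_trans (min_le_left _ _) (le_trans (min_le_right _ _) (min_le_left _ _)))
  have k2 : δ ≤ δ₂ := le_trans hδ0 (le_trans (min_le_left _ _) (le_trans (min_le_right _ _) (min_le_right _ _)))
  have k3 : δ ≤ r3 / 3 := le_trans hδ0 (le_trans (min_le_right _ _) (min_le_left _ _))
  have k4 : δ ≤ r4 / 3 := le_trans hδ0 (le_trans (min_le_right _ _) (min_le_right _ _))
  have sθ : ContDiff ℝ ∞ (thF δ θ l) := Ccor_fam hp.smθ contDiff_const contDiff_const δ l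
  have sh : ContDiff ℝ ∞ (hF c R δ h l) := Ccor_fam hp.smh (Ccor_psm c R) (Ccor_psm c R) δ l
  rw [Ccor_deriv hp.smρ sθ sh x]
  obtain ⟨H0, H1⟩ := H δ hδ k0 l hl
  rcases hx with hx | hx
  · obtain ⟨t1, t2, t3, t4⟩ := H0 x hx
    have hx' : |x - 0| ≤ 2 * δ := by rwa [sub_zero]
    have g3 := h3 (x := x) (by rw [Real.dist_eq]; linarith)
    rw [dist_eq_norm] at g3
    have g3a : ‖(k x).1‖ < η₀ := by
      have h5 : ‖(k x - k 0).1‖ ≤ ‖k x - k 0‖ := norm_fst_le _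
      rw [Prod.fst_sub, hb, sub_zero] at h5
      exact lt_of_le_of_lt h5 (lt_of_lt_of_le g3 (min_le_left _ _))
    have g3b : |(k 0).2| / 2 ≤ |(k x).2| := by
      have h5 : ‖(k x - k 0).2‖ ≤ ‖k x - k 0‖ := norm_snd_le _
      rw [Prod.snd_sub, Real.norm_eq_abs] at h5
      have h6 : |(k x).2 - (k 0).2| < |(k 0).2| / 2 := lt_of_le_of_lt h5 (lt_of_lt_of_le g3 (min_le_right _ _))
      have h7 := abs_sub_abs_le_abs_sub (k 0).2 (k x).2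
      rw [abs_sub_comm] at h7
      linarith
    exact A0 _ _ (E1 δ hδ k1 x hx' _ _ t1 t2) t4 g3a g3b
  · obtain ⟨t1, t2, t3, t4⟩ := H1 x hx
    have g4 := h4 (x := x) (by rw [Real.dist_eq]; linarith)
    rw [dist_eq_norm] at g4
    have g4a : ‖(k x).1 - (k 1).1‖ < η₁ := by
      have h5 : ‖(k x - k 1).1‖ ≤ ‖k x - k 1‖ := norm_fst_le _
      rw [Prod.fst_sub] at h5
      exact lt_of_le_of_lt h5 g4
    exact A1 _ _ (E2 δ hδ k2 x hx _ _ t1 t2) g4a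

theorem Cfeet_avoid {c R ε t : ℝ} {ρ θ h : ℝ → ℝ} (hp : PreN c R ε t ρ θ h) {Λ : Set (ℂ × ℝ)}
    (hΛ : IsClosed Λ) {k : ℝ → ℂ × ℝ} (hd : Dat Λ t (cor ρ θ h) k) :
    ∃ δ₀ : ℝ, 0 < δ₀ ∧ ∀ δ : ℝ, 0 < δ → δ ≤ δ₀ → ∀ l ∈ Icc (0 : ℝ) 1,
      ∀ x, |x| ≤ 2 * δ ∨ |x - 1| ≤ 2 * δ → cor ρ (thF δ θ l) (hF c R δ h l) x ∉ Λ := by
  obtain ⟨hρ0, hρ1⟩ := Cfeet_rho hd
  obtain ⟨C, hC, H⟩ := Cfeet_est hp
  have ht := hd.pos
  have a0 := hd.avoid 0 ⟨le_rfl, by linarith⟩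
  have a1 := hd.avoid 1 ⟨zero_le_one, by linarith⟩
  have e0 : cor ρ θ h 0 = (0, h 0) := by
    unfold cor
    rw [hρ0, Complex.ofReal_zero, zero_mul]
  have e1 : cor ρ θ h 1 = (0, h 1) := by
    unfold cor
    rw [hρ1, Complex.ofReal_zero, zero_mul]
  rw [e0] at a0
  rw [e1] at a1
  obtain ⟨r0, hr0, b0⟩ := Metric.isOpen_iff.1 hΛ.isOpen_compl _ a0
  obtain ⟨r1, hr1, b1⟩ := Metric.isOpen_iff.1 hΛ.isOpen_compl _ a1
  obtain ⟨s0, hs0, c0⟩ := Metric.continuousAt_iff.1 (hp.smρ.continuous.continuousAt (x := 0)) r0 hr0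
  obtain ⟨s1, hs1, c1⟩ := Metric.continuousAt_iff.1 (hp.smρ.continuous.continuousAt (x := 1)) r1 hr1
  refine ⟨min (min (1 / 8) (min (r0 / (2 * C)) (r1 / (2 * C)))) (min (s0 / 3) (s1 / 3)), by positivity, ?_⟩
  intro δ hδ hδ0 l hl x hx
  have k0 : δ ≤ 1 / 8 := le_trans hδ0 (le_trans (min_le_left _ _) (min_le_left _ _))
  have k1 : δ ≤ r0 / (2 * C) := le_trans hδ0 (le_trans (min_le_left _ _) (le_trans (min_le_right _ _) (min_le_left _ _)))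
  have k2 : δ ≤ r1 / (2 * C) := le_trans hδ0 (le_trans (min_le_left _ _) (le_trans (min_le_right _ _) (min_le_right _ _)))
  have k3 : δ ≤ s0 / 3 := le_trans hδ0 (le_trans (min_le_right _ _) (min_le_left _ _))
  have k4 : δ ≤ s1 / 3 := le_trans hδ0 (le_trans (min_le_right _ _) (min_le_right _ _))
  have k1' : C * δ < r0 := by
    rw [le_div_iff₀ (by positivity)] at k1
    nlinarith
  have k2' : C * δ < r1 := by
    rw [le_div_iff₀ (by positivity)] at k2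
    nlinarith
  obtain ⟨H0, H1⟩ := H δ hδ k0 l hl
  have key : ∀ (y v r : ℝ) (θ' : ℝ), |ρ y| < r → |v| < r → ‖(((ρ y : ℂ) * ex θ', v) : ℂ × ℝ)‖ < r := by
    intro y v r θ' h1 h2
    rw [Prod.norm_def]
    apply max_lt
    · show ‖(ρ y : ℂ) * ex θ'‖ < r
      rw [norm_mul, Ccor_norm, mul_one, Complex.norm_real, Real.norm_eq_abs]
      exact h1
    · show ‖v‖ < r
      rw [Real.norm_eq_abs]
      exact h2
  rcases hx with hx | hx
  · obtain ⟨t1, t2, t3, t4⟩ := H0 x hx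
    apply b0
    rw [Metric.mem_ball, dist_eq_norm]
    have g := c0 (x := x) (by rw [Real.dist_eq, sub_zero]; linarith)
    rw [Real.dist_eq, hρ0, sub_zero] at g
    have e2 : cor ρ (thF δ θ l) (hF c R δ h l) x - (0, h 0) =
        ((ρ x : ℂ) * ex (thF δ θ l x), hF c R δ h l x - h 0) := by
      unfold cor
      rw [Prod.mk_sub_mk, sub_zero]
    rw [e2]
    exact key x _ _ _ g (lt_of_le_of_lt t3 k1')
  · obtain ⟨t1, t2, t3, t4⟩ := H1 x hx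
    apply b1
    rw [Metric.mem_ball, dist_eq_norm]
    have g := c1 (x := x) (by rw [Real.dist_eq]; linarith)
    rw [Real.dist_eq, hρ1, sub_zero] at g
    have e2 : cor ρ (thF δ θ l) (hF c R δ h l) x - (0, h 1) =
        ((ρ x : ℂ) * ex (thF δ θ l x), hF c R δ h l x - h 1) := by
      unfold cor
      rw [Prod.mk_sub_mk, sub_zero]
    rw [e2]
    exact key x _ _ _ g (lt_of_le_of_lt t3 k2')

theorem Cfeet_close {c R ε t : ℝ} {ρ θ h : ℝ → ℝ} (hp : PreN c R ε t ρ θ h) :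
    ∃ δ₀ : ℝ, 0 < δ₀ ∧ ∀ δ : ℝ, 0 < δ → δ ≤ δ₀ → ∀ l ∈ Icc (0 : ℝ) 1,
      (∀ x, |x| ≤ 2 * δ → |hF c R δ h l x - (c - R)| < |R| / 2) ∧
      ∀ x, |x - 1| ≤ 2 * δ → |hF c R δ h l x - (c + R)| < |R| / 2 ∧ |thF δ θ l x - θ 1| < 1 / 8 := by
  obtain ⟨C, hC, H⟩ := Cfeet_est hp
  have hR : 0 < |R| := abs_pos.2 hp.R_ne
  refine ⟨min (1 / 8) (min (|R| / (4 * C)) (1 / (16 * C))), by positivity, ?_⟩
  intro δ hδ hδ0 l hl
  have k0 : δ ≤ 1 / 8 := le_trans hδ0 (min_le_left _ _)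
  have k1 : δ ≤ |R| / (4 * C) := le_trans hδ0 (le_trans (min_le_right _ _) (min_le_left _ _))
  have k2 : δ ≤ 1 / (16 * C) := le_trans hδ0 (le_trans (min_le_right _ _) (min_le_right _ _))
  have k1' : C * δ < |R| / 2 := by
    rw [le_div_iff₀ (by positivity)] at k1
    nlinarith
  have k2' : C * δ < 1 / 8 := by
    rw [le_div_iff₀ (by positivity)] at k2
    nlinarith
  obtain ⟨H0, H1⟩ := H δ hδ k0 l hl
  constructor
  · intro x hx
    obtain ⟨t1, t2, t3, t4⟩ := H0 x hx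
    rw [hp.h0] at t3
    exact lt_of_le_of_lt t3 k1'
  · intro x hx
    obtain ⟨t1, t2, t3, t4⟩ := H1 x hx
    rw [hp.h1] at t3
    exact ⟨lt_of_le_of_lt t3 k1', lt_of_le_of_lt t1 k2'⟩

end Pool.Agent.KNT
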