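import Pool.Agent.KNT.CFi
import Pool.Agent.RSG.ExM

/-!
# KNT/CFt: normal form near the feet

PROOF of `feet`. Let `δ` be smaller than the `δ₀` of `Cfeet_imm`, `Cfeet_avoid`, `Cfeet_close`, `2 δ ≤ ε`, `δ ≤ 1/16`, and such that
`|R| qs (2 δ) ≤ ρ x` for `x ∈ [2 δ, 1 - 2 δ]` (`ρ` has a positive minimum `m` on `[ε', 1 - ε']`, `ε' = min ε (1/4)`;
on `[2 δ, ε']` and `[1 - ε', 1 - 2 δ]` `ρ = |R| qs` is monotone; take `|R| qs (2 δ) ≤ m`). Let `t' = min t (δ / 4)`.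
* `NCore c R (θ 0) (θ 1) δ t' (rhF R δ ρ) (thF δ θ 1) (hF c R δ h 1)`: `Cmix_foot0`, `Cmix_foot1`. `mid`: on `(δ, 2 δ]` and on
  `[1 - 2 δ, 1 - δ)` `ρ = |R| qs`, so `rhF = |R| qs` and `qs δ < qs x`; on `[2 δ, 1 - 2 δ]` `rhF x = ρ x ≥ |R| qs (2 δ) > |R| qs δ`.
* `DatFam Λ t' (fun l => cor ρ (thF δ θ l) (hF c R δ h l)) (fun _ => k)`. Smooth: `Cmix_smooth`. For `l ∈ [0,1]`:
  outside of `[0, 2 δ) ∪ (1 - 2 δ, 1 + t']` the curve is the original one (`Cmix_mid`), together with its derivative.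
  `imm`: `Cfeet_imm` resp. `hd.imm` (`t' ≤ 2 δ`). `off`: `ρ x = 0` only for `x = 0, 1` on `[0, 1 + t']`. `tip`:
  `deriv (g l) 1 = (ρ' 1 ex (θ 1), ..)` as `ρ 1 = 0` and the angle at `1` is `θ 1` (`Cmix_at1`); same for `hd`. `avoid`.
  `foot`: `Cmix_at0`. `inj`: let `g l x = g l y`, `x, y ∈ [0, 1 + t']`. Then `|ρ x| = |ρ y|` and equal heights.
* values: `rhF = ρ` on `[0, 1 + t']`.
-/

open scoped ContDiff Topology
open Set Filter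
open Pool.Agent.CSG (stp)
open Pool.Agent.RSG (ex)

namespace Pool.Agent.KNT

theorem CFt_qs_le {x : ℝ} (h0 : 0 ≤ x) : qs x ≤ 4 * x := by
  unfold qs
  rw [div_le_iff₀ (by positivity)]
  nlinarith [mul_nonneg h0 (sq_nonneg (2 * x - 1)), mul_nonneg h0 h0]

theorem CFt_qs_nonneg {x : ℝ} (h0 : 0 ≤ x) (h1 : x ≤ 1) : 0 ≤ qs x := by
  unfold qs
  apply div_nonneg _ (by positivity)
  nlinarith

/-- the choice of `δ` -/
theorem CFt_low {c R ε t : ℝ} {ρ θ h : ℝ → ℝ} (hp : PreN c R ε t ρ θ h) :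
    ∃ δ₁ : ℝ, 0 < δ₁ ∧ ∀ δ : ℝ, 0 < δ → δ ≤ δ₁ → 2 * δ ≤ ε ∧ δ ≤ 1 / 16 ∧
      ∀ x ∈ Icc (2 * δ) (1 - 2 * δ), |R| * qs (2 * δ) ≤ ρ x := by
  have hR : 0 < |R| := abs_pos.2 hp.R_ne
  set e := min ε (1 / 4) with he
  have he0 : 0 < e := lt_min hp.ε_pos (by norm_num)
  have he1 : e ≤ ε := min_le_left _ _
  have he2 : e ≤ 1 / 4 := min_le_right _ _
  obtain ⟨m, hm0, hm⟩ : ∃ m : ℝ, 0 < m ∧ ∀ x ∈ Icc e (1 - e), m ≤ ρ x := by
    obtain ⟨x₀, hx₀, hmin⟩ := (isCompact_Icc (a := e) (b := 1 - e)).exists_isMinOn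
      ⟨e, ⟨le_rfl, by linarith⟩⟩ hp.smρ.continuous.continuousOn
    exact ⟨ρ x₀, hp.pos x₀ ⟨by linarith [hx₀.1], by linarith [hx₀.2]⟩, fun x hx => hmin hx⟩
  refine ⟨min (min (ε / 2) (1 / 16)) (m / (8 * |R|)), by
    refine lt_min (lt_min (by linarith [hp.ε_pos]) (by norm_num)) (by positivity), ?_⟩
  intro δ hδ hδ1
  have h1 : δ ≤ ε / 2 := hδ1.trans ((min_le_left _ _).trans (min_le_left _ _))
  have h2 : δ ≤ 1 / 16 := hδ1.trans ((min_le_left _ _).trans (min_le_right _ _))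
  have h3 : δ ≤ m / (8 * |R|) := hδ1.trans (min_le_right _ _)
  refine ⟨by linarith, h2, ?_⟩
  intro x hx
  have h4 : |R| * qs (2 * δ) ≤ m := by
    have h5 := CFt_qs_le (x := 2 * δ) (by linarith)
    rw [le_div_iff₀ (by positivity)] at h3
    nlinarith
  rcases le_total x e with hxe | hxe
  · rw [hp.near0 x (by rw [abs_of_nonneg (by linarith [hx.1])]; linarith)]
    apply mul_le_mul_of_nonneg_left _ hR.le
    rcases hx.1.eq_or_lt with h5 | h5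
    · rw [← h5]
    · exact (Cqs_lt h5 (by linarith)).le
  · rcases le_total x (1 - e) with hxe' | hxe'
    · exact h4.trans (hm x ⟨hxe, hxe'⟩)
    · rw [hp.near1 x (by rw [abs_of_nonpos (by linarith [hx.2])]; linarith), ← Cqs_symm x]
      apply mul_le_mul_of_nonneg_left _ hR.le
      have h6 : 2 * δ ≤ 1 - x := by linarith [hx.2]
      rcases h6.eq_or_lt with h5 | h5
      · rw [← h5]
      · exact (Cqs_lt h5 (by linarith)).le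

theorem CFt_mixf_eq {δ : ℝ} {f φ ψ : ℝ → ℝ} {l x : ℝ} (h1 : φ x = f x) (h2 : ψ x = f x) :
    mixf δ f φ ψ l x = f x := by
  unfold mixf
  rw [h1, h2]
  ring

/-- `rhF = ρ` -/
theorem CFt_rh {c R ε t : ℝ} {ρ θ h : ℝ → ℝ} (hp : PreN c R ε t ρ θ h) {δ : ℝ} (h0 : 0 < δ) (h1 : δ ≤ 1 / 16)
    (h2 : 2 * δ ≤ ε) {x : ℝ} (hx0 : 0 ≤ x) (hx : x ≤ 1 + ε) : rhF R δ ρ x = ρ x := by
  unfold rhF
  rcases le_total x (2 * δ) with hx1 | hx1
  · have e := hp.near0 x (by rw [abs_of_nonneg hx0]; linarith)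
    exact CFt_mixf_eq e.symm e.symm
  · rcases le_total x (1 - 2 * δ) with hx2 | hx2
    · exact Cmix_mid h0 (by linarith) _ _ _ _ ⟨hx1, hx2⟩
    · have e := hp.near1 x (by rw [abs_le]; constructor <;> linarith)
      exact CFt_mixf_eq e.symm e.symm

/-- normal form of the end -/
theorem CFt_ncore {c R ε t : ℝ} {ρ θ h : ℝ → ℝ} (hp : PreN c R ε t ρ θ h) {δ : ℝ} (h0 : 0 < δ) (h1 : δ ≤ 1 / 16)
    (h2 : 2 * δ ≤ ε) (h3 : ∀ x ∈ Icc (2 * δ) (1 - 2 * δ), |R| * qs (2 * δ) ≤ ρ x) {t' : ℝ} (ht : 0 < t')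
    (ht' : t' ≤ δ / 4) :
    NCore c R (θ 0) (θ 1) δ t' (rhF R δ ρ) (thF δ θ 1) (hF c R δ h 1) := by
  have hR : 0 < |R| := abs_pos.2 hp.R_ne
  have sq : ContDiff ℝ ∞ fun x => |R| * qs x := contDiff_const.mul Cqs_smooth
  have sp : ContDiff ℝ ∞ fun x => c + R * ps x := contDiff_const.add (contDiff_const.mul Cps_smooth)
  have hsec : ContDiff ℝ ∞ fun x : ℝ => ((1 : ℝ), x) := contDiff_const.prodMk contDiff_id
  refine ⟨(Cmix_smooth hp.smρ sq sq).comp hsec, (Cmix_smooth hp.smθ contDiff_const contDiff_const).comp hsec,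
    (Cmix_smooth hp.smh sp sp).comp hsec, hp.R_ne, h0, by linarith, ht, ht', ?_, ?_, ?_⟩
  · intro x hx
    exact ⟨Cmix_foot0 h0 (by linarith) _ _ _ hx, Cmix_foot0 h0 (by linarith) _ _ _ hx,
      Cmix_foot0 h0 (by linarith) _ _ _ hx⟩
  · intro x hx
    exact ⟨Cmix_foot1 h0 (by linarith) _ _ _ hx, Cmix_foot1 h0 (by linarith) _ _ _ hx,
      Cmix_foot1 h0 (by linarith) _ _ _ hx⟩
  · intro x hx0 hx1
    rw [CFt_rh hp h0 h1 h2 (by linarith) (by linarith [hp.ε_pos])]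
    rcases le_total x (2 * δ) with hx2 | hx2
    · rw [hp.near0 x (by rw [abs_of_nonneg (by linarith)]; linarith)]
      exact mul_lt_mul_of_pos_left (Cqs_lt hx0 (by linarith)) hR
    · rcases le_total x (1 - 2 * δ) with hx3 | hx3
      · refine lt_of_lt_of_le ?_ (h3 x ⟨hx2, hx3⟩)
        exact mul_lt_mul_of_pos_left (Cqs_lt (by linarith) (by linarith)) hR
      · rw [hp.near1 x (by rw [abs_le]; constructor <;> linarith), ← Cqs_symm x]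
        exact mul_lt_mul_of_pos_left (Cqs_lt (by linarith) (by linarith)) hR

/-- the radius is small near the feet and in the tail -/
theorem CFt_small0 {c R ε t : ℝ} {ρ θ h : ℝ → ℝ} (hp : PreN c R ε t ρ θ h) {δ : ℝ} (_h0 : 0 < δ) (h1 : δ ≤ 1 / 16)
    (h2 : 2 * δ ≤ ε) {x : ℝ} (hx0 : 0 ≤ x) (hx : x < 2 * δ) :
    ρ x = |R| * qs x ∧ 0 ≤ ρ x ∧ ρ x < |R| * qs (2 * δ) := by
  have hR : 0 < |R| := abs_pos.2 hp.R_ne
  have e := hp.near0 x (by rw [abs_of_nonneg hx0]; linarith)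
  refine ⟨e, ?_, ?_⟩
  · rw [e]
    exact mul_nonneg hR.le (CFt_qs_nonneg hx0 (by linarith))
  · rw [e]
    exact mul_lt_mul_of_pos_left (Cqs_lt hx (by linarith)) hR

theorem CFt_small1 {c R ε t : ℝ} {ρ θ h : ℝ → ℝ} (hp : PreN c R ε t ρ θ h) {δ : ℝ} (h0 : 0 < δ) (h1 : δ ≤ 1 / 16)
    (h2 : 2 * δ ≤ ε) {t' : ℝ} (ht' : t' ≤ δ / 4) {x : ℝ} (hx0 : 1 - 2 * δ < x) (hx : x ≤ 1 + t') :
    ρ x = |R| * qs x ∧ |ρ x| < |R| * qs (2 * δ) := by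
  have hR : 0 < |R| := abs_pos.2 hp.R_ne
  have e := hp.near1 x (by rw [abs_le]; constructor <;> linarith)
  refine ⟨e, ?_⟩
  rw [e, abs_mul, abs_abs]
  apply mul_lt_mul_of_pos_left _ hR
  rcases le_total x 1 with h3 | h3
  · rw [abs_of_nonneg (CFt_qs_nonneg (by linarith) h3), ← Cqs_symm x]
    exact Cqs_lt (by linarith) (by linarith)
  · refine (Cqs_tail h0 (by linarith) ht' h3 hx).trans ?_
    exact Cqs_lt (by linarith) (by linarith)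

theorem CFt_ex_opp {a b : ℝ} (h : ex a = -ex b) (hab : |a - b| < 1 / 4) : False := by
  have h1 : ex (a - b) = -1 := by
    rw [sub_eq_add_neg, RSG.ex_add, RSG.ex_neg, h]
    have := RSG.ex_mul_conj b
    rw [neg_mul, this]
  have h2 := congrArg Complex.re h1
  rw [RSG.ex_re] at h2
  have h3 : 0 < Real.cos (2 * Real.pi * (a - b)) := by
    apply Real.cos_pos_of_mem_Ioo
    obtain ⟨h4, h5⟩ := abs_lt.1 hab
    constructor <;> nlinarith [Real.pi_pos]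
  rw [h2] at h3
  simp only [Complex.neg_re, Complex.one_re] at h3
  linarith

theorem CFt_sm {c R : ℝ} {ρ θ h : ℝ → ℝ} (hρ : ContDiff ℝ ∞ ρ) (hθ : ContDiff ℝ ∞ θ) (hh : ContDiff ℝ ∞ h) (δ : ℝ) :
    ContDiff ℝ ∞ (fun p : ℝ × ℝ => thF δ θ p.1 p.2) ∧ ContDiff ℝ ∞ (fun p : ℝ × ℝ => hF c R δ h p.1 p.2) ∧
      ContDiff ℝ ∞ (fun p : ℝ × ℝ => cor ρ (thF δ θ p.1) (hF c R δ h p.1) p.2) := by
  have sp : ContDiff ℝ ∞ fun x => c + R * ps x := contDiff_const.add (contDiff_const.mul Cps_smooth)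
  have h1 : ContDiff ℝ ∞ (fun p : ℝ × ℝ => thF δ θ p.1 p.2) := Cmix_smooth hθ contDiff_const contDiff_const
  have h2 : ContDiff ℝ ∞ (fun p : ℝ × ℝ => hF c R δ h p.1 p.2) := Cmix_smooth hh sp sp
  refine ⟨h1, h2, ?_⟩
  exact ((Complex.ofRealCLM.contDiff.comp (hρ.comp contDiff_snd)).mul (RSG.ex_smooth.comp h1)).prodMk h2

theorem CFt_sl {f : ℝ → ℝ → ℝ} (h : ContDiff ℝ ∞ fun p : ℝ × ℝ => f p.1 p.2) (l : ℝ) : ContDiff ℝ ∞ (f l) := by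
  have hsec : ContDiff ℝ ∞ fun x : ℝ => (l, x) := contDiff_const.prodMk contDiff_id
  exact h.comp hsec

/-- the unchanged part -/
theorem CFt_mid {c R δ l : ℝ} {ρ θ h : ℝ → ℝ} (h0 : 0 < δ) (h1 : δ ≤ 1 / 16) {x : ℝ}
    (hx : x ∈ Icc (2 * δ) (1 - 2 * δ)) : cor ρ (thF δ θ l) (hF c R δ h l) x = cor ρ θ h x := by
  unfold cor thF hF
  rw [Cmix_mid h0 (by linarith) _ _ _ _ hx, Cmix_mid h0 (by linarith) _ _ _ _ hx]

theorem CFt_imm {c R ε t : ℝ} {ρ θ h : ℝ → ℝ} {Λ : Set (ℂ × ℝ)} {k : ℝ → ℂ × ℝ}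
    (_hp : PreN c R ε t ρ θ h) (hd : Dat Λ t (cor ρ θ h) k) {δ l : ℝ} (h0 : 0 < δ) (h1 : δ ≤ 1 / 16)
    (hi : ∀ x, |x| ≤ 2 * δ ∨ |x - 1| ≤ 2 * δ → LinearIndependent ℝ ![deriv (cor ρ (thF δ θ l) (hF c R δ h l)) x, k x])
    {t' : ℝ} (ht : t' ≤ t) (ht' : t' ≤ δ / 4) {x : ℝ} (hx : x ∈ Icc 0 (1 + t')) :
    LinearIndependent ℝ ![deriv (cor ρ (thF δ θ l) (hF c R δ h l)) x, k x] := by
  by_cases h2 : |x| ≤ 2 * δ ∨ |x - 1| ≤ 2 * δ
  · exact hi x h2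
  · rw [not_or, not_le, not_le] at h2
    obtain ⟨h3, h4⟩ := h2
    rw [abs_of_nonneg hx.1] at h3
    have h5 : x < 1 - 2 * δ := by
      rcases lt_abs.1 h4 with h | h
      · linarith [hx.2]
      · linarith
    have h6 : cor ρ (thF δ θ l) (hF c R δ h l) =ᶠ[𝓝 x] cor ρ θ h := by
      filter_upwards [Ioo_mem_nhds h3 h5] with y hy
      exact CFt_mid h0 h1 ⟨hy.1.le, hy.2.le⟩
    rw [h6.deriv_eq]
    exact hd.imm x ⟨hx.1, by linarith [hx.2]⟩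

theorem CFt_cor_zero {ρ θ h : ℝ → ℝ} {x : ℝ} : (cor ρ θ h x).1 = 0 ↔ ρ x = 0 := by
  unfold cor
  show (ρ x : ℂ) * ex (θ x) = 0 ↔ _
  rw [mul_eq_zero, or_iff_left (RSG.ex_ne _)]
  exact Complex.ofReal_eq_zero

theorem CFt_abs {ρ θ h θ' h' : ℝ → ℝ} {x y : ℝ} (he : cor ρ θ h x = cor ρ θ' h' y) :
    |ρ x| = |ρ y| ∧ h x = h' y ∧ (ρ x : ℂ) * ex (θ x) = ρ y * ex (θ' y) := by
  have h1 : (ρ x : ℂ) * ex (θ x) = ρ y * ex (θ' y) := congrArg Prod.fst he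
  refine ⟨?_, congrArg Prod.snd he, h1⟩
  have h2 := congrArg norm h1
  rw [norm_mul, norm_mul, RSG.ex_norm, RSG.ex_norm, mul_one, mul_one, Complex.norm_real, Complex.norm_real] at h2
  exact h2

/-- injectivity in the tail region -/
theorem CFt_inj_tail {R δ : ℝ} {ρ θ h : ℝ → ℝ} (hR : R ≠ 0) (h1 : δ ≤ 1 / 16) {x y : ℝ}
    (hx0 : 1 - 2 * δ < x) (hy0 : 1 - 2 * δ < y)
    (hx : ρ x = |R| * qs x) (hy : ρ y = |R| * qs y) (hθ : |θ x - θ y| < 1 / 4)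
    (he : cor ρ θ h x = cor ρ θ h y) : x = y := by
  have hR' : 0 < |R| := abs_pos.2 hR
  obtain ⟨h2, -, h3⟩ := CFt_abs he
  rcases abs_eq_abs.1 h2 with h4 | h4
  · rw [hx, hy] at h4
    have h5 : qs x = qs y := mul_left_cancel₀ hR'.ne' h4
    rcases lt_trichotomy x y with h6 | h6 | h6
    · exact absurd h5 (Cqs_lt' h6 (by linarith)).ne'
    · exact h6
    · exact absurd h5 (Cqs_lt' h6 (by linarith)).ne
  · by_cases h5 : ρ y = 0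
    · rw [h5, neg_zero] at h4
      rw [hx] at h4
      rw [hy] at h5
      have h7 : qs x = qs y := by
        have a := (mul_eq_zero.1 h4).resolve_left hR'.ne'
        have b := (mul_eq_zero.1 h5).resolve_left hR'.ne'
        rw [a, b]
      rcases lt_trichotomy x y with h6 | h6 | h6
      · exact absurd h7 (Cqs_lt' h6 (by linarith)).ne'
      · exact h6
      · exact absurd h7 (Cqs_lt' h6 (by linarith)).ne
    · exfalso
      apply CFt_ex_opp _ hθ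
      rw [h4] at h3
      have h6 : (ρ y : ℂ) ≠ 0 := Complex.ofReal_ne_zero.2 h5
      have h7 : (ρ y : ℂ) * (-ex (θ x)) = ρ y * ex (θ y) := by
        rw [← h3]
        push_cast
        ring
      have h8 := mul_left_cancel₀ h6 h7
      rw [← h8, neg_neg]

theorem CFt_inj {c R ε t : ℝ} {ρ θ h : ℝ → ℝ} {Λ : Set (ℂ × ℝ)} {k : ℝ → ℂ × ℝ}
    (hp : PreN c R ε t ρ θ h) (hd : Dat Λ t (cor ρ θ h) k) {δ l : ℝ} (h0 : 0 < δ) (h1 : δ ≤ 1 / 16)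
    (h2 : 2 * δ ≤ ε) (h3 : ∀ x ∈ Icc (2 * δ) (1 - 2 * δ), |R| * qs (2 * δ) ≤ ρ x)
    (hc0 : ∀ x, |x| ≤ 2 * δ → |hF c R δ h l x - (c - R)| < |R| / 2)
    (hc1 : ∀ x, |x - 1| ≤ 2 * δ → |hF c R δ h l x - (c + R)| < |R| / 2 ∧ |thF δ θ l x - θ 1| < 1 / 8)
    {t' : ℝ} (ht : t' ≤ t) (ht' : t' ≤ δ / 4) : InjOn (cor ρ (thF δ θ l) (hF c R δ h l)) (Icc 0 (1 + t')) := by
  have hR : 0 < |R| := abs_pos.2 hp.R_ne
  have key : ∀ x ∈ Icc 0 (1 + t'), ∀ y ∈ Icc 0 (1 + t'), x ≤ y →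
      cor ρ (thF δ θ l) (hF c R δ h l) x = cor ρ (thF δ θ l) (hF c R δ h l) y → x = y := by
    intro x hx y hy hxy he
    obtain ⟨e1, e2, -⟩ := CFt_abs he
    rcases lt_or_ge x (2 * δ) with hx1 | hx1
    · obtain ⟨a1, a2, a3⟩ := CFt_small0 hp h0 h1 h2 hx.1 hx1
      rcases lt_or_ge y (2 * δ) with hy1 | hy1
      · obtain ⟨b1, b2, b3⟩ := CFt_small0 hp h0 h1 h2 hy.1 hy1
        rw [abs_of_nonneg a2, abs_of_nonneg b2, a1, b1] at e1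
        have h5 : qs x = qs y := mul_left_cancel₀ hR.ne' e1
        rcases hxy.eq_or_lt with h6 | h6
        · exact h6
        · exact absurd h5 (Cqs_lt h6 (by linarith)).ne
      · rcases le_or_gt y (1 - 2 * δ) with hy2 | hy2
        · have h5 := h3 y ⟨hy1, hy2⟩
          rw [abs_of_nonneg a2] at e1
          have h6 := le_abs_self (ρ y)
          linarith
        · exfalso
          have h5 := hc0 x (by rw [abs_of_nonneg hx.1]; exact hx1.le)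
          have h6 := (hc1 y (by rw [abs_le]; constructor <;> linarith [hy.2])).1
          rw [← e2] at h6
          have h7 : |2 * R| < |R| := by
            have : 2 * R = (hF c R δ h l x - (c - R)) - (hF c R δ h l x - (c + R)) := by ring
            rw [this]
            exact (abs_sub _ _).trans_lt (by linarith)
          rw [abs_mul, abs_two] at h7
          linarith
    · rcases le_or_gt x (1 - 2 * δ) with hx2 | hx2
      · rcases le_or_gt y (1 - 2 * δ) with hy2 | hy2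
        · rw [CFt_mid h0 h1 ⟨hx1, hx2⟩, CFt_mid h0 h1 ⟨hx1.trans hxy, hy2⟩] at he
          exact hd.inj ⟨hx.1, by linarith [hx.2]⟩ ⟨hy.1, by linarith [hy.2]⟩ he
        · exfalso
          obtain ⟨b1, b2⟩ := CFt_small1 hp h0 h1 h2 ht' hy2 hy.2
          have h5 := h3 x ⟨hx1, hx2⟩
          have h6 := le_abs_self (ρ x)
          linarith
      · have hy2 : 1 - 2 * δ < y := by linarith
        obtain ⟨a1, -⟩ := CFt_small1 hp h0 h1 h2 ht' hx2 hx.2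
        obtain ⟨b1, -⟩ := CFt_small1 hp h0 h1 h2 ht' hy2 hy.2
        have h5 := (hc1 x (by rw [abs_le]; constructor <;> linarith [hx.2])).2
        have h6 := (hc1 y (by rw [abs_le]; constructor <;> linarith [hy.2])).2
        refine CFt_inj_tail (R := R) hp.R_ne h1 hx2 hy2 a1 b1 ?_ he
        have h7 : thF δ θ l x - thF δ θ l y = (thF δ θ l x - θ 1) - (thF δ θ l y - θ 1) := by ring
        rw [h7]
        exact (abs_sub _ _).trans_lt (by linarith)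
  intro x hx y hy he
  rcases le_total x y with h4 | h4
  · exact key x hx y hy h4 he
  · exact (key y hy x hx h4 he.symm).symm

theorem CFt_tip {c R ε t : ℝ} {ρ θ h : ℝ → ℝ} {Λ : Set (ℂ × ℝ)} {k : ℝ → ℂ × ℝ}
    (hp : PreN c R ε t ρ θ h) (hd : Dat Λ t (cor ρ θ h) k) {δ : ℝ} (l : ℝ) (h0 : 0 < δ) (h1 : δ ≤ 1 / 16) :
    LinearIndependent ℝ ![(deriv (cor ρ (thF δ θ l) (hF c R δ h l)) 1).1, (k 1).1] := by
  obtain ⟨s1, s2, -⟩ := CFt_sm (c := c) (R := R) hp.smρ hp.smθ hp.smh δ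
  have e1 := Ccor_deriv hp.smρ (CFt_sl (f := thF δ θ) s1 l) (CFt_sl (f := hF c R δ h) s2 l) 1
  have e2 := Ccor_deriv hp.smρ hp.smθ hp.smh 1
  have e3 : ρ 1 = 0 := by
    rw [hp.near1 1 (by simpa using hp.ε_pos.le), Cqs_one, mul_zero]
  have e4 : thF δ θ l 1 = θ 1 :=
    Cmix_at1 (f := θ) (φ := fun _ => θ 0) (ψ := fun _ => θ 1) h0 (by linarith) rfl l
  have e5 : (deriv (cor ρ (thF δ θ l) (hF c R δ h l)) 1).1 = (deriv (cor ρ θ h) 1).1 := by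
    rw [e1, e2, e3, e4]
    simp
  rw [e5]
  exact hd.tip

theorem CFt_dat {c R ε t : ℝ} {ρ θ h : ℝ → ℝ} (hp : PreN c R ε t ρ θ h) {Λ : Set (ℂ × ℝ)}
    {k : ℝ → ℂ × ℝ} (hd : Dat Λ t (cor ρ θ h) k) {δ l : ℝ} (h0 : 0 < δ) (h1 : δ ≤ 1 / 16)
    (h2 : 2 * δ ≤ ε) (h3 : ∀ x ∈ Icc (2 * δ) (1 - 2 * δ), |R| * qs (2 * δ) ≤ ρ x)
    (hi : ∀ x, |x| ≤ 2 * δ ∨ |x - 1| ≤ 2 * δ → LinearIndependent ℝ ![deriv (cor ρ (thF δ θ l) (hF c R δ h l)) x, k x])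
    (ha : ∀ x, |x| ≤ 2 * δ ∨ |x - 1| ≤ 2 * δ → cor ρ (thF δ θ l) (hF c R δ h l) x ∉ Λ)
    (hc0 : ∀ x, |x| ≤ 2 * δ → |hF c R δ h l x - (c - R)| < |R| / 2)
    (hc1 : ∀ x, |x - 1| ≤ 2 * δ → |hF c R δ h l x - (c + R)| < |R| / 2 ∧ |thF δ θ l x - θ 1| < 1 / 8)
    {t' : ℝ} (ht0 : 0 < t') (ht : t' ≤ t) (ht' : t' ≤ δ / 4) :
    Dat Λ t' (cor ρ (thF δ θ l) (hF c R δ h l)) k := by
  obtain ⟨s1, s2, -⟩ := CFt_sm (c := c) (R := R) hp.smρ hp.smθ hp.smh δ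
  refine ⟨ht0, Ccor_smooth hp.smρ (CFt_sl (f := thF δ θ) s1 l) (CFt_sl (f := hF c R δ h) s2 l), hd.smk,
    CFt_inj hp hd h0 h1 h2 h3 hc0 hc1 ht ht', ?_, fun x hx => CFt_imm hp hd h0 h1 hi ht ht' hx, hd.base,
    CFt_tip hp hd l h0 h1, ?_⟩
  · intro x hx
    rw [CFt_cor_zero, ← hd.off x ⟨hx.1, by linarith [hx.2]⟩, CFt_cor_zero]
  · intro x hx
    by_cases h4 : |x| ≤ 2 * δ ∨ |x - 1| ≤ 2 * δ
    · exact ha x h4
    · rw [not_or, not_le, not_le] at h4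
      obtain ⟨h5, h6⟩ := h4
      rw [abs_of_nonneg hx.1] at h5
      have h7 : x < 1 - 2 * δ := by
        rcases lt_abs.1 h6 with h | h
        · linarith [hx.2]
        · linarith
      rw [CFt_mid h0 h1 ⟨h5.le, h7.le⟩]
      exact hd.avoid x ⟨hx.1, by linarith [hx.2]⟩

theorem Cfeet {c R ε t : ℝ} {ρ θ h : ℝ → ℝ} (hp : PreN c R ε t ρ θ h) {Λ : Set (ℂ × ℝ)}
    (hΛ : IsClosed Λ) {k : ℝ → ℂ × ℝ} (hd : Dat Λ t (cor ρ θ h) k) :
    ∃ (δ t' : ℝ) (ρ' θ' h' : ℝ → ℝ) (g : ℝ → ℝ → ℂ × ℝ), t' ≤ t ∧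
      NCore c R (θ 0) (θ 1) δ t' ρ' θ' h' ∧ DatFam Λ t' g (fun _ => k) ∧
      (∀ x ∈ Icc 0 (1 + t'), g 0 x = cor ρ θ h x) ∧ ∀ x ∈ Icc 0 (1 + t'), g 1 x = cor ρ' θ' h' x := by
  obtain ⟨d1, p1, i1⟩ := Cfeet_imm hp hd
  obtain ⟨d2, p2, i2⟩ := Cfeet_avoid hp hΛ hd
  obtain ⟨d3, p3, i3⟩ := Cfeet_close hp
  obtain ⟨d4, p4, i4⟩ := CFt_low hp
  set δ := min (min d1 d2) (min d3 d4) with hδ
  have h0 : 0 < δ := lt_min (lt_min p1 p2) (lt_min p3 p4)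
  have q1 : δ ≤ d1 := (min_le_left _ _).trans (min_le_left _ _)
  have q2 : δ ≤ d2 := (min_le_left _ _).trans (min_le_right _ _)
  have q3 : δ ≤ d3 := (min_le_right _ _).trans (min_le_left _ _)
  have q4 : δ ≤ d4 := (min_le_right _ _).trans (min_le_right _ _)
  obtain ⟨h2, h1, h3⟩ := i4 δ h0 q4
  set t' := min t (δ / 4) with ht'
  have a0 : 0 < t' := lt_min hp.t_pos (by linarith)
  have a1 : t' ≤ t := min_le_left _ _
  have a2 : t' ≤ δ / 4 := min_le_right _ _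
  have sp : (fun x => c + R * ps x) 0 = h 0 := by
    show c + R * ps 0 = h 0
    rw [Cps_zero, hp.h0]
    ring
  obtain ⟨s1, s2, s3⟩ := CFt_sm (c := c) (R := R) hp.smρ hp.smθ hp.smh δ
  refine ⟨δ, t', rhF R δ ρ, thF δ θ 1, hF c R δ h 1, fun l => cor ρ (thF δ θ l) (hF c R δ h l), a1,
    CFt_ncore hp h0 h1 h2 h3 a0 a2, ⟨s3, hd.smk.comp contDiff_snd, fun l hl => ?_, fun l hl => ?_, fun _ _ => rfl⟩,
    fun x hx => ?_, fun x hx => ?_⟩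
  · exact CFt_dat hp hd h0 h1 h2 h3 (i1 δ h0 q1 l hl) (i2 δ h0 q2 l hl) (i3 δ h0 q3 l hl).1 (i3 δ h0 q3 l hl).2
      a0 a1 a2
  · show cor ρ (thF δ θ l) (hF c R δ h l) 0 = cor ρ (thF δ θ 0) (hF c R δ h 0) 0
    have e1 : ∀ m : ℝ, thF δ θ m 0 = θ 0 := fun m =>
      Cmix_at0 (f := θ) (φ := fun _ => θ 0) (ψ := fun _ => θ 1) h0 (by linarith) rfl m
    have e2 : ∀ m : ℝ, hF c R δ h m 0 = h 0 := fun m =>
      Cmix_at0 (f := h) (φ := fun x => c + R * ps x) (ψ := fun x => c + R * ps x) h0 (by linarith) sp m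
    unfold cor
    rw [e1, e1, e2, e2]
  · show cor ρ (thF δ θ 0) (hF c R δ h 0) x = cor ρ θ h x
    unfold thF hF
    rw [Cmix_zero, Cmix_zero]
  · show cor ρ (thF δ θ 1) (hF c R δ h 1) x = cor (rhF R δ ρ) (thF δ θ 1) (hF c R δ h 1) x
    unfold cor
    rw [CFt_rh hp h0 h1 h2 hx.1 (by linarith [hx.2])]

end Pool.Agent.KNT
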