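import Pool.Agent.KNT.CGd
import Pool.Agent.KNT.LocI

/-!
# KNT/CGa: small perturbations of the shadow are isotopies of the core data

PROOF of `Cgen_fam`. Let `G (u, x) = cor (rg δ ρ u 1) θ (hg δ h u 1) x`, `u : Fin 3 → ℝ × ℝ`, smooth in `(u, x)`; for `l ∈ [0, 1]`
`rg δ ρ v l = rg δ ρ (l • v) 1`, `hg δ h v l = hg δ h (l • v) 1`, so the family is `g l = G (l • v, ·)`, and it is enough to
prove `Dat Λ t (G (u, ·)) k` for all `u` with `‖u‖ < e`, `e` small. `K = {0} × [0, 1 + t]` compact.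
 * `inj`: the map `(u, x) ↦ (u, G (u, x))` is injective on `K` (`hd.inj`) with injective derivative (`inj_param`;
   `deriv (cor ρ θ h) x ≠ 0` by `imm`), so it is injective near `K` (`inj_near`, `near_pos`).
 * `imm`: `(u, x) ↦ deriv (G (u, ·)) x` is continuous; independence of two vectors is an open condition
   (`LinearIndependent` of a pair: `isOpen_setOf_linearIndependent`); `near_pos`.
 * `off`: for `x ∈ [0, δ/2] ∪ [1 - δ/2, 1 + t]` the curve is unchanged (`cg = 0`). On the compact interval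
   `[δ/2, 1 - δ/2]` `ρ ≥ |R| qs (δ/2) > 0` (`NCore.foot₀, mid, foot₁`), so `ρ + cg pg1 > 0` for small `u`.
 * `avoid`: `hd.avoid`, `Λ` closed, compactness. `base`, `tip`, `foot`, `footk`: near `0` and `1` nothing changes.
(`deriv` at `x = 1`: `cg = 0` near `1`.)
-/

open scoped ContDiff Topology
open Set Filter
open Pool.Agent.CSG (stp)
open Pool.Agent.RSG (ex)

namespace Pool.Agent.KNT

theorem Ccg_smooth (δ : ℝ) : ContDiff ℝ ∞ (cg δ) := by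
  unfold cg
  exact (Pool.Agent.CSG.stp_smooth _ _).mul (contDiff_const.sub (Pool.Agent.CSG.stp_smooth _ _))

theorem Ccg_zero {δ : ℝ} (h0 : 0 < δ) (h1 : δ < 1 / 4) {x : ℝ} (hx : x ≤ δ / 2 ∨ 1 - δ / 2 ≤ x) :
    cg δ x = 0 := by
  unfold cg
  rcases hx with hx | hx
  · rw [Pool.Agent.CSG.stp_zero (by linarith) hx, zero_mul]
  · rw [Pool.Agent.CSG.stp_one (a := 1 - 3 * δ / 4) (b := 1 - δ / 2) (by linarith) hx, sub_self, mul_zero]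

theorem Ccg_one {δ : ℝ} (h0 : 0 < δ) (h1 : δ < 1 / 4) {x : ℝ} (hx : 3 * δ / 4 ≤ x) (hx' : x ≤ 1 - 3 * δ / 4) :
    cg δ x = 1 := by
  unfold cg
  rw [Pool.Agent.CSG.stp_one (a := δ / 2) (b := 3 * δ / 4) (by linarith) hx,
    Pool.Agent.CSG.stp_zero (a := 1 - 3 * δ / 4) (b := 1 - δ / 2) (by linarith) hx', sub_zero, mul_one]

theorem CGa_ex_smooth : ContDiff ℝ ∞ ex := by
  unfold ex
  apply Complex.contDiff_exp.comp
  exact ((Complex.ofRealCLM.contDiff.comp (contDiff_const.mul contDiff_id)).mul contDiff_const)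

/-- The family with parameters `u : Fin 3 → ℝ × ℝ`. -/
noncomputable def CGa_G (δ : ℝ) (ρ θ h : ℝ → ℝ) (u : Fin 3 → ℝ × ℝ) (x : ℝ) : ℂ × ℝ :=
  cor (rg δ ρ u 1) θ (hg δ h u 1) x

theorem CGa_smul (δ : ℝ) (ρ θ h : ℝ → ℝ) (v : Fin 3 → ℝ × ℝ) (l : ℝ) :
    cor (rg δ ρ v l) θ (hg δ h v l) = CGa_G δ ρ θ h (l • v) := by
  funext x
  have e1 : rg δ ρ v l x = rg δ ρ (l • v) 1 x := by
    simp only [rg, pg1, Pi.smul_apply, Prod.smul_fst, smul_eq_mul]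
    ring
  have e2 : hg δ h v l x = hg δ h (l • v) 1 x := by
    simp only [hg, pg2, Pi.smul_apply, Prod.smul_snd, smul_eq_mul]
    ring
  simp only [CGa_G, cor, e1, e2]

theorem CGa_smooth {δ : ℝ} {ρ θ h : ℝ → ℝ} (hρ : ContDiff ℝ ∞ ρ) (hθ : ContDiff ℝ ∞ θ)
    (hh : ContDiff ℝ ∞ h) :
    ContDiff ℝ ∞ fun p : (Fin 3 → ℝ × ℝ) × ℝ => CGa_G δ ρ θ h p.1 p.2 := by
  have hs : ContDiff ℝ ∞ fun p : (Fin 3 → ℝ × ℝ) × ℝ => p.2 := contDiff_snd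
  have hv : ∀ i, ContDiff ℝ ∞ fun p : (Fin 3 → ℝ × ℝ) × ℝ => p.1 i := fun i =>
    (contDiff_apply ℝ (ℝ × ℝ) i).comp contDiff_fst
  have hv1 : ∀ i, ContDiff ℝ ∞ fun p : (Fin 3 → ℝ × ℝ) × ℝ => (p.1 i).1 := fun i => (hv i).fst
  have hv2 : ∀ i, ContDiff ℝ ∞ fun p : (Fin 3 → ℝ × ℝ) × ℝ => (p.1 i).2 := fun i => (hv i).snd
  have hc : ContDiff ℝ ∞ fun p : (Fin 3 → ℝ × ℝ) × ℝ => cg δ p.2 := (Ccg_smooth δ).comp hs
  have h1 : ContDiff ℝ ∞ fun p : (Fin 3 → ℝ × ℝ) × ℝ => rg δ ρ p.1 1 p.2 := by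
    unfold rg pg1
    exact (hρ.comp hs).add (contDiff_const.mul
      (hc.mul (((hv1 0).add ((hv1 1).mul hs)).add ((hv1 2).mul (hs.pow 2)))))
  have h2 : ContDiff ℝ ∞ fun p : (Fin 3 → ℝ × ℝ) × ℝ => hg δ h p.1 1 p.2 := by
    unfold hg pg2
    exact (hh.comp hs).add (contDiff_const.mul
      (hc.mul (((hv2 0).add ((hv2 1).mul hs)).add ((hv2 2).mul (hs.pow 2)))))
  unfold CGa_G cor
  exact ((Complex.ofRealCLM.contDiff.comp h1).mul (CGa_ex_smooth.comp (hθ.comp hs))).prodMk h2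

theorem CGa_zero (δ : ℝ) (ρ θ h : ℝ → ℝ) (x : ℝ) : CGa_G δ ρ θ h 0 x = cor ρ θ h x := by
  have e1 : rg δ ρ 0 1 x = ρ x := by simp [rg, pg1]
  have e2 : hg δ h 0 1 x = h x := by simp [hg, pg2]
  simp only [CGa_G, cor, e1, e2]

theorem CGa_ends {δ : ℝ} (h0 : 0 < δ) (h1 : δ < 1 / 4) (ρ θ h : ℝ → ℝ) (u : Fin 3 → ℝ × ℝ) {x : ℝ}
    (hx : x ≤ δ / 2 ∨ 1 - δ / 2 ≤ x) : CGa_G δ ρ θ h u x = cor ρ θ h x := by
  have hc := Ccg_zero h0 h1 hx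
  have e1 : rg δ ρ u 1 x = ρ x := by simp [rg, hc]
  have e2 : hg δ h u 1 x = h x := by simp [hg, hc]
  simp only [CGa_G, cor, e1, e2]

theorem CGa_deriv {δ : ℝ} {ρ θ h : ℝ → ℝ} (hρ : ContDiff ℝ ∞ ρ) (hθ : ContDiff ℝ ∞ θ)
    (hh : ContDiff ℝ ∞ h) (u : Fin 3 → ℝ × ℝ) (x : ℝ) :
    deriv (CGa_G δ ρ θ h u) x =
      fderiv ℝ (fun p : (Fin 3 → ℝ × ℝ) × ℝ => CGa_G δ ρ θ h p.1 p.2) (u, x) (0, 1) := by
  have hG := (CGa_smooth (δ := δ) hρ hθ hh).differentiable (by simp) (u, x)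
  have h2 : HasDerivAt (fun y : ℝ => ((u, y) : (Fin 3 → ℝ × ℝ) × ℝ)) (0, 1) x :=
    (hasDerivAt_const x u).prodMk (hasDerivAt_id x)
  exact (hG.hasFDerivAt.comp_hasDerivAt (f := fun y : ℝ => ((u, y) : (Fin 3 → ℝ × ℝ) × ℝ)) x h2).deriv

theorem CGa_dat {c R θ₀ θ₁ δ t : ℝ} {ρ θ h : ℝ → ℝ} (hn : NCore c R θ₀ θ₁ δ t ρ θ h) {Λ : Set (ℂ × ℝ)}
    (hΛ : IsClosed Λ) {k : ℝ → ℂ × ℝ} (hd : Dat Λ t (cor ρ θ h) k) :
    ∃ e : ℝ, 0 < e ∧ ∀ u : Fin 3 → ℝ × ℝ, ‖u‖ ≤ e → Dat Λ t (CGa_G δ ρ θ h u) k := by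
  have hδ := hn.δ_pos
  have hδ' := hn.δ_lt
  have hG : ContDiff ℝ ∞ fun p : (Fin 3 → ℝ × ℝ) × ℝ => CGa_G δ ρ θ h p.1 p.2 :=
    CGa_smooth hn.smρ hn.smθ hn.smh
  have hswap : Continuous fun p : ℝ × (Fin 3 → ℝ × ℝ) => ((p.2, p.1) : (Fin 3 → ℝ × ℝ) × ℝ) :=
    continuous_snd.prodMk continuous_fst
  have hGc : Continuous fun p : ℝ × (Fin 3 → ℝ × ℝ) => CGa_G δ ρ θ h p.2 p.1 :=
    hG.continuous.comp hswap
  have hz : ∀ x, CGa_G δ ρ θ h 0 x = cor ρ θ h x := CGa_zero δ ρ θ h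
  have hz' : CGa_G δ ρ θ h 0 = cor ρ θ h := funext hz
  -- injectivity
  obtain ⟨e1, he1, H1⟩ : ∃ e : ℝ, 0 < e ∧ ∀ u : Fin 3 → ℝ × ℝ, ‖u‖ ≤ e →
      InjOn (CGa_G δ ρ θ h u) (Icc 0 (1 + t)) := by
    have hF : ContDiff ℝ ∞ fun p : (Fin 3 → ℝ × ℝ) × ℝ => (p.1, CGa_G δ ρ θ h p.1 p.2) :=
      contDiff_fst.prodMk hG
    have hK : IsCompact (({0} : Set (Fin 3 → ℝ × ℝ)) ×ˢ Icc (0 : ℝ) (1 + t)) :=
      isCompact_singleton.prod isCompact_Icc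
    obtain ⟨O, hO1, hO2, hO3⟩ := inj_near (f := fun p : (Fin 3 → ℝ × ℝ) × ℝ =>
      (p.1, CGa_G δ ρ θ h p.1 p.2)) hK
      (fun p _ => hF.contDiffAt.of_le (by exact_mod_cast le_top)) (by
        rintro ⟨u, x⟩ ⟨hu, hx⟩
        have hu0 : u = 0 := hu
        subst hu0
        apply inj_param (h := fun p : (Fin 3 → ℝ × ℝ) × ℝ => CGa_G δ ρ θ h p.1 p.2)
          (hG.differentiable (by simp) _)
        have h1 : (fun v : ℝ => CGa_G δ ρ θ h ((0, x) : (Fin 3 → ℝ × ℝ) × ℝ).1 v) = cor ρ θ h := hz'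
        have h2 := (hd.imm x hx).ne_zero 0
        have h3 : deriv (cor ρ θ h) x ≠ 0 := h2
        show Function.Injective (fderiv ℝ (fun v : ℝ => CGa_G δ ρ θ h 0 v) x)
        have h4 : (fun v : ℝ => CGa_G δ ρ θ h 0 v) = cor ρ θ h := hz'
        rw [h4]
        intro a b hab
        have h5 : ∀ a : ℝ, fderiv ℝ (cor ρ θ h) x a = a • deriv (cor ρ θ h) x := by
          intro a
          have : a = a • (1 : ℝ) := by simp
          conv_lhs => rw [this]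
          rw [map_smul]
          rfl
        rw [h5, h5] at hab
        exact smul_left_injective ℝ h3 hab) (by
        rintro ⟨u, x⟩ ⟨hu, hx⟩ ⟨u', x'⟩ ⟨hu', hx'⟩ he
        have hu0 : u = 0 := hu
        have hu0' : u' = 0 := hu'
        subst hu0
        subst hu0'
        have h1 : CGa_G δ ρ θ h 0 x = CGa_G δ ρ θ h 0 x' := congrArg Prod.snd he
        rw [hz, hz] at h1
        exact Prod.ext rfl (hd.inj hx hx' h1))
    obtain ⟨e, he, H⟩ := near_pos (X := ℝ) (V := Fin 3 → ℝ × ℝ) (K := Icc (0 : ℝ) (1 + t))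
      isCompact_Icc (O := (fun p : ℝ × (Fin 3 → ℝ × ℝ) => ((p.2, p.1) : (Fin 3 → ℝ × ℝ) × ℝ)) ⁻¹' O)
      (hO1.preimage hswap) (fun x hx => hO2 ⟨rfl, hx⟩)
    refine ⟨e, he, fun u hu x hx y hy hxy => ?_⟩
    have h1 := hO3 (H x hx u hu) (H y hy u hu) (by
      show (u, CGa_G δ ρ θ h u x) = (u, CGa_G δ ρ θ h u y)
      rw [hxy])
    exact congrArg Prod.snd h1
  -- immersion
  obtain ⟨e2, he2, H2⟩ : ∃ e : ℝ, 0 < e ∧ ∀ x ∈ Icc (0 : ℝ) (1 + t), ∀ u : Fin 3 → ℝ × ℝ, ‖u‖ ≤ e →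
      LinearIndependent ℝ ![deriv (CGa_G δ ρ θ h u) x, k x] := by
    have hc : Continuous fun p : ℝ × (Fin 3 → ℝ × ℝ) => deriv (CGa_G δ ρ θ h p.2) p.1 := by
      have h1 : (fun p : ℝ × (Fin 3 → ℝ × ℝ) => deriv (CGa_G δ ρ θ h p.2) p.1) = fun p =>
          fderiv ℝ (fun p : (Fin 3 → ℝ × ℝ) × ℝ => CGa_G δ ρ θ h p.1 p.2) (p.2, p.1) (0, 1) := by
        funext p
        exact CGa_deriv hn.smρ hn.smθ hn.smh p.2 p.1
      rw [h1]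
      exact ((hG.continuous_fderiv (by simp)).comp hswap).clm_apply continuous_const
    have hc2 : Continuous fun p : ℝ × (Fin 3 → ℝ × ℝ) => ![deriv (CGa_G δ ρ θ h p.2) p.1, k p.1] := by
      refine continuous_pi fun i => ?_
      fin_cases i
      · exact hc
      · exact hd.smk.continuous.comp continuous_fst
    have hopen : IsOpen {p : ℝ × (Fin 3 → ℝ × ℝ) |
        LinearIndependent ℝ ![deriv (CGa_G δ ρ θ h p.2) p.1, k p.1]} :=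
      (isOpen_setOfPred_linearIndependent (𝕜 := ℝ) (E := ℂ × ℝ) (ι := Fin 2)).preimage hc2
    exact near_pos (X := ℝ) (V := Fin 3 → ℝ × ℝ) isCompact_Icc hopen (fun x hx => by
      show LinearIndependent ℝ ![deriv (CGa_G δ ρ θ h 0) x, k x]
      rw [hz']
      exact hd.imm x hx)
  -- off
  obtain ⟨e3, he3, H3⟩ : ∃ e : ℝ, 0 < e ∧ ∀ x ∈ Icc (δ / 2) (1 - δ / 2), ∀ u : Fin 3 → ℝ × ℝ,
      ‖u‖ ≤ e → (CGa_G δ ρ θ h u x).1 ≠ 0 := by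
    have hopen : IsOpen {p : ℝ × (Fin 3 → ℝ × ℝ) | (CGa_G δ ρ θ h p.2 p.1).1 ≠ 0} :=
      isOpen_ne_fun (continuous_fst.comp hGc) continuous_const
    exact near_pos (X := ℝ) (V := Fin 3 → ℝ × ℝ) isCompact_Icc hopen (fun x hx => by
      show (CGa_G δ ρ θ h 0 x).1 ≠ 0
      rw [hz]
      intro h1
      have ht := hd.pos
      rcases (hd.off x ⟨by linarith [hx.1], by linarith [hx.2]⟩).1 h1 with h2 | h2
      · linarith [hx.1]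
      · linarith [hx.2])
  -- avoid
  obtain ⟨e4, he4, H4⟩ : ∃ e : ℝ, 0 < e ∧ ∀ x ∈ Icc (0 : ℝ) (1 + t), ∀ u : Fin 3 → ℝ × ℝ,
      ‖u‖ ≤ e → CGa_G δ ρ θ h u x ∉ Λ := by
    have hopen : IsOpen {p : ℝ × (Fin 3 → ℝ × ℝ) | CGa_G δ ρ θ h p.2 p.1 ∉ Λ} :=
      hΛ.isOpen_compl.preimage hGc
    exact near_pos (X := ℝ) (V := Fin 3 → ℝ × ℝ) isCompact_Icc hopen (fun x hx => by
      show CGa_G δ ρ θ h 0 x ∉ Λ
      rw [hz]
      exact hd.avoid x hx)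
  refine ⟨min (min e1 e2) (min e3 e4), lt_min (lt_min he1 he2) (lt_min he3 he4), fun u hu => ?_⟩
  have hu1 : ‖u‖ ≤ e1 := hu.trans ((min_le_left _ _).trans (min_le_left _ _))
  have hu2 : ‖u‖ ≤ e2 := hu.trans ((min_le_left _ _).trans (min_le_right _ _))
  have hu3 : ‖u‖ ≤ e3 := hu.trans ((min_le_right _ _).trans (min_le_left _ _))
  have hu4 : ‖u‖ ≤ e4 := hu.trans ((min_le_right _ _).trans (min_le_right _ _))
  refine ⟨hd.pos, ?_, hd.smk, H1 u hu1, ?_, fun x hx => H2 x hx u hu2, hd.base, ?_,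
    fun x hx => H4 x hx u hu4⟩
  · have h1 : CGa_G δ ρ θ h u = (fun p : (Fin 3 → ℝ × ℝ) × ℝ => CGa_G δ ρ θ h p.1 p.2) ∘
        fun x : ℝ => (u, x) := rfl
    rw [h1]
    exact hG.comp (contDiff_const.prodMk contDiff_id)
  · intro x hx
    rcases le_or_gt x (δ / 2) with h1 | h1
    · rw [CGa_ends hδ hδ' ρ θ h u (Or.inl h1)]
      exact hd.off x hx
    · rcases le_or_gt (1 - δ / 2) x with h2 | h2
      · rw [CGa_ends hδ hδ' ρ θ h u (Or.inr h2)]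
        exact hd.off x hx
      · have h3 := H3 x ⟨h1.le, h2.le⟩ u hu3
        refine ⟨fun h4 => absurd h4 h3, fun h4 => ?_⟩
        rcases h4 with h4 | h4
        · linarith
        · linarith
  · have h1 : deriv (CGa_G δ ρ θ h u) 1 = deriv (cor ρ θ h) 1 := by
      apply Filter.EventuallyEq.deriv_eq
      filter_upwards [Ioi_mem_nhds (show 1 - δ / 2 < 1 by linarith)] with y hy
      exact CGa_ends hδ hδ' ρ θ h u (Or.inr (le_of_lt hy))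
    rw [h1]
    exact hd.tip

theorem Cgen_fam {c R θ₀ θ₁ δ t : ℝ} {ρ θ h : ℝ → ℝ} (hn : NCore c R θ₀ θ₁ δ t ρ θ h) {Λ : Set (ℂ × ℝ)}
    (hΛ : IsClosed Λ) {k : ℝ → ℂ × ℝ} (hd : Dat Λ t (cor ρ θ h) k) :
    ∃ e : ℝ, 0 < e ∧ ∀ v : Fin 3 → ℝ × ℝ, (∀ i, ‖v i‖ < e) →
      DatFam Λ t (fun l => cor (rg δ ρ v l) θ (hg δ h v l)) (fun _ => k) := by
  obtain ⟨e, he, H⟩ := CGa_dat hn hΛ hd
  have hδ := hn.δ_pos
  have hδ' := hn.δ_lt
  refine ⟨e, he, fun v hv => ?_⟩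
  have hv' : ‖v‖ < e := (pi_norm_lt_iff he).2 hv
  refine ⟨?_, hd.smk.comp contDiff_snd, ?_, ?_, fun _ _ => rfl⟩
  · have h1 : (fun p : ℝ × ℝ => (fun l => cor (rg δ ρ v l) θ (hg δ h v l)) p.1 p.2) =
        (fun p : (Fin 3 → ℝ × ℝ) × ℝ => CGa_G δ ρ θ h p.1 p.2) ∘ fun p : ℝ × ℝ => (p.1 • v, p.2) := by
      funext p
      show cor (rg δ ρ v p.1) θ (hg δ h v p.1) p.2 = CGa_G δ ρ θ h (p.1 • v) p.2
      rw [CGa_smul]
    rw [h1]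
    exact (CGa_smooth hn.smρ hn.smθ hn.smh).comp
      ((contDiff_fst.smul contDiff_const).prodMk contDiff_snd)
  · intro l hl
    show Dat Λ t (cor (rg δ ρ v l) θ (hg δ h v l)) k
    rw [CGa_smul]
    apply H
    rw [norm_smul, Real.norm_eq_abs, abs_of_nonneg hl.1]
    calc l * ‖v‖ ≤ 1 * ‖v‖ := mul_le_mul_of_nonneg_right hl.2 (norm_nonneg _)
      _ ≤ e := by rw [one_mul]; exact hv'.le
  · intro l _
    show cor (rg δ ρ v l) θ (hg δ h v l) 0 = cor (rg δ ρ v 0) θ (hg δ h v 0) 0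
    rw [CGa_smul, CGa_smul, CGa_ends hδ hδ' ρ θ h _ (Or.inl (by linarith)),
      CGa_ends hδ hδ' ρ θ h _ (Or.inl (by linarith))]

end Pool.Agent.KNT
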