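import Pool.Agent.KNT.CFt

/-!
# KNT/CGd: generic perturbation of the shadow (definitions)

`cg δ`: cutoff, `0` for `x ≤ δ/2` and `x ≥ 1 - δ/2`, `1` on `[3δ/4, 1 - 3δ/4]`.
`pg v x = v 0 + v 1 x + v 2 x²` (both components), `rg`, `hg`: the perturbed radius and height.
-/

open scoped ContDiff Topology
open Set Filter
open Pool.Agent.CSG (stp)
open Pool.Agent.RSG (ex)

namespace Pool.Agent.KNT

noncomputable def cg (δ x : ℝ) : ℝ :=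
  stp (δ / 2) (3 * δ / 4) x * (1 - stp (1 - 3 * δ / 4) (1 - δ / 2) x)

noncomputable def pg1 (v : Fin 3 → ℝ × ℝ) (x : ℝ) : ℝ := (v 0).1 + (v 1).1 * x + (v 2).1 * x ^ 2
noncomputable def pg2 (v : Fin 3 → ℝ × ℝ) (x : ℝ) : ℝ := (v 0).2 + (v 1).2 * x + (v 2).2 * x ^ 2

noncomputable def rg (δ : ℝ) (ρ : ℝ → ℝ) (v : Fin 3 → ℝ × ℝ) (l x : ℝ) : ℝ := ρ x + l * (cg δ x * pg1 v x)
noncomputable def hg (δ : ℝ) (h : ℝ → ℝ) (v : Fin 3 → ℝ × ℝ) (l x : ℝ) : ℝ := h x + l * (cg δ x * pg2 v x)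

end Pool.Agent.KNT
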