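import Pool.Agent.KNT.CUt
import Pool.Agent.KNT.CQs

/-!
# KNT/CRep: reparametrisation of the core so that `ρ = A qs` near the feet

PROOFS.
* `Cgerm_ext`. Let `e > 0` be such that `f` is smooth and `deriv f > 0` on `(a - 2 e, a + 2 e)`, `β` a cutoff function:
  `1` on `|x - a| ≤ e`, `0` for `|x - a| ≥ 3e/2` (`stp` in `(x - a)²`). `m = β f' + (1 - β)` is smooth (zero extension of
  `β f'`), positive. `F x = f a + ∫_a^x m` (`CUt_prim`, shifted).
* `Cexists_chi`. Near `0` `ρ` has a smooth local inverse (`deriv ρ 0 > 0`; e.g. `HasStrictDerivAt.toOpenPartialHomeomorph`,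
  `OpenPartialHomeomorph.contDiffAt_symm_deriv`, at all nearby points `deriv ρ ≠ 0`). `f₀ = (ρ near 0)⁻¹ ∘ (A qs)` is smooth
  near `0`, `f₀ 0 = 0`, `f₀' 0 = A qs' 0 / ρ' 0 > 0`. Near `1`: `ρ' 1 < 0`, `qs' 1 < 0`, `f₁ = (ρ near 1)⁻¹ ∘ (A qs)`,
  `f₁ 1 = 1`, `f₁' 1 > 0`. Extend both by `Cgerm_ext` to `F₀`, `F₁` and connect them by `CUt_connect` with `a = ε`,
  `b = 1 - ε` (`F₀ ε < F₁ (1 - ε)` for small `ε`, since `F₀ 0 = 0 < 1 = F₁ 1`); `χ = F₀` on `x ≤ ε`, `χ = F₁` on `x ≥ 1 - ε`.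
-/

open scoped ContDiff Topology
open Set Filter
open Pool.Agent.CSG (stp)
open Pool.Agent.RSG (ex)

namespace Pool.Agent.KNT

theorem CRep_const {f f' : ℝ → ℝ} {s : Set ℝ} (hs : Convex ℝ s) (hf : ∀ x ∈ s, HasDerivAt f (f' x) x)
    (h0 : ∀ x ∈ s, f' x = 0) {x y : ℝ} (hx : x ∈ s) (hy : y ∈ s) : f y = f x := by
  have h1 := Convex.norm_image_sub_le_of_norm_hasDerivWithin_le (f := f) (f' := f') (C := 0)
    (s := s) (fun x hx => (hf x hx).hasDerivWithinAt) (fun x hx => by rw [h0 x hx, norm_zero]) hs hx hy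
  rw [zero_mul] at h1
  have h2 := norm_le_zero_iff.1 h1
  linarith

/-- the derivative is smooth at a point where `f` is -/
theorem CRep_deriv {f : ℝ → ℝ} {x : ℝ} (hf : ContDiffAt ℝ ∞ f x) : ContDiffAt ℝ ∞ (deriv f) x := by
  have h1 : ContDiffAt ℝ ∞ (fderiv ℝ f) x := hf.fderiv_right (m := ∞) (by simp)
  have h2 : ContDiffAt ℝ ∞ (fun y => fderiv ℝ f y 1) x := h1.clm_apply contDiffAt_const
  exact h2

theorem Cgerm_ext {f : ℝ → ℝ} {a : ℝ} (hf : ∀ᶠ x in 𝓝 a, ContDiffAt ℝ ∞ f x) (hd : 0 < deriv f a) :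
    ∃ F : ℝ → ℝ, ContDiff ℝ ∞ F ∧ (∀ x, 0 < deriv F x) ∧ F =ᶠ[𝓝 a] f := by
  have hc : ContinuousAt (deriv f) a := (CRep_deriv hf.self_of_nhds).continuousAt
  obtain ⟨η, hη, hball⟩ := Metric.eventually_nhds_iff.1 (hf.and (hc.eventually (lt_mem_nhds hd)))
  obtain ⟨e, he, he2⟩ : ∃ e : ℝ, 0 < e ∧ 2 * e = η := ⟨η / 2, by linarith, by ring⟩
  have hlt : e ^ 2 < 9 / 4 * e ^ 2 := by nlinarith [pow_pos he 2]
  set β : ℝ → ℝ := fun x => 1 - stp (e ^ 2) (9 / 4 * e ^ 2) ((x - a) ^ 2) with hβ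
  have hβs : ContDiff ℝ ∞ β := contDiff_const.sub
    ((Pool.Agent.CSG.stp_smooth _ _).comp ((contDiff_id.sub contDiff_const).pow 2))
  have hβ1 : ∀ x, |x - a| ≤ e → β x = 1 := by
    intro x hx
    have h1 : (x - a) ^ 2 ≤ e ^ 2 := by
      rw [← sq_abs (x - a)]
      exact pow_le_pow_left₀ (abs_nonneg _) hx 2
    show 1 - stp (e ^ 2) (9 / 4 * e ^ 2) ((x - a) ^ 2) = 1
    rw [Pool.Agent.CSG.stp_zero hlt h1, sub_zero]
  have hβ0 : ∀ x, 3 / 2 * e ≤ |x - a| → β x = 0 := by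
    intro x hx
    have h1 : 9 / 4 * e ^ 2 ≤ (x - a) ^ 2 := by
      rw [← sq_abs (x - a)]
      have := pow_le_pow_left₀ (by positivity) hx 2
      nlinarith
    show 1 - stp (e ^ 2) (9 / 4 * e ^ 2) ((x - a) ^ 2) = 0
    rw [Pool.Agent.CSG.stp_one hlt h1, sub_self]
  have hβn : ∀ x, 0 ≤ β x := fun x => by
    have := Pool.Agent.CSG.stp_le_one (e ^ 2) (9 / 4 * e ^ 2) ((x - a) ^ 2)
    show 0 ≤ 1 - stp (e ^ 2) (9 / 4 * e ^ 2) ((x - a) ^ 2)
    linarith
  have hβl : ∀ x, β x ≤ 1 := fun x => by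
    have := Pool.Agent.CSG.stp_nonneg (e ^ 2) (9 / 4 * e ^ 2) ((x - a) ^ 2)
    show 1 - stp (e ^ 2) (9 / 4 * e ^ 2) ((x - a) ^ 2) ≤ 1
    linarith
  set m : ℝ → ℝ := fun x => β x * deriv f x + (1 - β x) with hm
  have hms : ContDiff ℝ ∞ m := by
    rw [contDiff_iff_contDiffAt]
    intro x
    rcases lt_or_ge (|x - a|) (2 * e) with hx | hx
    · have h1 := (hball (y := x) (by rw [Real.dist_eq, ← he2]; exact hx)).1
      exact (hβs.contDiffAt.mul (CRep_deriv h1)).add (contDiffAt_const.sub hβs.contDiffAt)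
    · refine (contDiffAt_const (c := (1 : ℝ))).congr_of_eventuallyEq ?_
      have hO : {y : ℝ | 3 / 2 * e < |y - a|} ∈ 𝓝 x := by
        refine IsOpen.mem_nhds (isOpen_lt continuous_const (by fun_prop)) ?_
        show 3 / 2 * e < |x - a|
        linarith
      filter_upwards [hO] with y hy
      show β y * deriv f y + (1 - β y) = 1
      rw [hβ0 y (le_of_lt hy)]
      ring
  have hmp : ∀ x, 0 < m x := by
    intro x
    show 0 < β x * deriv f x + (1 - β x)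
    rcases lt_or_ge (|x - a|) (2 * e) with hx | hx
    · have h1 := (hball (y := x) (by rw [Real.dist_eq, ← he2]; exact hx)).2
      rcases (hβn x).eq_or_lt with h2 | h2
      · rw [← h2]; norm_num
      · have := mul_pos h2 h1
        have := hβl x
        linarith
    · rw [hβ0 x (by linarith)]
      norm_num
  obtain ⟨c, hcs, -, hcd⟩ := CUt_prim hms
  have hFd : ∀ x, HasDerivAt (fun x => f a + (c x - c a)) (m x) x := by
    intro x
    exact ((hcd x).sub_const (c a)).const_add (f a)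
  refine ⟨fun x => f a + (c x - c a), contDiff_const.add (hcs.sub contDiff_const), ?_, ?_⟩
  · intro x
    rw [(hFd x).deriv]
    exact hmp x
  · filter_upwards [Metric.ball_mem_nhds a he] with x hx
    have h1 : ∀ y ∈ Metric.ball a e, HasDerivAt (fun x => f a + (c x - c a) - f x)
        (m y - deriv f y) y := by
      intro y hy
      have h2 := (hball (y := y) (by
        rw [Metric.mem_ball] at hy
        linarith)).1
      exact (hFd y).sub (h2.differentiableAt (by simp)).hasDerivAt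
    have h3 := CRep_const (convex_ball a e) h1 (fun y hy => by
      have hy' : |y - a| < e := by rw [← Real.dist_eq]; exact hy
      show β y * deriv f y + (1 - β y) - deriv f y = 0
      rw [hβ1 y hy'.le]
      ring) (Metric.mem_ball_self he) hx
    simp only [sub_self, add_zero] at h3
    linarith

/-- local smooth inverse -/
theorem CRep_inv {ρ : ℝ → ℝ} (hρ : ContDiff ℝ ∞ ρ) {a : ℝ} (hd : deriv ρ a ≠ 0) :
    ∃ g : ℝ → ℝ, (∀ᶠ y in 𝓝 (ρ a), ContDiffAt ℝ ∞ g y ∧ ρ (g y) = y) ∧ g (ρ a) = a := by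
  have hs : HasStrictDerivAt ρ (deriv ρ a) a :=
    (hρ.contDiffAt (x := a)).hasStrictDerivAt (by simp)
  have hs' := hs.hasStrictFDerivAt_equiv hd
  set φ := hs'.toOpenPartialHomeomorph ρ with hφ
  have hcoe : (φ : ℝ → ℝ) = ρ := rfl
  have ha : a ∈ φ.source := hs'.mem_toOpenPartialHomeomorph_source
  have hat : ρ a ∈ φ.target := by
    have := φ.map_source ha
    exact this
  have hga : φ.symm (ρ a) = a := by
    have := φ.left_inv ha
    exact this
  have hcd : Continuous (deriv ρ) := hρ.continuous_deriv (by simp)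
  have h1 : ∀ᶠ x in 𝓝 a, deriv ρ x ≠ 0 := hcd.continuousAt.eventually_ne hd
  have h2 : ∀ᶠ y in 𝓝 (ρ a), deriv ρ (φ.symm y) ≠ 0 := by
    have h3 : Tendsto φ.symm (𝓝 (ρ a)) (𝓝 a) := by
      have := φ.continuousAt_symm hat
      unfold ContinuousAt at this
      rw [hga] at this
      exact this
    exact h3.eventually h1
  refine ⟨φ.symm, ?_, hga⟩
  filter_upwards [h2, φ.open_target.mem_nhds hat] with y hy hyt
  have h5 : HasDerivAt ρ (deriv ρ (φ.symm y)) (φ.symm y) :=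
    (hρ.differentiable (by simp)).differentiableAt.hasDerivAt
  refine ⟨φ.contDiffAt_symm_deriv hy hyt ?_ ?_, ?_⟩
  · rw [hcoe]; exact h5
  · rw [hcoe]; exact hρ.contDiffAt
  · have := φ.right_inv hyt
    exact this

theorem CRep_loc {ρ : ℝ → ℝ} (hρ : ContDiff ℝ ∞ ρ) {a A : ℝ} (h0 : ρ a = 0) (hq : qs a = 0)
    (hA : 0 < A) (hd : 0 < deriv ρ a * deriv qs a) :
    ∃ F : ℝ → ℝ, ContDiff ℝ ∞ F ∧ (∀ x, 0 < deriv F x) ∧ F a = a ∧
      ∀ᶠ x in 𝓝 a, ρ (F x) = A * qs x := by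
  have hne : deriv ρ a ≠ 0 := by
    intro h
    rw [h, zero_mul] at hd
    exact lt_irrefl _ hd
  obtain ⟨g, hg, hga⟩ := CRep_inv hρ hne
  have hqc : ContDiff ℝ ∞ fun x => A * qs x := contDiff_const.mul Cqs_smooth
  have ht : Tendsto (fun x => A * qs x) (𝓝 a) (𝓝 (ρ a)) := by
    have h1 := hqc.continuous.tendsto a
    rw [hq, mul_zero] at h1
    rw [h0]
    exact h1
  have h2 := ht.eventually hg
  set f : ℝ → ℝ := fun x => g (A * qs x) with hf
  have hfs : ∀ᶠ x in 𝓝 a, ContDiffAt ℝ ∞ f x := by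
    filter_upwards [h2] with x hx
    exact hx.1.comp x hqc.contDiffAt
  have hfa : f a = a := by
    show g (A * qs a) = a
    rw [hq, mul_zero, ← h0]
    exact hga
  have hrel : (fun x => ρ (f x)) =ᶠ[𝓝 a] fun x => A * qs x := by
    filter_upwards [h2] with x hx
    exact hx.2
  have hfd : DifferentiableAt ℝ f a := hfs.self_of_nhds.differentiableAt (by simp)
  have hder : deriv ρ a * deriv f a = A * deriv qs a := by
    have e1 : HasDerivAt (fun x => ρ (f x)) (deriv ρ (f a) * deriv f a) a := by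
      have h3 : HasDerivAt ρ (deriv ρ (f a)) (f a) :=
        (hρ.differentiable (by simp)).differentiableAt.hasDerivAt
      exact h3.comp a hfd.hasDerivAt
    have e2 : HasDerivAt (fun x => A * qs x) (A * deriv qs a) a := by
      have h3 : HasDerivAt qs (deriv qs a) a :=
        (Cqs_smooth.differentiable (by simp)).differentiableAt.hasDerivAt
      exact h3.const_mul A
    rw [hfa] at e1
    exact (e1.congr_of_eventuallyEq hrel.symm).unique e2
  have hfpos : 0 < deriv f a := by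
    have h4 : 0 < deriv ρ a ^ 2 * deriv f a := by
      have : deriv ρ a ^ 2 * deriv f a = A * (deriv ρ a * deriv qs a) := by
        linear_combination (deriv ρ a) * hder
      rw [this]
      exact mul_pos hA hd
    have h5 : 0 < deriv ρ a ^ 2 := by positivity
    exact (mul_pos_iff_of_pos_left h5).1 h4
  obtain ⟨F, hF, hFd, hFe⟩ := Cgerm_ext hfs hfpos
  refine ⟨F, hF, hFd, by rw [hFe.self_of_nhds, hfa], ?_⟩
  filter_upwards [hFe, hrel] with x hx hx2
  rw [hx]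
  exact hx2

theorem Cexists_chi {ρ : ℝ → ℝ} (hρ : ContDiff ℝ ∞ ρ) (h0 : ρ 0 = 0) (h1 : ρ 1 = 0) (hd0 : 0 < deriv ρ 0)
    (hd1 : deriv ρ 1 < 0) {A : ℝ} (hA : 0 < A) :
    ∃ (χ : ℝ → ℝ) (ε : ℝ), ContDiff ℝ ∞ χ ∧ 0 < ε ∧ (∀ x, 0 < deriv χ x) ∧ χ 0 = 0 ∧ χ 1 = 1 ∧
      (∀ x, |x| ≤ ε → ρ (χ x) = A * qs x) ∧ ∀ x, |x - 1| ≤ ε → ρ (χ x) = A * qs x := by
  obtain ⟨F₀, hF₀, hFd₀, hFa₀, hFe₀⟩ := CRep_loc hρ h0 Cqs_zero hA
    (mul_pos hd0 (Cqs_deriv_pos (by norm_num)))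
  obtain ⟨F₁, hF₁, hFd₁, hFa₁, hFe₁⟩ := CRep_loc hρ h1 Cqs_one hA
    (mul_pos_of_neg_of_neg hd1 (Cqs_deriv_neg (by norm_num)))
  have k0 : ∀ᶠ x in 𝓝 (0 : ℝ), F₀ x < 1 / 2 := by
    have := hF₀.continuous.continuousAt (x := (0 : ℝ))
    refine this.eventually (gt_mem_nhds ?_)
    rw [hFa₀]; norm_num
  have k1 : ∀ᶠ x in 𝓝 (1 : ℝ), 1 / 2 < F₁ x := by
    have := hF₁.continuous.continuousAt (x := (1 : ℝ))
    refine this.eventually (lt_mem_nhds ?_)
    rw [hFa₁]; norm_num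
  obtain ⟨e₀, he₀, hb₀⟩ := Metric.eventually_nhds_iff.1 (hFe₀.and k0)
  obtain ⟨e₁, he₁, hb₁⟩ := Metric.eventually_nhds_iff.1 (hFe₁.and k1)
  obtain ⟨ε, hε, hε0, hε1, hε2⟩ : ∃ ε : ℝ, 0 < ε ∧ ε < e₀ ∧ ε < e₁ ∧ ε < 1 / 2 := by
    refine ⟨min (min e₀ e₁) (1 / 2) / 2, ?_, ?_, ?_, ?_⟩
    · positivity
    · have := (min_le_left (min e₀ e₁) (1 / 2)).trans (min_le_left _ _)
      linarith
    · have := (min_le_left (min e₀ e₁) (1 / 2)).trans (min_le_right _ _)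
      linarith
    · have := min_le_right (min e₀ e₁) ((1 : ℝ) / 2)
      linarith
  have c0 := (hb₀ (y := ε) (by rw [Real.dist_eq, sub_zero, abs_of_pos hε]; exact hε0)).2
  have c1 := (hb₁ (y := 1 - ε) (by
    rw [Real.dist_eq, show (1 - ε - 1 : ℝ) = -ε by ring, abs_neg, abs_of_pos hε]; exact hε1)).2
  obtain ⟨χ, hχ, hχd, hχ0, hχ1⟩ := CUt_connect hF₀ hF₁ (a := ε) (b := 1 - ε) (by linarith)
    (fun x _ => hFd₀ x) (fun x _ => hFd₁ x) (by linarith)
  refine ⟨χ, ε, hχ, hε, hχd, by rw [hχ0 0 hε.le, hFa₀], by rw [hχ1 1 (by linarith), hFa₁], ?_, ?_⟩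
  · intro x hx
    rw [hχ0 x (le_trans (le_abs_self x) hx)]
    exact (hb₀ (y := x) (by rw [Real.dist_eq, sub_zero]; linarith)).1
  · intro x hx
    have := (abs_le.1 hx).1
    rw [hχ1 x (by linarith)]
    exact (hb₁ (y := x) (by rw [Real.dist_eq]; linarith)).1

end Pool.Agent.KNT
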