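import Pool.Agent.KNT.Defs

/-!
# KNT/CUt: utilities (smooth primitive, gluing of increasing functions, smooth logarithm, Hadamard division)

`CUt_connect`, `CUt_log`: from the modules COR/Cmp, COR/Lga of the team.
-/

open scoped ContDiff Topology
open Set Filter MeasureTheory
open Pool.Agent.CSG (stp)
open Pool.Agent.RSG (ex)

namespace Pool.Agent.KNT

theorem CUt_prim {p : ℝ → ℝ} (hp : ContDiff ℝ ∞ p) :
    ∃ c : ℝ → ℝ, ContDiff ℝ ∞ c ∧ c 0 = 0 ∧ ∀ x, HasDerivAt c (p x) x := by
  have h1 : ∀ x, HasDerivAt (fun u => ∫ t in (0 : ℝ)..u, p t) (p x) x := fun x =>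
    (hp.continuous.integral_hasStrictDerivAt 0 x).hasDerivAt
  refine ⟨fun u => ∫ t in (0 : ℝ)..u, p t, ?_, ?_, h1⟩
  · rw [contDiff_infty_iff_deriv]
    refine ⟨fun x => (h1 x).differentiableAt, ?_⟩
    have h2 : deriv (fun u => ∫ t in (0 : ℝ)..u, p t) = p := by
      funext x
      exact (h1 x).deriv
    rw [h2]
    exact hp
  · simp

/-- zero derivative on a convex set -/
theorem CUt_const {f f' : ℝ → ℝ} {s : Set ℝ} (hs : Convex ℝ s) (hf : ∀ x, HasDerivAt f (f' x) x)
    (h0 : ∀ x ∈ s, f' x = 0) {x y : ℝ} (hx : x ∈ s) (hy : y ∈ s) : f y = f x := by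
  have h1 := Convex.norm_image_sub_le_of_norm_hasDerivWithin_le (f := f) (f' := f') (C := 0)
    (s := s) (fun x _ => (hf x).hasDerivWithinAt) (fun x hx => by rw [h0 x hx, norm_zero]) hs hx hy
  rw [zero_mul] at h1
  have h2 := norm_le_zero_iff.1 h1
  linarith

theorem CUt_Q {δ : ℝ} (hδ : 0 < δ) : ∃ Q : ℝ → ℝ, ContDiff ℝ ∞ Q ∧ (∀ x, x ≤ δ → Q x = 0) ∧
    (∀ x, 0 ≤ Q x) ∧ (∀ x, HasDerivAt Q (stp δ (2 * δ) x / x) x) ∧
      ∀ x, x * Real.exp (-Q x) ≤ 2 * δ := by
  have hδ2 : δ < 2 * δ := by linarith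
  have hp : ContDiff ℝ ∞ fun x => stp δ (2 * δ) x / x := by
    rw [contDiff_iff_contDiffAt]
    intro x
    rcases lt_or_ge x δ with hx | hx
    · refine (contDiffAt_const (c := (0 : ℝ))).congr_of_eventuallyEq ?_
      filter_upwards [Iio_mem_nhds hx] with y hy
      rw [Pool.Agent.CSG.stp_zero hδ2 (le_of_lt hy), zero_div]
    · have hx0 : x ≠ 0 := by
        intro h
        linarith
      exact (Pool.Agent.CSG.stp_smooth _ _).contDiffAt.div contDiffAt_id hx0
  obtain ⟨Q, hQ, hQ0, hQd⟩ := CUt_prim hp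
  have hp0 : ∀ x, 0 ≤ stp δ (2 * δ) x / x := by
    intro x
    rcases le_or_gt x 0 with hx | hx
    · rw [Pool.Agent.CSG.stp_zero hδ2 (by linarith), zero_div]
    · exact div_nonneg (Pool.Agent.CSG.stp_nonneg _ _ _) hx.le
  have hmono : Monotone Q := monotone_of_deriv_nonneg (fun x => (hQd x).differentiableAt)
    (fun x => by rw [(hQd x).deriv]; exact hp0 x)
  have hz : ∀ x, x ≤ δ → Q x = 0 := by
    intro x hx
    rw [← hQ0]
    refine CUt_const (s := Iic δ) (convex_Iic δ) hQd ?_ (mem_Iic.2 hδ.le) (mem_Iic.2 hx)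
    intro y hy
    rw [Pool.Agent.CSG.stp_zero hδ2 (mem_Iic.1 hy), zero_div]
  have hn : ∀ x, 0 ≤ Q x := by
    intro x
    rcases le_total x δ with hx | hx
    · rw [hz x hx]
    · rw [← hz δ le_rfl]
      exact hmono hx
  have hsmall : ∀ x, x ≤ 2 * δ → x * Real.exp (-Q x) ≤ 2 * δ := by
    intro x hx
    have h1 : Real.exp (-Q x) ≤ 1 := Real.exp_le_one_iff.2 (by linarith [hn x])
    have h2 := Real.exp_pos (-Q x)
    rcases le_or_gt x 0 with h3 | h3
    · nlinarith
    · nlinarith
  refine ⟨Q, hQ, hz, hn, hQd, fun x => ?_⟩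
  rcases le_or_gt x (2 * δ) with hx | hx
  · exact hsmall x hx
  · have hd : ∀ y, HasDerivAt (fun y => y * Real.exp (-Q y))
        (1 * Real.exp (-Q y) + y * (Real.exp (-Q y) * (-(stp δ (2 * δ) y / y)))) y := fun y =>
      (hasDerivAt_id y).mul ((hQd y).neg.exp)
    have h1 : x * Real.exp (-Q x) = (2 * δ) * Real.exp (-Q (2 * δ)) := by
      refine CUt_const (s := Ici (2 * δ)) (convex_Ici _) hd ?_ (mem_Ici.2 le_rfl)
        (mem_Ici.2 hx.le)
      intro y hy
      have hy' : 2 * δ ≤ y := hy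
      have hy0 : y ≠ 0 := by
        intro h
        linarith
      rw [Pool.Agent.CSG.stp_one hδ2 hy']
      field_simp
      ring
    rw [h1]
    exact hsmall _ le_rfl

theorem CUt_xp {δ : ℝ} (hδ : 0 < δ) (x : ℝ) : x * (stp δ (2 * δ) x / x) = stp δ (2 * δ) x := by
  rcases eq_or_ne x 0 with h | h
  · rw [h, Pool.Agent.CSG.stp_zero (by linarith) hδ.le]
    simp
  · field_simp

theorem CUt_K {N η : ℝ} (hN : 0 < N) (hη : 0 < η) : ∃ K : ℝ → ℝ, ContDiff ℝ ∞ K ∧
    (∀ v, v ≤ 0 → K v = v) ∧ (∀ v, 0 < deriv K v) ∧ (∀ v, v ≤ N → K v < η) ∧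
      ∀ v, 0 ≤ v → 0 ≤ K v := by
  have hδ : 0 < η ^ 2 / (4 * N) := by positivity
  obtain ⟨Q, hQ, hz, hn, hd, hb⟩ := CUt_Q hδ
  have hKd : ∀ x, HasDerivAt (fun x => x * Real.exp (-Q x / 2))
      (1 * Real.exp (-Q x / 2) + x * (Real.exp (-Q x / 2) *
        (-(stp (η ^ 2 / (4 * N)) (2 * (η ^ 2 / (4 * N))) x / x) / 2))) x := fun x =>
    (hasDerivAt_id x).mul (((hd x).neg.div_const 2).exp)
  have hK0 : ∀ v, v ≤ 0 → v * Real.exp (-Q v / 2) = v := by
    intro v hv
    rw [hz v (by linarith)]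
    simp
  have hK1 : ∀ v, 0 ≤ v → 0 ≤ v * Real.exp (-Q v / 2) := fun v hv =>
    mul_nonneg hv (Real.exp_pos _).le
  refine ⟨fun x => x * Real.exp (-Q x / 2), ?_, hK0, ?_, ?_, hK1⟩
  · exact contDiff_id.mul ((hQ.neg.div_const 2).exp)
  · intro x
    rw [(hKd x).deriv]
    have e1 := CUt_xp hδ x
    have e2 : 1 * Real.exp (-Q x / 2) + x * (Real.exp (-Q x / 2) *
        (-(stp (η ^ 2 / (4 * N)) (2 * (η ^ 2 / (4 * N))) x / x) / 2)) =
        Real.exp (-Q x / 2) * (1 - stp (η ^ 2 / (4 * N)) (2 * (η ^ 2 / (4 * N))) x / 2) := by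
      linear_combination (-(Real.exp (-Q x / 2)) / 2) * e1
    rw [e2]
    have e3 := Pool.Agent.CSG.stp_le_one (η ^ 2 / (4 * N)) (2 * (η ^ 2 / (4 * N))) x
    exact mul_pos (Real.exp_pos _) (by linarith)
  · intro v hv
    rcases le_or_gt v 0 with h0 | h0
    · change v * Real.exp (-Q v / 2) < η
      rw [hK0 v h0]
      linarith
    · have e1 : (Real.exp (-Q v / 2)) ^ 2 = Real.exp (-Q v) := by
        rw [← Real.exp_nat_mul]
        congr 1
        push_cast
        ring
      have e2 : (v * Real.exp (-Q v / 2)) ^ 2 = (v * Real.exp (-Q v)) * v := by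
        rw [← e1]
        ring
      have e3 : (v * Real.exp (-Q v / 2)) ^ 2 < η ^ 2 := by
        rw [e2]
        have h2 := hb v
        have h4 : 0 ≤ v * Real.exp (-Q v) := mul_nonneg h0.le (Real.exp_pos _).le
        have h5 : 2 * (η ^ 2 / (4 * N)) * N = η ^ 2 / 2 := by
          field_simp
          ring
        have h6 : (v * Real.exp (-Q v)) * v ≤ 2 * (η ^ 2 / (4 * N)) * N :=
          mul_le_mul h2 hv h0.le (by positivity)
        have h7 : 0 < η ^ 2 := by positivity
        linarith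
      exact lt_of_pow_lt_pow_left₀ 2 hη.le e3

theorem CUt_A {f : ℝ → ℝ} (hf : ContDiff ℝ ∞ f) {a b M : ℝ} (hab : a < b)
    (hfa : ∀ x ≤ a, 0 < deriv f x) (hM : f a < M) :
    ∃ F : ℝ → ℝ, ContDiff ℝ ∞ F ∧ (∀ x ≤ a, F x = f x) ∧ (∀ x ≤ b, 0 < deriv F x) ∧
      ∀ x, a ≤ x → x ≤ b → F x < M := by
  have hc : Continuous (deriv f) := hf.continuous_deriv (by simp)
  have h1 : ∀ᶠ x in 𝓝 a, 0 < deriv f x ∧ f x < M :=
    (hc.continuousAt.eventually (lt_mem_nhds (hfa a le_rfl))).and
      (hf.continuous.continuousAt.eventually (gt_mem_nhds hM))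
  obtain ⟨η, hη, hball⟩ := Metric.eventually_nhds_iff.1 h1
  obtain ⟨K, hK, hK0, hKd, hKb, hKn⟩ := CUt_K (N := b - a) (η := η) (by linarith) hη
  have hk : ContDiff ℝ ∞ fun x => a + K (x - a) := contDiff_const.add (hK.comp (contDiff_id.sub contDiff_const))
  have hkd : ∀ x, HasDerivAt (fun x => a + K (x - a)) (deriv K (x - a)) x := by
    intro x
    have h2 : HasDerivAt K (deriv K (x - a)) (x - a) :=
      (hK.differentiable (by simp)).differentiableAt.hasDerivAt
    have h3 := (h2.comp x ((hasDerivAt_id x).sub_const a)).const_add a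
    simpa using h3
  have hfd : ∀ y, HasDerivAt f (deriv f y) y := fun y =>
    (hf.differentiable (by simp)).differentiableAt.hasDerivAt
  refine ⟨fun x => f (a + K (x - a)), hf.comp hk, ?_, ?_, ?_⟩
  · intro x hx
    simp only [hK0 (x - a) (by linarith)]
    congr 1
    ring
  · intro x hx
    have h3 : HasDerivAt (fun x => f (a + K (x - a)))
        (deriv f (a + K (x - a)) * deriv K (x - a)) x := (hfd _).comp x (hkd x)
    rw [h3.deriv]
    refine mul_pos ?_ (hKd _)
    rcases le_or_gt x a with h4 | h4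
    · apply hfa
      rw [hK0 (x - a) (by linarith)]
      linarith
    · have h5 := hKb (x - a) (by linarith)
      have h6 := hKn (x - a) (by linarith)
      refine (hball ?_).1
      rw [Real.dist_eq, abs_of_nonneg (by linarith)]
      linarith
  · intro x hx1 hx2
    have h5 := hKb (x - a) (by linarith)
    have h6 := hKn (x - a) (by linarith)
    refine (hball ?_).2
    rw [Real.dist_eq, abs_of_nonneg (by linarith)]
    linarith

theorem CUt_B {g : ℝ → ℝ} (hg : ContDiff ℝ ∞ g) {a b M : ℝ} (hab : a < b)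
    (hgb : ∀ x, b ≤ x → 0 < deriv g x) (hM : M < g b) :
    ∃ G : ℝ → ℝ, ContDiff ℝ ∞ G ∧ (∀ x, b ≤ x → G x = g x) ∧ (∀ x, a ≤ x → 0 < deriv G x) ∧
      ∀ x, a ≤ x → x ≤ b → M < G x := by
  have hd : ∀ (u : ℝ → ℝ), ContDiff ℝ ∞ u → ∀ x, HasDerivAt (fun x => -u (-x)) (deriv u (-x)) x := by
    intro u hu x
    have h2 : HasDerivAt u (deriv u (-x)) (-x) :=
      (hu.differentiable (by simp)).differentiableAt.hasDerivAt
    have h3 := (h2.comp x (hasDerivAt_neg x)).neg
    have e : -(deriv u (-x) * -1) = deriv u (-x) := by ring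
    rw [e] at h3
    exact h3
  obtain ⟨F, hF, h1, h2, h3⟩ := CUt_A (f := fun x => -g (-x)) (a := -b) (b := -a) (M := -M)
    (hg.comp contDiff_neg).neg (by linarith)
    (fun x hx => by rw [(hd g hg x).deriv]; exact hgb _ (by linarith))
    (by simp only [neg_neg]; linarith)
  refine ⟨fun x => -F (-x), (hF.comp contDiff_neg).neg, ?_, ?_, ?_⟩
  · intro x hx
    have h4 := h1 (-x) (by linarith)
    simp only [neg_neg] at h4
    linarith
  · intro x hx
    rw [(hd F hF x).deriv]
    exact h2 _ (by linarith)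
  · intro x hx1 hx2
    have h4 := h3 (-x) (by linarith) (by linarith)
    linarith

theorem CUt_connect {f g : ℝ → ℝ} (hf : ContDiff ℝ ∞ f) (hg : ContDiff ℝ ∞ g) {a b : ℝ}
    (hab : a < b) (hfa : ∀ x ≤ a, 0 < deriv f x) (hgb : ∀ x, b ≤ x → 0 < deriv g x)
    (h : f a < g b) :
    ∃ φ : ℝ → ℝ, ContDiff ℝ ∞ φ ∧ (∀ x, 0 < deriv φ x) ∧ (∀ x ≤ a, φ x = f x) ∧
      (∀ x, b ≤ x → φ x = g x) := by
  obtain ⟨F, hF, hF1, hF2, hF3⟩ := CUt_A (M := (f a + g b) / 2) hf hab hfa (by linarith)
  obtain ⟨G, hG, hG1, hG2, hG3⟩ := CUt_B (M := (f a + g b) / 2) hg hab hgb (by linarith)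
  have hs := Pool.Agent.CSG.stp_smooth a b
  have hD : ∀ u : ℝ → ℝ, ContDiff ℝ ∞ u → ∀ x, HasDerivAt u (deriv u x) x := fun u hu x =>
    (hu.differentiable (by simp)).differentiableAt.hasDerivAt
  refine ⟨fun x => F x + stp a b x * (G x - F x), hF.add (hs.mul (hG.sub hF)), ?_, ?_, ?_⟩
  · intro x
    have h1 : HasDerivAt (fun x => F x + stp a b x * (G x - F x))
        (deriv F x + (deriv (stp a b) x * (G x - F x) + stp a b x * (deriv G x - deriv F x))) x :=
      (hD F hF x).add ((hD _ hs x).mul ((hD G hG x).sub (hD F hF x)))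
    rw [h1.deriv]
    have h2 := Pool.Agent.CSG.stp_nonneg a b x
    have h3 := Pool.Agent.CSG.stp_le_one a b x
    have h4 : 0 ≤ deriv (stp a b) x * (G x - F x) := by
      rcases lt_or_ge x a with h5 | h5
      · have h6 : stp a b =ᶠ[𝓝 x] fun _ => 0 := by
          filter_upwards [Iio_mem_nhds h5] with y hy
          exact Pool.Agent.CSG.stp_zero hab (le_of_lt hy)
        rw [h6.deriv_eq, deriv_const, zero_mul]
      · rcases lt_or_ge b x with h6 | h6
        · have h7 : stp a b =ᶠ[𝓝 x] fun _ => 1 := by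
            filter_upwards [Ioi_mem_nhds h6] with y hy
            exact Pool.Agent.CSG.stp_one hab (le_of_lt hy)
          rw [h7.deriv_eq, deriv_const, zero_mul]
        · have h7 := hF3 x h5 h6
          have h8 := hG3 x h5 h6
          exact mul_nonneg (Pool.Agent.CSG.stp_deriv_nonneg hab x) (by linarith)
    have h5 : 0 < (1 - stp a b x) * deriv F x + stp a b x * deriv G x := by
      rcases le_or_gt x a with h6 | h6
      · rw [Pool.Agent.CSG.stp_zero hab h6]
        have := hF2 x (by linarith)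
        linarith
      · rcases le_or_gt b x with h7 | h7
        · rw [Pool.Agent.CSG.stp_one hab h7]
          have := hG2 x (by linarith)
          linarith
        · have h8 := hF2 x h7.le
          have h9 := hG2 x h6.le
          have h10 := Pool.Agent.CSG.stp_lt_one hab h7
          have h11 : 0 < (1 - stp a b x) * deriv F x := mul_pos (by linarith) h8
          have h12 : 0 ≤ stp a b x * deriv G x := mul_nonneg h2 h9.le
          linarith
    nlinarith
  · intro x hx
    change F x + stp a b x * (G x - F x) = f x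
    rw [Pool.Agent.CSG.stp_zero hab hx, hF1 x hx]
    ring
  · intro x hx
    change F x + stp a b x * (G x - F x) = g x
    rw [Pool.Agent.CSG.stp_one hab hx, hG1 x hx]
    ring


theorem CUt_log {α : ℝ → ℂ} (hα : ContDiff ℝ ∞ α) (hne : ∀ l, α l ≠ 0) :
    ∃ A₀ : ℝ → ℂ, ContDiff ℝ ∞ A₀ ∧ (∀ l, Complex.exp (A₀ l) = α l) ∧
      ∀ l, HasDerivAt A₀ (deriv α l / α l) l := by
  have hd : ContDiff ℝ ∞ (deriv α) := by
    have := (contDiff_infty_iff_deriv.1 hα).2
    exact this
  have hq : ContDiff ℝ ∞ fun l => deriv α l / α l := by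
    have h3 : ContDiff ℝ ∞ fun l => deriv α l * (α l)⁻¹ := hd.mul (hα.inv hne)
    have e : (fun l => deriv α l / α l) = fun l => deriv α l * (α l)⁻¹ := funext fun l => div_eq_mul_inv _ _
    rw [e]
    exact h3
  have hqc := hq.continuous
  have hder : ∀ l, HasDerivAt (fun l => Complex.log (α 0) + ∫ s in (0 : ℝ)..l, deriv α s / α s)
      (deriv α l / α l) l := by
    intro l
    have := intervalIntegral.integral_hasDerivAt_right (hqc.intervalIntegrable 0 l)
      (hqc.stronglyMeasurableAtFilter _ _) hqc.continuousAt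
    exact this.const_add _
  refine ⟨fun l => Complex.log (α 0) + ∫ s in (0 : ℝ)..l, deriv α s / α s, ?_, ?_, hder⟩
  · rw [contDiff_infty_iff_deriv]
    refine ⟨fun l => (hder l).differentiableAt, ?_⟩
    have e : deriv (fun l => Complex.log (α 0) + ∫ s in (0 : ℝ)..l, deriv α s / α s) =
        fun l => deriv α l / α l := funext fun l => (hder l).deriv
    rw [e]
    exact hq
  · intro l
    have hαd : ∀ x, HasDerivAt α (deriv α x) x := fun x =>
      ((hα.differentiable (by simp)) x).hasDerivAt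
    have hE : ∀ x, HasDerivAt (fun x => α x * Complex.exp (-(Complex.log (α 0) +
        ∫ s in (0 : ℝ)..x, deriv α s / α s))) 0 x := by
      intro x
      have h1 := ((hder x).neg.cexp)
      have h2 := (hαd x).mul h1
      refine h2.congr_deriv ?_
      have := hne x
      simp only [Pi.neg_apply]
      field_simp
      ring
    have hconst := is_const_of_deriv_eq_zero (f := fun x => α x * Complex.exp (-(Complex.log (α 0) +
        ∫ s in (0 : ℝ)..x, deriv α s / α s))) (fun x => (hE x).differentiableAt) (fun x => (hE x).deriv) l 0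
    simp only [intervalIntegral.integral_same, add_zero, Complex.exp_neg, Complex.exp_log (hne 0),
      mul_inv_cancel₀ (hne 0)] at hconst
    have h3 := Complex.exp_ne_zero (Complex.log (α 0) + ∫ s in (0 : ℝ)..l, deriv α s / α s)
    rw [← div_eq_mul_inv, div_eq_one_iff_eq h3] at hconst
    exact hconst.symm


theorem CUt_param (n : ℕ) : ∀ (G : Type) [NormedAddCommGroup G] [NormedSpace ℝ G] [CompleteSpace G]
    (F : ℝ → ℝ → G), ContDiff ℝ n (Function.uncurry F) →
      ContDiff ℝ n (fun x : ℝ => ∫ t in (0 : ℝ)..1, F x t) := by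
  induction n with
  | zero =>
    intro G _ _ _ F hF
    rw [Nat.cast_zero, contDiff_zero] at hF ⊢
    exact intervalIntegral.continuous_parametric_intervalIntegral_of_continuous' hF 0 1
  | succ n ih =>
    intro G _ _ _ F hF
    have hn : ((n + 1 : ℕ) : WithTop ℕ∞) ≠ 0 := by
      norm_cast
    have h1 : Differentiable ℝ (Function.uncurry F) := hF.differentiable hn
    have hcF : Continuous (Function.uncurry F) := hF.continuous
    set F' : ℝ → ℝ → ℝ →L[ℝ] G :=
      fun x t => (fderiv ℝ (Function.uncurry F) (x, t)).comp (ContinuousLinearMap.inl ℝ ℝ ℝ) with hF'd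
    have hF' : ContDiff ℝ n (Function.uncurry F') := by
      have h2 : ContDiff ℝ n (fderiv ℝ (Function.uncurry F)) :=
        hF.fderiv_right (by rw [Nat.cast_succ])
      have h3 := h2.clm_comp (contDiff_const (c := ContinuousLinearMap.inl ℝ ℝ ℝ))
      exact h3
    rw [Nat.cast_succ, contDiff_succ_iff_hasFDerivAt]
    refine ⟨fun x => ∫ t in (0 : ℝ)..1, F' x t, ih _ F' hF', fun x => ?_⟩
    have hcF' : Continuous (Function.uncurry F') := hF'.continuous
    obtain ⟨C, hC⟩ := ((isCompact_closedBall x 1).prod (isCompact_Icc (a := (0 : ℝ)) (b := 1))).exists_bound_of_continuousOn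
      hcF'.continuousOn
    refine intervalIntegral.hasFDerivAt_integral_of_dominated_of_fderiv_le (μ := volume) (bound := fun _ => C)
      (Metric.closedBall_mem_nhds x one_pos) ?_ ?_ ?_ ?_ ?_ ?_
    · exact Eventually.of_forall fun y =>
        (hcF.comp (by fun_prop : Continuous fun t : ℝ => (y, t))).aestronglyMeasurable
    · exact (hcF.comp (by fun_prop : Continuous fun t : ℝ => (x, t))).intervalIntegrable 0 1
    · exact (hcF'.comp (by fun_prop : Continuous fun t : ℝ => (x, t))).aestronglyMeasurable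
    · refine Eventually.of_forall fun t ht y hy => ?_
      rw [uIoc_of_le zero_le_one] at ht
      exact hC (y, t) ⟨hy, Ioc_subset_Icc_self ht⟩
    · exact intervalIntegrable_const
    · refine Eventually.of_forall fun t _ y _ => ?_
      have h4 : HasFDerivAt (fun y : ℝ => (y, t)) (ContinuousLinearMap.inl ℝ ℝ ℝ) y := by
        exact hasFDerivAt_prodMk_left y t
      exact (h1 (y, t)).hasFDerivAt.comp y h4

theorem CUt_param_top {F : ℝ → ℝ → ℂ} (hF : ContDiff ℝ ∞ (Function.uncurry F)) :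
    ContDiff ℝ ∞ (fun x : ℝ => ∫ t in (0 : ℝ)..1, F x t) := by
  rw [contDiff_infty] at hF ⊢
  exact fun n => CUt_param n ℂ F (hF n)

/-- Hadamard division -/
theorem CUt_div {f : ℝ → ℂ} (hf : ContDiff ℝ ∞ f) {a : ℝ} (ha : f a = 0) :
    ∃ q : ℝ → ℂ, ContDiff ℝ ∞ q ∧ (∀ x, f x = ((x - a : ℝ) : ℂ) * q x) ∧ q a = deriv f a := by
  have hf' : ContDiff ℝ ∞ (deriv f) := (contDiff_infty_iff_deriv.1 hf).2
  refine ⟨fun x => ∫ t in (0 : ℝ)..1, deriv f (a + t * (x - a)), ?_, ?_, ?_⟩
  · refine CUt_param_top (F := fun x t => deriv f (a + t * (x - a))) ?_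
    exact hf'.comp (by fun_prop : ContDiff ℝ ∞ fun p : ℝ × ℝ => a + p.2 * (p.1 - a))
  · intro x
    have h1 : ∀ t : ℝ, HasDerivAt (fun t : ℝ => f (a + t * (x - a)))
        (((x - a : ℝ) : ℂ) * deriv f (a + t * (x - a))) t := by
      intro t
      have h2 : HasDerivAt (fun t : ℝ => a + t * (x - a)) (x - a) t := by
        simpa using ((hasDerivAt_id t).mul_const (x - a)).const_add a
      have h3 : HasDerivAt f (deriv f (a + t * (x - a))) (a + t * (x - a)) :=
        ((hf.differentiable (by simp)) _).hasDerivAt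
      have h4 := h3.scomp t h2
      refine h4.congr_deriv ?_
      simp
    have h5 := intervalIntegral.integral_eq_sub_of_hasDerivAt (a := 0) (b := 1) (fun t _ => h1 t)
      (by
        refine Continuous.intervalIntegrable ?_ _ _
        exact continuous_const.mul (hf'.continuous.comp (by fun_prop)))
    simp only [one_mul, zero_mul, add_zero, add_sub_cancel, ha, sub_zero] at h5
    rw [← h5, intervalIntegral.integral_const_mul]
  · simp

/-- a smooth retraction to a neighbourhood of an interval -/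
theorem CUt_clamp {a b e : ℝ} (hab : a ≤ b) (he : 0 < e) :
    ∃ κ : ℝ → ℝ, ContDiff ℝ ∞ κ ∧ (∀ x ∈ Icc a b, κ x = x) ∧ ∀ x, κ x ∈ Icc (a - e) (b + e) := by
  set m : ℝ → ℝ := fun x => stp (a - e) a x * (1 - stp b (b + e) x) with hm
  have hms : ContDiff ℝ ∞ m :=
    (Pool.Agent.CSG.stp_smooth _ _).mul (contDiff_const.sub (Pool.Agent.CSG.stp_smooth _ _))
  have hm0 : ∀ x, 0 ≤ m x := fun x => mul_nonneg (Pool.Agent.CSG.stp_nonneg _ _ _)
    (by linarith [Pool.Agent.CSG.stp_le_one b (b + e) x])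
  have hm1 : ∀ x, m x ≤ 1 := fun x => by
    have h1 := Pool.Agent.CSG.stp_nonneg (a - e) a x
    have h2 := Pool.Agent.CSG.stp_le_one (a - e) a x
    have h3 := Pool.Agent.CSG.stp_nonneg b (b + e) x
    have h4 := Pool.Agent.CSG.stp_le_one b (b + e) x
    simp only [hm]
    nlinarith
  obtain ⟨P, hP, hP0, hPd⟩ := CUt_prim hms
  have hconst : ∀ s : Set ℝ, Convex ℝ s → (∀ x ∈ s, m x = 0) → ∀ x ∈ s, ∀ y ∈ s, P y = P x := by
    intro s hs h x hx y hy
    exact CUt_const hs hPd h hx hy
  have hlin : ∀ x ∈ Icc a b, P x - x = P a - a := by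
    intro x hx
    refine CUt_const (f := fun x => P x - x) (f' := fun x => m x - 1) (s := Icc a b) (convex_Icc a b)
      (fun x => (hPd x).sub (hasDerivAt_id x)) ?_ (left_mem_Icc.2 hab) hx
    intro y hy
    simp only [hm]
    rw [Pool.Agent.CSG.stp_one (by linarith) hy.1, Pool.Agent.CSG.stp_zero (by linarith) hy.2]
    ring
  have hmono : Monotone P := monotone_of_deriv_nonneg (fun x => (hPd x).differentiableAt)
    (fun x => by rw [(hPd x).deriv]; exact hm0 x)
  have hanti : Antitone fun x => P x - x := by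
    have hd : ∀ x, HasDerivAt (fun x => P x - x) (m x - 1) x := fun x => (hPd x).sub (hasDerivAt_id x)
    refine antitone_of_deriv_nonpos (fun x => (hd x).differentiableAt) ?_
    intro x
    rw [(hd x).deriv]
    linarith [hm1 x]
  refine ⟨fun x => P x - P a + a, (hP.sub contDiff_const).add contDiff_const, ?_, ?_⟩
  · intro x hx
    have := hlin x hx
    linarith
  · intro x
    have hz0 : ∀ y ∈ Iic (a - e), m y = 0 := fun y hy => by
      simp only [hm]
      rw [Pool.Agent.CSG.stp_zero (by linarith) hy, zero_mul]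
    have hz1 : ∀ y ∈ Ici (b + e), m y = 0 := fun y hy => by
      simp only [hm]
      rw [Pool.Agent.CSG.stp_one (a := b) (by linarith) hy, sub_self, mul_zero]
    constructor
    · have h1 : P a - e ≤ P (a - e) := by
        have := hanti (show a - e ≤ a by linarith)
        simp only at this
        linarith
      rcases le_total x (a - e) with h | h
      · have := hconst _ (convex_Iic (a - e)) hz0 (a - e) (mem_Iic.2 le_rfl) x (mem_Iic.2 h)
        linarith
      · have := hmono h
        linarith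
    · have h1 : P (b + e) ≤ P b + e := by
        have := hanti (show b ≤ b + e by linarith)
        simp only at this
        linarith
      have h2 := hlin b (right_mem_Icc.2 hab)
      rcases le_total x (b + e) with h | h
      · have := hmono h
        linarith
      · have := hconst _ (convex_Ici (b + e)) hz1 (b + e) (mem_Ici.2 le_rfl) x (mem_Ici.2 h)
        linarith

/-- smooth angle on an interval -/
theorem Cexists_angle {q : ℝ → ℂ} (hq : ContDiff ℝ ∞ q) {a b : ℝ} (hab : a ≤ b)
    (hne : ∀ x ∈ Icc a b, q x ≠ 0) :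
    ∃ θ : ℝ → ℝ, ContDiff ℝ ∞ θ ∧ ∀ x ∈ Icc a b, q x = (‖q x‖ : ℂ) * ex (θ x) := by
  have h1 : ∃ e > 0, ∀ x ∈ Icc (a - e) (b + e), q x ≠ 0 := by
    have hO : IsOpen {x : ℝ | q x ≠ 0} := isOpen_ne_fun hq.continuous continuous_const
    obtain ⟨e, he, hsub⟩ := (isCompact_Icc (a := a) (b := b)).exists_thickening_subset_open hO
      (fun x hx => hne x hx)
    refine ⟨e / 2, by linarith, fun x hx => hsub ?_⟩
    rw [Metric.mem_thickening_iff]
    rcases le_total x a with h | h
    · exact ⟨a, left_mem_Icc.2 hab, by rw [Real.dist_eq, abs_of_nonpos (by linarith)]; linarith [hx.1]⟩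
    rcases le_total b x with h' | h'
    · exact ⟨b, right_mem_Icc.2 hab, by rw [Real.dist_eq, abs_of_nonneg (by linarith)]; linarith [hx.2]⟩
    · exact ⟨x, ⟨h, h'⟩, by rw [dist_self]; exact he⟩
  obtain ⟨e, he, hne'⟩ := h1
  obtain ⟨κ, hκ, hκ1, hκ2⟩ := CUt_clamp hab he
  obtain ⟨A, hA, hA1, -⟩ := CUt_log (α := q ∘ κ) (hq.comp hκ) (fun x => hne' _ (hκ2 x))
  refine ⟨fun x => (A x).im / (2 * Real.pi), ?_, ?_⟩
  · exact (Complex.imCLM.contDiff.comp hA).div_const _
  · intro x hx
    have h2 := hA1 x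
    simp only [Function.comp_apply, hκ1 x hx] at h2
    rw [← h2]
    unfold ex
    rw [Complex.norm_exp]
    conv_lhs => rw [← Complex.re_add_im (A x), Complex.exp_add]
    congr 1
    · exact (Complex.ofReal_exp _).symm
    · congr 2
      have := Real.pi_pos
      push_cast
      field_simp

end Pool.Agent.KNT
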