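import Pool.Agent.KNT.RepI
import Pool.Agent.KNT.LocI

/-!
# KNT/CoreS: conditions along the core are enough for thin strips

PROOF of `strips_of_core`. `K = [0,1] × [0, 1 + t]`, compact; a condition which holds on a neighbourhood of
`{(l, (x, 0))}` holds for `|y| ≤ e₀` (`near_pos`). Write `G (l, q) = (l, Φ l q)`.
 (a) immersion: `G` has injective derivative at `(l, (x, 0))` (`inj_param`), so by `imm_near` near these points;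
     injectivity of the derivative of `G` at `(l, q)` implies that of `fderiv ℝ (Φ l) q` (apply it to `(0, v)`).
 (b) injectivity: `G` is injective on `K × {0}`, use `inj_near`: for small `e₀` all `Φ l` are injective on
     `[0, 1 + t] × [-e₀, e₀]`.
 (c) `avoid`: the set `{(l, q) | Φ l q ∉ Λ}` is open.
 (d) `off`: we have to show that near every point `(l₀, (x₀, 0))` of `K × {0}`, `l ∈ [0, 1]`, `x ≥ 0`:
     `(Φ l (x, y)).1 = 0 → x = 0 ∨ (x, y) = (1, 0)` (then cover the compact set: `near_pos` for a set which is a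
     neighbourhood of each point; e.g. `IsCompact.induction_on`, or the set of good points contains an open set).
     If `x₀ ≠ 0, 1`: `(Φ l q).1 ≠ 0` nearby. If `x₀ = 0`: the map `(l, (x, y)) ↦ (l, (Φ l (x, y)).1, y)` has injective
     derivative at `(l₀, 0)`: in the direction of `x` it is `∂_x w`, which is `≠ 0`, since `∂_y Φ (0,0) ∈ {0} × ℝ`
     (`footU`, `foot`) and the derivative of `Φ l₀` is injective. So it is locally injective (`loc_inj`), and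
     `(Φ l (x, y)).1 = 0 = (Φ l (0, y)).1` (`|y| ≤ 1`) implies `x = 0`. If `x₀ = 1`: the map `(l, q) ↦ (l, (Φ l q).1)` has
     injective derivative at `(l₀, (1, 0))` by `trv` (`inj_param`), is locally injective, and `(Φ l (1, 0)).1 = 0`
     (`tip`) gives `q = (1, 0)`.
Then `thin e (Φ l) (x, y) = Φ l (x, e y)` is a strip for `0 < e ≤ e₀ ≤ 1`: `imm`, `trv` by the chain rule with
`(x, y) ↦ (x, e y)`.
`coreFam_const`: the constant family.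
-/

open scoped ContDiff Topology
open Set Filter
open Pool.Agent.CSG (stp)
open Pool.Agent.RSG (ex)

namespace Pool.Agent.KNT

/-- the linear map `(x, y) ↦ (x, e y)` -/
noncomputable def CoreS_M (e : ℝ) : ℝ × ℝ →L[ℝ] ℝ × ℝ :=
  (ContinuousLinearMap.fst ℝ ℝ ℝ).prod (e • ContinuousLinearMap.snd ℝ ℝ ℝ)

theorem CoreS_M_apply (e : ℝ) (q : ℝ × ℝ) : CoreS_M e q = (q.1, e * q.2) := rfl

theorem CoreS_M_inj {e : ℝ} (he : 0 < e) : Function.Injective (CoreS_M e) := by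
  intro u v huv
  rw [CoreS_M_apply, CoreS_M_apply] at huv
  obtain ⟨h1, h2⟩ := Prod.mk.inj huv
  exact Prod.ext h1 (mul_left_cancel₀ he.ne' h2)

section CoreSaux

variable {Λ : Set (ℂ × ℝ)} {t : ℝ} {Φ : ℝ → ℝ × ℝ → ℂ × ℝ}

theorem CoreS_sml (h : CoreFam Λ t Φ) (l : ℝ) : ContDiff ℝ ∞ (Φ l) := by
  have h1 : ContDiff ℝ ∞ fun q : ℝ × ℝ => ((l, q) : ℝ × (ℝ × ℝ)) :=
    contDiff_const.prodMk contDiff_id
  exact h.sm.comp h1

theorem CoreS_Gsm (h : CoreFam Λ t Φ) :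
    ContDiff ℝ ∞ (fun p : ℝ × (ℝ × ℝ) => (p.1, Φ p.1 p.2)) :=
  contDiff_fst.prodMk h.sm

theorem CoreS_Ginj (h : CoreFam Λ t Φ) {l x : ℝ} (hl : l ∈ Icc (0 : ℝ) 1) (hx : x ∈ Icc 0 (1 + t)) :
    Function.Injective (fderiv ℝ (fun p : ℝ × (ℝ × ℝ) => (p.1, Φ p.1 p.2)) (l, (x, 0))) := by
  apply inj_param (h := fun p : ℝ × (ℝ × ℝ) => Φ p.1 p.2)
  · exact (h.sm.differentiable (by simp)) _
  · exact h.imm l hl x hx

theorem CoreS_imm_of (h : CoreFam Λ t Φ) {l : ℝ} {q : ℝ × ℝ}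
    (hi : Function.Injective (fderiv ℝ (fun p : ℝ × (ℝ × ℝ) => (p.1, Φ p.1 p.2)) (l, q))) :
    Function.Injective (fderiv ℝ (Φ l) q) := by
  have h1 : HasFDerivAt (fun p : ℝ × (ℝ × ℝ) => (p.1, Φ p.1 p.2))
      (fderiv ℝ (fun p : ℝ × (ℝ × ℝ) => (p.1, Φ p.1 p.2)) (l, q)) (l, q) :=
    (((CoreS_Gsm h).differentiable (by simp)) _).hasFDerivAt
  have h2 : HasFDerivAt (fun q : ℝ × ℝ => ((l, q) : ℝ × (ℝ × ℝ)))
      ((0 : ℝ × ℝ →L[ℝ] ℝ).prod (ContinuousLinearMap.id ℝ (ℝ × ℝ))) q :=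
    (hasFDerivAt_const l q).prodMk (hasFDerivAt_id q)
  have h3 := HasFDerivAt.comp q h1 h2
  have h4 : HasFDerivAt (fun q : ℝ × ℝ => (l, Φ l q))
      ((0 : ℝ × ℝ →L[ℝ] ℝ).prod (fderiv ℝ (Φ l) q)) q :=
    (hasFDerivAt_const l q).prodMk (((CoreS_sml h l).differentiable (by simp)) q).hasFDerivAt
  have h5 := h3.unique h4
  intro u v huv
  have h6 : ((0 : ℝ × ℝ →L[ℝ] ℝ).prod (fderiv ℝ (Φ l) q)) u =
      ((0 : ℝ × ℝ →L[ℝ] ℝ).prod (fderiv ℝ (Φ l) q)) v := by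
    rw [ContinuousLinearMap.prod_apply, ContinuousLinearMap.prod_apply, huv]
    rfl
  rw [← h5] at h6
  have h7 := hi h6
  exact congrArg Prod.snd h7

/-- near the foot -/
theorem CoreS_foot (h : CoreFam Λ t Φ) {l₀ : ℝ} (hl₀ : l₀ ∈ Icc (0 : ℝ) 1) :
    ∀ᶠ p : ℝ × (ℝ × ℝ) in 𝓝 (l₀, (0, 0)), p.1 ∈ Icc (0 : ℝ) 1 → |p.2.2| ≤ 1 →
      (Φ p.1 p.2).1 = 0 → p.2.1 = 0 := by
  have ht := h.pos
  have hz : ∀ y : ℝ, |y| ≤ 1 → ∀ l ∈ Icc (0 : ℝ) 1, (Φ l (0, y)).1 = 0 := by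
    intro y hy l hl
    rw [h.foot l hl y hy]
    exact h.footU y hy
  have hsm : ContDiff ℝ ∞ (fun p : ℝ × (ℝ × ℝ) => ((Φ p.1 p.2).1, p.2.2)) :=
    (contDiff_fst.comp h.sm).prodMk (contDiff_snd.comp contDiff_snd)
  have hsm2 : ContDiff ℝ ∞ (fun p : ℝ × (ℝ × ℝ) => (p.1, ((Φ p.1 p.2).1, p.2.2))) :=
    contDiff_fst.prodMk hsm
  have hD : HasFDerivAt (Φ l₀) (fderiv ℝ (Φ l₀) (0, 0)) (0, 0) :=
    (((CoreS_sml h l₀).differentiable (by simp)) _).hasFDerivAt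
  have hDi : Function.Injective (fderiv ℝ (Φ l₀) (0, 0)) :=
    h.imm l₀ hl₀ 0 ⟨le_rfl, by linarith⟩
  have hD1 : HasFDerivAt (fun q : ℝ × ℝ => ((Φ l₀ q).1, q.2))
      (((ContinuousLinearMap.fst ℝ ℂ ℝ).comp (fderiv ℝ (Φ l₀) (0, 0))).prod
        (ContinuousLinearMap.snd ℝ ℝ ℝ)) (0, 0) :=
    ((hasFDerivAt_fst).comp (0, 0) hD).prodMk hasFDerivAt_snd
  -- derivative along the foot
  have hy : (fderiv ℝ (Φ l₀) (0, 0) (0, 1)).1 = 0 := by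
    have h1 : HasDerivAt (fun y : ℝ => ((0 : ℝ), y)) ((0 : ℝ), (1 : ℝ)) 0 :=
      (hasDerivAt_const 0 (0 : ℝ)).prodMk (hasDerivAt_id 0)
    have h2 : HasDerivAt (fun y : ℝ => Φ l₀ (0, y)) (fderiv ℝ (Φ l₀) (0, 0) (0, 1)) 0 :=
      HasFDerivAt.comp_hasDerivAt (0 : ℝ) hD h1
    have h3 : HasDerivAt (fun y : ℝ => (Φ l₀ (0, y)).1) (fderiv ℝ (Φ l₀) (0, 0) (0, 1)).1 0 :=
      ((ContinuousLinearMap.fst ℝ ℂ ℝ).hasFDerivAt.comp_hasDerivAt (0 : ℝ) h2)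
    have h4 : (fun y : ℝ => (Φ l₀ (0, y)).1) =ᶠ[𝓝 0] fun _ => 0 := by
      have : ∀ᶠ y : ℝ in 𝓝 0, y ∈ Ioo (-1 : ℝ) 1 := Ioo_mem_nhds (by norm_num) (by norm_num)
      filter_upwards [this] with y hy
      exact hz y (abs_le.2 ⟨hy.1.le, hy.2.le⟩) l₀ hl₀
    have h5 : HasDerivAt (fun y : ℝ => (Φ l₀ (0, y)).1) 0 0 :=
      (hasDerivAt_const (0 : ℝ) (0 : ℂ)).congr_of_eventuallyEq h4
    exact h3.unique h5
  have hDi1 : Function.Injective (((ContinuousLinearMap.fst ℝ ℂ ℝ).comp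
      (fderiv ℝ (Φ l₀) (0, 0))).prod (ContinuousLinearMap.snd ℝ ℝ ℝ)) := by
    rw [injective_iff_map_eq_zero]
    rintro ⟨u, v⟩ huv
    obtain ⟨h1, h2⟩ := Prod.mk.inj (huv : ((fderiv ℝ (Φ l₀) (0, 0) (u, v)).1, v) = (0, 0))
    subst h2
    obtain ⟨D, hDe⟩ : ∃ D, D = fderiv ℝ (Φ l₀) (0, 0) := ⟨_, rfl⟩
    rw [← hDe] at hDi hy
    have h1' : (D (u, 0)).1 = 0 := by
      rw [hDe]
      exact h1
    have hd : (D (0, 1)).2 ≠ 0 := by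
      intro h0
      have h3 : D (0, 1) = D 0 := by
        rw [map_zero]
        exact Prod.ext hy h0
      have h4 := hDi h3
      have h5 : (1 : ℝ) = 0 := congrArg Prod.snd h4
      norm_num at h5
    have h6 : D (u, 0) = D (((D (u, 0)).2 / (D (0, 1)).2) • (0, 1)) := by
      rw [map_smul]
      refine Prod.ext ?_ ?_
      · rw [Prod.smul_fst, hy, smul_zero, h1']
      · rw [Prod.smul_snd, smul_eq_mul]
        field_simp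
    have h7 := hDi h6
    have h8 : u = ((D (u, 0)).2 / (D (0, 1)).2) * 0 := congrArg Prod.fst h7
    rw [mul_zero] at h8
    rw [h8]
    rfl
  have hi : Function.Injective (fderiv ℝ (fun p : ℝ × (ℝ × ℝ) => (p.1, ((Φ p.1 p.2).1, p.2.2)))
      (l₀, (0, 0))) := by
    apply inj_param (h := fun p : ℝ × (ℝ × ℝ) => ((Φ p.1 p.2).1, p.2.2))
    · exact (hsm.differentiable (by simp)) _
    · change Function.Injective (fderiv ℝ (fun q : ℝ × ℝ => ((Φ l₀ q).1, q.2)) (0, 0))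
      rw [hD1.fderiv]
      exact hDi1
  obtain ⟨u, hu, hinj⟩ := loc_inj (hsm2.contDiffAt.of_le (by simp)) hi
  obtain ⟨r, hr, hru⟩ := Metric.mem_nhds_iff.1 hu
  filter_upwards [Metric.ball_mem_nhds _ hr]
  rintro ⟨l, x, y⟩ hp hl hy1 h0
  have h1 : ((l, ((0 : ℝ), y)) : ℝ × (ℝ × ℝ)) ∈ Metric.ball ((l₀, (0, 0)) : ℝ × (ℝ × ℝ)) r := by
    rw [Metric.mem_ball, Prod.dist_eq, Prod.dist_eq] at hp ⊢
    simp only [dist_self] at hp ⊢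
    refine lt_of_le_of_lt ?_ hp
    gcongr
    exact dist_nonneg
  have h2 := hinj (hru hp) (hru h1) (by
    simp only
    have h3 : (Φ l (x, y)).1 = 0 := h0
    rw [h3, hz y hy1 l hl])
  have h3 := congrArg (fun p : ℝ × (ℝ × ℝ) => p.2.1) h2
  exact h3

/-- near the tip -/
theorem CoreS_tip (h : CoreFam Λ t Φ) {l₀ : ℝ} (hl₀ : l₀ ∈ Icc (0 : ℝ) 1) :
    ∀ᶠ p : ℝ × (ℝ × ℝ) in 𝓝 (l₀, (1, 0)), p.1 ∈ Icc (0 : ℝ) 1 →
      (Φ p.1 p.2).1 = 0 → p.2 = (1, 0) := by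
  have hsm : ContDiff ℝ ∞ (fun p : ℝ × (ℝ × ℝ) => (Φ p.1 p.2).1) := contDiff_fst.comp h.sm
  have hsm2 : ContDiff ℝ ∞ (fun p : ℝ × (ℝ × ℝ) => (p.1, (Φ p.1 p.2).1)) :=
    contDiff_fst.prodMk hsm
  have hi : Function.Injective (fderiv ℝ (fun p : ℝ × (ℝ × ℝ) => (p.1, (Φ p.1 p.2).1))
      (l₀, (1, 0))) := by
    apply inj_param (h := fun p : ℝ × (ℝ × ℝ) => (Φ p.1 p.2).1)
    · exact (hsm.differentiable (by simp)) _
    · exact h.trv l₀ hl₀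
  obtain ⟨u, hu, hinj⟩ := loc_inj (hsm2.contDiffAt.of_le (by simp)) hi
  obtain ⟨r, hr, hru⟩ := Metric.mem_nhds_iff.1 hu
  filter_upwards [Metric.ball_mem_nhds _ hr]
  rintro ⟨l, q⟩ hp hl h0
  have h1 : ((l, ((1 : ℝ), (0 : ℝ))) : ℝ × (ℝ × ℝ)) ∈
      Metric.ball ((l₀, (1, 0)) : ℝ × (ℝ × ℝ)) r := by
    rw [Metric.mem_ball, Prod.dist_eq] at hp ⊢
    simp only [dist_self] at hp ⊢
    refine lt_of_le_of_lt ?_ hp
    gcongr
    exact dist_nonneg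
  have h2 := hinj (hru hp) (hru h1) (by
    simp only
    have h3 : (Φ l q).1 = 0 := h0
    rw [h3, h.tip l hl])
  exact congrArg (fun p : ℝ × (ℝ × ℝ) => p.2) h2

theorem CoreS_off (h : CoreFam Λ t Φ) {l₀ x₀ : ℝ} (hl₀ : l₀ ∈ Icc (0 : ℝ) 1)
    (hx₀ : x₀ ∈ Icc 0 (1 + t)) :
    ∀ᶠ p : ℝ × (ℝ × ℝ) in 𝓝 (l₀, (x₀, 0)), p.1 ∈ Icc (0 : ℝ) 1 → |p.2.2| ≤ 1 →
      (Φ p.1 p.2).1 = 0 → p.2.1 = 0 ∨ p.2 = (1, 0) := by
  by_cases h0 : x₀ = 0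
  · rw [h0]
    filter_upwards [CoreS_foot h hl₀] with p hp a1 a2 a3
    exact Or.inl (hp a1 a2 a3)
  by_cases h1 : x₀ = 1
  · rw [h1]
    filter_upwards [CoreS_tip h hl₀] with p hp a1 _ a3
    exact Or.inr (hp a1 a3)
  · have hne : (Φ l₀ (x₀, 0)).1 ≠ 0 := by
      intro h2
      rcases h.off l₀ hl₀ x₀ hx₀ h2 with h3 | h3
      · exact h0 h3
      · exact h1 h3
    have hc : ContinuousAt (fun p : ℝ × (ℝ × ℝ) => (Φ p.1 p.2).1) (l₀, (x₀, 0)) :=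
      (contDiff_fst.comp h.sm).continuous.continuousAt
    filter_upwards [hc.eventually_ne hne] with p hp _ _ a3
    exact absurd a3 hp

end CoreSaux

theorem strips_of_core {Λ : Set (ℂ × ℝ)} {t : ℝ} {Φ : ℝ → ℝ × ℝ → ℂ × ℝ} (h : CoreFam Λ t Φ)
    (hΛ : IsClosed Λ) : ∃ e₀ : ℝ, 0 < e₀ ∧ e₀ ≤ 1 ∧ ∀ e : ℝ, 0 < e → e ≤ e₀ → ∀ l ∈ Icc (0 : ℝ) 1,
      Strip t (thin e (Φ l)) ∧ Disjoint (thin e (Φ l) '' Rec t) Λ := by
  have ht := h.pos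
  obtain ⟨K, hKdef⟩ : ∃ K : Set (ℝ × ℝ), K = Icc (0 : ℝ) 1 ×ˢ Icc 0 (1 + t) := ⟨_, rfl⟩
  have hKc : IsCompact K := by
    rw [hKdef]
    exact isCompact_Icc.prod isCompact_Icc
  obtain ⟨K', hK'def⟩ : ∃ K' : Set (ℝ × (ℝ × ℝ)), K' = (fun p : ℝ × ℝ => (p.1, (p.2, 0))) '' K :=
    ⟨_, rfl⟩
  have hK'c : IsCompact K' := by
    rw [hK'def]
    exact hKc.image (by fun_prop)
  have hK' : ∀ p ∈ K', ∃ l ∈ Icc (0 : ℝ) 1, ∃ x ∈ Icc 0 (1 + t), p = (l, (x, 0)) := by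
    intro p hp
    rw [hK'def, hKdef] at hp
    obtain ⟨⟨l, x⟩, ⟨hl, hx⟩, rfl⟩ := hp
    exact ⟨l, hl, x, hx, rfl⟩
  have hGc : ∀ p ∈ K', ContDiffAt ℝ 1 (fun p : ℝ × (ℝ × ℝ) => (p.1, Φ p.1 p.2)) p :=
    fun p _ => ((CoreS_Gsm h).contDiffAt).of_le (by simp)
  have hGi : ∀ p ∈ K', Function.Injective
      (fderiv ℝ (fun p : ℝ × (ℝ × ℝ) => (p.1, Φ p.1 p.2)) p) := by
    intro p hp
    obtain ⟨l, hl, x, hx, rfl⟩ := hK' p hp
    exact CoreS_Ginj h hl hx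
  obtain ⟨Oa, hOa, hKa, ha⟩ := imm_near hGc hGi
  obtain ⟨Ob, hOb, hKb, hb⟩ := inj_near hK'c hGc hGi (by
    intro p hp p' hp' he
    obtain ⟨l, hl, x, hx, rfl⟩ := hK' p hp
    obtain ⟨l', hl', x', hx', rfl⟩ := hK' p' hp'
    obtain ⟨h1, h2⟩ := Prod.mk.inj he
    simp only at h1 h2
    subst h1
    have h3 : x = x' := h.inj l hl hx hx' h2
    rw [h3])
  obtain ⟨Oc, hOcdef⟩ : ∃ Oc : Set (ℝ × (ℝ × ℝ)), Oc = (fun p : ℝ × (ℝ × ℝ) => Φ p.1 p.2) ⁻¹' Λᶜ :=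
    ⟨_, rfl⟩
  have hOc : IsOpen Oc := by
    rw [hOcdef]
    exact hΛ.isOpen_compl.preimage h.sm.continuous
  have hKc' : K' ⊆ Oc := by
    intro p hp
    obtain ⟨l, hl, x, hx, rfl⟩ := hK' p hp
    rw [hOcdef]
    exact h.avoid l hl x hx
  obtain ⟨Od, hOddef⟩ : ∃ Od : Set (ℝ × (ℝ × ℝ)), Od = interior {p : ℝ × (ℝ × ℝ) |
      p.1 ∈ Icc (0 : ℝ) 1 → |p.2.2| ≤ 1 → (Φ p.1 p.2).1 = 0 → p.2.1 = 0 ∨ p.2 = (1, 0)} := ⟨_, rfl⟩
  have hOd : IsOpen Od := by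
    rw [hOddef]
    exact isOpen_interior
  have hKd : K' ⊆ Od := by
    intro p hp
    obtain ⟨l, hl, x, hx, rfl⟩ := hK' p hp
    rw [hOddef, mem_interior_iff_mem_nhds]
    exact CoreS_off h hl hx
  have hd : ∀ p ∈ Od, p.1 ∈ Icc (0 : ℝ) 1 → |p.2.2| ≤ 1 → (Φ p.1 p.2).1 = 0 →
      p.2.1 = 0 ∨ p.2 = (1, 0) := by
    intro p hp
    rw [hOddef] at hp
    exact interior_subset hp
  obtain ⟨O, hOdef⟩ : ∃ O : Set ((ℝ × ℝ) × ℝ), O = (fun p : (ℝ × ℝ) × ℝ => (p.1.1, (p.1.2, p.2))) ⁻¹'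
      (Oa ∩ Ob ∩ Oc ∩ Od) := ⟨_, rfl⟩
  have hO : IsOpen O := by
    rw [hOdef]
    exact (((hOa.inter hOb).inter hOc).inter hOd).preimage (by fun_prop)
  obtain ⟨e₁, he₁, hE⟩ := near_pos hKc hO (by
    intro p hp
    have h1 : ((p.1, (p.2, (0 : ℝ))) : ℝ × (ℝ × ℝ)) ∈ K' := by
      rw [hK'def]
      exact ⟨p, hp, rfl⟩
    rw [hOdef]
    exact ⟨⟨⟨hKa h1, hKb h1⟩, hKc' h1⟩, hKd h1⟩)
  refine ⟨min e₁ 1, lt_min he₁ one_pos, min_le_right _ _, ?_⟩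
  intro e he hele l hl
  have hee₁ : e ≤ e₁ := hele.trans (min_le_left _ _)
  have hee1 : e ≤ 1 := hele.trans (min_le_right _ _)
  have hmem : ∀ q ∈ Rec t, ((l, (q.1, e * q.2)) : ℝ × (ℝ × ℝ)) ∈ Oa ∩ Ob ∩ Oc ∩ Od := by
    intro q hq
    have h1 : ((l, q.1) : ℝ × ℝ) ∈ K := by
      rw [hKdef]
      exact ⟨hl, hq.1⟩
    have h2 : ‖e * q.2‖ ≤ e₁ := by
      rw [Real.norm_eq_abs, abs_mul, abs_of_pos he]
      have h3 : |q.2| ≤ 1 := abs_le.2 ⟨hq.2.1, hq.2.2⟩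
      nlinarith [abs_nonneg q.2]
    have h3 := hE (l, q.1) h1 (e * q.2) h2
    rw [hOdef] at h3
    exact h3
  have habs : ∀ y : ℝ, |y| ≤ 1 → |e * y| ≤ 1 := by
    intro y hy
    rw [abs_mul, abs_of_pos he]
    nlinarith [abs_nonneg y]
  have hthin : thin e (Φ l) = Φ l ∘ CoreS_M e := rfl
  have hΦl := CoreS_sml h l
  refine ⟨⟨ht, ?_, ?_, ?_, ?_, ?_, ?_, ?_⟩, ?_⟩
  · rw [hthin]
    exact hΦl.comp (CoreS_M e).contDiff
  · intro q hq q' hq' heq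
    have h1 := hb (hmem q hq).1.1.2 (hmem q' hq').1.1.2 (by
      simp only
      have h2 : Φ l (q.1, e * q.2) = Φ l (q'.1, e * q'.2) := heq
      rw [h2])
    obtain ⟨-, h2⟩ := Prod.mk.inj h1
    obtain ⟨h3, h4⟩ := Prod.mk.inj h2
    exact Prod.ext h3 (mul_left_cancel₀ he.ne' h4)
  · intro q hq
    have h1 : HasFDerivAt (Φ l) (fderiv ℝ (Φ l) (CoreS_M e q)) (CoreS_M e q) :=
      ((hΦl.differentiable (by simp)) _).hasFDerivAt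
    have h2 := HasFDerivAt.comp q h1 (CoreS_M e).hasFDerivAt
    rw [hthin, h2.fderiv]
    exact (CoreS_imm_of h (ha _ (hmem q hq).1.1.1)).comp (CoreS_M_inj he)
  · intro y hy
    change (Φ l (0, e * y)).1 = 0
    rw [h.foot l hl _ (habs y hy)]
    exact h.footU _ (habs y hy)
  · change (Φ l (1, e * 0)).1 = 0
    rw [mul_zero]
    exact h.tip l hl
  · intro q hq h0
    rcases hd _ (hmem q hq).2 hl (habs _ (abs_le.2 ⟨hq.2.1, hq.2.2⟩)) h0 with h1 | h1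
    · exact Or.inl h1
    · right
      obtain ⟨h2, h3⟩ := Prod.mk.inj h1
      have h4 : q.2 = 0 := by
        rcases mul_eq_zero.1 h3 with h5 | h5
        · exact absurd h5 he.ne'
        · exact h5
      exact Prod.ext h2 h4
  · have hs : ContDiff ℝ ∞ (fun q : ℝ × ℝ => (Φ l q).1) := contDiff_fst.comp hΦl
    have h1 : HasFDerivAt (fun q : ℝ × ℝ => (Φ l q).1)
        (fderiv ℝ (fun q : ℝ × ℝ => (Φ l q).1) (1, 0)) (CoreS_M e (1, 0)) := by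
      have h2 : CoreS_M e (1, 0) = (1, 0) := by
        rw [CoreS_M_apply]
        simp only [mul_zero]
      rw [h2]
      exact ((hs.differentiable (by simp)) _).hasFDerivAt
    have h2 := HasFDerivAt.comp (1, 0) h1 (CoreS_M e).hasFDerivAt
    have h3 : (fun q : ℝ × ℝ => (thin e (Φ l) q).1) = (fun q : ℝ × ℝ => (Φ l q).1) ∘ CoreS_M e := rfl
    rw [h3, h2.fderiv]
    exact (h.trv l hl).comp (CoreS_M_inj he)
  · rw [Set.disjoint_left]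
    rintro _ ⟨q, hq, rfl⟩ hmemΛ
    have h1 := (hmem q hq).1.2
    rw [hOcdef] at h1
    exact h1 hmemΛ

end Pool.Agent.KNT
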