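import Pool.Agent.KNT.CrsX
import Pool.Agent.KNT.PrfL
import Pool.Agent.KNT.KnB

/-!
# KNT/CrsD: the tubes of the ribbon (definitions)

`Sig` is the inverse of the profile (`exists_Sig`), `X : (-1, 1) → (a₂, b₂)` the parametrisation of `exists_X`.
`bT g k Sig X e (z, s) = Tub g k (e * Sig (X s) * re z + e * im z * I, X s)`.
-/

open scoped ContDiff Topology
open Set Filter
open Pool.Agent.CSG (stp)
open Pool.Agent.RSG (ex)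

namespace Pool.Agent.KNT

/-- coordinates of the tube -/
noncomputable def sT (Sig X : ℝ → ℝ) (e : ℝ) (q : ℂ × ℝ) : ℂ × ℝ :=
  (⟨e * Sig (X q.2) * q.1.re, e * q.1.im⟩, X q.2)

/-- the tube -/
noncomputable def bT (g k : ℝ → ℂ × ℝ) (Sig X : ℝ → ℝ) (e : ℝ) (q : ℂ × ℝ) : ℂ × ℝ :=
  Tub g k (sT Sig X e q)

/-- hypotheses on the auxiliary functions -/
structure IsSX (t a₂ a b b₂ : ℝ) (Sig X : ℝ → ℝ) : Prop where
  a₂_pos : 0 < a₂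
  a₂_lt : a₂ < a
  ab : a < b
  b_lt : b < b₂
  b₂_lt : b₂ < 1
  sig : ∀ x ∈ Ioo 0 (1 + t / 2), ContDiffAt ℝ ∞ Sig x ∧ 1 / 16 < Sig x ∧ Sig x < 1 / 8 ∧ prf t (Sig x) = x
  sig_iff : ∀ x ∈ Ioo 0 (1 + t / 2), ∀ y : ℝ, prf t y = x ↔ |y| = Sig x
  smX : ContDiff ℝ ∞ X
  dX : ∀ s, 0 < deriv X s
  monoX : StrictMono X
  X_neg : X (-1) = a₂
  X_one : X 1 = b₂
  X_b : b ≤ X (1 / 2)
  X_a : X (-(1 / 2)) ≤ a

/-- the part of the finger outside of the ribbon -/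
def Rst (t a₂ b₂ : ℝ) (Φ : ℝ × ℝ → ℂ × ℝ) : Set (ℂ × ℝ) :=
  (fun y : ℝ => Φ (prf t y, y)) '' {y | y ∈ Icc (-1 : ℝ) 1 ∧ prf t y ∉ Ioo a₂ b₂}

end Pool.Agent.KNT
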