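import Pool.Agent.KNT.CrsD
import Pool.Agent.KNT.LocI

/-!
# KNT/CrsT: the family of tubes

PROOF of `crs_tubes`. Let `T (l, q) = Tub (g l) (k l) q` (smooth: `deriv_fam_smooth`, `crp_smooth`).
(1) For `l ∈ [0,1]`, `x ∈ [a₂, b₂]` the vectors `deriv (g l) x, k l x` are independent: on `[a, b]` by `imm`; elsewhere
`g l = g 0`, `k l = k 0` (`ends`) on a neighbourhood of `x` (the complement of `[a,b]` is open), and `dat0.imm`.
So `fderiv ℝ (Tub (g l) (k l)) (0, x)` is injective (`Tub_imm`), hence `fderiv` of `Tub (g l) (k l)` at `(ζ, x)` is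
injective for `l ∈ [0,1]`, `x ∈ [a₂, b₂]`, `‖ζ‖ ≤ r` (`inj_param` for `(l, q) ↦ (l, T (l, q))`, `imm_near`, `near_pos`).
(2) `Tub (g 0) (k 0)` and `Tub (g 1) (k 1)` are injective on `{‖ζ‖ ≤ r} × [a₂, b₂]` for small `r` (`inj_near`,
`near_pos`; on `{0} × [a₂, b₂]` they are `g 0`, `g 1`, injective by `dat0.inj`, `dat1.inj`).
(3) `sT Sig X e` maps `Dom` into `{‖ζ‖ ≤ 5 e} × (a₂, b₂)`, is smooth at the points of `Dom` (`X s ∈ (a₂, b₂) ⊆
(0, 1 + t/2)`), injective on `Dom`, with injective derivative (triangular: `e Sig (X s) > 0`, `e > 0`, `X' > 0`).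
So for `5 e₀ ≤ r` all conditions hold. `ends`: for `1/2 ≤ |s| < 1` `X s ∉ Ioo a b` (`X_a`, `X_b`, monotone) and
`g l x = g 0 x`, `k l x = k 0 x`, `deriv (g l) x = deriv (g 0) x` for `x ∉ Ioo a b` (at the points `a`, `b` the derivative
is the one-sided derivative).
-/

open scoped ContDiff Topology
open Set Filter
open Pool.Agent.CSG (stp)
open Pool.Agent.RSG (ex)

namespace Pool.Agent.KNT

theorem CrsT_deriv {f f' : ℝ → ℂ × ℝ} {x : ℝ} (hf : DifferentiableAt ℝ f x)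
    (hf' : DifferentiableAt ℝ f' x) {S : Set ℝ} (hS : UniqueDiffWithinAt ℝ S x) (hx : x ∈ S)
    (he : EqOn f f' S) : deriv f x = deriv f' x := by
  rw [← hf.derivWithin hS, ← hf'.derivWithin hS]
  exact derivWithin_congr he (he hx)

theorem CrsT_gl {g : ℝ → ℝ → ℂ × ℝ} (hg : ContDiff ℝ ∞ fun p : ℝ × ℝ => g p.1 p.2) (l : ℝ) :
    ContDiff ℝ ∞ (g l) :=
  hg.comp (contDiff_const.prodMk contDiff_id)

/-- off the window the family is constant, with its derivative -/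
theorem CrsT_end {Λ : Set (ℂ × ℝ)} {t a b : ℝ} {g k : ℝ → ℝ → ℂ × ℝ} (h : CrossFam Λ t a b g k)
    {l : ℝ} (hl : l ∈ Icc (0 : ℝ) 1) {x : ℝ} (hx : x ∉ Ioo a b) :
    g l x = g 0 x ∧ k l x = k 0 x ∧ deriv (g l) x = deriv (g 0) x := by
  refine ⟨(h.ends l hl x hx).1, (h.ends l hl x hx).2, ?_⟩
  have d1 : DifferentiableAt ℝ (g l) x := ((CrsT_gl h.smg l).differentiable (by simp)) x
  have d0 : DifferentiableAt ℝ (g 0) x := ((CrsT_gl h.smg 0).differentiable (by simp)) x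
  rw [mem_Ioo, not_and_or, not_lt, not_lt] at hx
  rcases hx with hx | hx
  · refine CrsT_deriv d1 d0 (S := Iic x) (uniqueDiffOn_Iic x x self_mem_Iic) self_mem_Iic ?_
    intro y hy
    exact (h.ends l hl y (fun h0 => by
      have := h0.1
      have : y ≤ x := hy
      linarith)).1
  · refine CrsT_deriv d1 d0 (S := Ici x) (uniqueDiffOn_Ici x x self_mem_Ici) self_mem_Ici ?_
    intro y hy
    exact (h.ends l hl y (fun h0 => by
      have := h0.2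
      have : x ≤ y := hy
      linarith)).1

theorem CrsT_indep {Λ : Set (ℂ × ℝ)} {t a b : ℝ} {g k : ℝ → ℝ → ℂ × ℝ} (h : CrossFam Λ t a b g k)
    {l : ℝ} (hl : l ∈ Icc (0 : ℝ) 1) {x : ℝ} (hx : x ∈ Icc (0 : ℝ) (1 + t)) :
    LinearIndependent ℝ ![deriv (g l) x, k l x] := by
  by_cases hxI : x ∈ Ioo a b
  · exact h.imm l hl x (Ioo_subset_Icc_self hxI)
  · obtain ⟨-, h2, h3⟩ := CrsT_end h hl hxI
    rw [h2, h3]
    exact h.dat0.imm x hx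

/-- the family of tubes around the cores -/
noncomputable def CrsTT (g k : ℝ → ℝ → ℂ × ℝ) (p : ℝ × (ℂ × ℝ)) : ℂ × ℝ := Tub (g p.1) (k p.1) p.2

theorem CrsT_smooth {g k : ℝ → ℝ → ℂ × ℝ} (hg : ContDiff ℝ ∞ fun p : ℝ × ℝ => g p.1 p.2)
    (hk : ContDiff ℝ ∞ fun p : ℝ × ℝ => k p.1 p.2) : ContDiff ℝ ∞ (CrsTT g k) := by
  have e0 : ContDiff ℝ ∞ fun p : ℝ × (ℂ × ℝ) => ((p.1, p.2.2) : ℝ × ℝ) :=
    contDiff_fst.prodMk (contDiff_snd.comp contDiff_snd)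
  have e1 : ContDiff ℝ ∞ fun p : ℝ × (ℂ × ℝ) => g p.1 p.2.2 := hg.comp e0
  have e2 : ContDiff ℝ ∞ fun p : ℝ × (ℂ × ℝ) => k p.1 p.2.2 := hk.comp e0
  have e3 : ContDiff ℝ ∞ fun p : ℝ × (ℂ × ℝ) => deriv (g p.1) p.2.2 :=
    (deriv_fam_smooth hg).comp e0
  have e4 : ContDiff ℝ ∞ fun p : ℝ × (ℂ × ℝ) => p.2.1.re :=
    Complex.reCLM.contDiff.comp (contDiff_fst.comp contDiff_snd)
  have e5 : ContDiff ℝ ∞ fun p : ℝ × (ℂ × ℝ) => p.2.1.im :=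
    Complex.imCLM.contDiff.comp (contDiff_fst.comp contDiff_snd)
  exact (e1.add (e4.smul e2)).add (e5.smul (crp_smooth e3 e2))

theorem CrsT_fd {g k : ℝ → ℝ → ℂ × ℝ} (hT : ContDiff ℝ ∞ (CrsTT g k)) (l : ℝ) (q : ℂ × ℝ) :
    fderiv ℝ (Tub (g l) (k l)) q =
      (fderiv ℝ (CrsTT g k) (l, q)).comp (ContinuousLinearMap.inr ℝ ℝ (ℂ × ℝ)) := by
  have h1 : HasFDerivAt (CrsTT g k) (fderiv ℝ (CrsTT g k) (l, q)) (l, q) :=
    (hT.differentiable (by simp) (l, q)).hasFDerivAt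
  have h2 : HasFDerivAt (fun q : ℂ × ℝ => ((l, q) : ℝ × (ℂ × ℝ)))
      (ContinuousLinearMap.inr ℝ ℝ (ℂ × ℝ)) q := hasFDerivAt_prodMk_right l q
  exact (h1.comp q h2).fderiv

theorem CrsT_det (A : (ℂ × ℝ) →L[ℝ] (ℂ × ℝ)) : Function.Injective A ↔ A.det ≠ 0 := by
  rw [← isUnit_iff_ne_zero, ContinuousLinearMap.det, ← LinearMap.isUnit_iff_isUnit_det,
    LinearMap.isUnit_iff_ker_eq_bot, LinearMap.ker_eq_bot]
  rfl

/-- the tubes are immersed near the cores -/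
theorem CrsT_imm {Λ : Set (ℂ × ℝ)} {t a b a₂ b₂ : ℝ} {g k : ℝ → ℝ → ℂ × ℝ} (h : CrossFam Λ t a b g k)
    (h1 : 0 ≤ a₂) (h2 : b₂ ≤ 1 + t) : ∃ r : ℝ, 0 < r ∧ ∀ l ∈ Icc (0 : ℝ) 1, ∀ x ∈ Icc a₂ b₂,
      ∀ ζ : ℂ, ‖ζ‖ ≤ r → Function.Injective (fderiv ℝ (Tub (g l) (k l)) (ζ, x)) := by
  have hT := CrsT_smooth h.smg h.smk
  have hc : Continuous fun p : (ℝ × ℝ) × ℂ =>
      ((fderiv ℝ (CrsTT g k) (p.1.1, (p.2, p.1.2))).comp
        (ContinuousLinearMap.inr ℝ ℝ (ℂ × ℝ))).det := by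
    apply ContinuousLinearMap.continuous_det.comp
    have h3 : Continuous (fderiv ℝ (CrsTT g k)) := hT.continuous_fderiv (by simp)
    have h4 : Continuous fun p : (ℝ × ℝ) × ℂ => ((p.1.1, (p.2, p.1.2)) : ℝ × (ℂ × ℝ)) := by
      fun_prop
    exact (h3.comp h4).clm_comp continuous_const
  obtain ⟨r, hr, hr'⟩ := near_pos (K := Icc (0 : ℝ) 1 ×ˢ Icc a₂ b₂) (isCompact_Icc.prod isCompact_Icc)
    (O := {p : (ℝ × ℝ) × ℂ | ((fderiv ℝ (CrsTT g k) (p.1.1, (p.2, p.1.2))).comp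
        (ContinuousLinearMap.inr ℝ ℝ (ℂ × ℝ))).det ≠ 0}) (isOpen_ne_fun hc continuous_const)
    (fun x hx => by
      change ((fderiv ℝ (CrsTT g k) (x.1, (0, x.2))).comp
        (ContinuousLinearMap.inr ℝ ℝ (ℂ × ℝ))).det ≠ 0
      rw [← CrsT_fd hT, ← CrsT_det]
      exact Tub_imm (CrsT_gl h.smg _) (CrsT_gl h.smk _)
        (CrsT_indep h hx.1 ⟨h1.trans hx.2.1, hx.2.2.trans h2⟩))
  refine ⟨r, hr, fun l hl x hx ζ hζ => ?_⟩
  have h3 := hr' (l, x) ⟨hl, hx⟩ ζ hζ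
  change ((fderiv ℝ (CrsTT g k) (l, (ζ, x))).comp
        (ContinuousLinearMap.inr ℝ ℝ (ℂ × ℝ))).det ≠ 0 at h3
  rwa [← CrsT_fd hT, ← CrsT_det] at h3

/-- the tubes of the ends are injective near the cores -/
theorem CrsT_inj {Λ : Set (ℂ × ℝ)} {t a₂ b₂ : ℝ} {g k : ℝ → ℂ × ℝ} (h : Dat Λ t g k)
    (h1 : 0 ≤ a₂) (h2 : b₂ ≤ 1 + t) (hT : ContDiff ℝ ∞ (Tub g k)) :
    ∃ r : ℝ, 0 < r ∧ ∀ x ∈ Icc a₂ b₂, ∀ y ∈ Icc a₂ b₂, ∀ ζ ξ : ℂ, ‖ζ‖ ≤ r → ‖ξ‖ ≤ r →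
      Tub g k (ζ, x) = Tub g k (ξ, y) → ζ = ξ ∧ x = y := by
  have h0 : ∀ x, Tub g k (0, x) = g x := by
    intro x
    simp [Tub]
  obtain ⟨O, hO, hKO, hinj⟩ := inj_near (f := Tub g k) (K := ({0} : Set ℂ) ×ˢ Icc a₂ b₂)
    (isCompact_singleton.prod isCompact_Icc) (fun x _ => (hT.of_le (by simp)).contDiffAt)
    (fun x hx => by
      have h3 : x = (0, x.2) := Prod.ext hx.1 rfl
      rw [h3]
      exact Tub_imm h.smg h.smk (h.imm x.2 ⟨h1.trans hx.2.1, hx.2.2.trans h2⟩))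
    (fun x hx y hy hxy => by
      have h3 : x = (0, x.2) := Prod.ext hx.1 rfl
      have h4 : y = (0, y.2) := Prod.ext hy.1 rfl
      rw [h3, h4, h0, h0] at hxy
      rw [h3, h4, h.inj ⟨h1.trans hx.2.1, hx.2.2.trans h2⟩ ⟨h1.trans hy.2.1, hy.2.2.trans h2⟩ hxy])
  obtain ⟨r, hr, hr'⟩ := near_pos (K := Icc a₂ b₂) isCompact_Icc (V := ℂ)
    (O := (Prod.swap : ℝ × ℂ → ℂ × ℝ) ⁻¹' O) (hO.preimage continuous_swap)
    (fun x hx => hKO ⟨rfl, hx⟩)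
  refine ⟨r, hr, fun x hx y hy ζ ξ hζ hξ he => ?_⟩
  have h3 := hinj (hr' x hx ζ hζ) (hr' y hy ξ hξ) he
  exact ⟨congrArg Prod.fst h3, congrArg Prod.snd h3⟩

section sT
variable {t a₂ a b b₂ : ℝ} {Sig X : ℝ → ℝ}

theorem CrsT_X (hS : IsSX t a₂ a b b₂ Sig X) {q : ℂ × ℝ} (hq : q ∈ Dom) : X q.2 ∈ Ioo a₂ b₂ := by
  have h1 := abs_lt.1 hq.2
  constructor
  · rw [← hS.X_neg]
    exact hS.monoX h1.1
  · rw [← hS.X_one]
    exact hS.monoX h1.2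

theorem CrsT_sTsm (ht : 0 < t) (hS : IsSX t a₂ a b b₂ Sig X) (e : ℝ) {q : ℂ × ℝ} (hq : q ∈ Dom) :
    ContDiffAt ℝ ∞ (sT Sig X e) q := by
  have h1 := CrsT_X hS hq
  have h2 : X q.2 ∈ Ioo 0 (1 + t / 2) :=
    ⟨hS.a₂_pos.trans h1.1, h1.2.trans (hS.b₂_lt.trans (by linarith))⟩
  have e1 : ContDiffAt ℝ ∞ (fun q : ℂ × ℝ => X q.2) q := (hS.smX.comp contDiff_snd).contDiffAt
  have e2 : ContDiffAt ℝ ∞ (fun q : ℂ × ℝ => Sig (X q.2)) q :=
    ContDiffAt.comp q (g := Sig) (f := fun q : ℂ × ℝ => X q.2) (hS.sig _ h2).1 e1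
  have e3 : ContDiffAt ℝ ∞ (fun q : ℂ × ℝ => q.1.re) q :=
    (Complex.reCLM.contDiff.comp contDiff_fst).contDiffAt
  have e4 : ContDiffAt ℝ ∞ (fun q : ℂ × ℝ => q.1.im) q :=
    (Complex.imCLM.contDiff.comp contDiff_fst).contDiffAt
  have e5 : ContDiffAt ℝ ∞ (fun q : ℂ × ℝ =>
      (((e * Sig (X q.2) * q.1.re : ℝ) : ℂ) + ((e * q.1.im : ℝ) : ℂ) * Complex.I)) q := by
    apply ContDiffAt.add
    · exact Complex.ofRealCLM.contDiff.contDiffAt.comp q ((contDiffAt_const.mul e2).mul e3)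
    · exact (Complex.ofRealCLM.contDiff.contDiffAt.comp q (contDiffAt_const.mul e4)).mul
        contDiffAt_const
  have e6 : sT Sig X e = fun q : ℂ × ℝ =>
      ((((e * Sig (X q.2) * q.1.re : ℝ) : ℂ) + ((e * q.1.im : ℝ) : ℂ) * Complex.I), X q.2) := by
    funext q
    refine Prod.ext ?_ rfl
    exact Complex.mk_eq_add_mul_I _ _
  rw [e6]
  exact e5.prodMk e1

theorem CrsT_sTn (ht : 0 < t) (hS : IsSX t a₂ a b b₂ Sig X) {e : ℝ} (he : 0 < e) {q : ℂ × ℝ}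
    (hq : q ∈ Dom) : ‖(sT Sig X e q).1‖ ≤ 4 * e := by
  have h1 := CrsT_X hS hq
  have h2 : X q.2 ∈ Ioo 0 (1 + t / 2) :=
    ⟨hS.a₂_pos.trans h1.1, h1.2.trans (hS.b₂_lt.trans (by linarith))⟩
  obtain ⟨-, h3, h4, -⟩ := hS.sig _ h2
  have h5 : ‖(sT Sig X e q).1‖ ≤ ‖(((e : ℝ) : ℂ) * q.1)‖ := by
    rw [← abs_norm, ← abs_norm (((e : ℝ) : ℂ) * q.1), ← sq_le_sq, ← Complex.normSq_eq_norm_sq,
      ← Complex.normSq_eq_norm_sq]
    simp only [sT, Complex.normSq_apply, Complex.mul_re, Complex.mul_im, Complex.ofReal_re,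
      Complex.ofReal_im, zero_mul, sub_zero, add_zero]
    have h6 : 0 ≤ q.1.re * q.1.re * (e * e) := mul_nonneg (mul_self_nonneg _) (mul_self_nonneg _)
    have h7 : Sig (X q.2) * Sig (X q.2) ≤ 1 := by nlinarith
    nlinarith
  refine h5.trans ?_
  rw [norm_mul, Complex.norm_real, Real.norm_eq_abs, abs_of_pos he]
  nlinarith [hq.1]

theorem CrsT_sTinj (ht : 0 < t) (hS : IsSX t a₂ a b b₂ Sig X) {e : ℝ} (he : 0 < e) :
    InjOn (sT Sig X e) Dom := by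
  intro q hq q' hq' h
  have h1 := CrsT_X hS hq
  have h2 : X q.2 ∈ Ioo 0 (1 + t / 2) :=
    ⟨hS.a₂_pos.trans h1.1, h1.2.trans (hS.b₂_lt.trans (by linarith))⟩
  obtain ⟨-, h3, -, -⟩ := hS.sig _ h2
  have e1 : X q.2 = X q'.2 := congrArg Prod.snd h
  have e2 : e * Sig (X q.2) * q.1.re = e * Sig (X q'.2) * q'.1.re :=
    congrArg (fun p : ℂ × ℝ => p.1.re) h
  have e3 : e * q.1.im = e * q'.1.im := congrArg (fun p : ℂ × ℝ => p.1.im) h
  have e4 : q.2 = q'.2 := hS.monoX.injective e1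
  rw [← e1] at e2
  have e5 : e * Sig (X q.2) ≠ 0 := by
    have : 0 < Sig (X q.2) := by linarith
    positivity
  exact Prod.ext (Complex.ext (mul_left_cancel₀ e5 e2) (mul_left_cancel₀ he.ne' e3)) e4

theorem CrsT_sTimm (ht : 0 < t) (hS : IsSX t a₂ a b b₂ Sig X) {e : ℝ} (he : 0 < e) {q : ℂ × ℝ}
    (hq : q ∈ Dom) : Function.Injective (fderiv ℝ (sT Sig X e) q) := by
  have h1 := CrsT_X hS hq
  have h2 : X q.2 ∈ Ioo 0 (1 + t / 2) :=
    ⟨hS.a₂_pos.trans h1.1, h1.2.trans (hS.b₂_lt.trans (by linarith))⟩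
  obtain ⟨-, h3, -, -⟩ := hS.sig _ h2
  have hd : HasFDerivAt (sT Sig X e) (fderiv ℝ (sT Sig X e) q) q :=
    ((CrsT_sTsm ht hS e hq).differentiableAt (by simp)).hasFDerivAt
  rw [injective_iff_map_eq_zero]
  rintro ⟨ζ, σ⟩ hv
  have hσ : σ = 0 := by
    have e1 : HasFDerivAt (fun q : ℂ × ℝ => (sT Sig X e q).2)
        ((ContinuousLinearMap.snd ℝ ℂ ℝ).comp (fderiv ℝ (sT Sig X e) q)) q :=
      (ContinuousLinearMap.snd ℝ ℂ ℝ).hasFDerivAt.comp q hd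
    have e2 : HasFDerivAt (fun q : ℂ × ℝ => (sT Sig X e q).2)
        ((deriv X q.2) • (ContinuousLinearMap.snd ℝ ℂ ℝ)) q := by
      have e3 : HasDerivAt X (deriv X q.2) q.2 :=
        (hS.smX.differentiable (by simp) q.2).hasDerivAt
      exact e3.comp_hasFDerivAt q (ContinuousLinearMap.snd ℝ ℂ ℝ).hasFDerivAt
    have e4 := e1.unique e2
    have e5 := congrArg (fun A : (ℂ × ℝ) →L[ℝ] ℝ => A (ζ, σ)) e4
    simp only [ContinuousLinearMap.comp_apply, hv, map_zero, ContinuousLinearMap.smul_apply,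
      ContinuousLinearMap.coe_snd', smul_eq_mul] at e5
    rcases mul_eq_zero.1 e5.symm with e6 | e6
    · exact absurd e6 (hS.dX _).ne'
    · exact e6
  subst hσ
  have e1 : HasDerivAt (fun u : ℝ => sT Sig X e (q + u • ((ζ, 0) : ℂ × ℝ)))
      (fderiv ℝ (sT Sig X e) q (ζ, 0)) 0 := by
    have e2 : HasDerivAt (fun u : ℝ => q + u • ((ζ, 0) : ℂ × ℝ)) (ζ, 0) 0 := by
      have := ((hasDerivAt_id (0 : ℝ)).smul_const ((ζ, 0) : ℂ × ℝ)).const_add q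
      simpa using this
    have e3 : HasFDerivAt (sT Sig X e) (fderiv ℝ (sT Sig X e) q)
        (q + (0 : ℝ) • ((ζ, 0) : ℂ × ℝ)) := by
      rwa [zero_smul, add_zero]
    exact e3.comp_hasDerivAt 0 e2
  have e4 : ∀ u : ℝ, sT Sig X e (q + u • ((ζ, 0) : ℂ × ℝ)) =
      sT Sig X e q + u • (((⟨e * Sig (X q.2) * ζ.re, e * ζ.im⟩ : ℂ), 0) : ℂ × ℝ) := by
    intro u
    refine Prod.ext (Complex.ext ?_ ?_) ?_
    · simp [sT]
      ring
    · simp [sT]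
      ring
    · simp [sT]
  have e5 : HasDerivAt (fun u : ℝ => sT Sig X e (q + u • ((ζ, 0) : ℂ × ℝ)))
      (((⟨e * Sig (X q.2) * ζ.re, e * ζ.im⟩ : ℂ), 0) : ℂ × ℝ) 0 := by
    simp only [e4]
    have := ((hasDerivAt_id (0 : ℝ)).smul_const
      (((⟨e * Sig (X q.2) * ζ.re, e * ζ.im⟩ : ℂ), 0) : ℂ × ℝ)).const_add (sT Sig X e q)
    simpa using this
  have e6 := e1.unique e5
  rw [hv] at e6
  have e7 : (0 : ℝ) = e * Sig (X q.2) * ζ.re := congrArg (fun p : ℂ × ℝ => p.1.re) e6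
  have e8 : (0 : ℝ) = e * ζ.im := congrArg (fun p : ℂ × ℝ => p.1.im) e6
  have e9 : e * Sig (X q.2) ≠ 0 := by
    have : 0 < Sig (X q.2) := by linarith
    positivity
  refine Prod.ext (Complex.ext ?_ ?_) rfl
  · rcases mul_eq_zero.1 e7.symm with h0 | h0
    · exact absurd h0 e9
    · exact h0
  · rcases mul_eq_zero.1 e8.symm with h0 | h0
    · exact absurd h0 he.ne'
    · exact h0

end sT

/-- the moving part does not meet the end pieces -/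
theorem CrsT_sep {Λ : Set (ℂ × ℝ)} {t a b a₂ b₂ : ℝ} {g k : ℝ → ℝ → ℂ × ℝ} (h : CrossFam Λ t a b g k)
    {Sig X : ℝ → ℝ} (hS : IsSX t a₂ a b b₂ Sig X) :
    ∃ r : ℝ, 0 < r ∧ ∀ l ∈ Icc (0 : ℝ) 1, ∀ x ∈ Icc (X (-(1 / 2))) (X (1 / 2)),
      ∀ y ∈ Icc a₂ (X (-(3 / 4))) ∪ Icc (X (3 / 4)) b₂, ∀ ζ ξ : ℂ, ‖ζ‖ ≤ r → ‖ξ‖ ≤ r →
        Tub (g l) (k l) (ζ, x) ≠ Tub (g 0) (k 0) (ξ, y) := by
  have ht : 0 < t := h.dat0.pos
  have hT := CrsT_smooth h.smg h.smk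
  have h0 : ∀ (l x : ℝ), CrsTT g k (l, (0, x)) = g l x := by
    intro l x
    simp [CrsTT, Tub]
  have m1 : X (-(3 / 4)) < X (-(1 / 2)) := hS.monoX (by norm_num)
  have m2 : X (1 / 2) < X (3 / 4) := hS.monoX (by norm_num)
  have m3 : a₂ < X (-(1 / 2)) := by
    rw [← hS.X_neg]
    exact hS.monoX (by norm_num)
  have m4 : X (1 / 2) < b₂ := by
    rw [← hS.X_one]
    exact hS.monoX (by norm_num)
  have ha2 := hS.a₂_pos
  have hb2 := hS.b₂_lt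
  have hXa := hS.X_a
  have hXb := hS.X_b
  have hc : Continuous fun p : (ℝ × ℝ × ℝ) × (ℂ × ℂ) =>
      (CrsTT g k (p.1.1, (p.2.1, p.1.2.1)), CrsTT g k (0, (p.2.2, p.1.2.2))) := by
    have h1 : Continuous fun p : (ℝ × ℝ × ℝ) × (ℂ × ℂ) => ((p.1.1, (p.2.1, p.1.2.1)) : ℝ × (ℂ × ℝ)) := by
      fun_prop
    have h2 : Continuous fun p : (ℝ × ℝ × ℝ) × (ℂ × ℂ) => ((0, (p.2.2, p.1.2.2)) : ℝ × (ℂ × ℝ)) := by
      fun_prop
    exact (hT.continuous.comp h1).prodMk (hT.continuous.comp h2)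
  obtain ⟨r, hr, hr'⟩ := near_pos
    (K := Icc (0 : ℝ) 1 ×ˢ Icc (X (-(1 / 2))) (X (1 / 2)) ×ˢ (Icc a₂ (X (-(3 / 4))) ∪ Icc (X (3 / 4)) b₂))
    (isCompact_Icc.prod (isCompact_Icc.prod (isCompact_Icc.union isCompact_Icc)))
    (V := ℂ × ℂ)
    (O := {p : (ℝ × ℝ × ℝ) × (ℂ × ℂ) |
      CrsTT g k (p.1.1, (p.2.1, p.1.2.1)) ≠ CrsTT g k (0, (p.2.2, p.1.2.2))})
    (isOpen_ne_fun hc.fst hc.snd) (by
      rintro ⟨l, x, y⟩ ⟨hl, hx, hy⟩
      change CrsTT g k (l, (0, x)) ≠ CrsTT g k (0, (0, y))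
      rw [h0, h0]
      intro he
      change l ∈ Icc (0 : ℝ) 1 at hl
      change x ∈ Icc (X (-(1 / 2))) (X (1 / 2)) at hx
      change y ∈ Icc a₂ (X (-(3 / 4))) ∪ Icc (X (3 / 4)) b₂ at hy
      have hy1 : y ∈ Icc (0 : ℝ) (1 + t) := by
        rcases hy with hy | hy
        · exact ⟨by linarith [hy.1], by linarith [hy.2, hx.1, hx.2]⟩
        · exact ⟨by linarith [hy.1, hx.1, hx.2], by linarith [hy.2]⟩
      have hx1 : x ∈ Icc (0 : ℝ) (1 + t) := ⟨by linarith [hx.1], by linarith [hx.2]⟩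
      have hyab : y ∉ Ioo a b := by
        rintro ⟨h1, h2⟩
        rcases hy with hy | hy
        · linarith [hy.2]
        · linarith [hy.1]
      have hxy : x = y := by
        by_cases hx2 : x ∈ Icc a b
        · exact h.self l hl x hx2 y hy1 hyab he
        · have hx3 : x ∉ Ioo a b := fun h1 => hx2 (Ioo_subset_Icc_self h1)
          rw [(h.ends l hl x hx3).1] at he
          exact h.dat0.inj hx1 hy1 he
      rcases hy with hy | hy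
      · linarith [hy.2, hx.1]
      · linarith [hy.1, hx.2])
  refine ⟨r, hr, fun l hl x hx y hy ζ ξ hζ hξ => ?_⟩
  exact hr' (l, x, y) ⟨hl, hx, hy⟩ (ζ, ξ) (max_le hζ hξ)

theorem crs_tubes {Λ : Set (ℂ × ℝ)} {t a b a₂ b₂ : ℝ} {g k : ℝ → ℝ → ℂ × ℝ} (h : CrossFam Λ t a b g k)
    {Sig X : ℝ → ℝ} (hS : IsSX t a₂ a b b₂ Sig X) :
    ∃ e₀ : ℝ, 0 < e₀ ∧ ∀ e : ℝ, 0 < e → e ≤ e₀ → Tubes (fun l => bT (g l) (k l) Sig X e) := by
  have ht : 0 < t := h.dat0.pos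
  have hT := CrsT_smooth h.smg h.smk
  have hTl : ∀ l, ContDiff ℝ ∞ (Tub (g l) (k l)) := fun l =>
    hT.comp (contDiff_const.prodMk contDiff_id)
  have hb2 : b₂ ≤ 1 + t := by
    have := hS.b₂_lt
    linarith
  obtain ⟨r1, hr1, H1⟩ := CrsT_imm h hS.a₂_pos.le hb2
  obtain ⟨r2, hr2, H2⟩ := CrsT_inj h.dat0 hS.a₂_pos.le hb2 (hTl 0)
  obtain ⟨r3, hr3, H3⟩ := CrsT_inj h.dat1 hS.a₂_pos.le hb2 (hTl 1)
  obtain ⟨r4, hr4, H4⟩ := CrsT_sep h hS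
  refine ⟨min (min r1 (min r2 r3)) r4 / 4, by positivity, fun e he he' => ?_⟩
  have b4 : 4 * e ≤ r4 := by
    have := min_le_right (min r1 (min r2 r3)) r4
    linarith
  replace he' : e ≤ min r1 (min r2 r3) / 4 := by
    have := min_le_left (min r1 (min r2 r3)) r4
    linarith
  have b1 : 4 * e ≤ r1 := by
    have := min_le_left r1 (min r2 r3)
    linarith
  have b2 : 4 * e ≤ r2 := by
    have := (min_le_right r1 (min r2 r3)).trans (min_le_left r2 r3)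
    linarith
  have b3 : 4 * e ≤ r3 := by
    have := (min_le_right r1 (min r2 r3)).trans (min_le_right r2 r3)
    linarith
  refine ⟨?_, ?_, ?_, ?_, ?_, ?_⟩
  · intro l hl q hq
    have e1 : ContDiffAt ℝ ∞ (fun p : ℝ × (ℂ × ℝ) => ((p.1, sT Sig X e p.2) : ℝ × (ℂ × ℝ))) (l, q) :=
      contDiffAt_fst.prodMk (ContDiffAt.comp (l, q) (g := sT Sig X e) (CrsT_sTsm ht hS e hq)
        contDiffAt_snd)
    exact ContDiffAt.comp (l, q) (g := CrsTT g k) hT.contDiffAt e1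
  · intro l hl q hq
    have e1 : HasFDerivAt (sT Sig X e) (fderiv ℝ (sT Sig X e) q) q :=
      ((CrsT_sTsm ht hS e hq).differentiableAt (by simp)).hasFDerivAt
    have e2 : HasFDerivAt (Tub (g l) (k l)) (fderiv ℝ (Tub (g l) (k l)) (sT Sig X e q))
        (sT Sig X e q) := ((hTl l).differentiable (by simp) _).hasFDerivAt
    have e3 : fderiv ℝ (bT (g l) (k l) Sig X e) q =
        (fderiv ℝ (Tub (g l) (k l)) (sT Sig X e q)).comp (fderiv ℝ (sT Sig X e) q) :=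
      (e2.comp q e1).fderiv
    change Function.Injective (fderiv ℝ (bT (g l) (k l) Sig X e) q)
    rw [e3]
    have e4 := H1 l hl (X q.2) (Ioo_subset_Icc_self (CrsT_X hS hq)) (sT Sig X e q).1
      ((CrsT_sTn ht hS he hq).trans b1)
    exact e4.comp (CrsT_sTimm ht hS he hq)
  · intro l hl q hq hq2
    have hx : X q.2 ∉ Ioo a b := by
      rintro ⟨h1, h2⟩
      rcases le_abs.1 hq2 with h3 | h3
      · have h4 := hS.monoX.monotone h3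
        have := hS.X_b
        linarith
      · have h4 : q.2 ≤ -(1 / 2) := by linarith
        have h5 := hS.monoX.monotone h4
        have := hS.X_a
        linarith
    obtain ⟨h1, h2, h3⟩ := CrsT_end h hl hx
    change Tub (g l) (k l) (sT Sig X e q) = Tub (g 0) (k 0) (sT Sig X e q)
    have h4 : (sT Sig X e q).2 = X q.2 := rfl
    unfold Tub
    rw [h4, h1, h2, h3]
  · intro q hq q' hq' he0
    have e1 := H2 (X q.2) (Ioo_subset_Icc_self (CrsT_X hS hq)) (X q'.2)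
      (Ioo_subset_Icc_self (CrsT_X hS hq')) (sT Sig X e q).1 (sT Sig X e q').1
      ((CrsT_sTn ht hS he hq).trans b2) ((CrsT_sTn ht hS he hq').trans b2) he0
    exact CrsT_sTinj ht hS he hq hq' (Prod.ext e1.1 e1.2)
  · intro q hq q' hq' he0
    have e1 := H3 (X q.2) (Ioo_subset_Icc_self (CrsT_X hS hq)) (X q'.2)
      (Ioo_subset_Icc_self (CrsT_X hS hq')) (sT Sig X e q).1 (sT Sig X e q').1
      ((CrsT_sTn ht hS he hq).trans b3) ((CrsT_sTn ht hS he hq').trans b3) he0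
    exact CrsT_sTinj ht hS he hq hq' (Prod.ext e1.1 e1.2)
  · intro l hl q hq hq2 q' hq' hq2' he0
    have e1 := CrsT_X hS hq'
    have e2 := abs_le.1 hq2
    refine H4 l hl (X q.2) ⟨hS.monoX.monotone e2.1, hS.monoX.monotone e2.2⟩ (X q'.2) ?_
      (sT Sig X e q).1 (sT Sig X e q').1 ((CrsT_sTn ht hS he hq).trans b4)
      ((CrsT_sTn ht hS he hq').trans b4) he0
    rcases le_abs.1 hq2' with h3 | h3
    · exact Or.inr ⟨hS.monoX.monotone h3, e1.2.le⟩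
    · exact Or.inl ⟨e1.1.le, hS.monoX.monotone (by linarith)⟩

end Pool.Agent.KNT
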