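import Pool.Agent.KNT.EngD

/-!
# KNT/CrsX: a parametrisation of the ribbon; the cross product

PROOFS.
* `exists_X`: `X s = m + l * arctan (M s) / arctan M` with `m = (a₂ + b₂) / 2`, `l = (b₂ - a₂) / 2`, `M` large:
  `arctan (M / 2) / arctan M → 1` for `M → ∞`, and `(b - m) / l < 1`, `(a - m) / l > -1`.
* `crp_indep`: the determinant of `(a, b, crp a b)` is `‖a × b‖² ≠ 0` (euclidean norm of the coordinates
  `(re, im, second)`). `crp` is bilinear: `crp_smooth`.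
-/

open scoped ContDiff Topology
open Set Filter
open Pool.Agent.CSG (stp)
open Pool.Agent.RSG (ex)

namespace Pool.Agent.KNT

theorem exists_X {a₂ a b b₂ : ℝ} (h1 : a₂ < a) (h2 : a < b) (h3 : b < b₂) :
    ∃ X : ℝ → ℝ, ContDiff ℝ ∞ X ∧ (∀ s, 0 < deriv X s) ∧ StrictMono X ∧ X (-1) = a₂ ∧ X 1 = b₂ ∧
      b ≤ X (1 / 2) ∧ X (-(1 / 2)) ≤ a := by
  set m : ℝ := (a₂ + b₂) / 2 with hm
  set l : ℝ := (b₂ - a₂) / 2 with hl
  have hl0 : 0 < l := by rw [hl]; linarith
  have hr1 : (b - m) / l < 1 := by rw [div_lt_one hl0, hm, hl]; linarith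
  have hr2 : (m - a) / l < 1 := by rw [div_lt_one hl0, hm, hl]; linarith
  -- the limit
  have hpi : (Real.pi / 2 : ℝ) ≠ 0 := by positivity
  have hlim : Tendsto (fun M : ℝ => Real.arctan (M * (1 / 2)) / Real.arctan M) atTop (𝓝 1) := by
    have e1 : Tendsto Real.arctan atTop (𝓝 (Real.pi / 2)) :=
      tendsto_nhds_of_tendsto_nhdsWithin Real.tendsto_arctan_atTop
    have e2 : Tendsto (fun M : ℝ => M * (1 / 2)) atTop atTop := tendsto_id.atTop_mul_const (by norm_num)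
    have e3 := (e1.comp e2).div e1 hpi
    rw [div_self hpi] at e3
    exact e3
  obtain ⟨M, hM1, hM2, hM3⟩ := ((hlim.eventually_const_lt hr1).and ((hlim.eventually_const_lt hr2).and
    (eventually_gt_atTop 0))).exists
  have hA : 0 < Real.arctan M := Real.arctan_pos.2 hM3
  set X : ℝ → ℝ := fun s => m + l * (Real.arctan (M * s) / Real.arctan M) with hX
  have hd : ∀ s, HasDerivAt X (l * ((1 / (1 + (M * s) ^ 2) * (M * 1)) / Real.arctan M)) s := by
    intro s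
    have e1 : HasDerivAt (fun s : ℝ => M * s) (M * 1) s := (hasDerivAt_id s).const_mul M
    exact ((((Real.hasDerivAt_arctan (M * s)).comp s e1).div_const _).const_mul l).const_add m
  have hpos : ∀ s, 0 < deriv X s := by
    intro s
    rw [(hd s).deriv]
    positivity
  refine ⟨X, ?_, hpos, strictMono_of_deriv_pos hpos, ?_, ?_, ?_, ?_⟩
  · have : ContDiff ℝ ∞ fun s : ℝ => Real.arctan (M * s) :=
      Real.contDiff_arctan.comp (contDiff_const.mul contDiff_id)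
    exact contDiff_const.add (contDiff_const.mul (this.div_const _))
  · show m + l * (Real.arctan (M * (-1)) / Real.arctan M) = a₂
    rw [mul_neg_one, Real.arctan_neg, neg_div, div_self hA.ne', hm, hl]
    ring
  · show m + l * (Real.arctan (M * 1) / Real.arctan M) = b₂
    rw [mul_one, div_self hA.ne', hm, hl]
    ring
  · show b ≤ m + l * (Real.arctan (M * (1 / 2)) / Real.arctan M)
    rw [div_lt_iff₀ hl0] at hM1
    linarith
  · show m + l * (Real.arctan (M * (-(1 / 2))) / Real.arctan M) ≤ a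
    rw [mul_neg, Real.arctan_neg, neg_div]
    rw [div_lt_iff₀ hl0] at hM2
    linarith

theorem CrsX_re (x : ℂ × ℝ) (r : ℝ) : (r • x).1.re = r * x.1.re := by simp
theorem CrsX_im (x : ℂ × ℝ) (r : ℝ) : (r • x).1.im = r * x.1.im := by simp

theorem crp_indep {a b : ℂ × ℝ} (h : LinearIndependent ℝ ![a, b]) {u v w : ℝ}
    (h0 : u • a + v • b + w • crp a b = 0) : u = 0 ∧ v = 0 ∧ w = 0 := by
  rw [LinearIndependent.pair_iff] at h
  obtain ⟨⟨a1, a2⟩, a3⟩ := a
  obtain ⟨⟨b1, b2⟩, b3⟩ := b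
  have key : ∀ s t : ℝ, s * a1 + t * b1 = 0 → s * a2 + t * b2 = 0 → s * a3 + t * b3 = 0 → s = 0 ∧ t = 0 := by
    intro s t k1 k2 k3
    apply h
    refine Prod.ext ?_ ?_
    · apply Complex.ext
      · simpa using k1
      · simpa using k2
    · simpa using k3
  have q1 : u * a1 + v * b1 + w * (a2 * b3 - a3 * b2) = 0 := by
    have := congrArg (fun q : ℂ × ℝ => q.1.re) h0
    simpa [crp] using this
  have q2 : u * a2 + v * b2 + w * (a3 * b1 - a1 * b3) = 0 := by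
    have := congrArg (fun q : ℂ × ℝ => q.1.im) h0
    simpa [crp] using this
  have q3 : u * a3 + v * b3 + w * (a1 * b2 - a2 * b1) = 0 := by
    have := congrArg (fun q : ℂ × ℝ => q.2) h0
    simpa [crp] using this
  have hn : w * ((a2 * b3 - a3 * b2) ^ 2 + (a3 * b1 - a1 * b3) ^ 2 + (a1 * b2 - a2 * b1) ^ 2) = 0 := by
    linear_combination (a2 * b3 - a3 * b2) * q1 + (a3 * b1 - a1 * b3) * q2 + (a1 * b2 - a2 * b1) * q3
  have hw : w = 0 := by
    rcases mul_eq_zero.1 hn with hw | hN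
    · exact hw
    · exfalso
      have n1 : a2 * b3 - a3 * b2 = 0 := by nlinarith [sq_nonneg (a2 * b3 - a3 * b2), sq_nonneg (a3 * b1 - a1 * b3), sq_nonneg (a1 * b2 - a2 * b1)]
      have n2 : a3 * b1 - a1 * b3 = 0 := by nlinarith [sq_nonneg (a2 * b3 - a3 * b2), sq_nonneg (a3 * b1 - a1 * b3), sq_nonneg (a1 * b2 - a2 * b1)]
      have n3 : a1 * b2 - a2 * b1 = 0 := by nlinarith [sq_nonneg (a2 * b3 - a3 * b2), sq_nonneg (a3 * b1 - a1 * b3), sq_nonneg (a1 * b2 - a2 * b1)]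
      have m1 := key b1 (-a1) (by ring) (by linarith) (by linarith)
      have m2 := key b2 (-a2) (by linarith) (by ring) (by linarith)
      have m3 := key b3 (-a3) (by linarith) (by linarith) (by ring)
      have m4 := key 1 0 (by linarith [m1.2]) (by linarith [m2.2]) (by linarith [m3.2])
      exact one_ne_zero m4.1
  subst hw
  have m := key u v (by linarith) (by linarith) (by linarith)
  exact ⟨m.1, m.2, rfl⟩

theorem crp_smooth {V : Type*} [NormedAddCommGroup V] [NormedSpace ℝ V] {a b : V → ℂ × ℝ}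
    (ha : ContDiff ℝ ∞ a) (hb : ContDiff ℝ ∞ b) : ContDiff ℝ ∞ fun x => crp (a x) (b x) := by
  have a1 : ContDiff ℝ ∞ fun x => (a x).1.re := Complex.reCLM.contDiff.comp ha.fst
  have a2 : ContDiff ℝ ∞ fun x => (a x).1.im := Complex.imCLM.contDiff.comp ha.fst
  have a3 : ContDiff ℝ ∞ fun x => (a x).2 := ha.snd
  have b1 : ContDiff ℝ ∞ fun x => (b x).1.re := Complex.reCLM.contDiff.comp hb.fst
  have b2 : ContDiff ℝ ∞ fun x => (b x).1.im := Complex.imCLM.contDiff.comp hb.fst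
  have b3 : ContDiff ℝ ∞ fun x => (b x).2 := hb.snd
  have e : (fun x => crp (a x) (b x)) = fun x =>
      (Complex.equivRealProdCLM.symm ((a x).1.im * (b x).2 - (a x).2 * (b x).1.im,
        (a x).2 * (b x).1.re - (a x).1.re * (b x).2),
        (a x).1.re * (b x).1.im - (a x).1.im * (b x).1.re) := by
    funext x
    refine Prod.ext ?_ rfl
    apply Complex.ext
    · simp [crp]
    · simp [crp]
  rw [e]
  exact (Complex.equivRealProdCLM.symm.contDiff.comp (((a2.mul b3).sub (a3.mul b2)).prodMk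
    ((a3.mul b1).sub (a1.mul b3)))).prodMk ((a1.mul b2).sub (a2.mul b1))

/-- The derivative in `x` of a smooth family is smooth. -/
theorem deriv_fam_smooth {g : ℝ → ℝ → ℂ × ℝ} (hg : ContDiff ℝ ∞ fun p : ℝ × ℝ => g p.1 p.2) :
    ContDiff ℝ ∞ fun p : ℝ × ℝ => deriv (g p.1) p.2 := by
  have h1 : ContDiff ℝ ∞ fun p : ℝ × ℝ => fderiv ℝ (fun p : ℝ × ℝ => g p.1 p.2) p (0, 1) :=
    (hg.fderiv_right (m := ∞) (by simp)).clm_apply contDiff_const
  have e : (fun p : ℝ × ℝ => deriv (g p.1) p.2) =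
      fun p : ℝ × ℝ => fderiv ℝ (fun p : ℝ × ℝ => g p.1 p.2) p (0, 1) := by
    funext p
    have hd : HasFDerivAt (fun p : ℝ × ℝ => g p.1 p.2) (fderiv ℝ (fun p : ℝ × ℝ => g p.1 p.2) p) p :=
      (hg.differentiable (by simp) p).hasFDerivAt
    have hj : HasDerivAt (fun x : ℝ => ((p.1, x) : ℝ × ℝ)) (0, 1) p.2 :=
      (hasDerivAt_const p.2 p.1).prodMk (hasDerivAt_id p.2)
    exact (HasFDerivAt.comp_hasDerivAt (f := fun x : ℝ => ((p.1, x) : ℝ × ℝ)) p.2 hd hj).deriv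
  rw [e]
  exact h1

/-- The tube around the core is an immersion along the core. -/
theorem Tub_imm {g k : ℝ → ℂ × ℝ} (hg : ContDiff ℝ ∞ g) (hk : ContDiff ℝ ∞ k) {x : ℝ}
    (h : LinearIndependent ℝ ![deriv g x, k x]) : Function.Injective (fderiv ℝ (Tub g k) (0, x)) := by
  have hn : (∞ : WithTop ℕ∞) ≠ 0 := by simp
  have hgd : ContDiff ℝ ∞ (deriv g) := by
    have h1 : ContDiff ℝ ∞ fun p : ℝ × ℝ => (fun _ : ℝ => g) p.1 p.2 := hg.comp contDiff_snd
    have h2 := deriv_fam_smooth (g := fun _ : ℝ => g) h1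
    have h3 : ContDiff ℝ ∞ (fun s : ℝ => ((0, s) : ℝ × ℝ)) := contDiff_const.prodMk contDiff_id
    exact h2.comp h3
  set c : ℝ → ℂ × ℝ := fun s => crp (deriv g s) (k s) with hc
  have hcs : ContDiff ℝ ∞ c := crp_smooth hgd hk
  have d1 : HasFDerivAt (fun q : ℂ × ℝ => g q.2) ((fderiv ℝ g x).comp (ContinuousLinearMap.snd ℝ ℂ ℝ)) ((0, x) : ℂ × ℝ) :=
    HasFDerivAt.comp ((0, x) : ℂ × ℝ) (g := g) (f := fun q : ℂ × ℝ => q.2)
      (hg.differentiable hn x).hasFDerivAt hasFDerivAt_snd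
  have d2 : HasFDerivAt (fun q : ℂ × ℝ => k q.2) ((fderiv ℝ k x).comp (ContinuousLinearMap.snd ℝ ℂ ℝ)) ((0, x) : ℂ × ℝ) :=
    HasFDerivAt.comp ((0, x) : ℂ × ℝ) (g := k) (f := fun q : ℂ × ℝ => q.2)
      (hk.differentiable hn x).hasFDerivAt hasFDerivAt_snd
  have d3 : HasFDerivAt (fun q : ℂ × ℝ => c q.2) ((fderiv ℝ c x).comp (ContinuousLinearMap.snd ℝ ℂ ℝ)) ((0, x) : ℂ × ℝ) :=
    HasFDerivAt.comp ((0, x) : ℂ × ℝ) (g := c) (f := fun q : ℂ × ℝ => q.2)
      (hcs.differentiable hn x).hasFDerivAt hasFDerivAt_snd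
  have r1 : HasFDerivAt (fun q : ℂ × ℝ => q.1.re) (Complex.reCLM.comp (ContinuousLinearMap.fst ℝ ℂ ℝ)) ((0, x) : ℂ × ℝ) :=
    Complex.reCLM.hasFDerivAt.comp _ hasFDerivAt_fst
  have r2 : HasFDerivAt (fun q : ℂ × ℝ => q.1.im) (Complex.imCLM.comp (ContinuousLinearMap.fst ℝ ℂ ℝ)) ((0, x) : ℂ × ℝ) :=
    Complex.imCLM.hasFDerivAt.comp _ hasFDerivAt_fst
  have hT : HasFDerivAt (Tub g k) _ ((0, x) : ℂ × ℝ) := (d1.add (r1.smul d2)).add (r2.smul d3)
  rw [hT.fderiv]
  rw [injective_iff_map_eq_zero]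
  rintro ⟨ζ, s⟩ hv
  have hv' : s • deriv g x + ζ.re • k x + ζ.im • c x = 0 := by
    have e1 : fderiv ℝ g x s = s • deriv g x := fderiv_eq_smul_deriv s
    simpa [e1] using hv
  obtain ⟨z1, z2, z3⟩ := crp_indep h hv'
  rw [z1]
  refine Prod.ext ?_ rfl
  apply Complex.ext
  · simpa using z2
  · simpa using z3

end Pool.Agent.KNT
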