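import Pool.Agent.KNT.Dsh
import Pool.Agent.CLV.Ext
import Pool.Agent.RSG.ExM

/-!
# KNT/Dfe (difficulty 3): windows, and the function `f`

`Win A η`: union of the open intervals `(x - η, x + η)`, `x ∈ A`.

* `Dfe_eta`: `A = Adb` is finite and contained in `(δ, 1 - δ)`; for `x ∈ A` the set of `y` such that the circle
  `{(ρ y ex φ, h y)}` meets the compact set `Λ` is closed (if `y_i → y`, `(ρ y_i ex φ_i, h y_i) ∈ Λ`, take `φ_i ∈ [0, 1]` and a convergent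
  subsequence; or: it is the projection of a compact set `{(y, φ)}`) and does not contain `x`.  Hence `η`.
* `Dfe_f`: `CLV.ext_curve` with `V = ℝ × ℝ`, the curve `x ↦ (ρ x, h x)`, `C = [0, 1] \ Win`, `g = θ' - θ`,
  `F = {q | q.1 ≤ 7/10 δ |R|} ∪ {q | B ≤ ‖q‖}` with `B` larger than all `‖(ρ x, h x)‖`, `x ∈ [0, 1]`.  `InjOn`: `Dsh_inj` (`Adb ⊆ Win`).  Immersed:
  `Dsh_imm`.  `tsupport g ⊆ [δ/2, 1 - δ/2]` (`h0`, `h1`), and there `ρ x ≥ |R| qs (δ/2) > 7/10 δ |R|` (`Dsh_low`, `Dsh_r0`).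
* `Dfe_beta`: `θ₁ x := θ x + f (ρ x, h x)`; for `x ∉ Win` `θ₁ x = θ' x`: if `x ∈ [0, 1]` it is the property of `f`; otherwise `ρ x ≤ 7/10 δ |R|`
  (`Dsh_out`), so `f = 0`, and `θ' x = θ x` (`h0`, `h1`).
-/

open scoped ContDiff Topology
open Set Filter
open Pool.Agent.RSG (ex)

namespace Pool.Agent.KNT

/-- the open windows -/
def Win (A : Set ℝ) (η : ℝ) : Set ℝ := {y | ∃ x ∈ A, |y - x| < η}

variable {c R θ₀ θ₁ δ t : ℝ} {ρ θ θ' h : ℝ → ℝ}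

theorem Dfe_exfract (φ : ℝ) : ex φ = ex (Int.fract φ) := by
  have h : φ = Int.fract φ + (⌊φ⌋ : ℤ) := (Int.fract_add_floor φ).symm
  conv_lhs => rw [h]
  exact RSG.ex_add_int _ _

theorem Dfe_cont {ρ h : ℝ → ℝ} (hρ : Continuous ρ) (hh : Continuous h) :
    Continuous fun p : ℝ × Icc (0 : ℝ) 1 => (((ρ p.1 : ℂ) * ex (p.2 : ℝ), h p.1) : ℂ × ℝ) := by
  have h1 : Continuous (ex : ℝ → ℂ) := by
    unfold ex
    fun_prop
  exact ((Complex.continuous_ofReal.comp (hρ.comp continuous_fst)).mul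
    (h1.comp (continuous_subtype_val.comp continuous_snd))).prodMk (hh.comp continuous_fst)

theorem Dfe_eta (hn : NCore c R θ₀ θ₁ δ t ρ θ h) (hg : Gen δ (1 - δ) ρ h) {Λ : Set (ℂ × ℝ)} (hΛ : IsCompact Λ)
    (hd : ∀ y ∈ Adb δ ρ h, ∀ φ : ℝ, ((ρ y : ℂ) * ex φ, h y) ∉ Λ) :
    ∃ η : ℝ, 0 < η ∧ Win (Adb δ ρ h) η ⊆ Icc δ (1 - δ) ∧
      ∀ y ∈ Win (Adb δ ρ h) η, ∀ φ : ℝ, ((ρ y : ℂ) * ex φ, h y) ∉ Λ := by
  have hcl : IsClosed {p : ℝ × Icc (0 : ℝ) 1 | (((ρ p.1 : ℂ) * ex (p.2 : ℝ), h p.1) : ℂ × ℝ) ∈ Λ} :=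
    hΛ.isClosed.preimage (Dfe_cont hn.smρ.continuous hn.smh.continuous)
  have hcl2 := isClosedMap_fst_of_compactSpace (X := ℝ) (Y := Icc (0 : ℝ) 1) _ hcl
  have hop : IsOpen ((Prod.fst '' {p : ℝ × Icc (0 : ℝ) 1 |
      (((ρ p.1 : ℂ) * ex (p.2 : ℝ), h p.1) : ℂ × ℝ) ∈ Λ})ᶜ ∩ Ioo δ (1 - δ)) :=
    hcl2.isOpen_compl.inter isOpen_Ioo
  have hsub : Adb δ ρ h ⊆ (Prod.fst '' {p : ℝ × Icc (0 : ℝ) 1 |
      (((ρ p.1 : ℂ) * ex (p.2 : ℝ), h p.1) : ℂ × ℝ) ∈ Λ})ᶜ ∩ Ioo δ (1 - δ) := by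
    intro y hy
    refine ⟨?_, Dsh_in hn hy⟩
    rintro ⟨⟨y', φ⟩, hp, rfl⟩
    exact hd _ hy φ hp
  obtain ⟨η, hη, hth⟩ := (Dsh_fin hn hg).isCompact.exists_thickening_subset_open hop hsub
  have hwin : ∀ y ∈ Win (Adb δ ρ h) η, y ∈ (Prod.fst '' {p : ℝ × Icc (0 : ℝ) 1 |
      (((ρ p.1 : ℂ) * ex (p.2 : ℝ), h p.1) : ℂ × ℝ) ∈ Λ})ᶜ ∩ Ioo δ (1 - δ) := by
    rintro y ⟨x, hx, hxy⟩
    apply hth
    rw [Metric.mem_thickening_iff]
    exact ⟨x, hx, hxy⟩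
  refine ⟨η, hη, fun y hy => Ioo_subset_Icc_self (hwin y hy).2, fun y hy φ hmem => ?_⟩
  apply (hwin y hy).1
  refine ⟨(y, ⟨Int.fract φ, Int.fract_nonneg φ, (Int.fract_lt_one φ).le⟩), ?_, rfl⟩
  rw [Dfe_exfract φ] at hmem
  exact hmem

theorem Dfe_winopen (A : Set ℝ) (η : ℝ) : IsOpen (Win A η) := by
  have h : Win A η = ⋃ x ∈ A, Metric.ball x η := by
    ext y
    simp [Win, Real.dist_eq]
  rw [h]
  exact isOpen_biUnion fun x _ => Metric.isOpen_ball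

theorem Dfe_f (hn : NCore c R θ₀ θ₁ δ t ρ θ h) (hg : Gen δ (1 - δ) ρ h) (hθ' : ContDiff ℝ ∞ θ')
    (h0 : ∀ x ≤ δ / 2, θ' x = θ x) (h1 : ∀ x, 1 - δ / 2 ≤ x → θ' x = θ x) {η : ℝ} (hη : 0 < η) :
    ∃ (f : ℝ × ℝ → ℝ) (B : ℝ), ContDiff ℝ ∞ f ∧
      (∀ x ∈ Icc (0 : ℝ) 1, x ∉ Win (Adb δ ρ h) η → f (ρ x, h x) = θ' x - θ x) ∧
      (∀ q, q.1 ≤ 7 / 10 * δ * |R| → f q = 0) ∧ ∀ q, B ≤ ‖q‖ → f q = 0 := by
  have hcs : ContDiff ℝ ∞ fun x => (ρ x, h x) := hn.smρ.prodMk hn.smh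
  obtain ⟨B, hB⟩ : ∃ B : ℝ, ∀ x ∈ Icc (0 : ℝ) 1, ‖((ρ x, h x) : ℝ × ℝ)‖ ≤ B := by
    obtain ⟨B, hB⟩ := (isCompact_Icc.image hcs.continuous).isBounded.exists_norm_le
    exact ⟨B, fun x hx => hB _ ⟨x, hx, rfl⟩⟩
  have hsubA : Adb δ ρ h ⊆ Win (Adb δ ρ h) η := fun x hx => ⟨x, hx, by simpa using hη⟩
  have hF : IsClosed ({q : ℝ × ℝ | q.1 ≤ 7 / 10 * δ * |R|} ∪ {q : ℝ × ℝ | B + 1 ≤ ‖q‖}) :=
    (isClosed_le continuous_fst continuous_const).union (isClosed_le continuous_const continuous_norm)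
  have hts : tsupport (fun x => θ' x - θ x) ⊆ Icc (δ / 2) (1 - δ / 2) := by
    apply closure_minimal _ isClosed_Icc
    intro x hx
    by_contra hn'
    apply hx
    rw [mem_Icc, not_and_or, not_le, not_le] at hn'
    rcases hn' with h2 | h2
    · simp only
      rw [h0 x h2.le, sub_self]
    · simp only
      rw [h1 x h2.le, sub_self]
  obtain ⟨f, hf1, hf2, hf3⟩ := CLV.ext_curve (V := ℝ × ℝ) (c := fun x => (ρ x, h x))
    (C := Icc (0 : ℝ) 1 \ Win (Adb δ ρ h) η) (fun u _ => Eventually.of_forall fun v => hcs.contDiffAt)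
    (isCompact_Icc.diff (Dfe_winopen _ _))
    (fun x hx y hy he => Dsh_inj hn hx.1 hy.1 (fun hA => hx.2 (hsubA hA))
      (fun hA => hy.2 (hsubA hA)) he)
    (fun u _ => by
      have h2 : HasDerivAt (fun x => (ρ x, h x)) (deriv ρ u, deriv h u) u :=
        ((hn.smρ.differentiable (by simp)) u).hasDerivAt.prodMk
          ((hn.smh.differentiable (by simp)) u).hasDerivAt
      rw [h2.deriv]
      exact Dsh_imm hn hg u)
    (g := fun x => θ' x - θ x) (hθ'.sub hn.smθ) hF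
    (fun u hu hut => by
      have h2 := (Dsh_low hn (hts hut)).1
      have h3 := (Dsh_r0 hn).2
      rintro (h4 | h4)
      · simp only [mem_ofPred_eq] at h4
        linarith
      · have := hB u hu.1
        simp only [mem_ofPred_eq] at h4
        linarith)
  exact ⟨f, B + 1, hf1, fun x hx hxW => hf2 x ⟨hx, hxW⟩, fun q hq => hf3 q (Or.inl hq),
    fun q hq => hf3 q (Or.inr hq)⟩

theorem Dfe_beta (hn : NCore c R θ₀ θ₁ δ t ρ θ h) (h0 : ∀ x ≤ δ / 2, θ' x = θ x)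
    (h1 : ∀ x, 1 - δ / 2 ≤ x → θ' x = θ x) {η : ℝ} {f : ℝ × ℝ → ℝ}
    (hf : ∀ x ∈ Icc (0 : ℝ) 1, x ∉ Win (Adb δ ρ h) η → f (ρ x, h x) = θ' x - θ x)
    (hf0 : ∀ q, q.1 ≤ 7 / 10 * δ * |R| → f q = 0) {x : ℝ} (hx : x ∉ Win (Adb δ ρ h) η) :
    θ x + f (ρ x, h x) = θ' x := by
  by_cases hx01 : x ∈ Icc (0 : ℝ) 1
  · rw [hf x hx01 hx]
    ring
  · rw [mem_Icc, not_and_or, not_le, not_le] at hx01
    have h2 : f (ρ x, h x) = 0 := by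
      apply hf0
      apply Dsh_out hn
      rcases hx01 with h3 | h3
      · exact Or.inl h3.le
      · exact Or.inr h3.le
    rw [h2, add_zero]
    have := hn.δ_pos
    rcases hx01 with h3 | h3
    · exact (h0 x (by linarith)).symm
    · exact (h1 x (by linarith)).symm

end Pool.Agent.KNT
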