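import Pool.Agent.KNT.Defs

/-!
# KNT/Dqs (difficulty 2): the semicircle

`z = 2 x - 1`, `qs x = (1 - z²) / (1 + z²) = 2 / (1 + z²) - 1`, `ps x = 2 z / (1 + z²)`.  Everything is elementary: `qs` is strictly
decreasing in `|z|`, `ps` has the sign of `z`; derivatives (with respect to `x`): `qs' = -8 z / (1 + z²)²`,
`ps' = 4 (1 - z²) / (1 + z²)²`, hence `qs'² + ps'² = 16 / (1 + z²)² > 0`.

`Dqs_small`: for `1 ≤ x ≤ 1 + t`, `t ≤ δ / 4`, `δ < 1/4`: `z = 1 + 2 u`, `0 ≤ u ≤ δ / 4`,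
`- qs x = (2 u + 2 u²) / (1 + 2 u + 2 u²) ≤ 2 u + 2 u² ≤ δ / 2 + δ² / 8 ≤ (7/10) δ`.
`Dqs_large`: `qs (δ/2) = (δ - δ²/2) / (1 - δ + δ²/2) > (7/10) δ`.
-/

open scoped ContDiff Topology
open Set Filter

namespace Pool.Agent.KNT

theorem Dqs_den (x : ℝ) : 0 < 1 + (2 * x - 1) ^ 2 := by positivity

theorem Dqs_smooth : ContDiff ℝ ∞ qs ∧ ContDiff ℝ ∞ ps := by
  have h1 : ContDiff ℝ ∞ (fun x : ℝ => 2 * x - 1) :=
    (contDiff_const.mul contDiff_id).sub contDiff_const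
  have h2 : ContDiff ℝ ∞ (fun x : ℝ => 1 + (2 * x - 1) ^ 2) := contDiff_const.add (h1.pow 2)
  exact ⟨(contDiff_const.sub (h1.pow 2)).div h2 (fun x => (Dqs_den x).ne'),
    (contDiff_const.mul h1).div h2 (fun x => (Dqs_den x).ne')⟩

theorem Dqs_symm (x : ℝ) : qs (1 - x) = qs x ∧ ps (1 - x) = -ps x := by
  have h1 : 2 * (1 - x) - 1 = -(2 * x - 1) := by ring
  constructor
  · rw [qs, qs, h1, neg_sq]
  · rw [ps, ps, h1, neg_sq]
    ring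

theorem Dqs_zero : qs 0 = 0 ∧ qs 1 = 0 := by
  constructor <;> norm_num [qs]

theorem Dqs_pos {x : ℝ} (h0 : 0 < x) (h1 : x < 1) : 0 < qs x := by
  rw [qs]
  apply div_pos _ (Dqs_den x)
  nlinarith

theorem Dqs_neg {x : ℝ} (h : x < 0 ∨ 1 < x) : qs x < 0 := by
  rw [qs]
  apply div_neg_of_neg_of_pos _ (Dqs_den x)
  rcases h with h | h <;> nlinarith

theorem Dqs_lt {x y : ℝ} (h : (2 * y - 1) ^ 2 < (2 * x - 1) ^ 2) : qs x < qs y := by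
  rw [qs, qs, div_lt_div_iff₀ (Dqs_den x) (Dqs_den y)]
  nlinarith

theorem Dqs_mono {x y : ℝ} (hxy : x < y) (hy : y ≤ 1 / 2) : qs x < qs y := by
  apply Dqs_lt
  nlinarith

theorem Dqs_anti {x y : ℝ} (hx : 1 / 2 ≤ x) (hxy : x < y) : qs y < qs x := by
  apply Dqs_lt
  nlinarith

theorem Dqs_ps {x : ℝ} : (x < 1 / 2 → ps x < 0) ∧ (1 / 2 < x → 0 < ps x) := by
  constructor
  · intro h
    rw [ps]
    apply div_neg_of_neg_of_pos _ (Dqs_den x)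
    linarith
  · intro h
    rw [ps]
    apply div_pos _ (Dqs_den x)
    linarith

theorem Dqs_hd (x : ℝ) :
    HasDerivAt qs (-8 * (2 * x - 1) / (1 + (2 * x - 1) ^ 2) ^ 2) x ∧
      HasDerivAt ps (4 * (1 - (2 * x - 1) ^ 2) / (1 + (2 * x - 1) ^ 2) ^ 2) x := by
  have h1 : HasDerivAt (fun x : ℝ => 2 * x - 1) 2 x := by
    have := ((hasDerivAt_id x).const_mul 2).sub_const 1
    simpa using this
  have h2 : HasDerivAt (fun x : ℝ => (2 * x - 1) ^ 2) (4 * (2 * x - 1)) x := by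
    have h := h1.pow 2
    have e : 4 * (2 * x - 1) = ((2 : ℕ) : ℝ) * (2 * x - 1) ^ (2 - 1) * 2 := by
      push_cast
      ring
    rw [e]
    exact h
  have h3 : HasDerivAt (fun x : ℝ => 1 + (2 * x - 1) ^ 2) (4 * (2 * x - 1)) x := h2.const_add 1
  have h4 : HasDerivAt (fun x : ℝ => 1 - (2 * x - 1) ^ 2) (-(4 * (2 * x - 1))) x := h2.const_sub 1
  constructor
  · have h5 := h4.div h3 (Dqs_den x).ne'
    have e : -8 * (2 * x - 1) / (1 + (2 * x - 1) ^ 2) ^ 2 =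
        (-(4 * (2 * x - 1)) * (1 + (2 * x - 1) ^ 2) - (1 - (2 * x - 1) ^ 2) * (4 * (2 * x - 1))) /
          (1 + (2 * x - 1) ^ 2) ^ 2 := by
      congr 1
      ring
    rw [e]
    exact h5
  · have h5 := (h1.const_mul 2).div h3 (Dqs_den x).ne'
    have e : 4 * (1 - (2 * x - 1) ^ 2) / (1 + (2 * x - 1) ^ 2) ^ 2 =
        (2 * 2 * (1 + (2 * x - 1) ^ 2) - 2 * (2 * x - 1) * (4 * (2 * x - 1))) /
          (1 + (2 * x - 1) ^ 2) ^ 2 := by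
      congr 1
      ring
    rw [e]
    exact h5

theorem Dqs_deriv (x : ℝ) : (deriv qs x, deriv ps x) ≠ (0, 0) := by
  intro h
  have h1 : deriv qs x = 0 := congrArg Prod.fst h
  have h2 : deriv ps x = 0 := congrArg Prod.snd h
  rw [(Dqs_hd x).1.deriv, div_eq_zero_iff] at h1
  rw [(Dqs_hd x).2.deriv, div_eq_zero_iff] at h2
  have h3 : (1 + (2 * x - 1) ^ 2) ^ 2 ≠ 0 := pow_ne_zero _ (Dqs_den x).ne'
  have h4 := h1.resolve_right h3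
  have h5 := h2.resolve_right h3
  nlinarith

theorem Dqs_small {x δ t : ℝ} (hδ : 0 < δ) (hδ1 : δ < 1 / 4) (ht : t ≤ δ / 4) (h1 : 1 ≤ x) (hx : x ≤ 1 + t) :
    |qs x| ≤ 7 / 10 * δ := by
  have h0 : qs x ≤ 0 := by
    rw [qs]
    apply div_nonpos_of_nonpos_of_nonneg _ (Dqs_den x).le
    nlinarith
  rw [abs_of_nonpos h0, qs, ← neg_div, div_le_iff₀ (Dqs_den x)]
  obtain ⟨u, rfl⟩ : ∃ u, x = 1 + u := ⟨x - 1, by ring⟩
  have hu0 : 0 ≤ u := by linarith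
  have hu1 : u ≤ δ / 4 := by linarith
  have e1 : -(1 - (2 * (1 + u) - 1) ^ 2) = 4 * u + 4 * u ^ 2 := by ring
  have e2 : 1 + (2 * (1 + u) - 1) ^ 2 = 2 + 4 * u + 4 * u ^ 2 := by ring
  rw [e1, e2]
  have e3 : 4 * u ^ 2 ≤ δ / 4 * (4 * u) := by nlinarith
  have e4 : 4 * u + 4 * u ^ 2 ≤ 14 / 10 * δ := by nlinarith
  nlinarith [mul_nonneg hδ.le hu0, mul_nonneg hδ.le (sq_nonneg u)]

theorem Dqs_large {δ : ℝ} (hδ : 0 < δ) (hδ1 : δ < 1 / 4) : 7 / 10 * δ < qs (δ / 2) := by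
  rw [qs, lt_div_iff₀ (Dqs_den _)]
  have e1 : 1 - (2 * (δ / 2) - 1) ^ 2 = δ * (2 - δ) := by ring
  have e2 : 7 / 10 * δ * (1 + (2 * (δ / 2) - 1) ^ 2) = δ * (7 / 10 * (2 - 2 * δ + δ ^ 2)) := by
    ring
  rw [e1, e2]
  apply mul_lt_mul_of_pos_left _ hδ
  nlinarith

end Pool.Agent.KNT
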