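import Pool.Agent.KNT.EngI
import Pool.Agent.KNT.Bgn
import Pool.Agent.KNT.Dqs

/-!
# KNT/Dsh (difficulty 2): the shadow of a core in normal form

`Adb δ ρ h`: the parameters `x` in `[δ, 1 - δ]` with an earlier parameter `y < x` over the same point `(ρ x, h x)` of the shadow.

* `Dsh_fin`: `Adb` is contained in the image of the finite set of double pairs (`dbl_finite` with `a = δ`, `b = 1 - δ`, second
  component).
* `Dsh_in`: `x > y ≥ δ`.  `x = 1 - δ` is impossible: `ρ (1 - δ) = |R| qs (1 - δ) = |R| qs δ`; if `δ < y < 1 - δ` then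
  `mid` gives `ρ y > |R| qs δ`; if `y = δ` then `h δ = c + R ps δ`, `h (1 - δ) = c + R ps (1 - δ)`, `ps δ < 0 < ps (1 - δ)`.
* `Dsh_pos`: for `0 < x ≤ δ` and `1 - δ ≤ x < 1` `ρ x = |R| qs x > 0`; else `mid` (`qs δ > 0`).
* `Dsh_inj`: `x ≠ y` with the same shadow.  Both in `[δ, 1 - δ]`: the larger one is in `Adb`.  `x < δ`: `ρ x = |R| qs x < |R| qs δ`, so
  `y < δ` or `y > 1 - δ` (`mid`; `ρ δ = ρ (1 - δ) = |R| qs δ`); if `y < δ` use `Dqs_mono`; if `y > 1 - δ` then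
  `h y = c + R ps y` has the other sign of `(h - c) / R`.  `x > 1 - δ`: symmetric (`Dqs_anti`).
* `Dsh_imm`: on `[δ, 1 - δ]` `Gen.imm`; for `x < δ` (resp. `x > 1 - δ`) `ρ = |R| qs`, `h = c + R ps` near `x`: `Dqs_deriv`, `R ≠ 0`.
* `Dsh_low`: for `δ/2 ≤ x ≤ δ` and `1 - δ ≤ x ≤ 1 - δ/2`: monotonicity of `qs`; for `δ < x < 1 - δ` `mid` and `qs δ > qs (δ/2)`.
* `Dsh_end`: `0 ≤ y ≤ δ/2`: `ρ y = |R| qs y`, `0 ≤ qs y ≤ qs (δ/2)`.  `1 - δ/2 ≤ y ≤ 1`: symmetric.  `1 < y ≤ 1 + t`: `Dqs_small`, `Dqs_large`.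
* `Dsh_out`: `x < 0`: `ρ x = |R| qs x < 0`, `x > 1`: the same; hence `ρ x ≤ 7/10 δ |R|`.
-/

open scoped ContDiff Topology
open Set Filter

namespace Pool.Agent.KNT

/-- later double parameters -/
def Adb (δ : ℝ) (ρ h : ℝ → ℝ) : Set ℝ :=
  {x | x ∈ Icc δ (1 - δ) ∧ ∃ y ∈ Icc δ (1 - δ), y < x ∧ (ρ y, h y) = (ρ x, h x)}

variable {c R θ₀ θ₁ δ t : ℝ} {ρ θ h : ℝ → ℝ}

theorem Dsh_fin (hn : NCore c R θ₀ θ₁ δ t ρ θ h) (hg : Gen δ (1 - δ) ρ h) : (Adb δ ρ h).Finite := by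
  refine ((Bdbl_finite hn.smρ hn.smh hg).image Prod.snd).subset ?_
  rintro x ⟨hx, y, hy, hyx, he⟩
  exact ⟨(y, x), ⟨hy, hx, hyx.ne, he⟩, rfl⟩

theorem Dsh_in (hn : NCore c R θ₀ θ₁ δ t ρ θ h) {x : ℝ} (hx : x ∈ Adb δ ρ h) : x ∈ Ioo δ (1 - δ) := by
  obtain ⟨hx, y, hy, hyx, he⟩ := hx
  have hδ := hn.δ_pos
  have hδ1 := hn.δ_lt
  have hR := abs_pos.2 hn.R_ne
  refine ⟨lt_of_le_of_lt hy.1 hyx, lt_of_le_of_ne hx.2 ?_⟩
  rintro rfl
  have e1 := congrArg Prod.fst he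
  have e2 := congrArg Prod.snd he
  simp only at e1 e2
  obtain ⟨f1, f2, -⟩ := hn.foot₁ (1 - δ) le_rfl
  rw [f1, (Dqs_symm δ).1] at e1
  rw [f2, (Dqs_symm δ).2] at e2
  rcases hy.1.eq_or_lt with h1 | h1
  · rw [← h1, (hn.foot₀ δ le_rfl).2.1] at e2
    have h3 : R * ps δ = 0 := by linarith
    have h4 := Dqs_ps.1 (show δ < 1 / 2 by linarith)
    rcases mul_eq_zero.1 h3 with h5 | h5
    · exact hn.R_ne h5
    · exact h4.ne h5
  · have := hn.mid y h1 hyx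
    linarith

theorem Dsh_pos (hn : NCore c R θ₀ θ₁ δ t ρ θ h) {x : ℝ} (h0 : 0 < x) (h1 : x < 1) : 0 < ρ x := by
  have hδ := hn.δ_pos
  have hδ1 := hn.δ_lt
  have hR := abs_pos.2 hn.R_ne
  rcases le_or_gt x δ with h2 | h2
  · rw [(hn.foot₀ x h2).1]
    exact mul_pos hR (Dqs_pos h0 h1)
  rcases le_or_gt (1 - δ) x with h3 | h3
  · rw [(hn.foot₁ x h3).1]
    exact mul_pos hR (Dqs_pos h0 h1)
  · exact (mul_pos hR (Dqs_pos hδ (by linarith))).trans (hn.mid x h2 h3)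

theorem Dsh_zero (hn : NCore c R θ₀ θ₁ δ t ρ θ h) {x : ℝ} (hx : x ∈ Icc 0 (1 + t)) : ρ x = 0 ↔ x = 0 ∨ x = 1 := by
  have hδ := hn.δ_pos
  have hδ1 := hn.δ_lt
  have hR := abs_pos.2 hn.R_ne
  constructor
  · intro h0
    rcases hx.1.eq_or_lt with h1 | h1
    · exact Or.inl h1.symm
    rcases lt_trichotomy x 1 with h2 | h2 | h2
    · exact absurd h0 (Dsh_pos hn h1 h2).ne'
    · exact Or.inr h2
    · rw [(hn.foot₁ x (by linarith)).1] at h0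
      exact absurd h0 (mul_neg_of_pos_of_neg hR (Dqs_neg (Or.inr h2))).ne
  · rintro (rfl | rfl)
    · rw [(hn.foot₀ 0 hδ.le).1, Dqs_zero.1, mul_zero]
    · rw [(hn.foot₁ 1 (by linarith)).1, Dqs_zero.2, mul_zero]

/-- in the middle the shadow is far from the axis -/
theorem Dsh_mid (hn : NCore c R θ₀ θ₁ δ t ρ θ h) {x : ℝ} (hx : x ∈ Icc δ (1 - δ)) : |R| * qs δ ≤ ρ x := by
  rcases hx.1.eq_or_lt with h1 | h1
  · rw [← h1, (hn.foot₀ δ le_rfl).1]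
  rcases hx.2.eq_or_lt with h2 | h2
  · rw [h2, (hn.foot₁ (1 - δ) le_rfl).1, (Dqs_symm δ).1]
  · exact (hn.mid x h1 h2).le

theorem Dsh_inj_aux (hn : NCore c R θ₀ θ₁ δ t ρ θ h) {x y : ℝ} (hyA : y ∉ Adb δ ρ h) (hxy : x < y)
    (he : (ρ x, h x) = (ρ y, h y)) : False := by
  have hδ := hn.δ_pos
  have hδ1 := hn.δ_lt
  have hR := abs_pos.2 hn.R_ne
  have e1 := congrArg Prod.fst he
  have e2 := congrArg Prod.snd he
  simp only at e1 e2
  rcases lt_or_ge x δ with h1 | h1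
  · rw [(hn.foot₀ x h1.le).1] at e1
    rw [(hn.foot₀ x h1.le).2.1] at e2
    have h5 := mul_lt_mul_of_pos_left (Dqs_mono h1 (by linarith)) hR
    rcases lt_or_ge y δ with h2 | h2
    · rw [(hn.foot₀ y h2.le).1] at e1
      have h4 := mul_lt_mul_of_pos_left (Dqs_mono hxy (by linarith)) hR
      linarith
    rcases le_or_gt y (1 - δ) with h3 | h3
    · have := Dsh_mid hn ⟨h2, h3⟩
      linarith
    · rw [(hn.foot₁ y h3.le).2.1] at e2
      have h6 := Dqs_ps.1 (show x < 1 / 2 by linarith)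
      have h7 := Dqs_ps.2 (show 1 / 2 < y by linarith)
      have h8 : R * ps x = R * ps y := by linarith
      have := mul_left_cancel₀ hn.R_ne h8
      linarith
  rcases le_or_gt y (1 - δ) with h3 | h3
  · exact hyA ⟨⟨by linarith, h3⟩, x, ⟨h1, by linarith⟩, hxy, he⟩
  · rw [(hn.foot₁ y h3.le).1] at e1
    have h5 := mul_lt_mul_of_pos_left (Dqs_anti (show 1 / 2 ≤ 1 - δ by linarith) h3) hR
    rw [(Dqs_symm δ).1] at h5
    rcases le_or_gt x (1 - δ) with h4 | h4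
    · have := Dsh_mid hn ⟨h1, h4⟩
      linarith
    · rw [(hn.foot₁ x h4.le).1] at e1
      have h6 := mul_lt_mul_of_pos_left (Dqs_anti (show 1 / 2 ≤ x by linarith) hxy) hR
      linarith

theorem Dsh_inj (hn : NCore c R θ₀ θ₁ δ t ρ θ h) {x y : ℝ} (hx : x ∈ Icc (0 : ℝ) 1) (hy : y ∈ Icc (0 : ℝ) 1)
    (hxA : x ∉ Adb δ ρ h) (hyA : y ∉ Adb δ ρ h) (he : (ρ x, h x) = (ρ y, h y)) : x = y := by
  rcases lt_trichotomy x y with h1 | h1 | h1
  · exact absurd (Dsh_inj_aux hn hyA h1 he) id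
  · exact h1
  · exact absurd (Dsh_inj_aux hn hxA h1 he.symm) id

theorem Dsh_imm (hn : NCore c R θ₀ θ₁ δ t ρ θ h) (hg : Gen δ (1 - δ) ρ h) (x : ℝ) :
    (deriv ρ x, deriv h x) ≠ (0, 0) := by
  have key : (ρ =ᶠ[𝓝 x] fun x => |R| * qs x) → (h =ᶠ[𝓝 x] fun x => c + R * ps x) →
      (deriv ρ x, deriv h x) ≠ (0, 0) := by
    intro e1 e2 h0
    have d1 := congrArg Prod.fst h0
    have d3 := congrArg Prod.snd h0
    simp only at d1 d3
    rw [e1.deriv_eq] at d1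
    rw [e2.deriv_eq] at d3
    have f1 : deriv (fun x => |R| * qs x) x = |R| * deriv qs x :=
      deriv_const_mul _ ((Dqs_smooth.1.differentiable (by simp)) x)
    have f2 : deriv (fun x => c + R * ps x) x = R * deriv ps x := by
      rw [deriv_const_add, deriv_const_mul _ ((Dqs_smooth.2.differentiable (by simp)) x)]
    rw [f1] at d1
    rw [f2] at d3
    apply Dqs_deriv x
    rw [(mul_eq_zero.1 d1).resolve_left (abs_ne_zero.2 hn.R_ne), (mul_eq_zero.1 d3).resolve_left hn.R_ne]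
  rcases lt_or_ge x δ with h1 | h1
  · apply key
    · filter_upwards [Iio_mem_nhds h1] with y hy
      exact (hn.foot₀ y (le_of_lt hy)).1
    · filter_upwards [Iio_mem_nhds h1] with y hy
      exact (hn.foot₀ y (le_of_lt hy)).2.1
  rcases lt_or_ge (1 - δ) x with h2 | h2
  · apply key
    · filter_upwards [Ioi_mem_nhds h2] with y hy
      exact (hn.foot₁ y (le_of_lt hy)).1
    · filter_upwards [Ioi_mem_nhds h2] with y hy
      exact (hn.foot₁ y (le_of_lt hy)).2.1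
  · exact hg.imm x ⟨h1, h2⟩

/-- the foot and the tip -/
theorem Dsh_foot (hn : NCore c R θ₀ θ₁ δ t ρ θ h) {x : ℝ} (hx : δ / 2 ≤ x) (hx1 : x ≤ δ) :
    |R| * qs (δ / 2) ≤ |R| * qs x ∧ (|R| * qs x = |R| * qs (δ / 2) → x = δ / 2) := by
  have hδ := hn.δ_pos
  have hδ1 := hn.δ_lt
  have hR := abs_pos.2 hn.R_ne
  rcases hx.eq_or_lt with h1 | h1
  · rw [← h1]
    exact ⟨le_rfl, fun _ => rfl⟩
  · have h2 := mul_lt_mul_of_pos_left (Dqs_mono h1 (by linarith)) hR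
    exact ⟨h2.le, fun h3 => absurd h3 h2.ne'⟩

theorem Dsh_low (hn : NCore c R θ₀ θ₁ δ t ρ θ h) {x : ℝ} (hx : x ∈ Icc (δ / 2) (1 - δ / 2)) :
    |R| * qs (δ / 2) ≤ ρ x ∧ (ρ x = |R| * qs (δ / 2) → x = δ / 2 ∨ x = 1 - δ / 2) := by
  have hδ := hn.δ_pos
  have hδ1 := hn.δ_lt
  have hR := abs_pos.2 hn.R_ne
  rcases le_or_gt x δ with h1 | h1
  · rw [(hn.foot₀ x h1).1]
    obtain ⟨a, b⟩ := Dsh_foot hn hx.1 h1
    exact ⟨a, fun h => Or.inl (b h)⟩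
  rcases le_or_gt (1 - δ) x with h2 | h2
  · have h3 : qs x = qs (1 - x) := by rw [(Dqs_symm x).1]
    rw [(hn.foot₁ x h2).1, h3]
    obtain ⟨a, b⟩ := Dsh_foot hn (x := 1 - x) (by linarith [hx.2]) (by linarith)
    exact ⟨a, fun h => Or.inr (by linarith [b h])⟩
  · have h3 := hn.mid x h1 h2
    have h4 := mul_lt_mul_of_pos_left (Dqs_mono (show δ / 2 < δ by linarith) (by linarith)) hR
    exact ⟨by linarith, fun h => absurd h (by linarith)⟩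

theorem Dsh_small (hn : NCore c R θ₀ θ₁ δ t ρ θ h) {x : ℝ} (hx : 0 ≤ x) (hx1 : x ≤ δ / 2) :
    |(|R| * qs x)| ≤ |R| * qs (δ / 2) ∧ (|(|R| * qs x)| = |R| * qs (δ / 2) → x = δ / 2) := by
  have hδ := hn.δ_pos
  have hδ1 := hn.δ_lt
  have hR := abs_pos.2 hn.R_ne
  have h0 : 0 ≤ qs x := by
    rcases hx.eq_or_lt with h | h
    · rw [← h, Dqs_zero.1]
    · exact (Dqs_pos h (by linarith)).le
  rw [abs_of_nonneg (mul_nonneg hR.le h0)]
  rcases hx1.eq_or_lt with h1 | h1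
  · rw [h1]
    exact ⟨le_rfl, fun _ => rfl⟩
  · have h2 := mul_lt_mul_of_pos_left (Dqs_mono h1 (by linarith)) hR
    exact ⟨h2.le, fun h3 => absurd h3 h2.ne⟩

theorem Dsh_end (hn : NCore c R θ₀ θ₁ δ t ρ θ h) {y : ℝ} (hy : y ∈ Icc 0 (1 + t)) (hy' : y ∉ Ioo (δ / 2) (1 - δ / 2)) :
    |ρ y| ≤ |R| * qs (δ / 2) ∧ (|ρ y| = |R| * qs (δ / 2) → y = δ / 2 ∨ y = 1 - δ / 2) := by
  have hδ := hn.δ_pos
  have hδ1 := hn.δ_lt
  have hR := abs_pos.2 hn.R_ne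
  rcases le_or_gt y (δ / 2) with h1 | h1
  · rw [(hn.foot₀ y (by linarith)).1]
    obtain ⟨a, b⟩ := Dsh_small hn hy.1 h1
    exact ⟨a, fun h => Or.inl (b h)⟩
  have h2 : 1 - δ / 2 ≤ y := by
    by_contra hc
    exact hy' ⟨h1, not_le.1 hc⟩
  rw [(hn.foot₁ y (by linarith)).1]
  rcases le_or_gt y 1 with h3 | h3
  · have h4 : qs y = qs (1 - y) := by rw [(Dqs_symm y).1]
    rw [h4]
    obtain ⟨a, b⟩ := Dsh_small hn (x := 1 - y) (by linarith) (by linarith)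
    exact ⟨a, fun h => Or.inr (by linarith [b h])⟩
  · have h4 := Dqs_small hδ hδ1 hn.t_le h3.le hy.2
    have h5 := Dqs_large hδ hδ1
    have h6 : |(|R| * qs y)| < |R| * qs (δ / 2) := by
      rw [abs_mul, abs_abs]
      exact mul_lt_mul_of_pos_left (by linarith) hR
    exact ⟨h6.le, fun h => absurd h h6.ne⟩

/-- the heights of the two ends of the moving part are different -/
theorem Dsh_ht (hn : NCore c R θ₀ θ₁ δ t ρ θ h) : h (δ / 2) ≠ h (1 - δ / 2) := by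
  have hδ := hn.δ_pos
  have hδ1 := hn.δ_lt
  intro he
  rw [(hn.foot₀ (δ / 2) (by linarith)).2.1, (hn.foot₁ (1 - δ / 2) (by linarith)).2.1,
    (Dqs_symm (δ / 2)).2] at he
  have h3 : R * ps (δ / 2) = 0 := by linarith
  have h4 := Dqs_ps.1 (show δ / 2 < 1 / 2 by linarith)
  rcases mul_eq_zero.1 h3 with h5 | h5
  · exact hn.R_ne h5
  · exact h4.ne h5

theorem Dsh_out (hn : NCore c R θ₀ θ₁ δ t ρ θ h) {x : ℝ} (hx : x ≤ 0 ∨ 1 ≤ x) : ρ x ≤ 7 / 10 * δ * |R| := by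
  have hδ := hn.δ_pos
  have hδ1 := hn.δ_lt
  have hR := abs_pos.2 hn.R_ne
  have h1 : ρ x = |R| * qs x := by
    rcases hx with hx | hx
    · exact (hn.foot₀ x (by linarith)).1
    · exact (hn.foot₁ x (by linarith)).1
  have h2 : qs x ≤ 0 := by
    rcases hx with hx | hx
    · rcases hx.eq_or_lt with h | h
      · rw [h, Dqs_zero.1]
      · exact (Dqs_neg (Or.inl h)).le
    · rcases hx.eq_or_lt with h | h
      · rw [← h, Dqs_zero.2]
      · exact (Dqs_neg (Or.inr h)).le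
  rw [h1]
  have h3 : |R| * qs x ≤ 0 := mul_nonpos_of_nonneg_of_nonpos hR.le h2
  have h4 : 0 < 7 / 10 * δ * |R| := by positivity
  linarith

theorem Dsh_tail (hn : NCore c R θ₀ θ₁ δ t ρ θ h) {x : ℝ} (hx : x ∈ Icc 1 (1 + t)) : |ρ x| ≤ 7 / 10 * δ * |R| := by
  have hδ := hn.δ_pos
  have hδ1 := hn.δ_lt
  have hR := abs_pos.2 hn.R_ne
  rw [(hn.foot₁ x (by linarith [hx.1])).1, abs_mul, abs_abs, mul_comm]
  exact mul_le_mul_of_nonneg_right (Dqs_small hδ hδ1 hn.t_le hx.1 hx.2) hR.le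

theorem Dsh_r0 (hn : NCore c R θ₀ θ₁ δ t ρ θ h) : 0 < 7 / 10 * δ * |R| ∧ 7 / 10 * δ * |R| < |R| * qs (δ / 2) := by
  have hδ := hn.δ_pos
  have hR := abs_pos.2 hn.R_ne
  refine ⟨by positivity, ?_⟩
  rw [mul_comm (7 / 10 * δ)]
  exact mul_lt_mul_of_pos_left (Dqs_large hδ hn.δ_lt) hR

end Pool.Agent.KNT
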