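import Pool.Agent.KNT.Defs
import Pool.Agent.RSG.ExM

/-!
# KNT/EQs: the semicircle
-/

open scoped ContDiff Topology
open Set Filter
open Pool.Agent.CSG (stp)
open Pool.Agent.RSG (ex)

namespace Pool.Agent.KNT

theorem EQs_den (x : ℝ) : 0 < 1 + (2 * x - 1) ^ 2 := by positivity

theorem qs_smooth : ContDiff ℝ ∞ qs := by
  unfold qs
  exact ContDiff.div (by fun_prop) (by fun_prop) fun x => (EQs_den x).ne'

theorem ps_smooth : ContDiff ℝ ∞ ps := by
  unfold ps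
  exact ContDiff.div (by fun_prop) (by fun_prop) fun x => (EQs_den x).ne'

theorem qs_sq (x : ℝ) : qs x ^ 2 + ps x ^ 2 = 1 := by
  have := (EQs_den x).ne'
  unfold qs ps
  field_simp
  ring

theorem one_add_qs_pos (x : ℝ) : 0 < 1 + qs x := by
  have h := EQs_den x
  have e : 1 + qs x = 2 / (1 + (2 * x - 1) ^ 2) := by
    unfold qs
    field_simp
    ring
  rw [e]
  positivity

theorem ps_eq (x : ℝ) : ps x = (2 * x - 1) * (1 + qs x) := by
  have h := (EQs_den x).ne'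
  unfold ps qs
  field_simp
  ring

theorem qs_le_one (x : ℝ) : qs x ≤ 1 := by nlinarith [qs_sq x, sq_nonneg (ps x), sq_nonneg (qs x - 1)]

theorem circle_inj {x y : ℝ} (h1 : qs x = qs y) (h2 : ps x = ps y) : x = y := by
  rw [ps_eq, ps_eq, h1] at h2
  have := mul_right_cancel₀ (one_add_qs_pos y).ne' h2
  linarith

theorem qs_pos {x : ℝ} (h0 : 0 < x) (h1 : x < 1) : 0 < qs x := by
  unfold qs
  apply div_pos _ (EQs_den x)
  nlinarith

theorem qs_neg {x : ℝ} (h1 : 1 < x) : qs x < 0 := by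
  unfold qs
  apply div_neg_of_neg_of_pos _ (EQs_den x)
  nlinarith

theorem qs_zero : qs 0 = 0 := by unfold qs; norm_num
theorem qs_one : qs 1 = 0 := by unfold qs; norm_num
theorem ps_zero : ps 0 = -1 := by unfold ps; norm_num
theorem ps_one : ps 1 = 1 := by unfold ps; norm_num

/-- the mirror point -/
theorem qs_mirror {x y : ℝ} (h1 : qs x = -qs y) (h2 : ps x = ps y) : (2 * x - 1) * (2 * y - 1) = 1 := by
  have a := EQs_den x
  have b := EQs_den y
  have e1 : 1 + qs x = 2 / (1 + (2 * x - 1) ^ 2) := by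
    unfold qs
    field_simp
    ring
  have e2 : 1 - qs y = 2 * (2 * y - 1) ^ 2 / (1 + (2 * y - 1) ^ 2) := by
    unfold qs
    field_simp
    ring
  have e3 : 1 + qs x = 1 - qs y := by rw [h1]; ring
  have e4 : ps y = 2 * (2 * y - 1) / (1 + (2 * y - 1) ^ 2) := rfl
  have e5 := ps_eq x
  rw [h2, e3, e2, e4] at e5
  have e6 : 2 * (2 * y - 1) = (2 * x - 1) * (2 * (2 * y - 1) ^ 2) := by
    have h5 : 2 * (2 * y - 1) / (1 + (2 * y - 1) ^ 2) * (1 + (2 * y - 1) ^ 2) =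
        (2 * x - 1) * (2 * (2 * y - 1) ^ 2 / (1 + (2 * y - 1) ^ 2)) * (1 + (2 * y - 1) ^ 2) := by
      rw [← e5]
    rw [div_mul_cancel₀ _ b.ne', mul_assoc, div_mul_cancel₀ _ b.ne'] at h5
    exact h5
  have hy : 2 * y - 1 ≠ 0 := by
    intro hy
    have h3 : 1 - qs y = 0 := by rw [e2, hy]; simp
    have := one_add_qs_pos x
    rw [e3, h3] at this
    exact lt_irrefl _ this
  have e7 : (2 * y - 1) * (1 - (2 * x - 1) * (2 * y - 1)) = 0 := by nlinarith
  rcases mul_eq_zero.1 e7 with h | h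
  · exact absurd h hy
  · linarith

theorem qs_deriv (x : ℝ) : HasDerivAt qs (-8 * (2 * x - 1) / (1 + (2 * x - 1) ^ 2) ^ 2) x := by
  have h := (EQs_den x).ne'
  have h1 : HasDerivAt (fun x : ℝ => 2 * x - 1) 2 x := by
    simpa using ((hasDerivAt_id x).const_mul 2).sub_const 1
  have h2 : HasDerivAt (fun x : ℝ => (2 * x - 1) ^ 2) (2 * (2 * x - 1) * 2) x := by
    have h2' := h1.mul h1
    have e1 : (fun x : ℝ => (2 * x - 1) ^ 2) = (fun x : ℝ => 2 * x - 1) * fun x => 2 * x - 1 := by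
      funext x
      simp only [Pi.mul_apply]
      ring
    have e2 : 2 * (2 * x - 1) * 2 = 2 * (2 * x - 1) + (2 * x - 1) * 2 := by ring
    rw [e1, e2]
    exact h2'
  have h3 := (h2.const_sub 1).div (h2.const_add 1) h
  have e : -8 * (2 * x - 1) / (1 + (2 * x - 1) ^ 2) ^ 2 =
    (-(2 * (2 * x - 1) * 2) * (1 + (2 * x - 1) ^ 2) - (1 - (2 * x - 1) ^ 2) * (2 * (2 * x - 1) * 2)) /
      (1 + (2 * x - 1) ^ 2) ^ 2 := by
    congr 1
    ring
  rw [e]
  exact h3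

theorem ps_deriv (x : ℝ) : HasDerivAt ps (4 * (1 - (2 * x - 1) ^ 2) / (1 + (2 * x - 1) ^ 2) ^ 2) x := by
  have h := (EQs_den x).ne'
  have h1 : HasDerivAt (fun x : ℝ => 2 * x - 1) 2 x := by
    simpa using ((hasDerivAt_id x).const_mul 2).sub_const 1
  have h2 : HasDerivAt (fun x : ℝ => (2 * x - 1) ^ 2) (2 * (2 * x - 1) * 2) x := by
    have h2' := h1.mul h1
    have e1 : (fun x : ℝ => (2 * x - 1) ^ 2) = (fun x : ℝ => 2 * x - 1) * fun x => 2 * x - 1 := by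
      funext x
      simp only [Pi.mul_apply]
      ring
    have e2 : 2 * (2 * x - 1) * 2 = 2 * (2 * x - 1) + (2 * x - 1) * 2 := by ring
    rw [e1, e2]
    exact h2'
  have h3 := (h1.const_mul 2).div (h2.const_add 1) h
  have e : 4 * (1 - (2 * x - 1) ^ 2) / (1 + (2 * x - 1) ^ 2) ^ 2 =
    (2 * 2 * (1 + (2 * x - 1) ^ 2) - 2 * (2 * x - 1) * (2 * (2 * x - 1) * 2)) /
      (1 + (2 * x - 1) ^ 2) ^ 2 := by
    congr 1
    ring
  rw [e]
  exact h3

theorem circle_imm (x : ℝ) : ¬ (deriv qs x = 0 ∧ deriv ps x = 0) := by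
  rintro ⟨h1, h2⟩
  have h := (EQs_den x)
  rw [(qs_deriv x).deriv, div_eq_zero_iff] at h1
  rw [(ps_deriv x).deriv, div_eq_zero_iff] at h2
  have hp : (1 + (2 * x - 1) ^ 2) ^ 2 ≠ 0 := by positivity
  rcases h1 with h1 | h1
  · rcases h2 with h2 | h2
    · have h3 : 2 * x - 1 = 0 := by linarith
      rw [h3] at h2
      norm_num at h2
    · exact hp h2
  · exact hp h1

/-- `ps ≤ -4/5` near the foot -/
theorem ps_foot {x : ℝ} (h0 : -(1 / 2) ≤ x) (h1 : x ≤ 1 / 4) : ps x ≤ -(4 / 5) := by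
  unfold ps
  rw [div_le_iff₀ (EQs_den x)]
  nlinarith

theorem ps_tip {x : ℝ} (h0 : 3 / 4 ≤ x) (h1 : x ≤ 3 / 2) : 4 / 5 ≤ ps x := by
  unfold ps
  rw [le_div_iff₀ (EQs_den x)]
  nlinarith

end Pool.Agent.KNT
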