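import Pool.Agent.KNT.Defs
import Pool.Agent.RSG.ExM

/-!
# KNT/ERot: rotations `(w, h) ↦ (w ex (f (w, h)), h)` by an angle which is invariant under rotations
-/

open scoped ContDiff Topology
open Set Filter
open Pool.Agent.CSG (stp)
open Pool.Agent.RSG (ex)

namespace Pool.Agent.KNT

/-- the rotation by the angle `f` (invariant under rotations) -/
noncomputable def rotP (f : ℂ × ℝ → ℝ) (hf : ∀ (w : ℂ) (a h : ℝ), f (w * ex a, h) = f (w, h)) :
    Equiv.Perm (ℂ × ℝ) where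
  toFun q := (q.1 * ex (f q), q.2)
  invFun q := (q.1 * ex (-f q), q.2)
  left_inv q := by
    have h1 : f (q.1 * ex (f q), q.2) = f q := hf _ _ _
    show ((q.1 * ex (f q)) * ex (-f (q.1 * ex (f q), q.2)), q.2) = q
    rw [h1, mul_assoc, ← RSG.ex_add, add_neg_cancel, RSG.ex_zero, mul_one]
  right_inv q := by
    have h1 : f (q.1 * ex (-f q), q.2) = f q := hf _ _ _
    show ((q.1 * ex (-f q)) * ex (f (q.1 * ex (-f q), q.2)), q.2) = q
    rw [h1, mul_assoc, ← RSG.ex_add, neg_add_cancel, RSG.ex_zero, mul_one]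

theorem rotP_apply (f : ℂ × ℝ → ℝ) (hf : ∀ (w : ℂ) (a h : ℝ), f (w * ex a, h) = f (w, h)) (q : ℂ × ℝ) :
    rotP f hf q = (q.1 * ex (f q), q.2) := rfl

theorem rotP_CD {f : ℂ × ℝ → ℝ} (hf : ∀ (w : ℂ) (a h : ℝ), f (w * ex a, h) = f (w, h))
    (hs : ContDiff ℝ ∞ f) (hc : HasCompactSupport f) : CD univ (rotP f hf) where
  smooth := by
    have h1 : ContDiff ℝ ∞ fun q : ℂ × ℝ => ex (f q) := RSG.ex_smooth.comp hs
    exact (contDiff_fst.mul h1).prodMk contDiff_snd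
  smooth_symm := by
    have h1 : ContDiff ℝ ∞ fun q : ℂ × ℝ => ex (-f q) := RSG.ex_smooth.comp hs.neg
    exact (contDiff_fst.mul h1).prodMk contDiff_snd
  supp := by
    refine ⟨tsupport f, hc, subset_univ _, ?_⟩
    intro x hx
    rw [rotP_apply, image_eq_zero_of_notMem_tsupport hx, RSG.ex_zero, mul_one]

theorem rotP_U {f : ℂ × ℝ → ℝ} (hf : ∀ (w : ℂ) (a h : ℝ), f (w * ex a, h) = f (w, h)) :
    rotP f hf '' U = U := by
  have h0 : ∀ x ∈ U, rotP f hf x = x := by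
    intro x hx
    have hx' : x.1 = 0 := hx
    rw [rotP_apply]
    apply Prod.ext
    · show x.1 * _ = x.1
      rw [hx', zero_mul]
    · rfl
  ext x
  constructor
  · rintro ⟨y, hy, rfl⟩
    rw [h0 y hy]
    exact hy
  · intro hx
    exact ⟨x, hx, h0 x hx⟩

/-- cores in polar form -/
theorem rotP_cor {f : ℂ × ℝ → ℝ} (hf : ∀ (w : ℂ) (a h : ℝ), f (w * ex a, h) = f (w, h))
    (ρ θ h : ℝ → ℝ) (x : ℝ) :
    rotP f hf (cor ρ θ h x) = cor ρ (fun x => θ x + f ((ρ x : ℂ), h x)) h x := by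
  rw [rotP_apply]
  unfold cor
  have h1 : f ((ρ x : ℂ) * ex (θ x), h x) = f ((ρ x : ℂ), h x) := hf _ _ _
  apply Prod.ext
  · show (ρ x : ℂ) * ex (θ x) * ex (f ((ρ x : ℂ) * ex (θ x), h x)) = _
    rw [h1, mul_assoc, ← RSG.ex_add]
  · rfl

end Pool.Agent.KNT
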