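import Pool.Agent.KNT.EStp
import Pool.Agent.KNT.ERot
import Pool.Agent.KNT.EQs

/-!
# KNT/EInj: cores with increasing angle are embedded
-/

open scoped ContDiff Topology
open Set Filter
open Complex (I)
open Pool.Agent.CSG (stp)
open Pool.Agent.RSG (ex)

namespace Pool.Agent.KNT

/-- `HG` only depends on the values on `[0, 1 + t]` -/
theorem EInj_congr {u : ℕ} {t : ℝ} {g g' : ℝ → ℂ × ℝ} (h : ∀ x ∈ Icc 0 (1 + t), g' x = g x)
    (H : HG u t g') : HG u t g :=
  fun Φ L hL hC hΦ => H Φ L hL hC fun x hx => (hΦ x hx).trans (h x hx).symm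

/-- the properties of the plane curve -/
structure EFt (c R δ t : ℝ) (ρ h : ℝ → ℝ) : Prop where
  smρ : ContDiff ℝ ∞ ρ
  smh : ContDiff ℝ ∞ h
  R_ne : R ≠ 0
  δ_pos : 0 < δ
  δ_lt : δ < 1 / 4
  t_pos : 0 < t
  t_le : t ≤ δ / 4
  f0 : ∀ x, x ≤ δ → ρ x = |R| * qs x ∧ h x = c + R * ps x
  f1 : ∀ x, 1 - δ ≤ x → ρ x = |R| * qs x ∧ h x = c + R * ps x
  pos : ∀ x, 0 < x → x < 1 → 0 < ρ x

/-- the increasing angle -/
noncomputable def eth (θ₀ δ x : ℝ) : ℝ := θ₀ + stp (δ / 2) (1 - δ / 2) x / 4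

theorem eth_smooth (θ₀ δ : ℝ) : ContDiff ℝ ∞ (eth θ₀ δ) := by
  unfold eth
  exact contDiff_const.add ((CSG.stp_smooth _ _).div_const 4)

theorem EInj_ne {a b r r' : ℝ} (hr : 0 < r) (hr' : r' < 0) (h : |b - a| ≤ 1 / 4) :
    (r : ℂ) * ex a ≠ r' * ex b := by
  intro he
  have e : (r' : ℂ) * ex b = ((-r' : ℝ) : ℂ) * ex (b + 1 / 2) := by
    rw [RSG.ex_add, RSG.ex_half]
    push_cast
    ring
  rw [e] at he
  obtain ⟨-, m, hm⟩ := RSG.ex_polar hr (neg_pos.2 hr') he
  obtain ⟨h1, h2⟩ := abs_le.1 h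
  have h3 : (0 : ℝ) < m := by linarith
  have h4 : (m : ℝ) < 1 := by linarith
  have h5 : 0 < m := by exact_mod_cast h3
  have h6 : m < 1 := by exact_mod_cast h4
  omega

section
variable {c R δ t : ℝ} {ρ h : ℝ → ℝ}

theorem EFt.circle (H : EFt c R δ t ρ h) {x y : ℝ} (h1 : |R| * qs x = |R| * qs y)
    (h2 : c + R * ps x = c + R * ps y) : x = y :=
  circle_inj (mul_left_cancel₀ (abs_ne_zero.2 H.R_ne) h1)
    (mul_left_cancel₀ H.R_ne (add_left_cancel h2))

theorem EFt.sign (H : EFt c R δ t ρ h) {x : ℝ} (hx : x ∈ Icc 0 (1 + t)) :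
    ((x = 0 ∨ x = 1) ∧ ρ x = 0) ∨ (0 < x ∧ x < 1 ∧ 0 < ρ x) ∨ (1 < x ∧ ρ x < 0) := by
  have hR : 0 < |R| := abs_pos.2 H.R_ne
  have hδ := H.δ_pos
  have hδ1 := H.δ_lt
  rcases lt_trichotomy x 0 with h0 | h0 | h0
  · exact absurd hx.1 (not_le.2 h0)
  · left
    refine ⟨Or.inl h0, ?_⟩
    rw [(H.f0 x (by linarith)).1, h0, qs_zero, mul_zero]
  rcases lt_trichotomy x 1 with h1 | h1 | h1
  · exact Or.inr (Or.inl ⟨h0, h1, H.pos x h0 h1⟩)
  · left
    refine ⟨Or.inr h1, ?_⟩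
    rw [(H.f1 x (by linarith)).1, h1, qs_one, mul_zero]
  · right; right
    refine ⟨h1, ?_⟩
    rw [(H.f1 x (by linarith)).1]
    exact mul_neg_of_pos_of_neg hR (qs_neg h1)

theorem eth_near (θ₀ δ : ℝ) (x y : ℝ) : |eth θ₀ δ x - eth θ₀ δ y| ≤ 1 / 4 := by
  have h1 := CSG.stp_nonneg (δ / 2) (1 - δ / 2) x
  have h2 := CSG.stp_le_one (δ / 2) (1 - δ / 2) x
  have h3 := CSG.stp_nonneg (δ / 2) (1 - δ / 2) y
  have h4 := CSG.stp_le_one (δ / 2) (1 - δ / 2) y
  unfold eth
  rw [abs_le]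
  constructor <;> linarith

theorem EFt.inj (H : EFt c R δ t ρ h) (θ₀ : ℝ) : InjOn (cor ρ (eth θ₀ δ) h) (Icc 0 (1 + t)) := by
  intro x hx y hy hxy
  have hw : (ρ x : ℂ) * ex (eth θ₀ δ x) = ρ y * ex (eth θ₀ δ y) := congrArg Prod.fst hxy
  have hh : h x = h y := congrArg Prod.snd hxy
  have hδ := H.δ_pos
  have hδ1 := H.δ_lt
  have hR := H.R_ne
  have hab : δ / 2 < 1 - δ / 2 := by linarith
  have hn : |ρ x| = |ρ y| := by
    have := congrArg norm hw
    simpa [norm_mul, RSG.ex_norm] using this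
  rcases H.sign hx with ⟨hx1, hx2⟩ | ⟨hx0, hx1, hx2⟩ | ⟨hx1, hx2⟩
  · have hy2 : ρ y = 0 := by
      rw [hx2, abs_zero] at hn
      exact abs_eq_zero.1 hn.symm
    have hy1 : y = 0 ∨ y = 1 := by
      rcases H.sign hy with ⟨h1, -⟩ | ⟨-, -, h1⟩ | ⟨-, h1⟩
      · exact h1
      · exact absurd hy2 h1.ne'
      · exact absurd hy2 h1.ne
    have e0 : h 0 = c - R := by rw [(H.f0 0 hδ.le).2, ps_zero]; ring
    have e1 : h 1 = c + R := by rw [(H.f1 1 (by linarith)).2, ps_one]; ring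
    rcases hx1 with hx1 | hx1 <;> rcases hy1 with hy1 | hy1
    · rw [hx1, hy1]
    · rw [hx1, hy1, e0, e1] at hh
      exact absurd (by linarith) hR
    · rw [hx1, hy1, e0, e1] at hh
      exact absurd (by linarith) hR
    · rw [hx1, hy1]
  · rcases H.sign hy with ⟨-, h1⟩ | ⟨hy0, hy1, hy2⟩ | ⟨-, h1⟩
    · rw [h1, abs_zero] at hn
      exact absurd (abs_eq_zero.1 hn) hx2.ne'
    · obtain ⟨e1, m, hm⟩ := RSG.ex_polar hx2 hy2 hw
      have hm0 : m = 0 := by
        obtain ⟨a1, a2⟩ := abs_le.1 (eth_near θ₀ δ x y)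
        have h3 : |(m : ℝ)| < 1 := by
          rw [abs_lt]
          constructor <;> linarith
        have h4 : |m| < 1 := by exact_mod_cast h3
        exact Int.abs_lt_one_iff.1 h4
      have hst : stp (δ / 2) (1 - δ / 2) x = stp (δ / 2) (1 - δ / 2) y := by
        rw [hm0] at hm
        unfold eth at hm
        push_cast at hm
        linarith
      rcases (CSG.stp_nonneg (δ / 2) (1 - δ / 2) x).eq_or_lt with h0 | h0
      · have hx3 : x ≤ δ := by
          by_contra hc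
          have := CSG.stp_pos hab (show δ / 2 < x by linarith)
          linarith
        have hy3 : y ≤ δ := by
          by_contra hc
          have := CSG.stp_pos hab (show δ / 2 < y by linarith)
          linarith
        obtain ⟨p1, p2⟩ := H.f0 x hx3
        obtain ⟨q1, q2⟩ := H.f0 y hy3
        exact H.circle (by rw [← p1, ← q1, e1]) (by rw [← p2, ← q2, hh])
      rcases (CSG.stp_le_one (δ / 2) (1 - δ / 2) x).eq_or_lt with h1 | h1
      · have hx3 : 1 - δ ≤ x := by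
          by_contra hc
          have := CSG.stp_lt_one hab (show x < 1 - δ / 2 by linarith)
          linarith
        have hy3 : 1 - δ ≤ y := by
          by_contra hc
          have := CSG.stp_lt_one hab (show y < 1 - δ / 2 by linarith)
          linarith
        obtain ⟨p1, p2⟩ := H.f1 x hx3
        obtain ⟨q1, q2⟩ := H.f1 y hy3
        exact H.circle (by rw [← p1, ← q1, e1]) (by rw [← p2, ← q2, hh])
      · exact stp_inj hab h0 h1 hst
    · exact absurd hw (EInj_ne hx2 h1 (eth_near θ₀ δ y x))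
  · rcases H.sign hy with ⟨-, h1⟩ | ⟨hy0, hy1, hy2⟩ | ⟨hy1, hy2⟩
    · rw [h1, abs_zero] at hn
      exact absurd (abs_eq_zero.1 hn) hx2.ne
    · exact absurd hw.symm (EInj_ne hy2 hx2 (eth_near θ₀ δ x y))
    · obtain ⟨p1, p2⟩ := H.f1 x (by linarith)
      obtain ⟨q1, q2⟩ := H.f1 y (by linarith)
      have e1 : ρ x = ρ y := by
        rw [abs_of_neg hx2, abs_of_neg hy2] at hn
        linarith
      exact H.circle (by rw [← p1, ← q1, e1]) (by rw [← p2, ← q2, hh])

/-- the derivative of a core -/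
theorem cor_deriv {ρ θ h : ℝ → ℝ} (hρ : ContDiff ℝ ∞ ρ) (hθ : ContDiff ℝ ∞ θ) (hh : ContDiff ℝ ∞ h)
    (x : ℝ) : HasDerivAt (cor ρ θ h)
      (ex (θ x) * (((deriv ρ x : ℝ) : ℂ) + (2 * Real.pi * ρ x * deriv θ x : ℝ) * I), deriv h x) x := by
  have h1 : HasDerivAt (fun x => (ρ x : ℂ)) ((deriv ρ x : ℝ) : ℂ) x :=
    ((hρ.differentiable (by simp)) x).hasDerivAt.ofReal_comp
  have h2 : HasDerivAt (fun x => ((2 * Real.pi * θ x : ℝ) : ℂ) * I)
      (((2 * Real.pi * deriv θ x : ℝ) : ℂ) * I) x :=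
    ((((hθ.differentiable (by simp)) x).hasDerivAt.const_mul (2 * Real.pi)).ofReal_comp).mul_const I
  have h3 := h2.cexp
  have h4 := h1.mul h3
  have h5 : HasDerivAt h (deriv h x) x := ((hh.differentiable (by simp)) x).hasDerivAt
  have e : ex (θ x) * (((deriv ρ x : ℝ) : ℂ) + (2 * Real.pi * ρ x * deriv θ x : ℝ) * I) =
      ((deriv ρ x : ℝ) : ℂ) * Complex.exp (((2 * Real.pi * θ x : ℝ) : ℂ) * I) +
      (ρ x : ℂ) * (Complex.exp (((2 * Real.pi * θ x : ℝ) : ℂ) * I) *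
        (((2 * Real.pi * deriv θ x : ℝ) : ℂ) * I)) := by
    unfold ex
    push_cast
    ring
  rw [e]
  exact HasDerivAt.prodMk h4 h5

theorem cor_deriv_zero {ρ θ h : ℝ → ℝ} (hρ : ContDiff ℝ ∞ ρ) (hθ : ContDiff ℝ ∞ θ)
    (hh : ContDiff ℝ ∞ h) {x : ℝ} (h0 : deriv (cor ρ θ h) x = 0) :
    deriv ρ x = 0 ∧ ρ x * deriv θ x = 0 ∧ deriv h x = 0 := by
  rw [(cor_deriv hρ hθ hh x).deriv] at h0
  have h1 := congrArg Prod.fst h0
  have h2 := congrArg Prod.snd h0
  simp only [Prod.fst_zero, mul_eq_zero] at h1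
  rcases h1 with h1 | h1
  · exact absurd h1 (RSG.ex_ne _)
  · have h3 := congrArg Complex.re h1
    have h4 := congrArg Complex.im h1
    simp only [Complex.add_re, Complex.ofReal_re, Complex.re_ofReal_mul, Complex.I_re, mul_zero, add_zero,
      Complex.zero_re] at h3
    simp only [Complex.add_im, Complex.ofReal_im, Complex.im_ofReal_mul, Complex.I_im, mul_one, zero_add,
      Complex.zero_im] at h4
    refine ⟨h3, ?_, h2⟩
    have hpi := Real.pi_ne_zero
    have h5 : 2 * Real.pi * (ρ x * deriv θ x) = 0 := by rw [← h4]; ring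
    rcases mul_eq_zero.1 h5 with h6 | h6
    · exact absurd h6 (by positivity)
    · exact h6

theorem EFt.imm (H : EFt c R δ t ρ h) (θ₀ : ℝ) (x : ℝ) :
    deriv (cor ρ (eth θ₀ δ) h) x ≠ 0 := by
  intro h0
  obtain ⟨d1, d2, d3⟩ := cor_deriv_zero H.smρ (eth_smooth θ₀ δ) H.smh h0
  have hδ := H.δ_pos
  have hδ1 := H.δ_lt
  have hR := H.R_ne
  have key : (ρ =ᶠ[𝓝 x] fun x => |R| * qs x) → (h =ᶠ[𝓝 x] fun x => c + R * ps x) → False := by
    intro e1 e2
    rw [e1.deriv_eq] at d1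
    rw [e2.deriv_eq] at d3
    have f1 : deriv (fun x => |R| * qs x) x = |R| * deriv qs x :=
      deriv_const_mul _ ((qs_smooth.differentiable (by simp)) x)
    have f2 : deriv (fun x => c + R * ps x) x = R * deriv ps x := by
      rw [deriv_const_add, deriv_const_mul _ ((ps_smooth.differentiable (by simp)) x)]
    rw [f1] at d1
    rw [f2] at d3
    apply circle_imm x
    constructor
    · rcases mul_eq_zero.1 d1 with h | h
      · exact absurd h (abs_ne_zero.2 hR)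
      · exact h
    · rcases mul_eq_zero.1 d3 with h | h
      · exact absurd h hR
      · exact h
  rcases lt_or_ge x δ with h1 | h1
  · apply key
    · filter_upwards [Iio_mem_nhds h1] with y hy
      exact (H.f0 y (le_of_lt hy)).1
    · filter_upwards [Iio_mem_nhds h1] with y hy
      exact (H.f0 y (le_of_lt hy)).2
  rcases lt_or_ge (1 - δ) x with h2 | h2
  · apply key
    · filter_upwards [Ioi_mem_nhds h2] with y hy
      exact (H.f1 y (le_of_lt hy)).1
    · filter_upwards [Ioi_mem_nhds h2] with y hy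
      exact (H.f1 y (le_of_lt hy)).2
  have h3 := H.pos x (by linarith) (by linarith)
  have h4 : deriv (eth θ₀ δ) x = deriv (stp (δ / 2) (1 - δ / 2)) x / 4 := by
    unfold eth
    rw [deriv_const_add, deriv_div_const]
  have h5 := stp_deriv_pos (a := δ / 2) (b := 1 - δ / 2) (x := x) (by linarith) (by linarith)
  rw [h4] at d2
  have : 0 < ρ x * (deriv (stp (δ / 2) (1 - δ / 2)) x / 4) := by positivity
  linarith

end

end Pool.Agent.KNT
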