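import Pool.Agent.KNT.StpD

/-!
# KNT/EStp: the step function is injective where it is not constant
-/

open scoped ContDiff Topology
open Set Filter
open Pool.Agent.CSG (stp)

namespace Pool.Agent.KNT

theorem stp_inj {a b x y : ℝ} (hab : a < b) (h0 : 0 < stp a b x) (h1 : stp a b x < 1)
    (h : stp a b x = stp a b y) : x = y := by
  have key : ∀ {z : ℝ}, 0 < stp a b z → stp a b z < 1 → z ∈ Icc a b := by
    intro z z0 z1
    constructor
    · by_contra hc
      rw [CSG.stp_zero hab (not_le.1 hc).le] at z0
      exact lt_irrefl _ z0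
    · by_contra hc
      rw [CSG.stp_one hab (not_le.1 hc).le] at z1
      exact lt_irrefl _ z1
  exact (stp_strictMonoOn hab).injOn (key h0 h1) (key (h ▸ h0) (h ▸ h1)) h

end Pool.Agent.KNT
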