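import Pool.Agent.KNT.DatI
import Pool.Agent.KNT.FamI
import Pool.Agent.KNT.CrsM
import Pool.Agent.KNT.MapI
import Pool.Agent.KNT.DragI
import Pool.Agent.KNT.ThnI

/-!
# KNT/Eng: the engine (all theorems of the interface EngI)
-/
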