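import Pool.Agent.KNT.Defs

/-!
# KNT/EngD: auxiliary definitions of the engine (block A)
-/

open scoped ContDiff Topology
open Set Filter
open Pool.Agent.CSG (stp)
open Pool.Agent.RSG (ex)

namespace Pool.Agent.KNT

/-- the fixed part of the knot when the finger `Φ` moves -/
def Zr (Φ : ℝ × ℝ → ℂ × ℝ) (L : SL) : Set (ℂ × ℝ) := (U \ (bas Φ ∪ Bs L)) ∪ Fg L

/-- `p` is a profile: the finger is the graph of `p`. -/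
structure IsPrf (t r : ℝ) (p : ℝ → ℝ) : Prop where
  smooth : ContDiff ℝ ∞ p
  range : ∀ y ∈ Icc (-1 : ℝ) 1, p y ∈ Icc 0 (1 + t)
  zero : ∀ y : ℝ, r ≤ |y| → p y = 0
  one : 1 < p 0

/-- A family of maps which are strips near the core; the base is fixed. -/
structure CoreFam (Λ : Set (ℂ × ℝ)) (t : ℝ) (Φ : ℝ → ℝ × ℝ → ℂ × ℝ) : Prop where
  sm : ContDiff ℝ ∞ fun p : ℝ × (ℝ × ℝ) => Φ p.1 p.2
  pos : 0 < t
  foot : ∀ l ∈ Icc (0 : ℝ) 1, ∀ y : ℝ, |y| ≤ 1 → Φ l (0, y) = Φ 0 (0, y)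
  footU : ∀ y : ℝ, |y| ≤ 1 → (Φ 0 (0, y)).1 = 0
  inj : ∀ l ∈ Icc (0 : ℝ) 1, InjOn (fun x : ℝ => Φ l (x, 0)) (Icc 0 (1 + t))
  imm : ∀ l ∈ Icc (0 : ℝ) 1, ∀ x ∈ Icc 0 (1 + t), Function.Injective (fderiv ℝ (Φ l) (x, 0))
  tip : ∀ l ∈ Icc (0 : ℝ) 1, (Φ l (1, 0)).1 = 0
  off : ∀ l ∈ Icc (0 : ℝ) 1, ∀ x ∈ Icc 0 (1 + t), (Φ l (x, 0)).1 = 0 → x = 0 ∨ x = 1
  trv : ∀ l ∈ Icc (0 : ℝ) 1, Function.Injective (fderiv ℝ (fun q : ℝ × ℝ => (Φ l q).1) (1, 0))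
  avoid : ∀ l ∈ Icc (0 : ℝ) 1, ∀ x ∈ Icc 0 (1 + t), Φ l (x, 0) ∉ Λ

/-- the linear strip with core `g` and transversal direction `k` -/
noncomputable def Lin (g k : ℝ → ℂ × ℝ) (e : ℝ) (q : ℝ × ℝ) : ℂ × ℝ := g q.1 + (e * q.2) • k q.1

/-- cross product in `ℂ × ℝ` -/
noncomputable def crp (a b : ℂ × ℝ) : ℂ × ℝ :=
  (⟨a.1.im * b.2 - a.2 * b.1.im, a.2 * b.1.re - a.1.re * b.2⟩, a.1.re * b.1.im - a.1.im * b.1.re)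

/-- tube around the core: `ζ` is the transversal coordinate -/
noncomputable def Tub (g k : ℝ → ℂ × ℝ) (q : ℂ × ℝ) : ℂ × ℝ :=
  g q.2 + q.1.re • k q.2 + q.1.im • crp (deriv g q.2) (k q.2)

end Pool.Agent.KNT
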