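import Pool.Agent.KNT.Eng

/-!
# KNT/EngI: the engine (see `Eng`)
-/
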