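import Pool.Agent.KNT.Bgn
import Pool.Agent.KNT.Cdm
import Pool.Agent.LKN.Base

/-!
# KNT/GA: long knots in general position
-/

open scoped ContDiff Topology
open Set Filter

namespace Pool.Agent.KNT

open Pool.Agent.LKN (Long iso_long)
open Pool.Agent.ISO (Move)

/-- long knot in general position -/
structure GK (r : ℝ) (w : ℝ → ℂ) (h : ℝ → ℝ) : Prop where
  pos : 0 < r
  smw : ContDiff ℝ ∞ w
  smh : ContDiff ℝ ∞ h
  ends : ∀ l, r ≤ |l| → h l = l
  bd : ∀ l, |l| < r → |h l| < r
  sup : ∃ r', r ≤ r' ∧ ∀ l, r' ≤ |l| → w l = 0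
  inj : Function.Injective fun l => (w l, h l)
  gen : Gen (-r) r (fun l => (w l).re) (fun l => (w l).im)

theorem GA_bound {f : ℝ → ℝ} (hf : ContDiff ℝ ∞ f) (hc : HasCompactSupport f) :
    ∃ B : ℝ, 0 < B ∧ ∀ l, |deriv f l| ≤ B := by
  have h1 : Continuous (deriv f) := hf.continuous_deriv (by simp)
  have h2 : HasCompactSupport (deriv f) := hc.deriv
  obtain ⟨B, hB⟩ := h2.exists_bound_of_continuous h1
  refine ⟨max B 1, lt_of_lt_of_le one_pos (le_max_right _ _), fun l => ?_⟩
  have := hB l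
  rw [Real.norm_eq_abs] at this
  exact this.trans (le_max_left _ _)

theorem exists_GK {K : Set (ℂ × ℝ)} (hK : LongK K) :
    ∃ (r : ℝ) (w : ℝ → ℂ) (h : ℝ → ℝ) (F : Equiv.Perm (ℂ × ℝ)), GK r w h ∧ CD univ F ∧
      F '' K = range fun l => (w l, h l) := by
  obtain ⟨k, hk, hkinj, hkimm, ⟨r₀, hr₀⟩, rfl⟩ := hK
  -- bound of the heights
  obtain ⟨H, hH⟩ : ∃ H : ℝ, ∀ l, |l| ≤ r₀ → |(k l).2| ≤ H := by
    have hc : IsCompact (Icc (-r₀) r₀) := isCompact_Icc
    obtain ⟨H, hH⟩ := hc.exists_bound_of_continuousOn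
      (f := fun l => (k l).2) (continuous_snd.comp hk.continuous).continuousOn
    exact ⟨H, fun l hl => hH l (abs_le.1 hl)⟩
  set r : ℝ := max (max r₀ H) 0 + 1 with hr
  have hr1 : r₀ < r := by
    have := le_max_left r₀ H
    have := le_max_left (max r₀ H) 0
    linarith
  have hr2 : H < r := by
    have := le_max_right r₀ H
    have := le_max_left (max r₀ H) 0
    linarith
  have hr3 : 0 < r := by
    have := le_max_right (max r₀ H) 0
    linarith
  have hL : Long r₀ k := ⟨hk, hkimm, hkinj, hr₀⟩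
  obtain ⟨c, hc, hcc⟩ := hL.iso_perturb (R' := r + 2) (by linarith)
  -- cutoff
  let φ : ContDiffBump (0 : ℝ) := ⟨r + 1, r + 2, by linarith, by linarith⟩
  have hφ : ContDiff ℝ ∞ φ := φ.contDiff
  have hφc : HasCompactSupport φ := φ.hasCompactSupport
  have hφ1 : ∀ l, |l| ≤ r + 1 → φ l = 1 := fun l hl =>
    φ.one_of_mem_closedBall (by simpa [Real.dist_eq] using hl)
  have hφ0 : ∀ l, r + 2 ≤ |l| → φ l = 0 := fun l hl =>
    φ.zero_of_le_dist (by simpa [Real.dist_eq] using hl)
  have hf1 : ContDiff ℝ ∞ fun l : ℝ => φ l * l := hφ.mul contDiff_id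
  have hf2 : ContDiff ℝ ∞ fun l : ℝ => φ l * l ^ 2 := hφ.mul (contDiff_id.pow 2)
  obtain ⟨B0, hB0, hB0'⟩ := GA_bound hφ hφc
  obtain ⟨B1, hB1, hB1'⟩ := GA_bound hf1 hφc.mul_right
  obtain ⟨B2, hB2, hB2'⟩ := GA_bound hf2 hφc.mul_right
  have hw : ContDiff ℝ ∞ fun l => (k l).1 := contDiff_fst.comp hk
  have hwr : ContDiff ℝ ∞ fun l => ((k l).1).re := Complex.reCLM.contDiff.comp hw
  have hwi : ContDiff ℝ ∞ fun l => ((k l).1).im := Complex.imCLM.contDiff.comp hw
  obtain ⟨v, hv, hg⟩ := Bexists_gen hwr hwi (e := c / (2 * (B0 + B1 + B2))) (by positivity)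
  set a : Fin 3 → ℂ := fun i => ⟨(v i).1, (v i).2⟩ with ha
  have han : ∀ i, ‖a i‖ ≤ 2 * ‖v i‖ := by
    intro i
    have h1 := Complex.norm_le_abs_re_add_abs_im (a i)
    have h2 : |(a i).re| ≤ ‖v i‖ := by
      have := norm_fst_le (v i)
      rwa [Real.norm_eq_abs] at this
    have h3 : |(a i).im| ≤ ‖v i‖ := by
      have := norm_snd_le (v i)
      rwa [Real.norm_eq_abs] at this
    linarith
  set q : ℝ → ℂ := fun l => (φ l) • a 0 + (φ l * l) • a 1 + (φ l * l ^ 2) • a 2 with hq
  have hqs : ContDiff ℝ ∞ q :=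
    ((hφ.smul contDiff_const).add (hf1.smul contDiff_const)).add (hf2.smul contDiff_const)
  set p : ℝ → ℂ × ℝ := fun l => (q l, 0) with hp
  have hps : ContDiff ℝ ∞ p := hqs.prodMk contDiff_const
  have hp0 : ∀ l, r + 2 ≤ |l| → p l = 0 := by
    intro l hl
    simp only [hp, hq, hφ0 l hl]
    simp
  have hqd : ∀ l, HasDerivAt q ((deriv φ l) • a 0 + (deriv (fun l : ℝ => φ l * l) l) • a 1 +
      (deriv (fun l : ℝ => φ l * l ^ 2) l) • a 2) l := by
    intro l
    have h0 := ((hφ.differentiable (by simp)) l).hasDerivAt.smul_const (a 0)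
    have h1 := ((hf1.differentiable (by simp)) l).hasDerivAt.smul_const (a 1)
    have h2 := ((hf2.differentiable (by simp)) l).hasDerivAt.smul_const (a 2)
    exact (h0.add h1).add h2
  have hpd : ∀ l, ‖deriv p l‖ ≤ c := by
    intro l
    have h1 : HasDerivAt p ((deriv φ l) • a 0 + (deriv (fun l : ℝ => φ l * l) l) • a 1 +
      (deriv (fun l : ℝ => φ l * l ^ 2) l) • a 2, 0) l := (hqd l).prodMk (hasDerivAt_const l (0 : ℝ))
    rw [h1.deriv, Prod.norm_mk, norm_zero]
    refine max_le ?_ hc.le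
    have key : ∀ (x B : ℝ) (i : Fin 3), |x| ≤ B → ‖x • a i‖ ≤ B * (c / (B0 + B1 + B2)) := by
      intro x B i hx
      rw [norm_smul, Real.norm_eq_abs]
      have e1 := han i
      have e2 := hv i
      have e3 : ‖a i‖ ≤ c / (B0 + B1 + B2) := by
        have : c / (B0 + B1 + B2) = 2 * (c / (2 * (B0 + B1 + B2))) := by
          field_simp
        rw [this]
        linarith
      exact mul_le_mul hx e3 (norm_nonneg _) ((abs_nonneg x).trans hx)
    have k0 := key _ _ 0 (hB0' l)
    have k1 := key _ _ 1 (hB1' l)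
    have k2 := key _ _ 2 (hB2' l)
    have e : B0 * (c / (B0 + B1 + B2)) + B1 * (c / (B0 + B1 + B2)) + B2 * (c / (B0 + B1 + B2)) = c := by
      field_simp
    calc _ ≤ ‖(deriv φ l) • a 0 + (deriv (fun l : ℝ => φ l * l) l) • a 1‖ +
          ‖(deriv (fun l : ℝ => φ l * l ^ 2) l) • a 2‖ := norm_add_le _ _
      _ ≤ ‖(deriv φ l) • a 0‖ + ‖(deriv (fun l : ℝ => φ l * l) l) • a 1‖ +
          ‖(deriv (fun l : ℝ => φ l * l ^ 2) l) • a 2‖ := by
            have := norm_add_le ((deriv φ l) • a 0) ((deriv (fun l : ℝ => φ l * l) l) • a 1)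
            linarith
      _ ≤ c := by linarith
  obtain ⟨hL', F, hF, hF'⟩ := hcc p hps hp0 hpd
  refine ⟨r, fun l => (k l).1 + q l, fun l => (k l).2, F, ?_, cd_of_move hF, ?_⟩
  · refine ⟨hr3, hw.add hqs, contDiff_snd.comp hk, ?_, ?_, ⟨r + 2, by linarith, ?_⟩, ?_, ?_⟩
    · intro l hl
      show (k l).2 = l
      rw [hr₀ l (by linarith)]
    · intro l hl
      show |(k l).2| < r
      rcases le_or_gt r₀ |l| with h1 | h1
      · rw [hr₀ l h1]
        exact hl
      · exact lt_of_le_of_lt (hH l h1.le) hr2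
    · intro l hl
      have h1 := hp0 l hl
      have h2 : q l = 0 := congrArg Prod.fst h1
      show (k l).1 + q l = 0
      rw [h2, hr₀ l (by linarith), add_zero]
    · intro l l' hll
      apply hL'.inj
      have hll' : ((k l).1 + q l, (k l).2) = ((k l').1 + q l', (k l').2) := hll
      obtain ⟨h1, h2⟩ := Prod.mk.inj hll'
      show k l + p l = k l' + p l'
      refine Prod.ext h1 ?_
      show (k l).2 + 0 = (k l').2 + 0
      rw [h2]
    · -- general position
      have hG := hg (-r) r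
      have eR : ∀ x, |x| < r + 1 → ((k x).1 + q x).re =
          ((k x).1).re + ((v 0).1 + (v 1).1 * x + (v 2).1 * x ^ 2) := by
        intro x hx
        simp only [hq, hφ1 x hx.le, ha, Complex.add_re, Complex.real_smul, Complex.mul_re,
          Complex.ofReal_re, Complex.ofReal_im]
        simp
        ring
      have eI : ∀ x, |x| < r + 1 → ((k x).1 + q x).im =
          ((k x).1).im + ((v 0).2 + (v 1).2 * x + (v 2).2 * x ^ 2) := by
        intro x hx
        simp only [hq, hφ1 x hx.le, ha, Complex.add_im, Complex.real_smul, Complex.mul_im,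
          Complex.ofReal_re, Complex.ofReal_im]
        simp
        ring
      have hopen : ∀ x ∈ Icc (-r) r, ∀ᶠ y in 𝓝 x, |y| < r + 1 := by
        intro x hx
        have h1 : |x| < r + 1 := lt_of_le_of_lt (abs_le.2 hx) (by linarith)
        exact (continuous_abs.tendsto x).eventually (gt_mem_nhds h1)
      have dR : ∀ x ∈ Icc (-r) r, deriv (fun l => ((k l).1 + q l).re) x =
          deriv (fun x => ((k x).1).re + ((v 0).1 + (v 1).1 * x + (v 2).1 * x ^ 2)) x := by
        intro x hx
        apply Filter.EventuallyEq.deriv_eq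
        filter_upwards [hopen x hx] with y hy
        exact eR y hy
      have dI : ∀ x ∈ Icc (-r) r, deriv (fun l => ((k l).1 + q l).im) x =
          deriv (fun x => ((k x).1).im + ((v 0).2 + (v 1).2 * x + (v 2).2 * x ^ 2)) x := by
        intro x hx
        apply Filter.EventuallyEq.deriv_eq
        filter_upwards [hopen x hx] with y hy
        exact eI y hy
      have hlt : ∀ x ∈ Icc (-r) r, |x| < r + 1 := fun x hx =>
        lt_of_le_of_lt (abs_le.2 hx) (by linarith)
      refine ⟨?_, ?_, ?_⟩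
      · intro x hx
        have := hG.imm x hx
        rw [← dR x hx, ← dI x hx] at this
        exact this
      · intro x hx y hy hxy he
        have := hG.dbl x hx y hy hxy (by
          show (_, _) = (_, _)
          rw [← eR x (hlt x hx), ← eR y (hlt y hy), ← eI x (hlt x hx), ← eI y (hlt y hy)]
          exact he)
        rw [← dR x hx, ← dI x hx, ← dR y hy, ← dI y hy] at this
        exact this
      · intro x hx y hy z hz hxy hyz hxz he
        have := hG.trp x hx y hy z hz hxy hyz hxz (by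
          show (_, _) = (_, _)
          rw [← eR x (hlt x hx), ← eR y (hlt y hy), ← eI x (hlt x hx), ← eI y (hlt y hy)]
          exact he)
        intro he'
        apply this
        show (_, _) = (_, _)
        rw [← eR x (hlt x hx), ← eR z (hlt z hz), ← eI x (hlt x hx), ← eI z (hlt z hz)]
        exact he'
  · rw [← range_comp]
    congr 1
    funext l
    show F (k l) = _
    rw [hF']
    show k l + p l = ((k l).1 + q l, (k l).2)
    refine Prod.ext rfl ?_
    show (k l).2 + 0 = (k l).2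
    rw [add_zero]

end Pool.Agent.KNT
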