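import Pool.Agent.KNT.GA
import Pool.Agent.KNT.PrfL

/-!
# KNT/GB: the wrong double pairs and the modified heights
-/

open scoped ContDiff Topology
open Set Filter
open Pool.Agent.CSG (stp stp_smooth stp_zero stp_one stp_nonneg stp_le_one)

namespace Pool.Agent.KNT

open Pool.Agent.LKN (Long iso_long)
open Pool.Agent.ISO (Move)

theorem Gbmp_le (y : ℝ) : bmp y ≤ 1 := by
  unfold bmp
  linarith [stp_nonneg (1 / 256) (1 / 64) (y ^ 2)]

theorem Gprf_nonneg {t : ℝ} (ht : 0 ≤ t) (y : ℝ) : 0 ≤ prf t y :=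
  mul_nonneg (by linarith) (bmp_nonneg y)

theorem Gprf_le {t : ℝ} (ht : 0 ≤ t) (y : ℝ) : prf t y ≤ 1 + t / 2 := by
  unfold prf
  have := Gbmp_le y
  nlinarith

theorem Gprf_mid (t : ℝ) : prf t 0 = 1 + t / 2 := by
  unfold prf
  rw [bmp_one (by norm_num), mul_one]

/-- the data of the wrong double pairs -/
structure GD (r : ℝ) (w : ℝ → ℂ) (h : ℝ → ℝ) (d t : ℝ) (S : Finset (ℝ × ℝ)) : Prop where
  gk : GK r w h
  dpos : 0 < d
  tpos : 0 < t
  mem : ∀ p, p ∈ S ↔ p.1 ∈ Icc (-r) r ∧ p.2 ∈ Icc (-r) r ∧ p.1 < p.2 ∧ w p.1 = w p.2 ∧ h p.2 < h p.1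
  far : ∀ x ∈ Icc (-r) r, ∀ x' ∈ Icc (-r) r, ∀ y ∈ Icc (-r) r, ∀ y' ∈ Icc (-r) r, x ≠ x' → y ≠ y' →
    w x = w x' → w y = w y' → x ≠ y → 4 * d < |x - y|
  lo : ∀ p ∈ S, -r + 2 * d < p.1
  hi : ∀ p ∈ S, p.2 + 2 * d < r
  small : ∀ p ∈ S, t * (p.2 - p.1) ≤ d

theorem GK_pair {w : ℝ → ℂ} {x y : ℝ} :
    w x = w y ↔ ((w x).re, (w x).im) = ((w y).re, (w y).im) := by
  rw [Prod.mk.injEq]
  exact Complex.ext_iff

theorem exists_GD {r : ℝ} {w : ℝ → ℂ} {h : ℝ → ℝ} (hk : GK r w h) : ∃ d t S, GD r w h d t S := by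
  have hwr : ContDiff ℝ ∞ fun l => (w l).re := Complex.reCLM.contDiff.comp hk.smw
  have hwi : ContDiff ℝ ∞ fun l => (w l).im := Complex.imCLM.contDiff.comp hk.smw
  have hfin := Bdbl_finite hwr hwi hk.gen
  set P : Set (ℝ × ℝ) := {p | p.1 ∈ Icc (-r) r ∧ p.2 ∈ Icc (-r) r ∧ p.1 ≠ p.2 ∧ w p.1 = w p.2} with hP
  have hPf : P.Finite := by
    refine hfin.subset ?_
    rintro p ⟨h1, h2, h3, h4⟩
    exact ⟨h1, h2, h3, GK_pair.1 h4⟩
  set S₀ : Set (ℝ × ℝ) := {p | p.1 ∈ Icc (-r) r ∧ p.2 ∈ Icc (-r) r ∧ p.1 < p.2 ∧ w p.1 = w p.2 ∧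
    h p.2 < h p.1} with hS₀
  have hSf : S₀.Finite := by
    refine hPf.subset ?_
    rintro p ⟨h1, h2, h3, h4, -⟩
    exact ⟨h1, h2, h3.ne, h4⟩
  have hr := hk.pos
  have hbd : ∀ x ∈ Icc (-r) r, |h x| ≤ r := by
    intro x hx
    rcases lt_or_ge |x| r with h1 | h1
    · exact (hk.bd x h1).le
    · rw [hk.ends x h1]
      exact abs_le.2 hx
  have hlo : ∀ p ∈ S₀, -r < p.1 := by
    rintro p ⟨h1, h2, h3, -, h5⟩
    rcases eq_or_lt_of_le h1.1 with h6 | h6
    · exfalso
      have h7 : h p.1 = p.1 := hk.ends _ (by rw [← h6, abs_neg, abs_of_pos hr])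
      have h8 := (abs_le.1 (hbd _ h2)).1
      rw [h7] at h5
      linarith
    · exact h6
  have hhi : ∀ p ∈ S₀, p.2 < r := by
    rintro p ⟨h1, h2, h3, -, h5⟩
    rcases eq_or_lt_of_le h2.2 with h6 | h6
    · exfalso
      have h7 : h p.2 = p.2 := hk.ends _ (by rw [h6, abs_of_pos hr])
      have h8 := (abs_le.1 (hbd _ h1)).2
      rw [h7] at h5
      linarith
    · exact h6
  have e0 : ∀ᶠ d in 𝓝[>] (0 : ℝ), 0 < d := self_mem_nhdsWithin
  have hsm : ∀ ε : ℝ, 0 < ε → ∀ᶠ d in 𝓝[>] (0 : ℝ), 4 * d < ε := by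
    intro ε hε
    have h1 : Tendsto (fun d : ℝ => 4 * d) (𝓝[>] 0) (𝓝 (4 * 0)) :=
      ((continuous_const.mul continuous_id).tendsto (0 : ℝ)).mono_left nhdsWithin_le_nhds
    rw [mul_zero] at h1
    exact h1.eventually (gt_mem_nhds hε)
  have e1 : ∀ᶠ d in 𝓝[>] (0 : ℝ), ∀ p ∈ S₀, -r + 2 * d < p.1 := by
    rw [eventually_all_finite hSf]
    intro p hp
    filter_upwards [hsm (p.1 + r) (by linarith [hlo p hp]), e0] with d hd hd0
    linarith
  have e2 : ∀ᶠ d in 𝓝[>] (0 : ℝ), ∀ p ∈ S₀, p.2 + 2 * d < r := by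
    rw [eventually_all_finite hSf]
    intro p hp
    filter_upwards [hsm (r - p.2) (by linarith [hhi p hp]), e0] with d hd hd0
    linarith
  have e3 : ∀ᶠ d in 𝓝[>] (0 : ℝ), ∀ q ∈ P ×ˢ P, q.1.1 ≠ q.2.1 → 4 * d < |q.1.1 - q.2.1| := by
    rw [eventually_all_finite (hPf.prod hPf)]
    intro q hq
    by_cases hne : q.1.1 = q.2.1
    · exact Eventually.of_forall fun d h => absurd hne h
    · filter_upwards [hsm _ (abs_pos.2 (sub_ne_zero.2 hne))] with d hd _
      exact hd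
  obtain ⟨d, hd0, hd1, hd2, hd3⟩ := (e0.and (e1.and (e2.and e3))).exists
  refine ⟨d, d / (2 * r + 1), hSf.toFinset, hk, hd0, by positivity, ?_, ?_, ?_, ?_, ?_⟩
  · intro p
    rw [Set.Finite.mem_toFinset]
    rfl
  · intro x hx x' hx' y hy y' hy' hxx' hyy' hw hw' hxy
    exact hd3 ((x, x'), (y, y')) ⟨⟨hx, hx', hxx', hw⟩, ⟨hy, hy', hyy', hw'⟩⟩ hxy
  · intro p hp
    exact hd1 p ((Set.Finite.mem_toFinset _).1 hp)
  · intro p hp
    exact hd2 p ((Set.Finite.mem_toFinset _).1 hp)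
  · intro p hp
    obtain ⟨h1, h2, h3, -⟩ := (Set.Finite.mem_toFinset _).1 hp
    rw [div_mul_eq_mul_div, div_le_iff₀ (by linarith)]
    have h4 := h1.1
    have h5 := h2.2
    nlinarith

variable {r : ℝ} {w : ℝ → ℂ} {h : ℝ → ℝ} {d t : ℝ} {S : Finset (ℝ × ℝ)}

/-- the modified heights -/
noncomputable def hA (d t : ℝ) (S : Finset (ℝ × ℝ)) (l : ℝ) : ℝ :=
  l + ∑ p ∈ S, (p.2 - p.1) * prf t ((l - p.1) / d)

theorem hA_smooth (d t : ℝ) (S : Finset (ℝ × ℝ)) : ContDiff ℝ ∞ (hA d t S) := by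
  unfold hA
  refine contDiff_id.add (ContDiff.sum fun p _ => ?_)
  exact contDiff_const.mul ((prf_smooth t).comp ((contDiff_id.sub contDiff_const).div_const d))

theorem GD.uniq (hD : GD r w h d t S) {x y z : ℝ} (hx : x ∈ Icc (-r) r) (hy : y ∈ Icc (-r) r)
    (hz : z ∈ Icc (-r) r) (hxy : x ≠ y) (hxz : x ≠ z) (e : w x = w y) (e' : w x = w z) : y = z := by
  by_contra hne
  exact hD.gk.gen.trp x hx y hy z hz hxy hne hxz (GK_pair.1 e)
    (GK_pair.1 e')

theorem GD.fst_inj (hD : GD r w h d t S) {p q : ℝ × ℝ} (hp : p ∈ S) (hq : q ∈ S) (he : p.1 = q.1) :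
    p = q := by
  obtain ⟨h1, h2, h3, h4, -⟩ := (hD.mem p).1 hp
  obtain ⟨g1, g2, g3, g4, -⟩ := (hD.mem q).1 hq
  refine Prod.ext he (hD.uniq h1 h2 g2 h3.ne (by rw [he]; exact g3.ne) h4 ?_)
  rw [he]
  exact g4

theorem GD.snd_ne (hD : GD r w h d t S) {p q : ℝ × ℝ} (hp : p ∈ S) (hq : q ∈ S) : p.2 ≠ q.1 := by
  intro he
  obtain ⟨h1, h2, h3, h4, -⟩ := (hD.mem p).1 hp
  obtain ⟨g1, g2, g3, g4, -⟩ := (hD.mem q).1 hq
  have := hD.uniq h2 h1 g2 h3.ne' (by rw [he]; exact g3.ne) h4.symm (by rw [he]; exact g4)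
  rw [this, he] at h3
  exact lt_asymm g3 h3

theorem GD.sep (hD : GD r w h d t S) {p : ℝ × ℝ} (hp : p ∈ S) {x y : ℝ} (hx : x ∈ Icc (-r) r)
    (hy : y ∈ Icc (-r) r) (hxy : x ≠ y) (e : w x = w y) (hne : x ≠ p.1) : 4 * d < |x - p.1| := by
  obtain ⟨h1, h2, h3, h4, -⟩ := (hD.mem p).1 hp
  exact hD.far x hx y hy p.1 h1 p.2 h2 hxy h3.ne e h4 hne

theorem GD.sep' (hD : GD r w h d t S) {p q : ℝ × ℝ} (hp : p ∈ S) (hq : q ∈ S) (hne : p ≠ q) :
    4 * d < |p.1 - q.1| := by
  obtain ⟨h1, h2, h3, h4, -⟩ := (hD.mem p).1 hp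
  exact hD.sep hq h1 h2 h3.ne h4 fun he => hne (hD.fst_inj hp hq he)

theorem hA_far (hD : GD r w h d t S) {l : ℝ} (hl : ∀ p ∈ S, d / 8 ≤ |l - p.1|) : hA d t S l = l := by
  unfold hA
  rw [Finset.sum_eq_zero, add_zero]
  intro p hp
  rw [prf_zero, mul_zero]
  rw [abs_div, abs_of_pos hD.dpos, le_div_iff₀ hD.dpos]
  have := hl p hp
  linarith

theorem hA_near (hD : GD r w h d t S) {p : ℝ × ℝ} (hp : p ∈ S) {l : ℝ} (hl : |l - p.1| ≤ d) :
    hA d t S l = l + (p.2 - p.1) * prf t ((l - p.1) / d) := by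
  unfold hA
  rw [Finset.sum_eq_single_of_mem p hp]
  intro q hq hne
  rw [prf_zero, mul_zero]
  rw [abs_div, abs_of_pos hD.dpos, le_div_iff₀ hD.dpos]
  have h1 := hD.sep' hq hp hne
  have h2 : |q.1 - p.1| ≤ |l - q.1| + |l - p.1| := by
    have := abs_sub_le q.1 l p.1
    rw [abs_sub_comm q.1 l] at this
    exact this
  have := hD.dpos
  linarith

theorem hA_out (hD : GD r w h d t S) {l : ℝ} (hl : r ≤ |l|) : hA d t S l = l := by
  apply hA_far hD
  intro p hp
  obtain ⟨h1, h2, h3, h4, -⟩ := (hD.mem p).1 hp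
  have g1 := hD.lo p hp
  have g2 := hD.hi p hp
  have g3 := hD.dpos
  rcases le_abs.1 hl with h5 | h5
  · rw [abs_of_pos (by linarith)]
    linarith
  · rw [abs_of_neg (by linarith)]
    linarith

theorem hA_in (hD : GD r w h d t S) {l : ℝ} (hl : |l| < r) : |hA d t S l| < r := by
  by_cases hf : ∀ p ∈ S, d / 8 ≤ |l - p.1|
  · rw [hA_far hD hf]
    exact hl
  · push Not at hf
    obtain ⟨p, hp, hlp⟩ := hf
    have g3 := hD.dpos
    rw [hA_near hD hp (by linarith)]
    obtain ⟨h1, h2, h3, h4, -⟩ := (hD.mem p).1 hp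
    have g2 := hD.hi p hp
    have g4 := hD.small p hp
    have k1 := Gprf_nonneg hD.tpos.le ((l - p.1) / d)
    have k2 := Gprf_le hD.tpos.le ((l - p.1) / d)
    have k3 := (abs_lt.1 hlp).2
    have k4 := (abs_lt.1 hl).1
    have k5 : (p.2 - p.1) * prf t ((l - p.1) / d) ≤ (p.2 - p.1) * (1 + t / 2) :=
      mul_le_mul_of_nonneg_left k2 (by linarith)
    have k6 : 0 ≤ (p.2 - p.1) * prf t ((l - p.1) / d) := mul_nonneg (by linarith) k1
    rw [abs_lt]
    constructor
    · linarith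
    · nlinarith

/-- the heights at a double pair -/
theorem hA_sign (hD : GD r w h d t S) {x y : ℝ} (hx : x ∈ Icc (-r) r) (hy : y ∈ Icc (-r) r)
    (hxy : x < y) (e : w x = w y) :
    (h y < h x ∧ hA d t S y < hA d t S x) ∨ (h x < h y ∧ hA d t S x < hA d t S y) := by
  have g3 := hD.dpos
  have hne : h x ≠ h y := by
    intro he
    have : x = y := hD.gk.inj (Prod.ext e he)
    exact hxy.ne this
  have hyy : hA d t S y = y := by
    apply hA_far hD
    intro q hq
    obtain ⟨g1, g2, g4, g5, -⟩ := (hD.mem q).1 hq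
    have hyq : y ≠ q.1 := by
      intro he
      have := hD.uniq hy hx g2 hxy.ne' (by rw [he]; exact g4.ne) e.symm (by rw [he]; exact g5)
      rw [this, he] at hxy
      exact lt_asymm hxy g4
    have := hD.sep hq hy hx hxy.ne' e.symm hyq
    linarith
  by_cases hb : h y < h x
  · left
    refine ⟨hb, ?_⟩
    have hS : (x, y) ∈ S := (hD.mem _).2 ⟨hx, hy, hxy, e, hb⟩
    rw [hyy, hA_near hD hS (by simp [g3.le])]
    simp only [sub_self, zero_div]
    rw [Gprf_mid]
    have := hD.tpos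
    nlinarith
  · right
    have hb' : h x < h y := lt_of_le_of_ne (not_lt.1 hb) hne
    refine ⟨hb', ?_⟩
    have hxx : hA d t S x = x := by
      apply hA_far hD
      intro q hq
      obtain ⟨g1, g2, g4, g5, g6⟩ := (hD.mem q).1 hq
      have hxq : x ≠ q.1 := by
        intro he
        have h1 := hD.uniq hx hy g2 hxy.ne (by rw [he]; exact g4.ne) e (by rw [he]; exact g5)
        rw [← h1, ← he] at g6
        exact hb g6
      have := hD.sep hq hx hy hxy.ne e hxq
      linarith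
    rw [hxx, hyy]
    exact hxy

theorem GD.derivR (hD : GD r w h d t S) (x : ℝ) : deriv (fun l => (w l).re) x = (deriv w x).re := by
  have h1 := ((hD.gk.smw.differentiable (by simp)) x).hasDerivAt
  exact (Complex.reCLM.hasFDerivAt.comp_hasDerivAt x h1).deriv

theorem GD.derivI (hD : GD r w h d t S) (x : ℝ) : deriv (fun l => (w l).im) x = (deriv w x).im := by
  have h1 := ((hD.gk.smw.differentiable (by simp)) x).hasDerivAt
  exact (Complex.imCLM.hasFDerivAt.comp_hasDerivAt x h1).deriv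

theorem GD.imm (hD : GD r w h d t S) {x : ℝ} (hx : x ∈ Icc (-r) r) : deriv w x ≠ 0 := by
  have := hD.gk.gen.imm x hx
  rw [hD.derivR, hD.derivI] at this
  intro h0
  apply this
  rw [h0]
  rfl

theorem GD.trans (hD : GD r w h d t S) {x y : ℝ} (hx : x ∈ Icc (-r) r) (hy : y ∈ Icc (-r) r)
    (hxy : x ≠ y) (e : w x = w y) :
    (deriv w x).re * (deriv w y).im - (deriv w x).im * (deriv w y).re ≠ 0 := by
  have := hD.gk.gen.dbl x hx y hy hxy (GK_pair.1 e)
  rwa [hD.derivR, hD.derivR, hD.derivI, hD.derivI] at this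

/-- the interpolation of the heights -/
theorem GD.lng (hD : GD r w h d t S) {r' : ℝ} (hr' : r ≤ r') (hw : ∀ l, r' ≤ |l| → w l = 0) {s : ℝ}
    (hs : s ∈ Icc (0 : ℝ) 1) : Long r' fun l => (w l, (1 - s) * h l + s * hA d t S l) := by
  have hsm : ContDiff ℝ ∞ fun l => (1 - s) * h l + s * hA d t S l :=
    (contDiff_const.mul hD.gk.smh).add (contDiff_const.mul (hA_smooth d t S))
  have hout : ∀ l, r ≤ |l| → (1 - s) * h l + s * hA d t S l = l := by
    intro l hl
    rw [hD.gk.ends l hl, hA_out hD hl]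
    ring
  have hin : ∀ l, |l| < r → |(1 - s) * h l + s * hA d t S l| < r := by
    intro l hl
    have h1 := abs_lt.1 (hD.gk.bd l hl)
    have h2 := abs_lt.1 (hA_in hD hl)
    rw [abs_lt]
    constructor
    · rcases eq_or_lt_of_le hs.1 with h3 | h3
      · rw [← h3]
        linarith [h1.1]
      · nlinarith [h1.1, h2.1, hs.2]
    · rcases eq_or_lt_of_le hs.1 with h3 | h3
      · rw [← h3]
        linarith [h1.2]
      · nlinarith [h1.2, h2.2, hs.2]
  refine ⟨hD.gk.smw.prodMk hsm, ?_, ?_, ?_⟩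
  · intro l
    have h1 := ((hD.gk.smw.differentiable (by simp)) l).hasDerivAt
    have h2 := ((hsm.differentiable (by simp)) l).hasDerivAt
    have h3 := h1.prodMk h2
    rw [h3.deriv]
    intro h0
    have h4 := congrArg Prod.fst h0
    have h5 := congrArg Prod.snd h0
    rcases le_or_gt |l| r with hl | hl
    · exact hD.imm (abs_le.1 hl) h4
    · have h6 : (fun l => (1 - s) * h l + s * hA d t S l) =ᶠ[𝓝 l] id := by
        have h7 : ∀ᶠ y in 𝓝 l, r < |y| := (continuous_abs.tendsto l).eventually (lt_mem_nhds hl)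
        filter_upwards [h7] with y hy
        exact hout y hy.le
      have h8 := h6.deriv_eq
      rw [deriv_id] at h8
      have h9 : deriv (fun l => (1 - s) * h l + s * hA d t S l) l = 0 := h5
      rw [h8] at h9
      exact one_ne_zero h9
  · intro x y hxy
    have hxy' : (w x, (1 - s) * h x + s * hA d t S x) = (w y, (1 - s) * h y + s * hA d t S y) := hxy
    obtain ⟨e1, e2⟩ := Prod.mk.inj hxy'
    rcases le_or_gt r |x| with hx | hx
    · rcases le_or_gt r |y| with hy | hy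
      · rw [hout x hx, hout y hy] at e2
        exact e2
      · exfalso
        have := hin y hy
        rw [← e2, hout x hx] at this
        linarith
    · rcases le_or_gt r |y| with hy | hy
      · exfalso
        have := hin x hx
        rw [e2, hout y hy] at this
        linarith
      · have key : ∀ x y : ℝ, |x| < r → |y| < r → w x = w y →
            (1 - s) * h x + s * hA d t S x = (1 - s) * h y + s * hA d t S y → ¬ x < y := by
          intro x y hx hy e1 e2 hlt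
          rcases hA_sign hD (abs_le.1 hx.le) (abs_le.1 hy.le) hlt e1 with ⟨k1, k2⟩ | ⟨k1, k2⟩
          · rcases eq_or_lt_of_le hs.1 with h3 | h3
            · rw [← h3] at e2
              linarith
            · nlinarith [hs.2]
          · rcases eq_or_lt_of_le hs.1 with h3 | h3
            · rw [← h3] at e2
              linarith
            · nlinarith [hs.2]
        rcases lt_trichotomy x y with h3 | h3 | h3
        · exact absurd h3 (key x y hx hy e1 e2)
        · exact h3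
        · exact absurd h3 (key y x hy hx e1.symm e2.symm)
  · intro l hl
    show (w l, (1 - s) * h l + s * hA d t S l) = (0, l)
    rw [hw l hl, hout l (hr'.trans hl)]

/-- the long knot is equivalent to the long knot with the modified heights -/
theorem GD.iso (hD : GD r w h d t S) : ∃ F : Equiv.Perm (ℂ × ℝ), CD univ F ∧
    F '' (range fun l => (w l, h l)) = range fun l => (w l, hA d t S l) := by
  obtain ⟨r', hr', hw⟩ := hD.gk.sup
  obtain ⟨F, hF, hF'⟩ := iso_long (R := r') (k := fun s l => (w l, (1 - s) * h l + s * hA d t S l))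
    (fun s _ l => by
      have e1 : ContDiff ℝ ∞ (fun q : ℝ × ℝ => (w q.2, (1 - q.1) * h q.2 + q.1 * hA d t S q.2)) :=
        (hD.gk.smw.comp contDiff_snd).prodMk
          (((contDiff_const.sub contDiff_fst).mul (hD.gk.smh.comp contDiff_snd)).add
            (contDiff_fst.mul ((hA_smooth d t S).comp contDiff_snd)))
      exact e1.contDiffAt) (fun s hs => hD.lng hr' hw hs)
  refine ⟨F, cd_of_move hF, ?_⟩
  rw [← range_comp]
  congr 1
  funext l
  have := hF' l
  simpa using this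

end Pool.Agent.KNT
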