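import Pool.Agent.KNT.GB
import Pool.Agent.ISO.Small

/-!
# KNT/GC: the shear
-/

open scoped ContDiff Topology
open Set Filter

namespace Pool.Agent.KNT

open Pool.Agent.ISO (small_perm)

theorem exists_cut : ∃ φ : ℂ → ℝ, ContDiff ℝ ∞ φ ∧ (∀ z, 0 ≤ φ z) ∧ (∀ z, φ z ≤ 1) ∧
    (∀ z, ‖z‖ ≤ 1 → φ z = 1) ∧ (∀ z, 2 ≤ ‖z‖ → φ z = 0) ∧ ∃ C : ℝ, 0 < C ∧ ∀ z, ‖fderiv ℝ φ z‖ ≤ C := by
  let φ : ContDiffBump (0 : ℂ) := ⟨1, 2, one_pos, by norm_num⟩
  have hφ : ContDiff ℝ ∞ φ := φ.contDiff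
  refine ⟨φ, hφ, fun z => φ.nonneg, fun z => φ.le_one, fun z hz =>
    φ.one_of_mem_closedBall (by simpa using hz), fun z hz =>
    φ.zero_of_le_dist (by simpa using hz), ?_⟩
  obtain ⟨B, hB⟩ := (φ.hasCompactSupport.fderiv (𝕜 := ℝ)).exists_bound_of_continuous
      (hφ.continuous_fderiv (by simp))
  exact ⟨max B 1, lt_of_lt_of_le one_pos (le_max_right _ _), fun l => (hB l).trans (le_max_left _ _)⟩

/-- the shear -/
theorem exists_shear {w : ℝ → ℂ} (hw : ContDiff ℝ ∞ w) {r' : ℝ} (h0 : ∀ l, r' ≤ |l| → w l = 0) :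
    ∃ F : Equiv.Perm (ℂ × ℝ), CD univ F ∧ ∀ l y : ℝ, F (w l, y) = (w l - w y, y) := by
  have hwc : HasCompactSupport w := by
    refine HasCompactSupport.intro (K := Icc (-|r'|) |r'|) isCompact_Icc ?_
    intro l hl
    apply h0
    by_contra hlt
    push Not at hlt
    apply hl
    have := le_abs_self r'
    exact abs_le.1 (by linarith)
  obtain ⟨M, hM0, hM⟩ : ∃ M : ℝ, 0 < M ∧ ∀ l, ‖w l‖ ≤ M := by
    obtain ⟨B, hB⟩ := hwc.exists_bound_of_continuous hw.continuous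
    exact ⟨max B 1, lt_of_lt_of_le one_pos (le_max_right _ _), fun l => (hB l).trans (le_max_left _ _)⟩
  obtain ⟨M', hM'0, hM'⟩ : ∃ M : ℝ, 0 < M ∧ ∀ l, ‖deriv w l‖ ≤ M := by
    obtain ⟨B, hB⟩ := hwc.deriv.exists_bound_of_continuous (hw.continuous_deriv (by simp))
    exact ⟨max B 1, lt_of_lt_of_le one_pos (le_max_right _ _), fun l => (hB l).trans (le_max_left _ _)⟩
  obtain ⟨φ, hφ, hφn, hφl, hφ1, hφ2, C, hC0, hC⟩ := exists_cut
  set T : ℝ := M + 4 * C * M with hT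
  have hT0 : 0 < T := by positivity
  set ε : ℝ := 1 / (4 * M') with hε
  have hε0 : 0 < ε := by positivity
  set κ : ℝ := 1 / (ε * T) with hκ
  have hκ0 : 0 < κ := by positivity
  let G : ℂ × ℝ → ℂ × ℝ := fun q => ((-(ε * φ (κ • q.1))) • w q.2, 0)
  have hG : ContDiff ℝ ∞ G := by
    have g1 : ContDiff ℝ ∞ fun q : ℂ × ℝ => -(ε * φ (κ • q.1)) :=
      (contDiff_const.mul (hφ.comp (contDiff_fst.const_smul κ))).neg
    have g2 : ContDiff ℝ ∞ fun q : ℂ × ℝ => w q.2 := hw.comp contDiff_snd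
    exact (g1.smul g2).prodMk contDiff_const
  have hGd : ∀ q, ‖fderiv ℝ G q‖ ≤ 1 / 2 := by
    intro q
    have h1 : HasFDerivAt (fun q : ℂ × ℝ => κ • q.1) (κ • ContinuousLinearMap.fst ℝ ℂ ℝ) q :=
      (hasFDerivAt_fst (p := q)).const_smul κ
    have h2 : HasFDerivAt (fun q : ℂ × ℝ => φ (κ • q.1))
        ((fderiv ℝ φ (κ • q.1)).comp (κ • ContinuousLinearMap.fst ℝ ℂ ℝ)) q :=
      ((hφ.differentiable (by simp)) (κ • q.1)).hasFDerivAt.comp q h1
    have h3 : HasFDerivAt (fun q : ℂ × ℝ => -(ε * φ (κ • q.1)))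
        (-(ε • ((fderiv ℝ φ (κ • q.1)).comp (κ • ContinuousLinearMap.fst ℝ ℂ ℝ)))) q :=
      (h2.const_mul ε).neg
    have h4 : HasFDerivAt (fun q : ℂ × ℝ => w q.2)
        ((ContinuousLinearMap.snd ℝ ℂ ℝ).smulRight (deriv w q.2)) q := by
      have h5 := ((hw.differentiable (by simp)) q.2).hasDerivAt.hasFDerivAt.comp q
        (hasFDerivAt_snd (p := q))
      refine h5.congr_fderiv ?_
      ext u <;> simp
    have h5 := (h3.smul h4).prodMk (hasFDerivAt_const (0 : ℝ) q)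
    have h6 : fderiv ℝ G q = _ := h5.fderiv
    rw [h6]
    apply ContinuousLinearMap.opNorm_le_bound _ (by norm_num)
    rintro ⟨u, v⟩
    have e : ((-(ε * φ (κ • q.1))) • (ContinuousLinearMap.snd ℝ ℂ ℝ).smulRight (deriv w q.2) +
        (-(ε • ((fderiv ℝ φ (κ • q.1)).comp (κ • ContinuousLinearMap.fst ℝ ℂ ℝ)))).smulRight (w q.2))
        (u, v) = (-(ε * φ (κ • q.1))) • (v • deriv w q.2) -
          (ε * (κ * (fderiv ℝ φ (κ • q.1)) u)) • w q.2 := by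
      simp
      ring
    have e2 : (((-(ε * φ (κ • q.1))) • (ContinuousLinearMap.snd ℝ ℂ ℝ).smulRight (deriv w q.2) +
        (-(ε • ((fderiv ℝ φ (κ • q.1)).comp (κ • ContinuousLinearMap.fst ℝ ℂ ℝ)))).smulRight (w q.2)).prod
        (0 : ℂ × ℝ →L[ℝ] ℝ)) (u, v) = ((-(ε * φ (κ • q.1))) • (v • deriv w q.2) -
          (ε * (κ * (fderiv ℝ φ (κ • q.1)) u)) • w q.2, (0 : ℝ)) := Prod.ext e rfl
    rw [e2, Prod.norm_mk, norm_zero]
    refine max_le ?_ (by positivity)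
    have hu : ‖u‖ ≤ ‖(u, v)‖ := norm_fst_le (u, v)
    have hv : |v| ≤ ‖(u, v)‖ := by
      have := norm_snd_le (u, v)
      rwa [Real.norm_eq_abs] at this
    have n1 : ‖(-(ε * φ (κ • q.1))) • (v • deriv w q.2)‖ ≤ ε * (‖(u, v)‖ * M') := by
      rw [norm_smul, norm_smul, norm_neg, Real.norm_eq_abs, Real.norm_eq_abs, abs_mul, abs_of_pos hε0]
      have k1 : |φ (κ • q.1)| ≤ 1 := by
        rw [abs_of_nonneg (hφn _)]
        exact hφl _
      have k2 : |v| * ‖deriv w q.2‖ ≤ ‖(u, v)‖ * M' :=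
        mul_le_mul hv (hM' _) (norm_nonneg _) (norm_nonneg _)
      have k3 : 0 ≤ |v| * ‖deriv w q.2‖ := by positivity
      calc ε * |φ (κ • q.1)| * (|v| * ‖deriv w q.2‖) ≤ ε * 1 * (‖(u, v)‖ * M') := by gcongr
        _ = _ := by ring
    have n2 : ‖(ε * (κ * (fderiv ℝ φ (κ • q.1)) u)) • w q.2‖ ≤ ε * (κ * (C * ‖(u, v)‖)) * M := by
      rw [norm_smul, norm_mul, norm_mul, Real.norm_eq_abs, Real.norm_eq_abs, abs_of_pos hε0,
        abs_of_pos hκ0]
      have k1 : ‖(fderiv ℝ φ (κ • q.1)) u‖ ≤ C * ‖(u, v)‖ := by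
        refine ((fderiv ℝ φ (κ • q.1)).le_opNorm u).trans ?_
        exact mul_le_mul (hC _) hu (norm_nonneg _) hC0.le
      gcongr
      exact hM _
    have n3 : ε * (‖(u, v)‖ * M') = 1 / 4 * ‖(u, v)‖ := by
      rw [hε]
      field_simp
    have n4 : ε * (κ * (C * ‖(u, v)‖)) * M ≤ 1 / 4 * ‖(u, v)‖ := by
      have k1 : ε * κ = 1 / T := by
        rw [hκ]
        field_simp
      have k2 : ε * (κ * (C * ‖(u, v)‖)) * M = (C * M / T) * ‖(u, v)‖ := by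
        calc _ = (ε * κ) * C * M * ‖(u, v)‖ := by ring
          _ = _ := by rw [k1]; ring
      have k3 : C * M / T ≤ 1 / 4 := by
        rw [div_le_iff₀ hT0, hT]
        nlinarith
      rw [k2]
      exact mul_le_mul_of_nonneg_right k3 (norm_nonneg _)
    calc _ ≤ ‖(-(ε * φ (κ • q.1))) • (v • deriv w q.2)‖ +
          ‖(ε * (κ * (fderiv ℝ φ (κ • q.1)) u)) • w q.2‖ := norm_sub_le _ _
      _ ≤ 1 / 4 * ‖(u, v)‖ + 1 / 4 * ‖(u, v)‖ := by rw [← n3] at *; linarith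
      _ = 1 / 2 * ‖(u, v)‖ := by ring
  obtain ⟨Fε, hF1, hF2, hF3⟩ := small_perm hG hGd
  let D : Equiv.Perm (ℂ × ℝ) :=
    { toFun := fun q => (ε • q.1, q.2)
      invFun := fun q => (ε⁻¹ • q.1, q.2)
      left_inv := fun q => by
        refine Prod.ext ?_ rfl
        show ε⁻¹ • ε • q.1 = q.1
        rw [inv_smul_smul₀ hε0.ne']
      right_inv := fun q => by
        refine Prod.ext ?_ rfl
        show ε • ε⁻¹ • q.1 = q.1
        rw [smul_inv_smul₀ hε0.ne'] }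
  have hD1 : ContDiff ℝ ∞ D := (contDiff_fst.const_smul ε).prodMk contDiff_snd
  have hD2 : ContDiff ℝ ∞ D.symm := (contDiff_fst.const_smul ε⁻¹).prodMk contDiff_snd
  have hval : ∀ z y, (D.trans (Fε.trans D.symm)) (z, y) = (z - φ (T⁻¹ • z) • w y, y) := by
    intro z y
    show D.symm (Fε (ε • z, y)) = _
    rw [hF3]
    show (ε⁻¹ • (ε • z + (-(ε * φ (κ • ε • z))) • w y), y + 0) = _
    refine Prod.ext ?_ (add_zero y)
    show ε⁻¹ • (ε • z + (-(ε * φ (κ • ε • z))) • w y) = z - φ (T⁻¹ • z) • w y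
    have e1 : κ • ε • z = T⁻¹ • z := by
      rw [smul_smul]
      congr 1
      rw [hκ]
      field_simp
    rw [e1, smul_add, inv_smul_smul₀ hε0.ne', neg_smul, smul_neg, mul_smul, inv_smul_smul₀ hε0.ne']
    rfl
  refine ⟨D.trans (Fε.trans D.symm), ⟨hD2.comp (hF1.comp hD1), hD2.comp (hF2.comp hD1), ?_⟩, ?_⟩
  · refine ⟨Metric.closedBall (0 : ℂ) (2 * T) ×ˢ Icc (-|r'|) |r'|,
      (isCompact_closedBall _ _).prod isCompact_Icc, subset_univ _, ?_⟩
    rintro ⟨z, y⟩ hx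
    rw [hval]
    refine Prod.ext ?_ rfl
    show z - φ (T⁻¹ • z) • w y = z
    by_cases hz : ‖z‖ ≤ 2 * T
    · have hy : r' ≤ |y| := by
        by_contra hlt
        push Not at hlt
        apply hx
        refine ⟨by simpa using hz, ?_⟩
        have := le_abs_self r'
        exact abs_le.1 (by linarith)
      rw [h0 y hy, smul_zero, sub_zero]
    · rw [hφ2, zero_smul, sub_zero]
      rw [norm_smul, Real.norm_eq_abs, abs_of_pos (inv_pos.2 hT0), inv_mul_eq_div, le_div_iff₀ hT0]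
      exact (not_le.1 hz).le
  · intro l y
    rw [hval, hφ1, one_smul]
    rw [norm_smul, Real.norm_eq_abs, abs_of_pos (inv_pos.2 hT0), inv_mul_eq_div, div_le_one hT0]
    refine (hM l).trans ?_
    rw [hT]
    have : 0 ≤ 4 * C * M := by positivity
    linarith

end Pool.Agent.KNT
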